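import Mathlib

/-!
# A checker for local reductions of strict colourings

A strict colouring of a graph is a map `c` to `ZMod 3` together with a map `τ` to a linear order
such that every edge `u v` satisfies `c v = c u + 1` and `τ u < τ v`, or the same with `u` and `v`
exchanged.  A reducer is a finite configuration: labels `0, …, t - 1`, interior vertices
`t, …, t + m - 1`, a list `ed` of edges, each with an interior end, a list `nw` of new edges
between labels, and a list `ne` of bit masks, the pairs of labels that are supposed to have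
different values of `τ`.  The checker proves that every strict state of the labels for the new
edges extends to the interior vertices.
-/

namespace Pool.Agent.T1Red

/-- The strict relation of an edge. -/
def Str {V L : Type*} [LT L] (c : V → ZMod 3) (τ : V → L) (u v : V) : Prop :=
  (c v = c u + 1 ∧ τ u < τ v) ∨ (c u = c v + 1 ∧ τ v < τ u)

theorem Str.symm {V L : Type*} [LT L] {c : V → ZMod 3} {τ : V → L} {u v : V}
    (h : Str c τ u v) : Str c τ v u := by
  rcases h with h | h
  · exact Or.inr h
  · exact Or.inl h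

/-! ## Transitively closed relations -/

/-- The `i`-th row. -/
def row : List Nat → Nat → Nat
  | [], _ => 0
  | r :: _, 0 => r
  | _ :: M, i + 1 => row M i

/-- The test of a bit. -/
def bit (r i : Nat) : Bool := Nat.beq (Nat.mod (Nat.shiftRight r i) 2) 1

theorem beq_decide (a b : Nat) : Nat.beq a b = decide (a = b) := by
  by_cases h : a = b
  · rw [h, Nat.beq_refl, decide_eq_true rfl]
  · rw [decide_eq_false h]
    by_contra hcon
    rw [Bool.not_eq_false] at hcon
    exact h (Nat.eq_of_beq_eq_true hcon)

theorem bit_eq (r i : Nat) : bit r i = r.testBit i := by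
  unfold bit
  rw [Nat.testBit_eq_decide_div_mod_eq, beq_decide]
  show decide ((r >>> i) % 2 = 1) = _
  rw [Nat.shiftRight_eq_div_pow]

/-- The state: the rows of `≤` and of `<`. -/
structure H where
  le : List Nat
  lt : List Nat

/-- All facts of the state are true. -/
def H.Ok {L : Type*} [LE L] [LT L] (h : H) (τ : Nat → L) : Prop :=
  (∀ i j, bit (row h.le i) j = true → τ i ≤ τ j) ∧ (∀ i j, bit (row h.lt i) j = true → τ i < τ j)

/-- The rows of `≤` after adding `a ≤ b` or `a < b`. -/
def upLe (a rb : Nat) : List Nat → List Nat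
  | [] => []
  | r :: M => (cond (bit r a) (r ||| rb) r) :: upLe a rb M

/-- The rows of `<` after adding `a ≤ b`. -/
def upLt (a rb sb : Nat) : List Nat → List Nat → List Nat
  | r :: M, s :: N =>
      (cond (bit r a) (cond (bit s a) (s ||| rb) (s ||| sb)) s) :: upLt a rb sb M N
  | _, _ => []

/-- Add `a ≤ b`. -/
def H.addLe (h : H) (a b : Nat) : H :=
  ⟨upLe a (row h.le b) h.le, upLt a (row h.le b) (row h.lt b) h.le h.lt⟩

/-- Add `a < b`. -/
def H.addLt (h : H) (a b : Nat) : H :=
  ⟨upLe a (row h.le b) h.le, upLt a (row h.le b) (row h.le b) h.le h.lt⟩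

theorem row_upLe (a rb : Nat) (M : List Nat) (i : Nat) :
    row (upLe a rb M) i = row M i ∨ (bit (row M i) a = true ∧ row (upLe a rb M) i = row M i ||| rb) := by
  induction M generalizing i with
  | nil => exact Or.inl rfl
  | cons r M ih =>
    cases i with
    | zero =>
      show (cond (bit r a) (r ||| rb) r) = r ∨
        (bit r a = true ∧ (cond (bit r a) (r ||| rb) r) = r ||| rb)
      cases hb : bit r a
      · exact Or.inl rfl
      · exact Or.inr ⟨rfl, rfl⟩
    | succ i => exact ih i

theorem row_upLt (a rb sb : Nat) (M N : List Nat) (i : Nat) :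
    (∀ j, bit (row (upLt a rb sb M N) i) j = true → bit (row N i) j = true ∨
      (bit (row M i) a = true ∧ bit sb j = true) ∨
      (bit (row N i) a = true ∧ bit rb j = true)) := by
  induction M generalizing N i with
  | nil =>
    intro j hj
    simp [upLt, row, bit] at hj
  | cons r M ih =>
    cases N with
    | nil =>
      intro j hj
      simp [upLt, row, bit] at hj
    | cons s N =>
      cases i with
      | zero =>
        intro j hj
        have hj' : bit (cond (bit r a) (cond (bit s a) (s ||| rb) (s ||| sb)) s) j = true := hj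
        show bit s j = true ∨ (bit r a = true ∧ bit sb j = true) ∨
          (bit s a = true ∧ bit rb j = true)
        cases hr : bit r a
        · rw [hr] at hj'
          exact Or.inl hj'
        · rw [hr] at hj'
          cases hs : bit s a
          · rw [hs] at hj'
            simp only [cond_true, cond_false, bit_eq, Nat.testBit_or, Bool.or_eq_true] at hj'
            rcases hj' with h | h
            · exact Or.inl (by rw [bit_eq]; exact h)
            · exact Or.inr (Or.inl ⟨rfl, by rw [bit_eq]; exact h⟩)
          · rw [hs] at hj'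
            simp only [cond_true, bit_eq, Nat.testBit_or, Bool.or_eq_true] at hj'
            rcases hj' with h | h
            · exact Or.inl (by rw [bit_eq]; exact h)
            · exact Or.inr (Or.inr ⟨rfl, by rw [bit_eq]; exact h⟩)
      | succ i => exact ih N i

theorem H.Ok.addLe {L : Type*} [LinearOrder L] {h : H} {τ : Nat → L} (hO : h.Ok τ) {a b : Nat}
    (hab : τ a ≤ τ b) : (h.addLe a b).Ok τ := by
  refine ⟨fun i j hj => ?_, fun i j hj => ?_⟩
  · rcases row_upLe a (row h.le b) h.le i with h1 | ⟨h1, h2⟩
    · exact hO.1 i j (by rw [← h1]; exact hj)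
    · have hj' : bit (row (upLe a (row h.le b) h.le) i) j = true := hj
      rw [h2, bit_eq, Nat.testBit_or, Bool.or_eq_true] at hj'
      rcases hj' with h3 | h3
      · exact hO.1 i j (by rw [bit_eq]; exact h3)
      · exact (hO.1 i a h1).trans (hab.trans (hO.1 b j (by rw [bit_eq]; exact h3)))
  · rcases row_upLt a (row h.le b) (row h.lt b) h.le h.lt i j hj with h1 | ⟨h1, h2⟩ | ⟨h1, h2⟩
    · exact hO.2 i j h1
    · exact (hO.1 i a h1).trans_lt (hab.trans_lt (hO.2 b j h2))
    · exact (hO.2 i a h1).trans_le (hab.trans (hO.1 b j h2))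

theorem H.Ok.addLt {L : Type*} [LinearOrder L] {h : H} {τ : Nat → L} (hO : h.Ok τ) {a b : Nat}
    (hab : τ a < τ b) : (h.addLt a b).Ok τ := by
  refine ⟨fun i j hj => ?_, fun i j hj => ?_⟩
  · rcases row_upLe a (row h.le b) h.le i with h1 | ⟨h1, h2⟩
    · exact hO.1 i j (by rw [← h1]; exact hj)
    · have hj' : bit (row (upLe a (row h.le b) h.le) i) j = true := hj
      rw [h2, bit_eq, Nat.testBit_or, Bool.or_eq_true] at hj'
      rcases hj' with h3 | h3
      · exact hO.1 i j (by rw [bit_eq]; exact h3)
      · exact (hO.1 i a h1).trans (hab.le.trans (hO.1 b j (by rw [bit_eq]; exact h3)))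
  · rcases row_upLt a (row h.le b) (row h.le b) h.le h.lt i j hj with h1 | ⟨h1, h2⟩ | ⟨h1, h2⟩
    · exact hO.2 i j h1
    · exact (hO.1 i a h1).trans_lt (hab.trans_le (hO.1 b j h2))
    · exact (hO.2 i a h1).trans (hab.trans_le (hO.1 b j h2))

/-- The identity rows. -/
def idRows (s : Nat) : Nat → List Nat
  | 0 => []
  | n + 1 => (1 <<< s) :: idRows (s + 1) n

/-- The zero rows. -/
def zRows : Nat → List Nat
  | 0 => []
  | n + 1 => 0 :: zRows n

theorem row_idRows (s n i j : Nat) (h : bit (row (idRows s n) i) j = true) : j = s + i := by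
  induction n generalizing s i with
  | zero => simp [idRows, row, bit] at h
  | succ n ih =>
    cases i with
    | zero =>
      have h' : bit (1 <<< s) j = true := h
      rw [bit_eq, Nat.one_shiftLeft, Nat.testBit_two_pow] at h'
      simpa using (of_decide_eq_true h').symm
    | succ i =>
      have := ih (s + 1) i h
      omega

theorem row_zRows (n i j : Nat) (h : bit (row (zRows n) i) j = true) : False := by
  induction n generalizing i with
  | zero => simp [zRows, row, bit] at h
  | succ n ih =>
    cases i with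
    | zero => simp [zRows, row, bit] at h
    | succ i => exact ih i h

/-- The initial state. -/
def H.init (t : Nat) : H := ⟨idRows 0 t, zRows t⟩

theorem H.init_ok {L : Type*} [LinearOrder L] (t : Nat) (τ : Nat → L) : (H.init t).Ok τ := by
  refine ⟨fun i j hj => ?_, fun i j hj => ?_⟩
  · have := row_idRows 0 t i j hj
    rw [this, zero_add]
  · exact (row_zRows t i j hj).elim

/-! ## The search -/

/-- The pairs of labels with different values of `τ`. -/
def Diff {L : Type*} (ne : List Nat) (τ : Nat → L) : Prop :=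
  ∀ i j, bit (row ne i) j = true → τ i ≠ τ j

/-- One alternative. -/
def inner (ne : List Nat) : List (Nat × Nat) → H → (H → Bool) → Bool
  | [], _, _ => true
  | (i, j) :: cs, h, k =>
    cond (bit (row h.lt i) j) (inner ne cs h k)
      (cond (bit (row h.le j) i) (k h)
        (k (cond (bit (row ne i) j) (h.addLt j i) (h.addLe j i)) &&
          inner ne cs (h.addLt i j) k))

/-- All alternatives. -/
def go (ne : List Nat) : List (List (Nat × Nat)) → H → Bool
  | [], _ => false
  | alt :: rest, h => inner ne alt h (go ne rest)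

theorem inner_sound {L : Type*} [LinearOrder L] {ne : List Nat} {τ : Nat → L} (hne : Diff ne τ)
    {P : Prop} {k : H → Bool} (hk : ∀ h : H, h.Ok τ → k h = true → P) :
    ∀ (cs : List (Nat × Nat)) (h : H), h.Ok τ → inner ne cs h k = true →
      (∀ e ∈ cs, τ e.1 < τ e.2) ∨ P := by
  intro cs
  induction cs with
  | nil => exact fun h _ _ => Or.inl (by simp)
  | cons e cs ih =>
    obtain ⟨i, j⟩ := e
    intro h hO hin
    have hin' : (cond (bit (row h.lt i) j) (inner ne cs h k)
      (cond (bit (row h.le j) i) (k h)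
        (k (cond (bit (row ne i) j) (h.addLt j i) (h.addLe j i)) &&
          inner ne cs (h.addLt i j) k))) = true := hin
    cases h1 : bit (row h.lt i) j
    · rw [h1, cond_false] at hin'
      cases h2 : bit (row h.le j) i
      · rw [h2, cond_false, Bool.and_eq_true] at hin'
        rcases lt_or_ge (τ i) (τ j) with h3 | h3
        · rcases ih _ (hO.addLt h3) hin'.2 with h4 | h4
          · refine Or.inl fun e he => ?_
            rcases List.mem_cons.1 he with rfl | he
            · exact h3
            · exact h4 e he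
          · exact Or.inr h4
        · refine Or.inr ?_
          cases h5 : bit (row ne i) j
          · rw [h5, cond_false] at hin'
            exact hk _ (hO.addLe h3) hin'.1
          · rw [h5, cond_true] at hin'
            exact hk _ (hO.addLt (lt_of_le_of_ne h3 (hne i j h5).symm)) hin'.1
      · rw [h2, cond_true] at hin'
        exact Or.inr (hk _ hO hin')
    · rw [h1, cond_true] at hin'
      rcases ih _ hO hin' with h4 | h4
      · refine Or.inl fun e he => ?_
        rcases List.mem_cons.1 he with rfl | he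
        · exact hO.2 _ _ h1
        · exact h4 e he
      · exact Or.inr h4

theorem go_sound {L : Type*} [LinearOrder L] {ne : List Nat} {τ : Nat → L} (hne : Diff ne τ) :
    ∀ (alts : List (List (Nat × Nat))) (h : H), h.Ok τ → go ne alts h = true →
      ∃ alt ∈ alts, ∀ e ∈ alt, τ e.1 < τ e.2 := by
  intro alts
  induction alts with
  | nil => exact fun h _ hg => by simp [go] at hg
  | cons alt rest ih =>
    intro h hO hg
    rcases inner_sound hne (P := ∃ alt ∈ rest, ∀ e ∈ alt, τ e.1 < τ e.2) ih alt h hO hg
      with h1 | h1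
    · exact ⟨alt, List.mem_cons_self, h1⟩
    · obtain ⟨a, ha, h2⟩ := h1
      exact ⟨a, List.mem_cons_of_mem _ ha, h2⟩

/-- Add strict facts. -/
def assume : List (Nat × Nat) → H → (H → Bool) → Bool
  | [], h, k => k h
  | (i, j) :: cs, h, k => cond (bit (row h.le j) i) true (assume cs (h.addLt i j) k)

theorem assume_sound {L : Type*} [LinearOrder L] {τ : Nat → L} {P : Prop} {k : H → Bool}
    (hk : ∀ h : H, h.Ok τ → k h = true → P) :
    ∀ (cs : List (Nat × Nat)) (h : H), h.Ok τ → (∀ e ∈ cs, τ e.1 < τ e.2) →
      assume cs h k = true → P := by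
  intro cs
  induction cs with
  | nil => exact fun h hO _ hin => hk h hO hin
  | cons e cs ih =>
    obtain ⟨i, j⟩ := e
    intro h hO hcs hin
    have hin' : (cond (bit (row h.le j) i) true (assume cs (h.addLt i j) k)) = true := hin
    have hij : τ i < τ j := hcs (i, j) List.mem_cons_self
    cases h2 : bit (row h.le j) i
    · rw [h2, cond_false] at hin'
      exact ih _ (hO.addLt hij) (fun e he => hcs e (List.mem_cons_of_mem _ he)) hin'
    · exact ((hO.1 j i h2).not_gt hij).elim

/-! ## Elimination of the interior vertices -/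

/-- The pairs of `ins × outs`. -/
def prods (ins outs : List (Nat × Nat)) : List (Nat × Nat) :=
  ins.flatMap fun a => outs.map fun b => (a.1, b.2)

/-- The arcs without `v`. -/
def away (v : Nat) (arcs : List (Nat × Nat)) : List (Nat × Nat) :=
  arcs.filter fun a => !(Nat.beq a.1 v) && !(Nat.beq a.2 v)

/-- Eliminate the vertex `v`. -/
def elim (v : Nat) (arcs : List (Nat × Nat)) : List (Nat × Nat) :=
  away v arcs ++ prods (arcs.filter fun a => Nat.beq a.2 v) (arcs.filter fun a => Nat.beq a.1 v)

theorem elim_sound {L : Type*} [LinearOrder L] [DenselyOrdered L] [NoMinOrder L] [NoMaxOrder L]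
    [Nonempty L] {σ : Nat → L} {v : Nat} {arcs : List (Nat × Nat)}
    (hv : (v, v) ∉ arcs) (h : ∀ e ∈ elim v arcs, σ e.1 < σ e.2) :
    ∃ x, ∀ e ∈ arcs, Function.update σ v x e.1 < Function.update σ v x e.2 := by
  classical
  obtain ⟨x, hx1, hx2⟩ := Order.exists_between_finsets
    (((arcs.filter fun a => Nat.beq a.2 v).map fun a => σ a.1).toFinset)
    (((arcs.filter fun a => Nat.beq a.1 v).map fun a => σ a.2).toFinset) (by
      intro a ha b hb
      rw [List.mem_toFinset, List.mem_map] at ha hb
      obtain ⟨e, he, rfl⟩ := ha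
      obtain ⟨f, hf, rfl⟩ := hb
      refine h (e.1, f.2) ?_
      unfold elim prods
      rw [List.mem_append]
      right
      rw [List.mem_flatMap]
      exact ⟨e, he, List.mem_map.2 ⟨f, hf, rfl⟩⟩)
  refine ⟨x, fun e he => ?_⟩
  by_cases h1 : e.1 = v
  · by_cases h2 : e.2 = v
    · have h3 : e = (v, v) := Prod.ext h1 h2
      exact (hv (h3 ▸ he)).elim
    · rw [h1, Function.update_self, Function.update_of_ne h2]
      refine hx2 _ ?_
      rw [List.mem_toFinset, List.mem_map]
      exact ⟨e, by simpa [h1] using he, rfl⟩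
  · by_cases h2 : e.2 = v
    · rw [h2, Function.update_self, Function.update_of_ne h1]
      refine hx1 _ ?_
      rw [List.mem_toFinset, List.mem_map]
      exact ⟨e, by simpa [h2] using he, rfl⟩
    · rw [Function.update_of_ne h1, Function.update_of_ne h2]
      refine h e ?_
      unfold elim away
      rw [List.mem_append]
      left
      rw [List.mem_filter]
      exact ⟨he, by rw [beq_decide, beq_decide, decide_eq_false h1, decide_eq_false h2]; rfl⟩

/-- Eliminate the vertices `t, …, t + m - 1`, the last one first. -/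
def elims (t : Nat) : Nat → List (Nat × Nat) → Option (List (Nat × Nat))
  | 0, arcs => some arcs
  | m + 1, arcs => cond (arcs.any fun a => Nat.beq a.1 (Nat.add t m) && Nat.beq a.2 (Nat.add t m))
      none (elims t m (elim (Nat.add t m) arcs))

theorem elims_sound {L : Type*} [LinearOrder L] [DenselyOrdered L] [NoMinOrder L] [NoMaxOrder L]
    [Nonempty L] (t : Nat) : ∀ (m : Nat) (arcs out : List (Nat × Nat)),
      elims t m arcs = some out → ∀ σ : Nat → L, (∀ e ∈ out, σ e.1 < σ e.2) →
      ∃ σ' : Nat → L, (∀ i, i < t ∨ t + m ≤ i → σ' i = σ i) ∧ ∀ e ∈ arcs, σ' e.1 < σ' e.2 := by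
  intro m
  induction m with
  | zero =>
    intro arcs out h σ hσ
    have : arcs = out := by simpa [elims] using h
    exact ⟨σ, fun _ _ => rfl, by rw [this]; exact hσ⟩
  | succ m ih =>
    intro arcs out h σ hσ
    unfold elims at h
    cases h1 : (arcs.any fun a => Nat.beq a.1 (Nat.add t m) && Nat.beq a.2 (Nat.add t m))
    · rw [h1, cond_false] at h
      obtain ⟨σ', h2, h3⟩ := ih _ _ h σ hσ
      obtain ⟨x, hx⟩ := elim_sound (v := t + m) (arcs := arcs) (by
        intro hmem
        rw [List.any_eq_false] at h1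
        refine h1 _ hmem ?_
        show (Nat.beq (t + m) (t + m) && Nat.beq (t + m) (t + m)) = true
        rw [Nat.beq_refl]
        rfl) h3
      refine ⟨_, fun i hi => ?_, hx⟩
      rw [Function.update_of_ne (by omega)]
      exact h2 i (by omega)
    · rw [h1, cond_true] at h
      exact absurd h (by simp)

/-! ## Colours -/

/-- The `v`-th digit of a code. -/
def dig (p v : Nat) : Nat := Nat.mod (Nat.shiftRight p (Nat.add v v)) 4

/-- The colour of the vertex `v`: `p` codes the labels and `r` the interior vertices. -/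
def colr (t p r v : Nat) : Nat := cond (Nat.blt v t) (dig p v) (dig r (Nat.sub v t))

/-- The arcs of the edges, if the colouring is proper. -/
def arcsOf (f : Nat → Nat) : List (Nat × Nat) → Option (List (Nat × Nat))
  | [] => some []
  | (a, b) :: l =>
    cond (Nat.beq (Nat.mod (Nat.add (f a) 1) 3) (Nat.mod (f b) 3)) ((arcsOf f l).map ((a, b) :: ·))
      (cond (Nat.beq (Nat.mod (Nat.add (f b) 1) 3) (Nat.mod (f a) 3))
        ((arcsOf f l).map ((b, a) :: ·)) none)

theorem cast_of_mod {a b : Nat} (h : Nat.beq (Nat.mod (Nat.add a 1) 3) (Nat.mod b 3) = true) :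
    ((b : Nat) : ZMod 3) = ((a : Nat) : ZMod 3) + 1 := by
  have h1 : (a + 1) % 3 = b % 3 := Nat.eq_of_beq_eq_true h
  have h2 : ((a + 1 : Nat) : ZMod 3) = ((b : Nat) : ZMod 3) :=
    (ZMod.natCast_eq_natCast_iff' _ _ 3).2 h1
  rw [← h2]
  push_cast
  rfl

theorem mod_of_cast {a b : Nat} (h : ((b : Nat) : ZMod 3) = ((a : Nat) : ZMod 3) + 1) :
    Nat.beq (Nat.mod (Nat.add a 1) 3) (Nat.mod b 3) = true := by
  have h2 : ((a + 1 : Nat) : ZMod 3) = ((b : Nat) : ZMod 3) := by
    push_cast
    exact h.symm
  have : (a + 1) % 3 = b % 3 := (ZMod.natCast_eq_natCast_iff' _ _ 3).1 h2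
  show Nat.beq ((a + 1) % 3) (b % 3) = true
  rw [this, Nat.beq_refl]

/-- If all arcs are increasing then all edges are strict. -/
theorem arcsOf_sound {L : Type*} [LinearOrder L] (f : Nat → Nat) (τ : Nat → L) :
    ∀ (l out : List (Nat × Nat)), arcsOf f l = some out → (∀ e ∈ out, τ e.1 < τ e.2) →
      ∀ e ∈ l, Str (fun v => ((f v : Nat) : ZMod 3)) τ e.1 e.2 := by
  intro l
  induction l with
  | nil => exact fun out _ _ e he => by simp at he
  | cons e l ih =>
    obtain ⟨a, b⟩ := e
    intro out h hout
    unfold arcsOf at h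
    cases h1 : Nat.beq (Nat.mod (Nat.add (f a) 1) 3) (Nat.mod (f b) 3)
    · rw [h1, cond_false] at h
      cases h2 : Nat.beq (Nat.mod (Nat.add (f b) 1) 3) (Nat.mod (f a) 3)
      · rw [h2, cond_false] at h
        exact absurd h (by simp)
      · rw [h2, cond_true, Option.map_eq_some_iff] at h
        obtain ⟨out', h3, rfl⟩ := h
        intro e he
        rcases List.mem_cons.1 he with rfl | he
        · exact Or.inr ⟨cast_of_mod h2, hout (b, a) List.mem_cons_self⟩
        · exact ih out' h3 (fun e he => hout e (List.mem_cons_of_mem _ he)) e he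
    · rw [h1, cond_true, Option.map_eq_some_iff] at h
      obtain ⟨out', h3, rfl⟩ := h
      intro e he
      rcases List.mem_cons.1 he with rfl | he
      · exact Or.inl ⟨cast_of_mod h1, hout (a, b) List.mem_cons_self⟩
      · exact ih out' h3 (fun e he => hout e (List.mem_cons_of_mem _ he)) e he

/-- If all edges are strict then the arcs exist and are increasing. -/
theorem arcsOf_complete {L : Type*} [LinearOrder L] (f : Nat → Nat) (τ : Nat → L) :
    ∀ (l : List (Nat × Nat)), (∀ e ∈ l, Str (fun v => ((f v : Nat) : ZMod 3)) τ e.1 e.2) →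
      ∃ out, arcsOf f l = some out ∧ ∀ e ∈ out, τ e.1 < τ e.2 := by
  intro l
  induction l with
  | nil => exact fun _ => ⟨[], rfl, by simp⟩
  | cons e l ih =>
    obtain ⟨a, b⟩ := e
    intro h
    obtain ⟨out, h1, h2⟩ := ih fun e he => h e (List.mem_cons_of_mem _ he)
    unfold arcsOf
    have key : ∀ a b : ZMod 3, b = a + 1 → a = b + 1 → False := by decide
    rcases h (a, b) List.mem_cons_self with ⟨h3, h4⟩ | ⟨h3, h4⟩
    · rw [mod_of_cast h3, cond_true, h1]
      refine ⟨_, rfl, fun e he => ?_⟩
      rcases List.mem_cons.1 he with rfl | he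
      · exact h4
      · exact h2 e he
    · have h5 : Nat.beq (Nat.mod (Nat.add (f a) 1) 3) (Nat.mod (f b) 3) = false := by
        by_contra hcon
        rw [Bool.not_eq_false] at hcon
        exact key _ _ (cast_of_mod hcon) h3
      rw [h5, cond_false, mod_of_cast h3, cond_true, h1]
      refine ⟨_, rfl, fun e he => ?_⟩
      rcases List.mem_cons.1 he with rfl | he
      · exact h4
      · exact h2 e he

/-! ## The checker -/

/-- A reducer. -/
structure Red where
  /-- the number of labels -/
  t : Nat
  /-- the number of interior vertices -/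
  m : Nat
  /-- the edges -/
  ed : List (Nat × Nat)
  /-- the new edges -/
  nw : List (Nat × Nat)
  /-- the bit masks of the pairs of labels with different values -/
  ne : List Nat

/-- The alternatives given by the codes of interior colourings. -/
def altsOf (R : Red) (p : Nat) : List Nat → List (List (Nat × Nat))
  | [] => []
  | r :: rs =>
    match arcsOf (colr R.t p r) R.ed with
    | none => altsOf R p rs
    | some arcs =>
      match elims R.t R.m arcs with
      | none => altsOf R p rs
      | some out => out :: altsOf R p rs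

/-- The check of one colour pattern `p` of the labels. -/
def checkP (R : Red) (p : Nat) (rs : List Nat) : Bool :=
  match arcsOf (dig p) R.nw with
  | none => true
  | some hyps => assume hyps (H.init R.t) (go R.ne (altsOf R p rs))

/-- The first digit of `p` is different from the digits of the new neighbours of the label `s`. -/
def okP (nw : List (Nat × Nat)) (s p : Nat) : Bool :=
  nw.all fun e => cond (Nat.beq e.1 s && Nat.blt s e.2)
    (!(Nat.beq (dig p 0) (dig p (Nat.sub e.2 s))))
    (cond (Nat.beq e.2 s && Nat.blt s e.1) (!(Nat.beq (dig p 0) (dig p (Nat.sub e.1 s)))) true)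

/-- The colour patterns of the labels `s, …, s + n - 1`, proper for the new edges. -/
def pats (nw : List (Nat × Nat)) : Nat → Nat → List Nat
  | _, 0 => [0]
  | s, n + 1 => ((pats nw (s + 1) n).flatMap fun q => [4 * q, 4 * q + 1, 4 * q + 2]).filter
      (okP nw s)

/-- The check of a list of patterns. -/
def checkL (R : Red) : List Nat → List (List Nat) → Bool
  | [], _ => true
  | _ :: _, [] => false
  | p :: ps, rs :: rss => checkP R p rs && checkL R ps rss

/-- The check: the colour of the first label is `0`. -/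
def check (R : Red) (cert : List (List Nat)) : Bool :=
  checkL R (((pats R.nw 1 (R.t - 1)).map (4 * ·)).filter (okP R.nw 0)) cert &&
    (R.nw.all fun e => Nat.blt e.1 R.t && Nat.blt e.2 R.t) && Nat.blt 0 R.t &&
    (R.ed.all fun e => Nat.blt e.1 (R.t + R.m) && Nat.blt e.2 (R.t + R.m))

theorem dig_zero (p d : Nat) (hd : d < 4) : dig (4 * p + d) 0 = d := by
  show ((4 * p + d) >>> 0) % 4 = d
  rw [Nat.shiftRight_zero]
  omega

theorem dig_succ (p d v : Nat) (hd : d < 4) : dig (4 * p + d) (v + 1) = dig p v := by
  show ((4 * p + d) >>> (v + 1 + (v + 1))) % 4 = (p >>> (v + v)) % 4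
  rw [Nat.shiftRight_eq_div_pow, Nat.shiftRight_eq_div_pow]
  congr 1
  rw [show v + 1 + (v + 1) = 2 + (v + v) by ring, pow_add, ← Nat.div_div_eq_div_mul]
  congr 1
  omega

theorem okP_of {nw : List (Nat × Nat)} {s n p : Nat} {c : Nat → ZMod 3}
    (hn : ∀ e ∈ nw, e.1 < s + n ∧ e.2 < s + n) (hc : ∀ e ∈ nw, c e.1 ≠ c e.2)
    (hp : ∀ i, i < n → ((dig p i : Nat) : ZMod 3) = c (s + i)) (h0 : 0 < n) :
    okP nw s p = true := by
  unfold okP
  rw [List.all_eq_true]
  intro e he
  have h1 := hn e he
  have key : ∀ j, s < j → j < s + n → c s ≠ c j →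
      (!(Nat.beq (dig p 0) (dig p (Nat.sub j s)))) = true := by
    intro j hj hj' hne
    rw [Bool.not_eq_true']
    by_contra hcon
    rw [Bool.not_eq_false] at hcon
    have h2 := Nat.eq_of_beq_eq_true hcon
    refine hne ?_
    have h3 := hp 0 h0
    have h4 := hp (j - s) (by omega)
    rw [show s + 0 = s by rfl] at h3
    rw [show s + (j - s) = j by omega] at h4
    rw [← h3, ← h4]
    exact congrArg _ h2
  cases h2 : (Nat.beq e.1 s && Nat.blt s e.2)
  · rw [cond_false]
    cases h3 : (Nat.beq e.2 s && Nat.blt s e.1)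
    · rfl
    · rw [cond_true]
      rw [Bool.and_eq_true] at h3
      have h4 := Nat.eq_of_beq_eq_true h3.1
      have h5 : s < e.1 := by simpa using h3.2
      exact key e.1 h5 h1.1 (h4 ▸ (hc e he).symm)
  · rw [cond_true]
    rw [Bool.and_eq_true] at h2
    have h4 := Nat.eq_of_beq_eq_true h2.1
    have h5 : s < e.2 := by simpa using h2.2
    exact key e.2 h5 h1.2 (h4 ▸ hc e he)

theorem pats_spec {nw : List (Nat × Nat)} {t : Nat} {c : Nat → ZMod 3}
    (hn : ∀ e ∈ nw, e.1 < t ∧ e.2 < t) (hc : ∀ e ∈ nw, c e.1 ≠ c e.2) : ∀ (n s : Nat),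
    s + n = t → ∃ p ∈ pats nw s n, ∀ i, i < n → ((dig p i : Nat) : ZMod 3) = c (s + i) := by
  intro n
  induction n with
  | zero => exact fun s _ => ⟨0, by simp [pats], fun i hi => by omega⟩
  | succ n ih =>
    intro s hs
    obtain ⟨q, hq, h⟩ := ih (s + 1) (by omega)
    have hlt := ZMod.val_lt (c s)
    have hall : ∀ i, i < n + 1 → ((dig (4 * q + (c s).val) i : Nat) : ZMod 3) = c (s + i) := by
      intro i hi
      cases i with
      | zero =>
        rw [dig_zero _ _ (by omega)]
        exact ZMod.natCast_zmod_val _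
      | succ i =>
        rw [dig_succ _ _ _ (by omega), h i (by omega)]
        congr 1
        omega
    refine ⟨4 * q + (c s).val, ?_, hall⟩
    unfold pats
    rw [List.mem_filter, List.mem_flatMap]
    refine ⟨⟨q, hq, ?_⟩, okP_of (n := n + 1) (fun e he => by rw [hs]; exact hn e he) hc hall
      (Nat.succ_pos n)⟩
    interval_cases (c s).val <;> simp

theorem checkL_spec (R : Red) : ∀ (ps : List Nat) (cert : List (List Nat)),
    checkL R ps cert = true → ∀ p ∈ ps, ∃ rs, checkP R p rs = true := by
  intro ps
  induction ps with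
  | nil => exact fun cert _ p hp => by simp at hp
  | cons p ps ih =>
    intro cert h q hq
    cases cert with
    | nil => simp [checkL] at h
    | cons rs rss =>
      unfold checkL at h
      rw [Bool.and_eq_true] at h
      rcases List.mem_cons.1 hq with rfl | hq
      · exact ⟨rs, h.1⟩
      · exact ih rss h.2 q hq

theorem altsOf_spec {L : Type*} [LinearOrder L] [DenselyOrdered L] [NoMinOrder L] [NoMaxOrder L]
    [Nonempty L] (R : Red) (p : Nat) (τ : Nat → L) : ∀ (rs : List Nat) (alt : List (Nat × Nat)),
      alt ∈ altsOf R p rs → (∀ e ∈ alt, τ e.1 < τ e.2) →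
      ∃ (r : Nat) (τ' : Nat → L), (∀ i, i < R.t → τ' i = τ i) ∧
        ∀ e ∈ R.ed, Str (fun v => ((colr R.t p r v : Nat) : ZMod 3)) τ' e.1 e.2 := by
  intro rs
  induction rs with
  | nil => exact fun alt h _ => by simp [altsOf] at h
  | cons r rs ih =>
    intro alt h halt
    unfold altsOf at h
    split at h
    · exact ih alt h halt
    · rename_i arcs harcs
      split at h
      · exact ih alt h halt
      · rename_i out hout
        rcases List.mem_cons.1 h with rfl | h
        · obtain ⟨τ', h1, h2⟩ := elims_sound R.t R.m arcs alt hout τ halt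
          exact ⟨r, τ', fun i hi => h1 i (Or.inl hi), arcsOf_sound _ _ _ _ harcs h2⟩
        · exact ih alt h halt

/-- **The extension theorem for labels.** -/
theorem Red.core {L : Type*} [LinearOrder L] [DenselyOrdered L] [NoMinOrder L] [NoMaxOrder L]
    [Nonempty L] {R : Red} {cert : List (List Nat)} (h : check R cert = true)
    (c : Nat → ZMod 3) (τ : Nat → L) (hnw : ∀ e ∈ R.nw, Str c τ e.1 e.2) (hne : Diff R.ne τ) :
    ∃ (c' : Nat → ZMod 3) (τ' : Nat → L), (∀ i, i < R.t → c' i = c i ∧ τ' i = τ i) ∧
      ∀ e ∈ R.ed, Str c' τ' e.1 e.2 := by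
  unfold check at h
  rw [Bool.and_eq_true, Bool.and_eq_true, Bool.and_eq_true, List.all_eq_true] at h
  obtain ⟨⟨⟨h1, h2⟩, h3⟩, -⟩ := h
  have ht : 0 < R.t := by simpa using h3
  have hn : ∀ e ∈ R.nw, e.1 < R.t ∧ e.2 < R.t := by
    intro e he
    have h6 := h2 e he
    rw [Bool.and_eq_true] at h6
    exact ⟨by simpa using h6.1, by simpa using h6.2⟩
  have hcn : ∀ e ∈ R.nw, (fun i => c i - c 0) e.1 ≠ (fun i => c i - c 0) e.2 := by
    intro e he h6
    have h7 : c e.1 = c e.2 := sub_left_injective h6
    have key : ∀ a : ZMod 3, a = a + 1 → False := by decide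
    rcases hnw e he with ⟨h8, -⟩ | ⟨h8, -⟩
    · exact key (c e.1) (by rw [← h8, h7])
    · exact key (c e.2) (by rw [← h8, h7])
  obtain ⟨q, hq, hqc⟩ := pats_spec (c := fun i => c i - c 0) hn hcn (R.t - 1) 1 (by omega)
  have hp : ∀ i, i < R.t → ((dig (4 * q) i : Nat) : ZMod 3) = c i - c 0 := by
    intro i hi
    cases i with
    | zero =>
      rw [show 4 * q = 4 * q + 0 by rfl, dig_zero _ _ (by omega)]
      simp
    | succ i =>
      rw [show 4 * q = 4 * q + 0 by rfl, dig_succ _ _ _ (by omega), hqc i (by omega),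
        Nat.add_comm 1 i]
  obtain ⟨rs, hrs⟩ := checkL_spec R _ _ h1 (4 * q) (by
    rw [List.mem_filter]
    refine ⟨List.mem_map.2 ⟨q, hq, rfl⟩, okP_of (n := R.t) (c := fun i => c i - c 0)
      (fun e he => ?_) hcn (fun i hi => ?_) ht⟩
    · rw [Nat.zero_add]
      exact hn e he
    · rw [Nat.zero_add]
      exact hp i hi)
  have hshift : ∀ (c₁ c₂ : Nat → ZMod 3) (σ : Nat → L) (x : ZMod 3) (a b : Nat),
      c₁ a = c₂ a + x → c₁ b = c₂ b + x → Str c₂ σ a b → Str c₁ σ a b := by
    intro c₁ c₂ σ x a b ha hb hs
    rcases hs with ⟨h4, h5⟩ | ⟨h4, h5⟩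
    · exact Or.inl ⟨by rw [ha, hb, h4]; ring, h5⟩
    · exact Or.inr ⟨by rw [ha, hb, h4]; ring, h5⟩
  obtain ⟨hyps, h4, h5⟩ := arcsOf_complete (dig (4 * q)) τ R.nw (by
    intro e he
    refine hshift _ c τ (-c 0) e.1 e.2 ?_ ?_ (hnw e he)
    · rw [hp _ (hn e he).1]; ring
    · rw [hp _ (hn e he).2]; ring)
  unfold checkP at hrs
  rw [h4] at hrs
  obtain ⟨alt, halt, h6⟩ := assume_sound (τ := τ)
    (P := ∃ alt ∈ altsOf R (4 * q) rs, ∀ e ∈ alt, τ e.1 < τ e.2)
    (go_sound hne (altsOf R (4 * q) rs)) hyps (H.init R.t) (H.init_ok _ _) h5 hrs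
  obtain ⟨r, τ', h7, h8⟩ := altsOf_spec R (4 * q) τ rs alt halt h6
  refine ⟨fun v => ((colr R.t (4 * q) r v : Nat) : ZMod 3) + c 0, τ', fun i hi => ⟨?_, h7 i hi⟩,
    fun e he => hshift _ _ _ (c 0) _ _ rfl rfl (h8 e he)⟩
  show ((colr R.t (4 * q) r i : Nat) : ZMod 3) + c 0 = c i
  have h9 : colr R.t (4 * q) r i = dig (4 * q) i := by
    unfold colr
    rw [show Nat.blt i R.t = true by simpa using hi, cond_true]
  rw [h9, hp i hi]
  ring

/-- The ends of the edges are in range. -/
theorem Red.ed_lt {R : Red} {cert : List (List Nat)} (h : check R cert = true) :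
    ∀ e ∈ R.ed, e.1 < R.t + R.m ∧ e.2 < R.t + R.m := by
  unfold check at h
  rw [Bool.and_eq_true, List.all_eq_true] at h
  intro e he
  have h6 := h.2 e he
  rw [Bool.and_eq_true] at h6
  exact ⟨by simpa using h6.1, by simpa using h6.2⟩

end Pool.Agent.T1Red
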