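import Mathlib
import Pool.Agent.Work.MP_392c8e_co_t1.Reducer

/-!
# Strict colourings

A graph has a strict colouring if and only if it has a `(p, q)`-colouring with `p < 3 q`.
-/

namespace Pool.Agent.T1Red

open Finset

/-- A strict colouring. -/
def Strict {V : Type*} (G : SimpleGraph V) (c : V → ZMod 3) (τ : V → ℝ) : Prop :=
  ∀ u v, G.Adj u v → Str c τ u v

/-- The strict relation depends only on the values at the ends. -/
theorem Str.of_eq {V W L : Type*} [LT L] {c : V → ZMod 3} {τ : V → L} {c' : W → ZMod 3} {τ' : W → L}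
    {u v : V} {x y : W} (h : Str c τ u v) (h1 : c' x = c u) (h2 : τ' x = τ u) (h3 : c' y = c v)
    (h4 : τ' y = τ v) : Str c' τ' x y := by
  unfold Str at h ⊢
  rw [h1, h2, h3, h4]
  exact h

/-- The graph has a strict colouring. -/
def HasStrict {V : Type*} (G : SimpleGraph V) : Prop :=
  ∃ (c : V → ZMod 3) (τ : V → ℝ), Strict G c τ

/-- The graph has a `(p, q)`-colouring. -/
def HasPQ {V : Type*} (G : SimpleGraph V) (p q : ℕ) : Prop :=
  ∃ c : V → ℕ, (∀ v, c v < p) ∧ ∀ u v, G.Adj u v →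
    (q : ℤ) ≤ |(c u : ℤ) - c v| ∧ |(c u : ℤ) - c v| ≤ (p : ℤ) - q

theorem HasStrict.mono {V : Type*} {G H : SimpleGraph V} (hle : H ≤ G) (h : HasStrict G) :
    HasStrict H := by
  obtain ⟨c, τ, h⟩ := h
  exact ⟨c, τ, fun u v huv => h u v (hle huv)⟩

/-- The values of `τ` may be supposed to be distinct. -/
theorem HasStrict.inj {V : Type*} [Fintype V] {G : SimpleGraph V} (h : HasStrict G) :
    ∃ (c : V → ZMod 3) (τ : V → ℝ), Strict G c τ ∧ Function.Injective τ := by
  classical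
  obtain ⟨c, τ, h⟩ := h
  let e := Fintype.equivFin V
  let r : V → ℕ := fun v => (univ.filter fun u => τ u < τ v ∨ (τ u = τ v ∧ e u < e v)).card
  have hlt : ∀ u v, (τ u < τ v ∨ (τ u = τ v ∧ e u < e v)) → r u < r v := by
    intro u v huv
    refine card_lt_card ⟨fun x hx => ?_, fun hsub => ?_⟩
    · rw [mem_filter] at hx ⊢
      refine ⟨hx.1, ?_⟩
      rcases hx.2 with h1 | ⟨h1, h2⟩ <;> rcases huv with h3 | ⟨h3, h4⟩
      · exact Or.inl (h1.trans h3)
      · exact Or.inl (h3 ▸ h1)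
      · exact Or.inl (h1 ▸ h3)
      · exact Or.inr ⟨h1.trans h3, h2.trans h4⟩
    · have : u ∈ univ.filter fun x => τ x < τ u ∨ (τ x = τ u ∧ e x < e u) := hsub (by
        rw [mem_filter]
        exact ⟨mem_univ u, huv⟩)
      rw [mem_filter] at this
      rcases this.2 with h1 | ⟨_, h1⟩
      · exact lt_irrefl _ h1
      · exact lt_irrefl _ h1
  refine ⟨c, fun v => (r v : ℝ), fun u v huv => ?_, fun u v huv => ?_⟩
  · rcases h u v huv with ⟨h1, h2⟩ | ⟨h1, h2⟩
    · exact Or.inl ⟨h1, Nat.cast_lt.2 (hlt u v (Or.inl h2))⟩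
    · exact Or.inr ⟨h1, Nat.cast_lt.2 (hlt v u (Or.inl h2))⟩
  · have h1 : r u = r v := Nat.cast_injective huv
    rcases lt_trichotomy (τ u) (τ v) with h2 | h2 | h2
    · exact absurd h1 (hlt u v (Or.inl h2)).ne
    · rcases lt_trichotomy (e u) (e v) with h3 | h3 | h3
      · exact absurd h1 (hlt u v (Or.inr ⟨h2, h3⟩)).ne
      · exact e.injective h3
      · exact absurd h1 (hlt v u (Or.inr ⟨h2.symm, h3⟩)).ne'
    · exact absurd h1 (hlt v u (Or.inl h2)).ne'

/-- **From a strict colouring to a `(3 n, n + 1)`-colouring.** -/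
theorem HasStrict.hasPQ {V : Type*} [Fintype V] {G : SimpleGraph V} (h : HasStrict G) :
    HasPQ G (3 * Fintype.card V) (Fintype.card V + 1) := by
  classical
  obtain ⟨c, τ, h⟩ := h
  set n := Fintype.card V with hn
  let r : V → ℕ := fun v => (univ.filter fun u => τ u < τ v).card
  have hr : ∀ v, r v < n := by
    intro v
    rw [hn, ← card_univ]
    refine card_lt_card ((filter_ssubset).2 ⟨v, mem_univ v, lt_irrefl _⟩)
  have hmono : ∀ u v, τ u < τ v → r u < r v := by
    intro u v huv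
    refine card_lt_card ⟨fun x hx => ?_, fun hsub => ?_⟩
    · rw [mem_filter] at hx ⊢
      exact ⟨hx.1, hx.2.trans huv⟩
    · have : u ∈ univ.filter fun x => τ x < τ u := hsub (by
        rw [mem_filter]
        exact ⟨mem_univ u, huv⟩)
      rw [mem_filter] at this
      exact lt_irrefl _ this.2
  have hc : ∀ v, (c v).val < 3 := fun v => ZMod.val_lt _
  have key : ∀ a b : ZMod 3, b = a + 1 → (a.val = 0 ∧ b.val = 1) ∨ (a.val = 1 ∧ b.val = 2) ∨
      (a.val = 2 ∧ b.val = 0) := by decide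
  have main : ∀ u v, c v = c u + 1 → τ u < τ v →
      ((n + 1 : ℕ) : ℤ) ≤ |((n * (c u).val + r u : ℕ) : ℤ) - ((n * (c v).val + r v : ℕ) : ℤ)| ∧
      |((n * (c u).val + r u : ℕ) : ℤ) - ((n * (c v).val + r v : ℕ) : ℤ)| ≤
        ((3 * n : ℕ) : ℤ) - ((n + 1 : ℕ) : ℤ) := by
    intro u v h1 h2
    have h3 := hmono u v h2
    have h4 := hr u
    have h5 := hr v
    rcases key _ _ h1 with ⟨h6, h7⟩ | ⟨h6, h7⟩ | ⟨h6, h7⟩
    · rw [h6, h7]
      push_cast
      rw [abs_of_nonpos (by omega)]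
      constructor <;> omega
    · rw [h6, h7]
      push_cast
      rw [abs_of_nonpos (by omega)]
      constructor <;> omega
    · rw [h6, h7]
      push_cast
      rw [abs_of_nonneg (by omega)]
      constructor <;> omega
  refine ⟨fun v => n * (c v).val + r v, fun v => ?_, fun u v huv => ?_⟩
  · have h4 := hr v
    have h5 := hc v
    have : n * (c v).val ≤ n * 2 := Nat.mul_le_mul_left _ (by omega)
    show n * (c v).val + r v < 3 * n
    omega
  · rcases h u v huv with ⟨h1, h2⟩ | ⟨h1, h2⟩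
    · exact main u v h1 h2
    · have := main v u h1 h2
      rw [abs_sub_comm] at this
      exact this

/-- **From a `(p, q)`-colouring with `p < 3 q` to a strict colouring.** -/
theorem HasPQ.hasStrict {V : Type*} {G : SimpleGraph V} {p q : ℕ} (h : HasPQ G p q)
    (hpq : p < 3 * q) : HasStrict G := by
  obtain ⟨c, hc, h⟩ := h
  have hmain : ∀ a b : ℕ, a < p → b < p → (q : ℤ) ≤ (b : ℤ) - a → (b : ℤ) - a ≤ (p : ℤ) - q →
      (3 * b / p = 3 * a / p + 1 ∧ 3 * a % p < 3 * b % p) ∨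
      (3 * b / p = 2 ∧ 3 * a / p = 0 ∧ 3 * b % p < 3 * a % p) := by
    intro a b ha hb h1 h2
    have hp : 0 < p := by omega
    have e1 := Nat.div_add_mod (3 * a) p
    have e2 := Nat.div_add_mod (3 * b) p
    have f1 := Nat.mod_lt (3 * a) hp
    have f2 := Nat.mod_lt (3 * b) hp
    have g1 : 3 * a / p < 3 := Nat.div_lt_of_lt_mul (by omega)
    have g2 : 3 * b / p < 3 := Nat.div_lt_of_lt_mul (by omega)
    generalize 3 * a / p = x at *
    generalize 3 * b / p = y at *
    generalize 3 * a % p = s at *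
    generalize 3 * b % p = r at *
    interval_cases x <;> interval_cases y <;> omega
  have hcast : ∀ a b : ℕ, b = a + 1 → ((b : ℕ) : ZMod 3) = (a : ZMod 3) + 1 := by
    intro a b hab
    rw [hab]
    push_cast
    rfl
  have hdir : ∀ u v, (q : ℤ) ≤ (c v : ℤ) - c u → (c v : ℤ) - c u ≤ (p : ℤ) - q →
      Str (fun v => ((3 * c v / p : ℕ) : ZMod 3)) (fun v => ((3 * c v % p : ℕ) : ℝ)) u v := by
    intro u v h1 h2
    rcases hmain (c u) (c v) (hc u) (hc v) h1 h2 with ⟨h3, h4⟩ | ⟨h3, h4, h5⟩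
    · exact Or.inl ⟨hcast _ _ h3, Nat.cast_lt.2 h4⟩
    · refine Or.inr ⟨?_, Nat.cast_lt.2 h5⟩
      show ((3 * c u / p : ℕ) : ZMod 3) = ((3 * c v / p : ℕ) : ZMod 3) + 1
      rw [h3, h4]
      decide
  refine ⟨fun v => ((3 * c v / p : ℕ) : ZMod 3), fun v => ((3 * c v % p : ℕ) : ℝ),
    fun u v huv => ?_⟩
  obtain ⟨h1, h2⟩ := h u v huv
  rcases le_total 0 ((c v : ℤ) - c u) with h3 | h3
  · rw [abs_sub_comm, abs_of_nonneg h3] at h1 h2
    exact hdir u v h1 h2
  · rw [abs_sub_comm, abs_of_nonpos h3] at h1 h2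
    exact (hdir v u (by omega) (by omega)).symm

/-- **The extension theorem.**  The graph `G` contains the configuration `R` by `f`; the labels
that carry an edge of `R` are not interior vertices.  A pair `(c, τ)` that is strict on all edges
outside and on all new edges can be changed on the interior vertices to be strict on `G`. -/
theorem Red.extend {R : Red} {cert : List (List Nat)} (h : check R cert = true) {V : Type*}
    {G : SimpleGraph V} (f : ℕ → V)
    (hinj : ∀ i j, R.t ≤ i → i < R.t + R.m → R.t ≤ j → j < R.t + R.m → f i = f j → i = j)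
    (hlab : ∀ e ∈ R.ed, ∀ j, (j = e.1 ∨ j = e.2) → j < R.t → ∀ i, R.t ≤ i → i < R.t + R.m →
      f i ≠ f j)
    (hadj : ∀ i, R.t ≤ i → i < R.t + R.m → ∀ w, G.Adj (f i) w →
      ∃ j, ((i, j) ∈ R.ed ∨ (j, i) ∈ R.ed) ∧ w = f j)
    {c : V → ZMod 3} {τ : V → ℝ}
    (hout : ∀ u v, G.Adj u v → (∀ i, R.t ≤ i → i < R.t + R.m → f i ≠ u) →
      (∀ i, R.t ≤ i → i < R.t + R.m → f i ≠ v) → Str c τ u v)
    (hnw : ∀ e ∈ R.nw, Str c τ (f e.1) (f e.2))
    (hne : ∀ i j, bit (row R.ne i) j = true → τ (f i) ≠ τ (f j)) :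
    ∃ (c' : V → ZMod 3) (τ' : V → ℝ), Strict G c' τ' ∧
      ∀ v, (∀ i, R.t ≤ i → i < R.t + R.m → f i ≠ v) → c' v = c v ∧ τ' v = τ v := by
  classical
  obtain ⟨c1, τ1, h1, h2⟩ := Red.core h (fun i => c (f i)) (fun i => τ (f i)) hnw hne
  have hlt := Red.ed_lt h
  let g : V → Option ℕ := fun v =>
    if hv : ∃ i, R.t ≤ i ∧ i < R.t + R.m ∧ f i = v then some hv.choose else none
  have hg1 : ∀ i, R.t ≤ i → i < R.t + R.m → g (f i) = some i := by
    intro i hi hi'
    have hv : ∃ j, R.t ≤ j ∧ j < R.t + R.m ∧ f j = f i := ⟨i, hi, hi', rfl⟩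
    show (if hv : ∃ j, R.t ≤ j ∧ j < R.t + R.m ∧ f j = f i then some hv.choose else none) = some i
    rw [dif_pos hv]
    obtain ⟨k1, k2, k3⟩ := hv.choose_spec
    rw [hinj _ _ k1 k2 hi hi' k3]
  have hg2 : ∀ v, (∀ i, R.t ≤ i → i < R.t + R.m → f i ≠ v) → g v = none := by
    intro v hv
    refine dif_neg ?_
    rintro ⟨i, k1, k2, k3⟩
    exact hv i k1 k2 k3
  refine ⟨fun v => (g v).elim (c v) c1, fun v => (g v).elim (τ v) τ1, ?_, fun v hv => ?_⟩
  · have hval : ∀ i, i < R.t + R.m → (i < R.t → ∀ k, R.t ≤ k → k < R.t + R.m → f k ≠ f i) →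
        (g (f i)).elim (c (f i)) c1 = c1 i ∧ (g (f i)).elim (τ (f i)) τ1 = τ1 i := by
      intro i hi hi'
      rcases lt_or_ge i R.t with h3 | h3
      · rw [hg2 _ (hi' h3)]
        exact ⟨(h1 i h3).1.symm, (h1 i h3).2.symm⟩
      · rw [hg1 i h3 hi]
        exact ⟨rfl, rfl⟩
    have hin : ∀ i, R.t ≤ i → i < R.t + R.m → ∀ w, G.Adj (f i) w →
        Str (fun v => (g v).elim (c v) c1) (fun v => (g v).elim (τ v) τ1) (f i) w := by
      intro i hi hi' w hw
      obtain ⟨j, hj, rfl⟩ := hadj i hi hi' w hw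
      have hjlt : j < R.t + R.m := by
        rcases hj with hj | hj
        · exact (hlt _ hj).2
        · exact (hlt _ hj).1
      have hjl : j < R.t → ∀ k, R.t ≤ k → k < R.t + R.m → f k ≠ f j := by
        intro hj' k hk hk'
        rcases hj with hj | hj
        · exact hlab _ hj j (Or.inr rfl) hj' k hk hk'
        · exact hlab _ hj j (Or.inl rfl) hj' k hk hk'
      obtain ⟨a1, a2⟩ := hval i hi' (fun h => absurd h (by omega))
      obtain ⟨b1, b2⟩ := hval j hjlt hjl
      have hs : Str c1 τ1 i j := by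
        rcases hj with hj | hj
        · exact h2 _ hj
        · exact (h2 _ hj).symm
      exact hs.of_eq a1 a2 b1 b2
    intro u v huv
    by_cases hu : ∀ i, R.t ≤ i → i < R.t + R.m → f i ≠ u
    · by_cases hv : ∀ i, R.t ≤ i → i < R.t + R.m → f i ≠ v
      · refine (hout u v huv hu hv).of_eq ?_ ?_ ?_ ?_
        · show (g u).elim (c u) c1 = c u
          rw [hg2 u hu]
          rfl
        · show (g u).elim (τ u) τ1 = τ u
          rw [hg2 u hu]
          rfl
        · show (g v).elim (c v) c1 = c v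
          rw [hg2 v hv]
          rfl
        · show (g v).elim (τ v) τ1 = τ v
          rw [hg2 v hv]
          rfl
      · push Not at hv
        obtain ⟨i, hi, hi', rfl⟩ := hv
        exact (hin i hi hi' u huv.symm).symm
    · push Not at hu
      obtain ⟨i, hi, hi', rfl⟩ := hu
      exact hin i hi hi' v huv
  · show (g v).elim (c v) c1 = c v ∧ (g v).elim (τ v) τ1 = τ v
    rw [hg2 v hv]
    exact ⟨rfl, rfl⟩

end Pool.Agent.T1Red
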