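import Mathlib
import Pool.Agent.Work.MP_392c8e_co_odd.PlaneMuS
import Pool.Agent.Work.MP_392c8e_co_t1.Strict

/-!
# Plane subcubic graphs with isolated 5-cycles

If the 5-cycles are pairwise disjoint and not joined by edges, there is a strict colouring.
-/

namespace Pool.Agent.T1Red

open Finset Pool.Agent.OddFlow Pool.Agent.Circ Pool.Agent.Sub392

set_option linter.unusedSectionVars false

variable {V : Type} [Fintype V] [DecidableEq V] {G : SimpleGraph V}

/-- A parametrisation of a cycle of length seven. -/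
theorem exists_hept {v : V} (c : G.Walk v v) (hc : c.IsCycle) (hlen : c.length = 7) :
    ∃ x : Fin 7 → V, Function.Injective x ∧ (∀ i, G.Adj (x i) (x (i + 1))) ∧
      (∀ e, e ∈ c.edges ↔ ∃ i, e = s(x i, x (i + 1))) := by
  obtain ⟨a1, h1, c1, rfl, l1⟩ := exists_cons c hlen
  obtain ⟨a2, h2, c2, rfl, l2⟩ := exists_cons c1 l1
  obtain ⟨a3, h3, c3, rfl, l3⟩ := exists_cons c2 l2
  obtain ⟨a4, h4, c4, rfl, l4⟩ := exists_cons c3 l3
  obtain ⟨a5, h5, c5, rfl, l5⟩ := exists_cons c4 l4
  obtain ⟨a6, h6, c6, rfl, l6⟩ := exists_cons c5 l5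
  obtain ⟨a7, h7, c7, rfl, l7⟩ := exists_cons c6 l6
  have e5 := SimpleGraph.Walk.eq_of_length_eq_zero l7
  subst e5
  have e6 : c7 = .nil := SimpleGraph.Walk.length_eq_zero_iff.1 l7 |> fun h => by simpa using h
  subst e6
  have hnd := hc.support_nodup
  simp only [SimpleGraph.Walk.support_cons, SimpleGraph.Walk.support_nil, List.tail_cons] at hnd
  have key : ∀ (l : List V), l.Nodup → l.length = 7 → Function.Injective fun i : Fin 7 => l.getD i a1 := by
    intro l hl hlen i j hij
    have hi : (i : ℕ) < l.length := by omega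
    have hj : (j : ℕ) < l.length := by omega
    have : l[(i : ℕ)] = l[(j : ℕ)] := by
      have h1 : l.getD i a1 = l[(i : ℕ)] := List.getD_eq_getElem l a1 hi
      have h2 : l.getD j a1 = l[(j : ℕ)] := List.getD_eq_getElem l a1 hj
      rw [← h1, ← h2]
      exact hij
    exact Fin.ext ((hl.getElem_inj_iff).1 this)
  have hinj := key _ hnd rfl
  refine ⟨fun i : Fin 7 => [a1, a2, a3, a4, a5, a6, a7].getD i a1, hinj, ?_, ?_⟩
  · intro i
    fin_cases i
    · exact h2
    · exact h3
    · exact h4
    · exact h5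
    · exact h6
    · exact h7
    · exact h1
  · intro e
    simp only [SimpleGraph.Walk.edges_cons, SimpleGraph.Walk.edges_nil, List.mem_cons,
      List.not_mem_nil, or_false]
    constructor
    · rintro (h | h | h | h | h | h | h)
      · exact ⟨6, h⟩
      · exact ⟨0, h⟩
      · exact ⟨1, h⟩
      · exact ⟨2, h⟩
      · exact ⟨3, h⟩
      · exact ⟨4, h⟩
      · exact ⟨5, h⟩
    · rintro ⟨i, h⟩
      fin_cases i
      · exact Or.inr (Or.inl h)
      · exact Or.inr (Or.inr (Or.inl h))
      · exact Or.inr (Or.inr (Or.inr (Or.inl h)))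
      · exact Or.inr (Or.inr (Or.inr (Or.inr (Or.inl h))))
      · exact Or.inr (Or.inr (Or.inr (Or.inr (Or.inr (Or.inl h)))))
      · exact Or.inr (Or.inr (Or.inr (Or.inr (Or.inr (Or.inr h)))))
      · exact Or.inl h

set_option maxRecDepth 100000 in
theorem hept_decide : ∀ f : Fin 7 → Bool,
    6 ≤ (univ.filter fun i => (f (i - 1) = true ∨ f i = true) ∧
      (f i = true → f (i + 1) = false) ∧ (f (i - 1) = true → f (i - 2) = false)).card →
    ∃ i, f i = true ∧ f (i + 1) = false ∧ f (i + 2) = true := by
  decide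

/-- A vertex of two 5-cycles. -/
theorem chord_mem (hG : G.CliqueFree 3) {P : Finset (Sym2 V)} (hP : P ∈ pent G) {u v : V}
    (hu : u ∈ verts P) (hv : v ∈ verts P) (huv : G.Adj u v) : s(u, v) ∈ P := by
  classical
  obtain ⟨y, hy, rfl⟩ := pent_param hP
  rw [verts_param hy.1, mem_image] at hu hv
  obtain ⟨a, _, rfl⟩ := hu
  obtain ⟨b, _, rfl⟩ := hv
  have key : ∀ a b : Fin 5, a = b ∨ b = a + 1 ∨ a = b + 1 ∨ b = a + 1 + 1 ∨ a = b + 1 + 1 := by
    decide
  have tri : ∀ a, G.Adj (y a) (y (a + 1 + 1)) → False := by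
    intro a h
    exact hG {y a, y (a + 1), y (a + 1 + 1)}
      (SimpleGraph.is3Clique_triple_iff.2 ⟨hy.2 a, h, hy.2 (a + 1)⟩)
  rcases key a b with rfl | rfl | rfl | rfl | rfl
  · exact absurd rfl huv.ne
  · exact mem_image.2 ⟨a, mem_univ _, rfl⟩
  · exact mem_image.2 ⟨b, mem_univ _, Sym2.eq_swap⟩
  · exact (tri a huv).elim
  · exact (tri b huv.symm).elim

open scoped Classical in
/-- **Isolated 5-cycles.**  If the 5-cycles are pairwise disjoint and not joined by edges, there
is a `(3 N + 4, N + 2)`-colouring, where `N` is the number of odd faces. -/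
theorem isolated_pq [DecidableRel G.Adj] (R : Rot G) (hP : R.Plane) (hΔ : ∀ v, G.degree v ≤ 3)
    (hG : G.CliqueFree 3)
    (hd : ∀ P ∈ pent G, ∀ Q ∈ pent G, ∀ v ∈ verts P, v ∈ verts Q → P = Q)
    (hj : ∀ P ∈ pent G, ∀ Q ∈ pent G, P ≠ Q → ∀ u ∈ verts P, ∀ v ∈ verts Q, ¬ G.Adj u v) :
    HasPQ G (3 * R.odd.card + 4) (R.odd.card + 2) := by
  let μ : V → ℝ := fun v => if ∃ P ∈ pent G, v ∈ verts P then 1 / 5 else 0
  have hμ : ∀ P ∈ pent G, ∀ v ∈ verts P, μ v = 1 / 5 := fun P hP v hv => if_pos ⟨P, hP, hv⟩
  obtain ⟨x, hE⟩ := exists_exits (G := G) (μ := μ) (fun v => by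
      show (0 : ℝ) ≤ if ∃ P ∈ pent G, v ∈ verts P then 1 / 5 else 0
      split_ifs <;> norm_num) (fun P hP => by
      rw [sum_congr rfl fun v hv => hμ P hP v hv, sum_const]
      obtain ⟨y, hy, rfl⟩ := pent_param hP
      rw [verts_param hy.1, card_image_of_injective _ hy.1]
      norm_num) (fun P hP Q hQ hne t ht ht' => absurd (hd P hP Q hQ t ht ht') hne)
  have hθ : 0 < R.odd.card → 3 * ((R.odd.card - 1 : ℕ) : ℝ) * (1 / 3) < R.odd.card := by
    intro h
    have : ((R.odd.card - 1 : ℕ) : ℝ) < R.odd.card := by exact_mod_cast Nat.sub_lt h one_pos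
    linarith
  obtain ⟨w, w1, w2, w3, w4, w5⟩ := strict_muS R hP hΔ hG (θ := 1 / 3) le_rfl (by norm_num) hθ hE
    (by
      intro v c hc ho h7
      -- the hits
      set D := c.edges.toFinset with hD
      let H : Finset V := univ.filter fun t => ∃ P ∈ pent G, t ∈ verts P ∧ HitAt D P t
      have hsum : ∑ P ∈ pent G, ∑ t ∈ (verts P).filter (fun t => HitAt D P t), μ t ≤
          1 / 5 * (H.card : ℝ) := by
        have h1 : ∀ P ∈ pent G, ∑ t ∈ (verts P).filter (fun t => HitAt D P t), μ t =
            1 / 5 * (((verts P).filter fun t => HitAt D P t).card : ℝ) := by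
          intro P hP
          rw [sum_congr rfl fun t ht => hμ P hP t (mem_filter.1 ht).1, sum_const, nsmul_eq_mul]
          ring
        rw [sum_congr rfl h1, ← mul_sum, ← Nat.cast_sum, ← card_biUnion]
        · refine mul_le_mul_of_nonneg_left ?_ (by norm_num)
          refine Nat.cast_le.2 (card_le_card fun t ht => ?_)
          obtain ⟨P, hP, ht⟩ := mem_biUnion.1 ht
          obtain ⟨ht1, ht2⟩ := mem_filter.1 ht
          exact mem_filter.2 ⟨mem_univ _, P, hP, ht1, ht2⟩
        · intro P hP Q hQ hne
          rw [Function.onFun, Finset.disjoint_left]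
          intro t ht ht'
          exact hne (hd P hP Q hQ t (mem_filter.1 ht).1 (mem_filter.1 ht').1)
      have hsupp : H ⊆ c.support.tail.toFinset := by
        intro t ht
        obtain ⟨_, P, hP, _, ⟨e, _, he, hte⟩, _⟩ := mem_filter.1 ht
        rw [hD, List.mem_toFinset] at he
        rw [List.mem_toFinset]
        have h1 : t ∈ c.support := SimpleGraph.Walk.mem_support_of_mem_edges he hte
        rcases (SimpleGraph.Walk.mem_support_iff c).1 h1 with h2 | h2
        · rw [h2]
          exact SimpleGraph.Walk.end_mem_tail_support hc.not_nil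
        · exact h2
      have hcard : H.card ≤ c.length := by
        refine (card_le_card hsupp).trans ?_
        rw [List.toFinset_card_of_nodup hc.support_nodup, List.length_tail,
          SimpleGraph.Walk.length_support]
        omega
      by_cases hl : c.length = 7
      · have h5 : H.card ≤ 5 := by
          by_contra hcon
          rw [not_le] at hcon
          obtain ⟨z, hz1, hz2, hz3⟩ := exists_hept c hc hl
          let f : Fin 7 → Bool := fun i => decide (∃ P ∈ pent G, s(z i, z (i + 1)) ∈ P)
          have hf : ∀ i, f i = true ↔ ∃ P ∈ pent G, s(z i, z (i + 1)) ∈ P :=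
            fun i => decide_eq_true_iff
          have hff : ∀ i, f i = false ↔ ¬ ∃ P ∈ pent G, s(z i, z (i + 1)) ∈ P :=
            fun i => decide_eq_false_iff_not
          have hzD : ∀ i, s(z i, z (i + 1)) ∈ D := by
            intro i
            rw [hD, List.mem_toFinset, hz3]
            exact ⟨i, rfl⟩
          -- an edge of a 5-cycle at a vertex of `P` is an edge of `P`
          have huniq : ∀ P ∈ pent G, ∀ i, ∀ t ∈ verts P, t ∈ s(z i, z (i + 1)) → f i = true →
              s(z i, z (i + 1)) ∈ P := by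
            intro P hP i t ht hti hfi
            obtain ⟨Q, hQ, hQe⟩ := (hf i).1 hfi
            rw [hd P hP Q hQ t ht (mem_verts_iff.2 ⟨_, hQe, hti⟩)]
            exact hQe
          have n1 : ∀ i : Fin 7, i ≠ i + 1 := by decide
          have n2 : ∀ i : Fin 7, i ≠ i + 1 + 1 := by decide
          have n3 : ∀ i : Fin 7, i ≠ i - 2 := by decide
          have n4 : ∀ i : Fin 7, i - 2 + 1 = i - 1 := by decide
          have n5 : ∀ i : Fin 7, i ≠ i - 1 := by decide
          have hhit : ∀ i, z i ∈ H → (f (i - 1) = true ∨ f i = true) ∧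
              (f i = true → f (i + 1) = false) ∧ (f (i - 1) = true → f (i - 2) = false) := by
            intro i hi
            obtain ⟨_, P, hP, hiP, ⟨e, heP, heD, hie⟩, hit⟩ := mem_filter.1 hi
            refine ⟨?_, ?_, ?_⟩
            · rw [hD, List.mem_toFinset, hz3] at heD
              obtain ⟨j, rfl⟩ := heD
              rcases Sym2.mem_iff.1 hie with h1 | h1
              · right
                rw [hz1 h1]
                exact (hf j).2 ⟨P, hP, heP⟩
              · left
                rw [hz1 h1, add_sub_cancel_right]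
                exact (hf j).2 ⟨P, hP, heP⟩
            · intro h1
              rw [← Bool.not_eq_true]
              intro h2
              have h3 := huniq P hP i (z i) hiP (Sym2.mem_mk_left _ _) h1
              have h4 := huniq P hP (i + 1) (z (i + 1))
                (mem_verts_iff.2 ⟨_, h3, Sym2.mem_mk_right _ _⟩) (Sym2.mem_mk_left _ _) h2
              refine hit _ h3 _ h4 (hzD i) (hzD (i + 1)) (Sym2.mem_mk_left _ _) ?_ (z (i + 1))
                (Sym2.mem_mk_right _ _) (Sym2.mem_mk_left _ _)
              rw [Sym2.mem_iff]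
              rintro (h5 | h5)
              · exact n1 i (hz1 h5)
              · exact n2 i (hz1 h5)
            · intro h1
              rw [← Bool.not_eq_true]
              intro h2
              have e1 : s(z (i - 1), z (i - 1 + 1)) = s(z (i - 1), z i) := by
                rw [sub_add_cancel]
              have e2 : s(z (i - 2), z (i - 2 + 1)) = s(z (i - 2), z (i - 1)) := by
                rw [n4]
              have h3 := huniq P hP (i - 1) (z i) hiP (by rw [e1]; exact Sym2.mem_mk_right _ _) h1
              have h4 := huniq P hP (i - 2) (z (i - 1))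
                (mem_verts_iff.2 ⟨_, h3, Sym2.mem_mk_left _ _⟩)
                (by rw [e2]; exact Sym2.mem_mk_right _ _) h2
              refine hit _ h3 _ h4 (hzD (i - 1)) (hzD (i - 2))
                (by rw [e1]; exact Sym2.mem_mk_right _ _) ?_ (z (i - 1))
                (Sym2.mem_mk_left _ _) (by rw [e2]; exact Sym2.mem_mk_right _ _)
              rw [e2, Sym2.mem_iff]
              rintro (h5 | h5)
              · exact n3 i (hz1 h5)
              · exact n5 i (hz1 h5)
          have hzH : ∀ t ∈ H, ∃ i, z i = t := by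
            intro t ht
            obtain ⟨_, P, hP, _, ⟨e, _, he, hte⟩, _⟩ := mem_filter.1 ht
            rw [hD, List.mem_toFinset, hz3] at he
            obtain ⟨j, rfl⟩ := he
            rcases Sym2.mem_iff.1 hte with h1 | h1
            · exact ⟨j, h1.symm⟩
            · exact ⟨j + 1, h1.symm⟩
          obtain ⟨i, g1, g2, g3⟩ := hept_decide f (by
            have h1 : H ⊆ (univ.filter fun i => (f (i - 1) = true ∨ f i = true) ∧
                (f i = true → f (i + 1) = false) ∧
                (f (i - 1) = true → f (i - 2) = false)).image z := by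
              intro t ht
              obtain ⟨i, rfl⟩ := hzH t ht
              exact mem_image_of_mem _ (mem_filter.2 ⟨mem_univ _, hhit i ht⟩)
            exact hcon.trans_le ((card_le_card h1).trans card_image_le))
          obtain ⟨P, hP, hPe⟩ := (hf i).1 g1
          obtain ⟨Q, hQ, hQe⟩ := (hf (i + 2)).1 g3
          have m1 : z (i + 1) ∈ verts P := mem_verts_iff.2 ⟨_, hPe, Sym2.mem_mk_right _ _⟩
          have m2 : z (i + 1 + 1) ∈ verts Q := by
            have e1 : ∀ i : Fin 7, i + 2 = i + 1 + 1 := by decide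
            rw [e1] at hQe
            exact mem_verts_iff.2 ⟨_, hQe, Sym2.mem_mk_left _ _⟩
          by_cases hPQ : P = Q
          · subst hPQ
            exact (hff (i + 1)).1 g2 ⟨P, hP, chord_mem hG hP m1 m2 (hz2 (i + 1))⟩
          · exact hj P hP Q hQ hPQ _ m1 _ m2 (hz2 (i + 1))
        have h6 : (H.card : ℝ) ≤ 5 := by exact_mod_cast h5
        rw [hl]
        push_cast
        linarith
      · have h9 : 9 ≤ c.length := by
          rw [Nat.odd_iff] at ho
          omega
        have h6 : (H.card : ℝ) ≤ c.length := by exact_mod_cast hcard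
        have h7' : (9 : ℝ) ≤ c.length := by exact_mod_cast h9
        linarith)
  obtain ⟨c, hc1, hc2⟩ := colour_of_strict R hP w w1 w2 w3 w4 w5
  exact ⟨c, hc1, fun u v huv => hc2 u v huv⟩

/-- **Isolated 5-cycles**: a strict colouring. -/
theorem isolated_strict [DecidableRel G.Adj] (R : Rot G) (hP : R.Plane)
    (hΔ : ∀ v, G.degree v ≤ 3) (hG : G.CliqueFree 3)
    (hd : ∀ P ∈ pent G, ∀ Q ∈ pent G, ∀ v ∈ verts P, v ∈ verts Q → P = Q)
    (hj : ∀ P ∈ pent G, ∀ Q ∈ pent G, P ≠ Q → ∀ u ∈ verts P, ∀ v ∈ verts Q, ¬ G.Adj u v) :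
    HasStrict G :=
  (isolated_pq R hP hΔ hG hd hj).hasStrict (by omega)

end Pool.Agent.T1Red
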