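import Mathlib
import Pool.Agent.Work.MP_392c8e_co_t1.Isolated

/-!
# From faces to 5-cycles

If every 5-cycle bounds a face of size five and no two faces of size five are adjacent, then
distinct 5-cycles are disjoint.
-/

namespace Pool.Agent.T1Red

open Finset Pool.Agent.Sub392 Pool.Agent.OddFlow

set_option linter.unusedSectionVars false

variable {V : Type} [Fintype V] [DecidableEq V] {G : SimpleGraph V}

/-- Two 5-cycles through a vertex of degree at most three have a common edge there. -/
theorem common_edge [DecidableRel G.Adj] (hΔ : ∀ v, G.degree v ≤ 3) {x y : Fin 5 → V}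
    (hx : IsPent G x) (hy : IsPent G y) {i j : Fin 5} (hij : x i = y j) :
    ∃ e ∈ univ.image (pedge x), e ∈ univ.image (pedge y) := by
  classical
  have hsub : ∀ (z : Fin 5 → V) (hz : IsPent G z) (k : Fin 5),
      ({z (k + 1), z (k - 1)} : Finset V) ⊆ G.neighborFinset (z k) ∧
        ({z (k + 1), z (k - 1)} : Finset V).card = 2 := by
    intro z hz k
    constructor
    · intro w hw
      rw [SimpleGraph.mem_neighborFinset]
      rw [mem_insert, mem_singleton] at hw
      rcases hw with rfl | rfl
      · exact hz.2 k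
      · have := hz.2 (k - 1)
        rw [sub_add_cancel] at this
        exact this.symm
    · rw [card_pair]
      intro h
      exact (by decide : ∀ k : Fin 5, k + 1 ≠ k - 1) k (hz.1 h)
  have h1 := hsub x hx i
  have h2 := hsub y hy j
  have h3 : (({x (i + 1), x (i - 1)} : Finset V) ∩ {y (j + 1), y (j - 1)}).Nonempty := by
    rw [← card_pos]
    have h4 := card_union_add_card_inter ({x (i + 1), x (i - 1)} : Finset V)
      {y (j + 1), y (j - 1)}
    have h5 : (({x (i + 1), x (i - 1)} : Finset V) ∪ {y (j + 1), y (j - 1)}).card ≤ 3 := by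
      refine (card_le_card (union_subset h1.1 ?_)).trans (hΔ (x i))
      rw [hij]
      exact h2.1
    have h6 := h1.2
    have h7 := h2.2
    omega
  obtain ⟨w, hw⟩ := h3
  rw [mem_inter] at hw
  have hmem : ∀ (z : Fin 5 → V) (k : Fin 5), w ∈ ({z (k + 1), z (k - 1)} : Finset V) →
      s(z k, w) ∈ univ.image (pedge z) := by
    intro z k hk
    rw [mem_insert, mem_singleton] at hk
    rcases hk with rfl | rfl
    · exact mem_image.2 ⟨k, mem_univ _, rfl⟩
    · refine mem_image.2 ⟨k - 1, mem_univ _, ?_⟩
      show s(z (k - 1), z (k - 1 + 1)) = _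
      rw [sub_add_cancel]
      exact Sym2.eq_swap
  refine ⟨s(x i, w), hmem x i hw.1, ?_⟩
  rw [hij]
  exact hmem y j hw.2

/-- **Distinct 5-cycles are disjoint**, if all 5-cycles bound faces of size five and no two
such faces are adjacent. -/
theorem disj_of_faces [DecidableRel G.Adj] (R : Rot G) (hΔ : ∀ v, G.degree v ≤ 3)
    (hfac : ∀ (v : V) (c : G.Walk v v), c.IsCycle → c.length = 5 →
      ∃ f : R.Face, R.size f = 5 ∧ Side R c {f})
    (hadj : ∀ d : G.Dart, R.size (R.face d) = 5 → R.size (R.face d.symm) ≠ 5) :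
    ∀ P ∈ pent G, ∀ Q ∈ pent G, ∀ v ∈ verts P, v ∈ verts Q → P = Q := by
  classical
  intro P hP Q hQ v hvP hvQ
  obtain ⟨x, hx, hxe⟩ := pent_param hP
  obtain ⟨y, hy, hye⟩ := pent_param hQ
  rw [hxe, verts_param hx.1, mem_image] at hvP
  rw [hye, verts_param hy.1, mem_image] at hvQ
  obtain ⟨i, -, hi⟩ := hvP
  obtain ⟨j, -, hj⟩ := hvQ
  obtain ⟨e, he1, he2⟩ := common_edge hΔ hx hy (hi.trans hj.symm)
  rw [← hxe] at he1
  rw [← hye] at he2
  rw [pent, mem_filter] at hP hQ
  obtain ⟨-, u, c, hc, hlen, hPc⟩ := hP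
  obtain ⟨-, u', c', hc', hlen', hQc⟩ := hQ
  obtain ⟨f, hf, hs⟩ := hfac u c hc hlen
  obtain ⟨g, hg, hs'⟩ := hfac u' c' hc' hlen'
  by_cases hfg : f = g
  · subst hfg
    rw [hPc, hQc]
    ext e'
    rw [List.mem_toFinset, List.mem_toFinset]
    constructor
    · intro h
      have h1 := c.edges_subset_edgeSet h
      induction e' using Sym2.ind with
      | _ a b => exact (hs' ⟨(a, b), h1⟩).2 ((hs ⟨(a, b), h1⟩).1 h)
    · intro h
      have h1 := c'.edges_subset_edgeSet h
      induction e' using Sym2.ind with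
      | _ a b => exact (hs ⟨(a, b), h1⟩).2 ((hs' ⟨(a, b), h1⟩).1 h)
  · exfalso
    rw [hPc, List.mem_toFinset] at he1
    rw [hQc, List.mem_toFinset] at he2
    have h1 := c.edges_subset_edgeSet he1
    induction e using Sym2.ind with
    | _ a b =>
      have k1 := (hs ⟨(a, b), h1⟩).1 he1
      have k2 := (hs' ⟨(a, b), h1⟩).1 he2
      set d : G.Dart := ⟨(a, b), h1⟩
      simp only [mem_singleton] at k1 k2
      have key : (R.face d = f ∧ R.face d.symm = g) ∨ (R.face d = g ∧ R.face d.symm = f) := by
        by_cases m1 : R.face d = f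
        · left
          refine ⟨m1, ?_⟩
          have m2 : R.face d ≠ g := fun h => hfg (m1.symm.trans h)
          tauto
        · right
          have m2 : R.face d.symm = f := by tauto
          have m3 : R.face d.symm ≠ g := fun h => hfg (m2.symm.trans h)
          exact ⟨by tauto, m2⟩
      rcases key with ⟨m1, m2⟩ | ⟨m1, m2⟩
      · exact hadj d (by rw [m1]; exact hf) (by rw [m2]; exact hg)
      · exact hadj d (by rw [m1]; exact hg) (by rw [m2]; exact hf)

end Pool.Agent.T1Red
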