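import Mathlib
import Pool.Agent.Work.MP_392c8e_co.Facts

/-!
# Algebraic duals

A finite graph has an algebraic dual if its darts can be distributed to faces so that the
antisymmetric functions with vanishing sums around the faces are the potential differences.
-/

namespace Pool.Agent.T392

open Finset Pool.Agent.Sub392

set_option linter.unusedSectionVars false

section defs

variable {V F : Type} [Fintype V]

open Classical in
/-- The sum of `t` around the face `f`. -/
noncomputable def fs (G : SimpleGraph V) (left : V → V → F) (t : V → V → ℚ) (f : F) : ℚ :=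
  ∑ u, ∑ v, if G.Adj u v ∧ left u v = f then t u v else 0

/-- `left` gives the faces of an algebraic dual of `G`. -/
structure IsDual (G : SimpleGraph V) (left : V → V → F) : Prop where
  bal : ∀ (g : V → ℚ) (f : F), fs G left (fun u v => g v - g u) f = 0
  ex : ∀ t : V → V → ℚ, (∀ u v, t u v = - t v u) → (∀ f, fs G left t f = 0) →
    ∃ g : V → ℚ, ∀ u v, G.Adj u v → t u v = g v - g u

/-- `G` has an algebraic dual. -/
def HasDual (G : SimpleGraph V) : Prop := ∃ (F : Type) (left : V → V → F), IsDual G left

end defs

/-- A permutation which carries one map to another with fibres of the same sizes. -/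
theorem exists_perm {D X : Type} [Fintype D] (κ κ' : D → X)
    (h : ∀ x, Nat.card {d // κ d = x} = Nat.card {d // κ' d = x}) :
    ∃ σ : Equiv.Perm D, ∀ d, κ' (σ d) = κ d := by
  classical
  have e : ∀ x, Nonempty ({d // κ d = x} ≃ {d // κ' d = x}) := fun x => by
    have := h x
    rw [Nat.card_eq_fintype_card, Nat.card_eq_fintype_card] at this
    exact ⟨Fintype.equivOfCardEq this⟩
  have m := fun x => Classical.choice (e x)
  refine ⟨((Equiv.sigmaFiberEquiv κ).symm.trans (Equiv.sigmaCongrRight m)).trans
    (Equiv.sigmaFiberEquiv κ'), fun d => ?_⟩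
  exact (m (κ d) ⟨d, rfl⟩).2

variable {V F : Type} [Fintype V] [DecidableEq V] {G : SimpleGraph V} [DecidableRel G.Adj]

/-- sums over darts -/
theorem sum_darts (h : V → V → ℚ) :
    ∑ d : G.Dart, h d.fst d.snd = ∑ u, ∑ v, if G.Adj u v then h u v else 0 := by
  classical
  rw [← Finset.sum_product' (f := fun u v => if G.Adj u v then h u v else 0), ← Finset.sum_filter]
  refine Finset.sum_bij (fun d _ => (d.fst, d.snd)) ?_ ?_ ?_ ?_
  · intro d _
    simp only [univ_product_univ, mem_filter, mem_univ, true_and]
    exact d.adj
  · intro a _ b _ hab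
    exact SimpleGraph.Dart.ext a b hab
  · intro p hp
    simp only [univ_product_univ, mem_filter, mem_univ, true_and] at hp
    exact ⟨⟨p, hp⟩, mem_univ _, rfl⟩
  · intro d _
    rfl

open Classical in
theorem fs_eq (left : V → V → F) (t : V → V → ℚ) (f : F) :
    fs G left t f = ∑ d : G.Dart, if left d.fst d.snd = f then t d.fst d.snd else 0 := by
  rw [sum_darts (fun u v => if left u v = f then t u v else 0), fs]
  refine sum_congr rfl fun u _ => sum_congr rfl fun v _ => ?_
  by_cases h1 : G.Adj u v <;> by_cases h2 : left u v = f <;> simp [h1, h2]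

/-- At every vertex a face has as many incoming as outgoing darts. -/
theorem IsDual.card_eq {left : V → V → F} (h : IsDual G left) (x : V × F) :
    Nat.card {d : G.Dart // (d.snd, left d.fst d.snd) = x} =
      Nat.card {d : G.Dart // (d.fst, left d.fst d.snd) = x} := by
  classical
  obtain ⟨v, f⟩ := x
  have h1 := h.bal (Pi.single v 1) f
  rw [fs_eq, ← Finset.sum_filter, Finset.sum_sub_distrib, sub_eq_zero] at h1
  simp only [Pi.single_apply, Finset.sum_boole] at h1
  rw [Finset.filter_filter, Finset.filter_filter] at h1
  have h2 : #{d : G.Dart | left d.fst d.snd = f ∧ d.snd = v} =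
    #{d : G.Dart | left d.fst d.snd = f ∧ d.fst = v} := by exact_mod_cast h1
  rw [Nat.card_eq_fintype_card, Nat.card_eq_fintype_card, Fintype.card_subtype,
    Fintype.card_subtype]
  simp only [Prod.mk.injEq]
  simp only [and_comm] at h2 ⊢
  exact h2

/-- **From algebraic duals to drawings on the sphere.** -/
theorem rot_of_dual {left : V → V → F} (h : IsDual G left) (hG : G.Connected)
    (hne : ∃ u v, G.Adj u v)
    (h2 : ∀ v a b : V, a ≠ v → b ≠ v → ∀ g : V → ℚ,
      (∀ x y, G.Adj x y → x ≠ v → y ≠ v → g x = g y) → g a = g b) :
    ∃ R : Rot G, R.Plane ∧ ∀ d : G.Dart, left (R.next d).fst (R.next d).snd =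
      left d.fst d.snd := by
  classical
  obtain ⟨σ, hσ⟩ := exists_perm (fun d : G.Dart => (d.snd, left d.fst d.snd))
    (fun d : G.Dart => (d.fst, left d.fst d.snd)) (fun x => h.card_eq x)
  have hσ1 : ∀ d, (σ d).fst = d.snd := fun d => congrArg Prod.fst (hσ d)
  have hσ2 : ∀ d, left (σ d).fst (σ d).snd = left d.fst d.snd := fun d => congrArg Prod.snd (hσ d)
  set r : Equiv.Perm G.Dart := (flip G).trans σ with hr
  have hr1 : ∀ d, r d = σ d.symm := fun d => rfl
  have hrf : ∀ d, (r d).fst = d.fst := fun d => by rw [hr1, hσ1]; rfl
  have hcyc : ∀ d d' : G.Dart, d.fst = d'.fst → r.SameCycle d d' := by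
    intro d d' hdd
    set A : G.Dart → Prop := fun x => r.SameCycle d x with hA
    have hA1 : ∀ x, A x → x.fst = d.fst := by
      intro x hx
      have := sameCycle_inv (f := r) (h := fun x : G.Dart => x.fst) hrf hx
      exact this.symm
    have hA2 : ∀ x, A (r x) ↔ A x := fun x => Equiv.Perm.sameCycle_apply_right
    set a : V → V → ℚ := fun u w => if hw : G.Adj u w then (if A ⟨(u, w), hw⟩ then 1 else 0)
      else 0 with ha
    have ha1 : ∀ x : G.Dart, a x.fst x.snd = if A x then 1 else 0 := by
      intro x
      rw [ha]
      simp only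
      rw [dif_pos x.adj]
    obtain ⟨g, hg⟩ := h.ex (fun u w => a u w - a w u) (fun u w => by ring) (by
      intro f
      rw [fs_eq, ← Finset.sum_filter, Finset.sum_sub_distrib, sub_eq_zero]
      symm
      refine Finset.sum_bij (fun x _ => σ x) ?_ ?_ ?_ ?_
      · intro x hx
        simp only [mem_filter, mem_univ, true_and] at hx ⊢
        rw [hσ2, hx]
      · intro x _ y _ hxy
        exact σ.injective hxy
      · intro x hx
        refine ⟨σ.symm x, ?_, by simp⟩
        simp only [mem_filter, mem_univ, true_and] at hx ⊢
        have := hσ2 (σ.symm x)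
        rw [Equiv.apply_symm_apply] at this
        rw [← this, hx]
      · intro x _
        have e1 := ha1 x.symm
        have e2 := ha1 (σ x)
        have e3 : A (σ x) ↔ A x.symm := by
          rw [← hA2 x.symm, hr1, SimpleGraph.Dart.symm_symm]
        rw [e2]
        refine Eq.trans e1 ?_
        simp only [e3])
    have h3 : g d.snd = g d'.snd := by
      refine h2 d.fst d.snd d'.snd d.adj.ne' (by rw [hdd]; exact d'.adj.ne') g ?_
      intro x y hxy hx hy
      have e1 := hg x y hxy
      have e2 : a x y = 0 := by
        rw [ha]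
        simp only
        rw [dif_pos hxy, if_neg]
        exact fun h5 => hx (hA1 _ h5)
      have e3 : a y x = 0 := by
        rw [ha]
        simp only
        rw [dif_pos hxy.symm, if_neg]
        exact fun h5 => hy (hA1 _ h5)
      rw [e2, e3] at e1
      linarith
    have h4 : ∀ x : G.Dart, x.fst = d.fst → a x.snd x.fst = 0 := by
      intro x hx
      have e1 := ha1 x.symm
      refine Eq.trans e1 (if_neg fun h5 => ?_)
      have := hA1 _ h5
      have h6 : x.snd = d.fst := this
      exact x.adj.ne (hx.trans h6.symm)
    have e1 := hg d.fst d.snd d.adj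
    have e2 := hg d'.fst d'.snd d'.adj
    rw [h4 d rfl, ha1, if_pos (Equiv.Perm.SameCycle.refl _ _)] at e1
    rw [h4 d' hdd.symm, ha1, ← hdd] at e2
    by_contra hcon
    rw [if_neg hcon] at e2
    linarith
  set R : Rot G := ⟨r, hrf, hcyc⟩ with hR
  have hnext : ∀ d, R.next d = σ d := by
    intro d
    show r d.symm = σ d
    rw [hr1, SimpleGraph.Dart.symm_symm]
  have hleft : ∀ d, left (R.next d).fst (R.next d).snd = left d.fst d.snd := by
    intro d
    rw [hnext, hσ2]
  refine ⟨R, ⟨hG, ?_⟩, hleft⟩
  -- Euler's formula
  obtain ⟨u0, v0, huv0⟩ := hne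
  have hD : Nonempty G.Dart := ⟨⟨(u0, v0), huv0⟩⟩
  have : Nonempty V := ⟨u0⟩
  have : Nonempty R.Face := hD.map R.face
  have hAk : Module.finrank ℚ (LinearMap.ker ((matA G ℚ).transpose.mulVecLin)) = 1 := by
    rw [ker_A hG]; exact finrank_span_one V
  have hBk : Module.finrank ℚ (LinearMap.ker ((R.matB ℚ).transpose.mulVecLin)) = 1 := by
    rw [R.ker_B hG hD]; exact finrank_span_one R.Face
  have hA := LinearMap.finrank_range_add_finrank_ker ((matA G ℚ).transpose.mulVecLin)
  have hB := LinearMap.finrank_range_add_finrank_ker ((R.matB ℚ).transpose.mulVecLin)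
  have hB2 := LinearMap.finrank_range_add_finrank_ker ((R.matB ℚ).mulVecLin)
  rw [hAk, Module.finrank_fintype_fun_eq_card] at hA
  rw [hBk, Module.finrank_fintype_fun_eq_card] at hB
  rw [Module.finrank_fintype_fun_eq_card, card_up] at hB2
  have hrk : Module.finrank ℚ (LinearMap.range ((R.matB ℚ).mulVecLin)) =
      Module.finrank ℚ (LinearMap.range ((R.matB ℚ).transpose.mulVecLin)) :=
    (Matrix.rank_transpose (R.matB ℚ)).symm
  have heq : LinearMap.range ((matA G ℚ).transpose.mulVecLin) =
      LinearMap.ker ((R.matB ℚ).mulVecLin) := by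
    apply le_antisymm
    · rintro _ ⟨p, rfl⟩
      rw [LinearMap.mem_ker]
      funext f
      have e1 : (matA G ℚ).transpose.mulVecLin p = fun e : Up G => (fun d : G.Dart =>
          p d.snd - p d.fst) e.1 := by
        funext e
        rw [Matrix.mulVecLin_apply, matA_mulVec]
      rw [e1, Matrix.mulVecLin_apply, R.matB_mulVec (fun d : G.Dart => p d.snd - p d.fst)
        (fun d => by simp), R.sum_face_coboundary]
      rfl
    · intro y hy
      rw [LinearMap.mem_ker, Matrix.mulVecLin_apply] at hy
      -- the antisymmetric extension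
      set x : V → V → ℚ := fun u w => if hw : G.Adj u w then
        (if hu : (Fintype.equivFin V u : ℕ) < Fintype.equivFin V w then y ⟨⟨(u, w), hw⟩, hu⟩
        else -y ⟨⟨(w, u), hw.symm⟩, (up_or (⟨(u, w), hw⟩ : G.Dart)).resolve_left hu⟩) else 0
        with hx
      have hx1 : ∀ e : Up G, x e.1.fst e.1.snd = y e := by
        intro e
        rw [hx]
        simp only
        rw [dif_pos e.1.adj, dif_pos e.2]
        rfl
      have hx2 : ∀ u w, x u w = - x w u := by
        intro u w
        by_cases hw : G.Adj u w
        · rcases up_or (⟨(u, w), hw⟩ : G.Dart) with h5 | h5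
          · have e1 := hx1 ⟨⟨(u, w), hw⟩, h5⟩
            have e2 : x w u = - y ⟨⟨(u, w), hw⟩, h5⟩ := by
              rw [hx]
              simp only
              have h6 : ¬ (Fintype.equivFin V w : ℕ) < Fintype.equivFin V u := by
                have h5' : (Fintype.equivFin V u : ℕ) < Fintype.equivFin V w := h5
                omega
              rw [dif_pos hw.symm, dif_neg h6]
            rw [e2, neg_neg]
            exact e1
          · have e1 := hx1 ⟨(⟨(u, w), hw⟩ : G.Dart).symm, h5⟩
            have e2 : x u w = - y ⟨(⟨(u, w), hw⟩ : G.Dart).symm, h5⟩ := by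
              rw [hx]
              simp only
              have h6 : ¬ (Fintype.equivFin V u : ℕ) < Fintype.equivFin V w := by
                have h5' : (Fintype.equivFin V w : ℕ) < Fintype.equivFin V u := h5
                omega
              rw [dif_pos hw, dif_neg h6]
              rfl
            rw [e2]
            exact congrArg Neg.neg e1.symm
        · rw [hx]
          simp only
          rw [dif_neg hw, dif_neg (fun h5 => hw h5.symm), neg_zero]
      have hx3 : ∀ f : R.Face, ∑ d with R.face d = f, x d.fst d.snd = 0 := by
        intro f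
        have e1 := R.matB_mulVec (k := ℚ) (fun d : G.Dart => x d.fst d.snd)
          (fun d => hx2 d.snd d.fst) f
        rw [← e1]
        have e2 : (fun e : Up G => (fun d : G.Dart => x d.fst d.snd) e.1) = y := by
          funext e
          exact hx1 e
        rw [e2, hy]
        rfl
      obtain ⟨g, hg⟩ := h.ex x hx2 (by
        intro f
        rw [fs_eq, ← Finset.sum_filter]
        rw [← Finset.sum_fiberwise_of_maps_to (s := univ.filter fun d : G.Dart =>
          left d.fst d.snd = f) (t := univ) (g := R.face) (fun _ _ => mem_univ _)]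
        refine Finset.sum_eq_zero fun φ _ => ?_
        rw [Finset.filter_filter]
        by_cases h5 : ∃ d : G.Dart, R.face d = φ ∧ left d.fst d.snd = f
        · obtain ⟨d, hd1, hd2⟩ := h5
          rw [← hx3 φ]
          refine sum_congr ?_ fun _ _ => rfl
          ext d'
          simp only [mem_filter, mem_univ, true_and]
          constructor
          · exact fun h6 => h6.2
          · intro h6
            refine ⟨?_, h6⟩
            have h7 : R.next.SameCycle d d' := Quotient.exact (hd1.trans h6.symm)
            have h8 := sameCycle_inv (f := R.next) (h := fun d : G.Dart => left d.fst d.snd)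
              hleft h7
            rw [← hd2]
            exact h8.symm
        · refine Finset.sum_eq_zero fun d hd => ?_
          simp only [mem_filter, mem_univ, true_and] at hd
          exact absurd ⟨d, hd.2, hd.1⟩ h5)
      refine ⟨g, ?_⟩
      funext e
      rw [Matrix.mulVecLin_apply, matA_mulVec, ← hx1 e]
      exact (hg _ _ e.1.adj).symm
  rw [heq] at hA
  omega

end Pool.Agent.T392
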