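import Mathlib
import Pool.Agent.Work.MP_392c8e_co_t1.Dual
import Pool.Agent.Work.MP_392c8e_co_red.PlG

/-!
# From graphs with an algebraic dual to drawings on the sphere
-/

namespace Pool.Agent.T392

open Finset Pool.Agent.Sub392 Pool.Agent.Red

set_option linter.unusedSectionVars false

section

variable {V E F : Type} [Fintype V] [DecidableEq V] [Fintype E] [DecidableEq E] [Fintype F]
  [DecidableEq F] {G : SimpleGraph V}

/-- Cochains orthogonal to the faces are potential differences. -/
theorem Full.exact {s t : E → V} {l r : E → F} (hf : Full s t l r) (x : E → ℚ)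
    (hx : ∀ f, ∑ e, inc r l f e * x e = 0) : ∃ g : V → ℚ, ∀ e, x e = g (t e) - g (s e) := by
  have h1 : x ∈ LinearMap.range (inc s t).transpose.mulVecLin := by
    rw [← Subspace.forall_mem_dualAnnihilator_apply_eq_zero_iff]
    intro ψ hψ
    rw [Submodule.mem_dualAnnihilator] at hψ
    have h2 : ∀ z : E → ℚ, ψ z = ∑ e, ψ (Pi.single e 1) * z e := by
      intro z
      conv_lhs => rw [pi_eq_sum_univ z]
      rw [map_sum]
      refine sum_congr rfl fun v _ => ?_
      rw [map_smul, smul_eq_mul, mul_comm]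
      congr 2
      ext w
      simp [Pi.single_apply, eq_comm]
    obtain ⟨φ, hφ⟩ := hf (fun e => ψ (Pi.single e 1)) (by
      intro v
      have h3 := hψ _ ⟨Pi.single v 1, rfl⟩
      rw [h2] at h3
      rw [← h3]
      refine sum_congr rfl fun e _ => ?_
      rw [Matrix.mulVecLin_apply, transpose_mulVec, mul_comm]
      congr 1
      simp only [inc, Pi.single_apply])
    rw [h2]
    simp only [hφ]
    have h4 : ∀ e, (φ (l e) - φ (r e)) * x e = ∑ f, φ f * (inc r l f e * x e) := by
      intro e
      rw [← sum_inc r l φ e, Finset.sum_mul]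
      exact sum_congr rfl fun f _ => mul_assoc _ _ _
    simp only [h4]
    rw [sum_comm]
    refine sum_eq_zero fun f _ => ?_
    rw [← mul_sum, hx, mul_zero]
  obtain ⟨g, rfl⟩ := h1
  refine ⟨g, fun e => ?_⟩
  rw [Matrix.mulVecLin_apply, transpose_mulVec]

open Classical in
/-- Sums over the darts. -/
theorem sum_pairs {s t : E → V} (h : IsOf G s t) (φ : V → V → ℚ) :
    ∑ u, ∑ v, (if G.Adj u v then φ u v else 0) =
      ∑ e, (φ (s e) (t e) + φ (t e) (s e)) := by
  obtain ⟨h1, h2, h3⟩ := h
  have e1 : ∑ u, ∑ v, (if G.Adj u v then φ u v else 0) =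
      ∑ p ∈ (univ : Finset (V × V)).filter fun p => G.Adj p.1 p.2, φ p.1 p.2 := by
    rw [sum_filter, ← univ_product_univ, sum_product]
  have e2 : ∑ e, (φ (s e) (t e) + φ (t e) (s e)) =
      ∑ x : E ⊕ E, x.elim (fun e => φ (s e) (t e)) (fun e => φ (t e) (s e)) := by
    rw [Fintype.sum_sum_type, sum_add_distrib]
    rfl
  rw [e1, e2]
  symm
  refine Finset.sum_bij (fun x _ => x.elim (fun e => (s e, t e)) (fun e => (t e, s e)))
    ?_ ?_ ?_ ?_
  · rintro (e | e) -
    · simp only [mem_filter, mem_univ, true_and, Sum.elim_inl]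
      exact h1 e
    · simp only [mem_filter, mem_univ, true_and, Sum.elim_inr]
      exact (h1 e).symm
  · have hne : ∀ e, s e ≠ t e := fun e => (h1 e).ne
    rintro (e | e) - (e' | e') - hee
    · simp only [Sum.elim_inl, Prod.mk.injEq] at hee
      congr 1
      refine h3 ?_
      show s(s e, t e) = s(s e', t e')
      rw [hee.1, hee.2]
    · simp only [Sum.elim_inl, Sum.elim_inr, Prod.mk.injEq] at hee
      have h4 : e = e' := by
        refine h3 ?_
        show s(s e, t e) = s(s e', t e')
        rw [hee.1, hee.2]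
        exact Sym2.eq_swap
      subst h4
      exact absurd hee.1 (hne e)
    · simp only [Sum.elim_inl, Sum.elim_inr, Prod.mk.injEq] at hee
      have h4 : e = e' := by
        refine h3 ?_
        show s(s e, t e) = s(s e', t e')
        rw [← hee.1, ← hee.2]
        exact Sym2.eq_swap
      subst h4
      exact absurd hee.1.symm (hne e)
    · simp only [Sum.elim_inr, Prod.mk.injEq] at hee
      congr 1
      refine h3 ?_
      show s(s e, t e) = s(s e', t e')
      rw [hee.1, hee.2]
  · rintro ⟨u, v⟩ huv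
    simp only [mem_filter, mem_univ, true_and] at huv
    obtain ⟨e, he⟩ := h2 u v huv
    rcases Sym2.eq_iff.1 he with ⟨rfl, rfl⟩ | ⟨rfl, rfl⟩
    · exact ⟨Sum.inl e, mem_univ _, rfl⟩
    · exact ⟨Sum.inr e, mem_univ _, rfl⟩
  · rintro (e | e) - <;> rfl

/-- The face to the left of a dart. -/
noncomputable def lf (s t : E → V) (l r : E → F) (u v : V) : Option F := by
  classical
  exact if h : ∃ e, s e = u ∧ t e = v then some (l h.choose)
    else if h : ∃ e, s e = v ∧ t e = u then some (r h.choose) else none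

theorem lf_fwd {s t : E → V} (l r : E → F) (h : IsOf G s t) (e : E) :
    lf s t l r (s e) (t e) = some (l e) := by
  classical
  have h1 : ∃ e', s e' = s e ∧ t e' = t e := ⟨e, rfl, rfl⟩
  unfold lf
  rw [dif_pos h1]
  have h2 : h1.choose = e := by
    refine h.2.2 ?_
    show s(s _, t _) = s(s e, t e)
    rw [h1.choose_spec.1, h1.choose_spec.2]
  rw [h2]

theorem lf_bwd {s t : E → V} (l r : E → F) (h : IsOf G s t) (e : E) :
    lf s t l r (t e) (s e) = some (r e) := by
  classical
  have h0 : ¬ ∃ e', s e' = t e ∧ t e' = s e := by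
    rintro ⟨e', h5, h6⟩
    have h7 : e' = e := by
      refine h.2.2 ?_
      show s(s e', t e') = s(s e, t e)
      rw [h5, h6]
      exact Sym2.eq_swap
    subst h7
    exact (h.1 e').ne h5
  have h1 : ∃ e', s e' = s e ∧ t e' = t e := ⟨e, rfl, rfl⟩
  unfold lf
  rw [dif_neg h0, dif_pos h1]
  have h2 : h1.choose = e := by
    refine h.2.2 ?_
    show s(s _, t _) = s(s e, t e)
    rw [h1.choose_spec.1, h1.choose_spec.2]
  rw [h2]

open Classical in
theorem fs_lf {s t : E → V} {l r : E → F} (h : IsOf G s t) (τ : V → V → ℚ) (f : Option F) :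
    fs G (lf s t l r) τ f = ∑ e, ((if some (l e) = f then τ (s e) (t e) else 0) +
      (if some (r e) = f then τ (t e) (s e) else 0)) := by
  have h1 := sum_pairs h (fun u v => if lf s t l r u v = f then τ u v else 0)
  simp only [lf_fwd l r h, lf_bwd l r h] at h1
  rw [← h1, fs]
  refine sum_congr rfl fun u _ => sum_congr rfl fun v _ => ?_
  by_cases h2 : G.Adj u v <;> by_cases h3 : lf s t l r u v = f <;> simp [h2, h3]

/-- The faces of an algebraic dual. -/
theorem isDual_lf {s t : E → V} {l r : E → F} (h : IsOf G s t) (ho : Orth s t l r)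
    (hf : Full s t l r) : IsDual G (lf s t l r) := by
  classical
  constructor
  · intro g f
    rw [fs_lf h]
    cases f with
    | none => simp
    | some x =>
      have h1 : ∀ e, ((if some (l e) = some x then (g (t e) - g (s e)) else 0) +
          (if some (r e) = some x then (g (s e) - g (t e)) else 0)) =
          ∑ v, g v * (inc s t v e * inc r l x e) := by
        intro e
        have h2 : ∑ v, g v * (inc s t v e * inc r l x e) =
            (g (t e) - g (s e)) * inc r l x e := by
          rw [← sum_inc s t g e, sum_mul]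
          exact sum_congr rfl fun v _ => (mul_assoc _ _ _).symm
        rw [h2]
        unfold inc
        simp only [Option.some.injEq]
        split_ifs <;> ring
      refine Eq.trans (sum_congr rfl fun e _ => h1 e) ?_
      rw [sum_comm]
      refine sum_eq_zero fun v _ => ?_
      rw [← mul_sum, ho v x, mul_zero]
  · intro τ hτ h0
    obtain ⟨g, hg⟩ := Full.exact hf (fun e => τ (s e) (t e)) (by
      intro x
      have h1 := h0 (some x)
      rw [fs_lf h] at h1
      rw [← h1]
      refine sum_congr rfl fun e _ => ?_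
      rw [hτ (t e) (s e)]
      unfold inc
      simp only [Option.some.injEq]
      split_ifs <;> ring)
    refine ⟨g, fun u v huv => ?_⟩
    obtain ⟨e, he⟩ := h.2.1 u v huv
    rcases Sym2.eq_iff.1 he with ⟨rfl, rfl⟩ | ⟨rfl, rfl⟩
    · exact hg e
    · rw [hτ, hg e]
      ring

theorem hasDual_of_pl (h : Pl G) : HasDual G := by
  obtain ⟨E, F, _, _, _, _, s, t, l, r, h1, h2, h3⟩ := h
  exact ⟨_, _, isDual_lf h1 h2 h3⟩

end

variable {V : Type} [Fintype V] [DecidableEq V] {G : SimpleGraph V} [DecidableRel G.Adj]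

/-- **From algebraic duals to drawings on the sphere: two-connected graphs.** -/
theorem rot_of_pl (h : Pl G) (hG : G.Connected) (hne : ∃ u v, G.Adj u v)
    (h2 : ∀ v a b : V, a ≠ v → b ≠ v → ∀ g : V → ℚ,
      (∀ x y, G.Adj x y → x ≠ v → y ≠ v → g x = g y) → g a = g b) :
    ∃ R : Rot G, R.Plane := by
  obtain ⟨F, left, hd⟩ := hasDual_of_pl h
  obtain ⟨R, hR, -⟩ := rot_of_dual hd hG hne h2
  exact ⟨R, hR⟩

/-- Connected subcubic graphs without bridges are two-connected. -/
theorem const_off (hG : G.Connected) (hΔ : ∀ v, G.degree v ≤ 3)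
    (hb : ∀ (S : V → Prop) (u v : V), S u → ¬ S v → G.Adj u v →
      ∃ u' v', S u' ∧ ¬ S v' ∧ G.Adj u' v' ∧ s(u', v') ≠ s(u, v))
    (v a b : V) (ha : a ≠ v) (hbv : b ≠ v) (g : V → ℚ)
    (hg : ∀ x y, G.Adj x y → x ≠ v → y ≠ v → g x = g y) : g a = g b := by
  classical
  by_contra hne
  -- two sets without edges between them
  have key : ∀ S : V → Prop, ¬ S v → (∃ x, S x) →
      (∀ x y, G.Adj x y → S x → y ≠ v → S y) →
      ∃ x y, x ≠ y ∧ S x ∧ S y ∧ G.Adj v x ∧ G.Adj v y := by
    intro S hS ⟨a, ha⟩ hcl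
    -- an edge from `S` to `v`
    have h1 : ∃ x, S x ∧ G.Adj x v := by
      obtain ⟨w⟩ := hG.preconnected a v
      by_contra hcon
      push Not at hcon
      have h2 : ∀ x y (w : G.Walk x y), S x → S y := by
        intro x y w
        induction w with
        | nil => exact fun h => h
        | @cons x y z hxy _ ih =>
          intro hx
          refine ih (hcl x y hxy hx ?_)
          rintro rfl
          exact hcon x hx hxy
      exact hS (h2 _ _ w ha)
    obtain ⟨x, hx, hxv⟩ := h1
    obtain ⟨u', v', h3, h4, h5, h6⟩ := hb S x v hx hS hxv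
    have h7 : v' = v := by
      by_contra h8
      exact h4 (hcl _ _ h5 h3 h8)
    subst h7
    refine ⟨x, u', ?_, hx, h3, hxv.symm, h5.symm⟩
    rintro rfl
    exact h6 rfl
  obtain ⟨x, y, hxy, hx, hy, hvx, hvy⟩ := key (fun x => x ≠ v ∧ g x = g a) (fun h => h.1 rfl)
    ⟨a, ha, rfl⟩ (fun x y hxy hx hy => ⟨hy, by rw [← hg x y hxy hx.1 hy]; exact hx.2⟩)
  obtain ⟨z, w, hzw, hz, hw, hvz, hvw⟩ := key (fun x => x ≠ v ∧ g x ≠ g a) (fun h => h.1 rfl)
    ⟨b, hbv, fun h => hne h.symm⟩ (fun x y hxy hx hy =>
      ⟨hy, by rw [← hg x y hxy hx.1 hy]; exact hx.2⟩)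
  have h1 : ({x, y, z, w} : Finset V) ⊆ G.neighborFinset v := by
    intro u hu
    simp only [mem_insert, mem_singleton] at hu
    rw [SimpleGraph.mem_neighborFinset]
    rcases hu with rfl | rfl | rfl | rfl <;> assumption
  have h2 := card_le_card h1
  rw [SimpleGraph.card_neighborFinset_eq_degree] at h2
  have hxz : x ≠ z := by rintro rfl; exact hz.2 hx.2
  have hxw : x ≠ w := by rintro rfl; exact hw.2 hx.2
  have hyz : y ≠ z := by rintro rfl; exact hz.2 hy.2
  have hyw : y ≠ w := by rintro rfl; exact hw.2 hy.2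
  have h3 : #({x, y, z, w} : Finset V) = 4 := by
    rw [card_insert_of_notMem, card_insert_of_notMem, card_insert_of_notMem, card_singleton]
    · simpa using hzw
    · simp [hyz, hyw]
    · simp [hxy, hxz, hxw]
  have h4 := hΔ v
  omega

/-- **Connected subcubic graphs with an algebraic dual and without bridges can be drawn on the
sphere.** -/
theorem exists_rot_of_pl (h : Pl G) (hG : G.Connected) (hne : ∃ u v, G.Adj u v)
    (hΔ : ∀ v, G.degree v ≤ 3)
    (hb : ∀ (S : V → Prop) (u v : V), S u → ¬ S v → G.Adj u v →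
      ∃ u' v', S u' ∧ ¬ S v' ∧ G.Adj u' v' ∧ s(u', v') ≠ s(u, v)) :
    ∃ R : Rot G, R.Plane :=
  rot_of_pl h hG hne fun v a b ha hbv g hg => const_off hG hΔ hb v a b ha hbv g hg

/-- The same with Mathlib's bridges. -/
theorem exists_rot_of_pl' (h : Pl G) (hG : G.Connected) (hne : ∃ u v, G.Adj u v)
    (hΔ : ∀ v, G.degree v ≤ 3) (hb : ∀ e ∈ G.edgeSet, ¬ G.IsBridge e) :
    ∃ R : Rot G, R.Plane := by
  classical
  refine exists_rot_of_pl h hG hne hΔ fun S u v hu hv huv => ?_
  by_contra hcon
  push Not at hcon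
  refine hb s(u, v) huv ?_
  rw [SimpleGraph.isBridge_iff]
  rintro ⟨w⟩
  have h2 : ∀ x y (w : (G.deleteEdges {s(u, v)}).Walk x y), S x → S y := by
    intro x y w
    induction w with
    | nil => exact fun h => h
    | @cons x y z hxy _ ih =>
      intro hx
      refine ih ?_
      by_contra hy
      rw [SimpleGraph.deleteEdges_adj] at hxy
      exact hxy.2 (hcon x y hx hy hxy.1)
  exact hv (h2 _ _ w hu)

end Pool.Agent.T392
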