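import Mathlib
import Pool.Agent.Work.MP_392c8e_co_t1.Bridge
import Pool.Agent.Work.MP_392c8e_co_t1.PlRot
import Pool.Agent.Work.MP_392c8e_co_t1.Strict
import Pool.Agent.Work.MP_392c8e_co_red.MinDef

/-!
# Assembly: from the facts about a smallest counterexample to the theorem
-/

namespace Pool.Agent.T1Red

open Finset Pool.Agent.Sub392 Pool.Agent.OddFlow Pool.Agent.Red Pool.Agent.T392

set_option linter.unusedSectionVars false

/-- The facts about a smallest counterexample which are proved in the other files. -/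
structure Facts : Prop where
  conn : ∀ (V : Type) [Fintype V] [DecidableEq V] (G : SimpleGraph V), MinCex G → G.Connected
  bridge : ∀ (V : Type) [Fintype V] [DecidableEq V] (G : SimpleGraph V), MinCex G →
    ∀ e ∈ G.edgeSet, ¬ G.IsBridge e
  face : ∀ (V : Type) [Fintype V] [DecidableEq V] (G : SimpleGraph V) [DecidableRel G.Adj],
    MinCex G → ∀ (R : Rot G), R.Plane → ∀ (v : V) (c : G.Walk v v), c.IsCycle → c.length = 5 →
      ∃ f : R.Face, R.size f = 5 ∧ Side R c {f}
  adj : ∀ (V : Type) [Fintype V] [DecidableEq V] (G : SimpleGraph V) [DecidableRel G.Adj],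
    MinCex G → ∀ (R : Rot G), R.Plane →
      ∀ d : G.Dart, R.size (R.face d) = 5 → R.size (R.face d.symm) ≠ 5
  join : ∀ (V : Type) [Fintype V] [DecidableEq V] (G : SimpleGraph V) [DecidableRel G.Adj],
    MinCex G → ∀ (R : Rot G), R.Plane →
      ∀ P ∈ pent G, ∀ Q ∈ pent G, P ≠ Q → ∀ u ∈ verts P, ∀ v ∈ verts Q, ¬ G.Adj u v

variable {V : Type} [Fintype V] [DecidableEq V] {G : SimpleGraph V}

theorem MinCex.degree_le [DecidableRel G.Adj] (h : MinCex G) (v : V) : G.degree v ≤ 3 := by
  have h1 := h.deg v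
  rw [Set.ncard_eq_toFinset_card'] at h1
  rw [← SimpleGraph.card_neighborFinset_eq_degree]
  refine le_trans (le_of_eq ?_) h1
  congr 1

theorem MinCex.exists_adj (h : MinCex G) : ∃ u v, G.Adj u v := by
  by_contra hcon
  push Not at hcon
  exact h.bad ⟨fun _ => 0, fun _ => 0, fun u v huv => absurd huv (hcon u v)⟩

/-- There is no smallest counterexample. -/
theorem Facts.false (F : Facts) (h : MinCex G) : False := by
  classical
  have hconn := F.conn V G h
  have hΔ : ∀ v, G.degree v ≤ 3 := fun v => MinCex.degree_le h v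
  obtain ⟨R, hP⟩ := exists_rot_of_pl' h.pl hconn (MinCex.exists_adj h) hΔ (F.bridge V G h)
  refine h.bad ?_
  exact isolated_strict R hP hΔ h.tri
    (disj_of_faces R hΔ (F.face V G h R hP) (F.adj V G h R hP)) (F.join V G h R hP)

/-- Strict colourings of planar triangle-free subcubic graphs. -/
theorem Facts.strict (F : Facts) (h1 : Pl G) (h2 : G.CliqueFree 3)
    (h3 : ∀ v, (G.neighborSet v).ncard ≤ 3) : HasStrict G := by
  by_contra h4
  obtain ⟨W, _, _, H, hH⟩ := exists_minCex h1 h2 h3 h4
  exact F.false hH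

/-- The `(3 n, n + 1)`-colouring. -/
theorem Facts.hasPQ (F : Facts) (h1 : Pl G) (h2 : G.CliqueFree 3)
    (h3 : ∀ v, (G.neighborSet v).ncard ≤ 3) :
    HasPQ G (3 * Fintype.card V) (Fintype.card V + 1) :=
  (F.strict h1 h2 h3).hasPQ

end Pool.Agent.T1Red
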