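import Mathlib
import Pool.Agent.Work.MP_392c8e_co.Facts
import Pool.Agent.Work.MP_392c8e_co_odd.CycD

/-!
# Faces of bridgeless subcubic plane graphs: orbits
-/

namespace Pool.Agent.T392

open Finset Pool.Agent.Sub392

set_option linter.unusedSectionVars false

/-- The size of a class of a permutation is the period. -/
theorem card_class {D : Type} [Fintype D] [DecidableEq D] (σ : Equiv.Perm D) (d : D)
    (P : D → Prop) [DecidablePred P] (hP : ∀ x, P x ↔ σ.SameCycle d x) :
    #{x | P x} = Function.minimalPeriod σ d := by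
  classical
  have hpos : 0 < Function.minimalPeriod σ d := by
    rw [Function.minimalPeriod_pos_iff_mem_periodicPts]
    refine ⟨orderOf σ, orderOf_pos σ, ?_⟩
    show σ^[orderOf σ] d = d
    rw [← Equiv.Perm.coe_pow, pow_orderOf_eq_one]
    rfl
  have h1 : (univ.filter P) = (range (Function.minimalPeriod σ d)).image fun i => σ^[i] d := by
    ext x
    simp only [mem_filter, mem_univ, true_and, mem_image, mem_range]
    rw [hP]
    constructor
    · intro hx
      obtain ⟨i, hi⟩ := hx.exists_nat_pow_eq
      refine ⟨i % Function.minimalPeriod σ d, Nat.mod_lt _ hpos, ?_⟩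
      rw [Function.iterate_mod_minimalPeriod_eq, ← hi, Equiv.Perm.coe_pow]
    · rintro ⟨i, -, rfl⟩
      exact ⟨i, by rw [zpow_natCast, Equiv.Perm.coe_pow]⟩
  rw [h1, card_image_of_injOn, card_range]
  intro i hi j hj hij
  simp only [coe_range, Set.mem_Iio] at hi hj
  exact Function.iterate_injOn_Iio_minimalPeriod (Set.mem_Iio.2 hi) (Set.mem_Iio.2 hj) hij

variable {V : Type} [Fintype V] [DecidableEq V] {G : SimpleGraph V} [DecidableRel G.Adj]

/-- The length of the face on the left of a dart. -/
noncomputable def sz (R : Rot G) (d : G.Dart) : ℕ := R.size (R.face d)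

theorem face_eq_iff (R : Rot G) (d x : G.Dart) :
    R.face x = R.face d ↔ R.next.SameCycle d x := by
  constructor
  · intro h
    have h1 : R.next.SameCycle x d := Quotient.exact h
    exact h1.symm
  · intro h
    exact (Quotient.sound h : R.face d = R.face x).symm

theorem sz_eq (R : Rot G) (d : G.Dart) : sz R d = Function.minimalPeriod R.next d := by
  classical
  have h1 := card_class R.next d (fun x => R.face x = R.face d) (face_eq_iff R d)
  rw [← h1, sz, Rot.size]

theorem fst_eq_iff (R : Rot G) (d x : G.Dart) : x.fst = d.fst ↔ R.rot.SameCycle d x := by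
  constructor
  · intro h
    exact R.cyc d x h.symm
  · intro h
    exact (sameCycle_inv (f := R.rot) (h := fun x : G.Dart => x.fst) R.fst_rot h).symm

theorem deg_eq (R : Rot G) (d : G.Dart) : G.degree d.fst = Function.minimalPeriod R.rot d := by
  classical
  have h1 := card_class R.rot d (fun x => x.fst = d.fst) (fst_eq_iff R d)
  rw [← h1]
  exact (G.dart_fst_fiber_card_eq_degree d.fst).symm

theorem next_sz (R : Rot G) (d : G.Dart) : R.next^[sz R d] d = d := by
  rw [sz_eq]
  exact Function.iterate_minimalPeriod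

theorem sz_le (R : Rot G) {d : G.Dart} {n : ℕ} (hn : 0 < n) (h : R.next^[n] d = d) :
    sz R d ∣ n := by
  rw [sz_eq]
  exact Function.IsPeriodicPt.minimalPeriod_dvd h

theorem sz_next (R : Rot G) (d : G.Dart) : sz R (R.next d) = sz R d := by
  rw [sz, sz, R.face_next]

theorem sz_rot (R : Rot G) (d : G.Dart) : sz R (R.rot d) = sz R d.symm := by
  rw [sz, sz, R.face_rot]

theorem next_eq (R : Rot G) (d : G.Dart) : R.next d = R.rot d.symm := rfl

theorem rot_deg (R : Rot G) (d : G.Dart) : R.rot^[G.degree d.fst] d = d := by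
  rw [deg_eq R]
  exact Function.iterate_minimalPeriod

theorem rot_three (R : Rot G) {d : G.Dart} (h : G.degree d.fst = 3) :
    R.rot (R.rot (R.rot d)) = d := by
  have := rot_deg R d
  rw [h] at this
  exact this

theorem rot_two (R : Rot G) {d : G.Dart} (h : G.degree d.fst = 2) :
    R.rot (R.rot d) = d := by
  have := rot_deg R d
  rw [h] at this
  exact this

theorem rot_ne (R : Rot G) {d : G.Dart} (h : 2 ≤ G.degree d.fst) : R.rot d ≠ d := by
  intro h1
  have h2 : Function.minimalPeriod R.rot d = 1 := Function.minimalPeriod_eq_one_iff_isFixedPt.2 h1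
  rw [deg_eq R, h2] at h
  omega

theorem next_ne_symm (R : Rot G) {d : G.Dart} (h : 2 ≤ G.degree d.snd) :
    R.next d ≠ d.symm := by
  rw [next_eq]
  exact rot_ne R h

/-- Two darts at a vertex leave room for at most one other. -/
theorem third_unique (hΔ : ∀ v, G.degree v ≤ 3) {P Q x y : G.Dart} (hPQ : P ≠ Q)
    (hQ : Q.fst = P.fst) (hx : x.fst = P.fst) (hy : y.fst = P.fst) (hxP : x ≠ P) (hxQ : x ≠ Q)
    (hyP : y ≠ P) (hyQ : y ≠ Q) : x = y := by
  classical
  by_contra hxy
  have h1 : ({P, Q, x, y} : Finset G.Dart) ⊆ univ.filter fun d : G.Dart => d.fst = P.fst := by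
    intro z hz
    simp only [mem_insert, mem_singleton] at hz
    simp only [mem_filter, mem_univ, true_and]
    rcases hz with rfl | rfl | rfl | rfl
    · rfl
    · exact hQ
    · exact hx
    · exact hy
  have h2 := card_le_card h1
  have h4 : #(univ.filter fun d : G.Dart => d.fst = P.fst) = G.degree P.fst :=
    G.dart_fst_fiber_card_eq_degree P.fst
  rw [h4] at h2
  have h3 : #({P, Q, x, y} : Finset G.Dart) = 4 := by
    rw [card_insert_of_notMem, card_insert_of_notMem, card_insert_of_notMem, card_singleton]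
    · simpa using hxy
    · simp [hxQ.symm, hyQ.symm]
    · simp [hPQ, hxP.symm, hyP.symm]
  have h5 := hΔ P.fst
  omega

/-- In a bridgeless graph the two sides of an edge are different faces. -/
theorem face_ne_of_nobridge (R : Rot G) (hP : R.Plane)
    (hb : ∀ (S : V → Prop) (u v : V), S u → ¬ S v → G.Adj u v →
      ∃ u' v', S u' ∧ ¬ S v' ∧ G.Adj u' v' ∧ s(u', v') ≠ s(u, v)) (d : G.Dart) :
    R.face d ≠ R.face d.symm := by
  classical
  intro hd
  have hne : d ≠ d.symm := (SimpleGraph.Dart.symm_ne d).symm
  obtain ⟨p, hp⟩ := R.exact (k := ℚ) hP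
    (fun x : G.Dart => (if x = d then 1 else 0) - (if x = d.symm then 1 else 0)) (by
      intro x
      have h1 : x.symm = d ↔ x = d.symm := by
        constructor
        · rintro rfl; simp
        · rintro rfl; simp
      have h2 : x.symm = d.symm ↔ x = d := by
        constructor
        · intro h
          have := congrArg SimpleGraph.Dart.symm h
          simpa using this
        · rintro rfl; rfl
      simp only [h1, h2]
      ring) (by
      intro f
      rw [sum_sub_distrib, sub_eq_zero, Finset.sum_ite_eq', Finset.sum_ite_eq']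
      simp only [mem_filter, mem_univ, true_and]
      rw [hd])
  have hpd := hp d
  simp only [if_true] at hpd
  rw [if_neg hne] at hpd
  obtain ⟨u', v', h1, h2, h3, h4⟩ := hb (fun x => p x = p d.fst) d.fst d.snd rfl
    (by intro h; rw [h] at hpd; norm_num at hpd) d.adj
  have h5 := hp ⟨(u', v'), h3⟩
  have h6 : (⟨(u', v'), h3⟩ : G.Dart) ≠ d := by
    rintro rfl
    exact h4 rfl
  have h7 : (⟨(u', v'), h3⟩ : G.Dart) ≠ d.symm := by
    intro h8
    apply h4
    have h9 : (⟨(u', v'), h3⟩ : G.Dart).edge = d.symm.edge := by rw [h8]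
    rw [SimpleGraph.Dart.edge_symm] at h9
    exact h9
  simp only [if_neg h6, if_neg h7, sub_self] at h5
  apply h2
  have h8 : p v' = p u' := by linarith
  show p v' = p d.fst
  rw [h8]
  exact h1

/-- The geometric facts about a minimal counterexample. -/
structure Geo (R : Rot G) : Prop where
  plane : R.Plane
  tri : G.CliqueFree 3
  deg3 : ∀ v, G.degree v ≤ 3
  deg2 : ∀ v, 2 ≤ G.degree v
  br : ∀ d : G.Dart, R.face d ≠ R.face d.symm
  cut : ∀ A : Finset V, #{d : G.Dart | d.fst ∈ A ∧ d.snd ∉ A} ≤ 3 → #A ≤ 2 ∨ #Aᶜ ≤ 2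
  no22 : ∀ u v, G.Adj u v → G.degree u = 2 → G.degree v ≠ 2

namespace Geo

variable {R : Rot G} (g : Geo R)

include g

theorem rot_ne (d : G.Dart) : R.rot d ≠ d := T392.rot_ne R (g.deg2 _)

theorem next_ne_symm (d : G.Dart) : R.next d ≠ d.symm := T392.next_ne_symm R (g.deg2 _)

theorem deg_cases (v : V) : G.degree v = 2 ∨ G.degree v = 3 := by
  have h1 := g.deg2 v
  have h2 := g.deg3 v
  omega

/-- Faces have length at least four. -/
theorem four_le_sz (d : G.Dart) : 4 ≤ sz R d := by
  have h0 := next_sz R d
  have hpos : 0 < sz R d := by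
    rw [sz_eq, Function.minimalPeriod_pos_iff_mem_periodicPts]
    refine ⟨orderOf R.next, orderOf_pos R.next, ?_⟩
    show R.next^[orderOf R.next] d = d
    rw [← Equiv.Perm.coe_pow, pow_orderOf_eq_one]
    rfl
  by_contra hcon
  have h1 : sz R d = 1 ∨ sz R d = 2 ∨ sz R d = 3 := by omega
  rcases h1 with h1 | h1 | h1
  · rw [h1] at h0
    have h2 := R.fst_next d
    have h3 : R.next d = d := h0
    rw [h3] at h2
    exact d.adj.ne h2
  · rw [h1] at h0
    have h0' : R.next (R.next d) = d := h0
    have h2 := R.fst_next d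
    have h3 := R.fst_next (R.next d)
    rw [h0'] at h3
    exact g.next_ne_symm d (SimpleGraph.Dart.ext _ _ (Prod.ext h2 h3.symm))
  · rw [h1] at h0
    have h0' : R.next (R.next (R.next d)) = d := h0
    have h2 := R.fst_next d
    have h3 := R.fst_next (R.next d)
    have h4 := R.fst_next (R.next (R.next d))
    rw [h0'] at h4
    refine g.tri {d.fst, d.snd, (R.next d).snd} (SimpleGraph.is3Clique_triple_iff.2
      ⟨d.adj, ?_, ?_⟩)
    · have h5 := (R.next (R.next d)).adj
      rw [h3, ← h4] at h5
      exact h5.symm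
    · have h5 := (R.next d).adj
      rwa [h2] at h5

end Geo

end Pool.Agent.T392
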