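import Mathlib
import Pool.Agent.Work.MP_392c8e_co_t1.FaceBase

/-!
# Short cycles are faces
-/

namespace Pool.Agent.T392

open Finset Pool.Agent.Sub392 Pool.Agent.OddFlow

set_option linter.unusedSectionVars false

variable {V : Type} [Fintype V] [DecidableEq V] {G : SimpleGraph V} [DecidableRel G.Adj]

section cyc

variable {l : ℕ} [NeZero l]

/-- The darts of a closed walk. -/
def ed (w : ZMod l → V) (ha : ∀ i, G.Adj (w i) (w (i + 1))) (i : ZMod l) : G.Dart :=
  ⟨(w i, w (i + 1)), ha i⟩

/-- Induction on residues. -/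
theorem zind (P : ZMod l → Prop) (h0 : P 0) (h1 : ∀ i, P i → P (i + 1)) (i : ZMod l) : P i := by
  have key : ∀ n : ℕ, P (n : ZMod l) := by
    intro n
    induction n with
    | zero => simpa using h0
    | succ n ih => rw [Nat.cast_succ]; exact h1 _ ih
  have := key i.val
  rwa [ZMod.natCast_zmod_val] at this

/-- Closed walks of length at most seven without turning back in triangle-free graphs. -/
theorem inj_of_short (hG : G.CliqueFree 3) (hl : l ≤ 7) (w : ZMod l → V)
    (ha : ∀ i, G.Adj (w i) (w (i + 1))) (hb : ∀ i, w i ≠ w (i + 2)) : Function.Injective w := by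
  have tri : ∀ i, w i ≠ w (i + 3) := by
    intro i h
    have h1 := ha i
    have h2 := ha (i + 1)
    have h3 := ha (i + 2)
    rw [show i + 1 + 1 = i + 2 by ring] at h2
    rw [show i + 2 + 1 = i + 3 by ring, ← h] at h3
    exact hG {w i, w (i + 1), w (i + 2)} (SimpleGraph.is3Clique_triple_iff.2 ⟨h1, h3.symm, h2⟩)
  intro i j hij
  by_contra hne
  have hk0 : j - i ≠ 0 := fun h => hne (sub_eq_zero.1 h).symm
  set k : ℕ := (j - i).val with hk
  have hkl : k < l := ZMod.val_lt _
  have hk1 : k ≠ 0 := fun h => hk0 ((ZMod.val_eq_zero _).1 h)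
  have hcast : ((k : ℕ) : ZMod l) = j - i := ZMod.natCast_zmod_val _
  have hl0 : ((l : ℕ) : ZMod l) = 0 := ZMod.natCast_self l
  have e1 : ∀ n : ℕ, k = n → j = i + n := by
    intro n hn
    rw [← hn, hcast]
    ring
  have e2 : ∀ n : ℕ, k + n = l → i = j + n := by
    intro n hn
    have h1 : ((k + n : ℕ) : ZMod l) = 0 := by rw [hn, hl0]
    rw [Nat.cast_add, hcast] at h1
    have h2 : (n : ZMod l) = -(j - i) := by
      rw [eq_neg_iff_add_eq_zero, add_comm]
      exact h1
    rw [h2]
    ring
  have h7 : k = 1 ∨ k = 2 ∨ k = 3 ∨ k + 1 = l ∨ k + 2 = l ∨ k + 3 = l := by omega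
  rcases h7 with h | h | h | h | h | h
  · have := e1 1 h
    rw [Nat.cast_one] at this
    subst this
    exact (ha i).ne hij
  · have := e1 2 h
    rw [Nat.cast_ofNat] at this
    subst this
    exact hb i hij
  · have := e1 3 h
    rw [Nat.cast_ofNat] at this
    subst this
    exact tri i hij
  · have := e2 1 h
    rw [Nat.cast_one] at this
    subst this
    exact (ha j).ne hij.symm
  · have := e2 2 h
    rw [Nat.cast_ofNat] at this
    subst this
    exact hb j hij.symm
  · have := e2 3 h
    rw [Nat.cast_ofNat] at this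
    subst this
    exact tri j hij.symm

theorem four_le_of_short (hG : G.CliqueFree 3) (w : ZMod l → V)
    (ha : ∀ i, G.Adj (w i) (w (i + 1))) (hb : ∀ i, w i ≠ w (i + 2)) : 4 ≤ l := by
  have hl0 := NeZero.ne l
  by_contra hcon
  have h : l = 1 ∨ l = 2 ∨ l = 3 := by omega
  rcases h with h | h | h
  · subst h
    have h1 := ha 0
    rw [show (0 + 1 : ZMod 1) = 0 from Subsingleton.elim _ _] at h1
    exact h1.ne rfl
  · subst h
    have h1 := hb 0
    rw [show (0 + 2 : ZMod 2) = 0 by decide] at h1
    exact h1 rfl
  · subst h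
    have h1 := ha 0
    have h2 := ha 1
    have h3 := ha 2
    rw [show (0 + 1 : ZMod 3) = 1 by decide] at h1
    rw [show (1 + 1 : ZMod 3) = 2 by decide] at h2
    rw [show (2 + 1 : ZMod 3) = 0 by decide] at h3
    exact hG {w 0, w 1, w 2} (SimpleGraph.is3Clique_triple_iff.2 ⟨h1, h3.symm, h2⟩)

variable {R : Rot G}

/-- **The left side of a short cycle.** -/
theorem Geo.left (g : Geo R) (w : ZMod l → V) (ha : ∀ i, G.Adj (w i) (w (i + 1)))
    (hb : ∀ i, w i ≠ w (i + 2)) (hinj : Function.Injective w) (hl4 : 4 ≤ l)
    (hN : #{i : ZMod l | R.next (ed w ha i) ≠ ed w ha (i + 1)} ≤ 3) :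
    (∀ i, R.next (ed w ha i) = ed w ha (i + 1)) ∨
    (∃ t : G.Dart, sz R t + sz R t.symm ≤ l + 2) ∨
    (∃ t : G.Dart, G.degree t.fst = 2 ∧ sz R t + sz R t.symm ≤ l + 4) ∨
    (∃ t : G.Dart, G.degree t.fst = 3 ∧ sz R t + sz R (R.rot t) + sz R (R.rot (R.rot t)) ≤
      l + 6) ∨
    (∃ t : G.Dart, G.degree t.fst = 3 ∧ G.degree t.snd = 2 ∧
      sz R t + sz R (R.rot t) + sz R (R.rot (R.rot t)) ≤ l + 8) := by
  classical
  set e := ed w ha with he
  have efst : ∀ i, (e i).fst = w i := fun i => rfl
  have esnd : ∀ i, (e i).snd = w (i + 1) := fun i => rfl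
  have einj : ∀ i j, e i = e j → i = j := fun i j h => hinj (by
    have := congrArg (fun d : G.Dart => d.fst) h
    exact this)
  have ens : ∀ i j, e i ≠ (e j).symm := by
    intro i j h
    have h1 : (e i).fst = (e j).symm.fst := by rw [h]
    have h2 : (e i).snd = (e j).symm.snd := by rw [h]
    have h3 : w i = w (j + 1) := h1
    have h4 : w (i + 1) = w j := h2
    have h5 := hinj h3
    subst h5
    exact hb j (by rw [← h4]; congr 1; ring)
  have essy : ∀ i, (e i).symm.symm = e i := fun i => SimpleGraph.Dart.symm_symm _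
  -- the flow along the cycle
  set y : G.Dart → ℚ := fun d => ∑ i, ((if d = e i then 1 else 0) - (if d = (e i).symm then 1 else 0))
    with hy
  have hsymm : ∀ d d' : G.Dart, d.symm = d' ↔ d = d'.symm := by
    intro d d'
    constructor
    · rintro rfl; simp
    · rintro rfl; simp
  obtain ⟨a, hya⟩ := exact_dual R g.plane (k := ℚ) y (by
    intro d
    rw [hy]
    simp only
    rw [← Finset.sum_neg_distrib]
    refine sum_congr rfl fun i _ => ?_
    simp only [hsymm, essy]
    ring) (by
    intro v
    rw [hy]
    simp only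
    rw [sum_comm]
    simp only [sum_sub_distrib]
    rw [sub_eq_zero]
    have h1 : ∀ i, ∑ d : G.Dart with d.fst = v, (if d = e i then (1 : ℚ) else 0) =
        if w i = v then 1 else 0 := by
      intro i
      rw [Finset.sum_ite_eq']
      simp only [mem_filter, mem_univ, true_and, efst]
    have h2 : ∀ i, ∑ d : G.Dart with d.fst = v, (if d = (e i).symm then (1 : ℚ) else 0) =
        if w (i + 1) = v then 1 else 0 := by
      intro i
      rw [Finset.sum_ite_eq']
      simp only [mem_filter, mem_univ, true_and]
      rfl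
    simp only [h1, h2]
    exact (Equiv.sum_comp (Equiv.addRight (1 : ZMod l))
      (fun i => if w i = v then (1 : ℚ) else 0)).symm)
  have hye : ∀ i, y (e i) = 1 := by
    intro i
    rw [hy]
    simp only
    rw [sum_sub_distrib]
    have h1 : ∀ j, (if e i = (e j).symm then (1 : ℚ) else 0) = 0 := fun j => if_neg (ens i j)
    have h2 : ∀ j, (if e i = e j then (1 : ℚ) else 0) = if i = j then 1 else 0 := by
      intro j
      by_cases hij : i = j
      · rw [if_pos hij, hij, if_pos rfl]
      · rw [if_neg hij, if_neg fun h => hij (einj i j h)]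
    simp only [h1, h2, sum_const_zero, sub_zero, sum_ite_eq, mem_univ, if_true]
  have hy0 : ∀ d : G.Dart, (∀ i, d ≠ e i) → (∀ i, d ≠ (e i).symm) → y d = 0 := by
    intro d h1 h2
    rw [hy]
    simp only
    refine sum_eq_zero fun i _ => ?_
    rw [if_neg (h1 i), if_neg (h2 i), sub_self]
  -- a dart at a vertex of the cycle
  have atv : ∀ i (x : G.Dart), x.fst = w (i + 1) → x ≠ (e i).symm → x ≠ e (i + 1) →
      (∀ j, x ≠ e j) ∧ (∀ j, x ≠ (e j).symm) := by
    intro i x hx h1 h2
    constructor
    · rintro j rfl
      have := hinj (show w j = w (i + 1) from hx)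
      subst this
      exact h2 rfl
    · rintro j rfl
      have := hinj (show w (j + 1) = w (i + 1) from hx)
      have h3 : j = i := add_right_cancel this
      subst h3
      exact h1 rfl
  have aoff : ∀ x : G.Dart, (∀ j, x ≠ e j) → (∀ j, x ≠ (e j).symm) →
      a (R.face x.symm) = a (R.face x) := by
    intro x h1 h2
    have h3 := hya x
    rw [hy0 x h1 h2] at h3
    linarith
  have hPQ : ∀ i, (e i).symm ≠ e (i + 1) := fun i h => ens (i + 1) i h.symm
  -- the third dart
  have thr : ∀ i, R.next (e i) ≠ e (i + 1) →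
      (∀ j, R.next (e i) ≠ e j) ∧ (∀ j, R.next (e i) ≠ (e j).symm) ∧
        R.rot (R.next (e i)) = e (i + 1) := by
    intro i hi
    have hf : (R.next (e i)).fst = w (i + 1) := R.fst_next _
    have hn : R.next (e i) ≠ (e i).symm := g.next_ne_symm _
    obtain ⟨h1, h2⟩ := atv i _ hf hn hi
    refine ⟨h1, h2, ?_⟩
    set x := R.rot.symm (e (i + 1)) with hx
    have hrx : R.rot x = e (i + 1) := by rw [hx, Equiv.apply_symm_apply]
    have hxf : x.fst = w (i + 1) := by
      have := R.fst_rot x
      rw [hrx] at this
      exact this.symm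
    have hx1 : x ≠ e (i + 1) := by
      intro h
      rw [h] at hrx
      exact g.rot_ne _ hrx
    have hx2 : x ≠ (e i).symm := by
      intro h
      rw [h] at hrx
      exact hi hrx
    have h3 : x = R.next (e i) := third_unique g.deg3 (hPQ i) rfl hxf hf hx2 hx1 hn hi
    rw [← h3, hrx]
  have aconst : ∀ i, a (R.face (e i)) = a (R.face (e (i + 1))) := by
    intro i
    by_cases hi : R.next (e i) = e (i + 1)
    · rw [← hi, R.face_next]
    · obtain ⟨h1, h2, h3⟩ := thr i hi
      rw [← h3, R.face_rot, aoff _ h1 h2, R.face_next]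
  set α := a (R.face (e 0)) with hα
  have hL : ∀ i, a (R.face (e i)) = α :=
    zind _ rfl fun i hi => by rw [← aconst i]; exact hi
  have hR : ∀ i, a (R.face (e i).symm) = α - 1 := by
    intro i
    have := hya (e i)
    rw [hye, hL] at this
    linarith
  -- the darts on the left
  set DL : Finset G.Dart := univ.filter fun d => a (R.face d) = α with hDL
  have mDL : ∀ d, d ∈ DL ↔ a (R.face d) = α := fun d => by
    rw [hDL, mem_filter]
    exact and_iff_right (mem_univ _)
  have offC : ∀ x : G.Dart, (∀ i, x.fst ≠ w i) → (∀ j, x ≠ e j) ∧ (∀ j, x ≠ (e j).symm) :=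
    fun x hx => ⟨fun j h => hx j (by rw [h, efst]), fun j h => hx (j + 1) (by rw [h]; rfl)⟩
  set A : Finset V := univ.filter fun x => (∀ i, x ≠ w i) ∧ ∃ d : G.Dart, d.fst = x ∧ d ∈ DL with hA
  have mA : ∀ x, x ∈ A ↔ (∀ i, x ≠ w i) ∧ ∃ d : G.Dart, d.fst = x ∧ d ∈ DL := fun x => by
    rw [hA, mem_filter]
    exact and_iff_right (mem_univ _)
  -- all darts at a vertex of `A` are on the left
  have hAall : ∀ d : G.Dart, d.fst ∈ A → d ∈ DL := by
    intro d hd
    rw [mA] at hd
    obtain ⟨h1, d', h2, h3⟩ := hd
    have h4 := R.cyc d' d h2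
    have h5 := sameCycle_inv (f := R.rot)
      (h := fun x : G.Dart => if (∀ i, x.fst ≠ w i) then a (R.face x) else 0) (by
        intro x
        simp only [R.fst_rot]
        by_cases hx : ∀ i, x.fst ≠ w i
        · rw [if_pos hx, if_pos hx, R.face_rot]
          obtain ⟨h6, h7⟩ := offC x hx
          exact aoff x h6 h7
        · rw [if_neg hx, if_neg hx]) h4
    simp only [h2] at h5
    rw [if_pos h1, if_pos h1] at h5
    rw [mDL, ← h5]
    exact (mDL d').1 h3
  -- the inner darts at the cycle
  set I : Finset G.Dart := DL.filter fun d => (∃ i, d.fst = w i) ∧ ∀ i, d ≠ e i with hI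
  have mI : ∀ d, d ∈ I ↔ d ∈ DL ∧ (∃ i, d.fst = w i) ∧ ∀ i, d ≠ e i := fun d => by
    rw [hI, mem_filter]
  have Ins : ∀ d ∈ I, ∀ i, d ≠ (e i).symm := by
    intro d hd i h
    rw [mI, mDL] at hd
    have h1 := hd.1
    rw [h, hR] at h1
    linarith
  have Isy : ∀ d ∈ I, d.symm ∈ DL := by
    intro d hd
    have h1 := Ins d hd
    rw [mI] at hd
    rw [mDL, aoff d hd.2.2 h1]
    exact (mDL d).1 hd.1
  have Isn : ∀ d ∈ I, d.snd ∉ A → d.symm ∈ I := by
    intro d hd hA'
    have h0 := Isy d hd
    have h1 := Ins d hd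
    rw [mI] at hd ⊢
    refine ⟨h0, ?_, fun i h => ?_⟩
    · by_contra hcon
      push Not at hcon
      exact hA' ((mA _).2 ⟨hcon, d.symm, rfl, h0⟩)
    · exact h1 i ((hsymm _ _).1 h)
  have hIN : I ⊆ (univ.filter fun i : ZMod l => R.next (e i) ≠ e (i + 1)).image
      fun i => R.next (e i) := by
    intro d hd
    have hs := Ins d hd
    rw [mI] at hd
    obtain ⟨hdL, ⟨j, hj⟩, hne⟩ := hd
    have hj' : d.fst = w ((j - 1) + 1) := by rw [hj]; congr 1; ring
    set i := j - 1 with hi
    have hn : R.next (e i) ≠ (e i).symm := g.next_ne_symm _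
    have hc : R.next (e i) ≠ e (i + 1) := by
      intro h
      -- then the third dart is on the right
      set x := R.rot.symm d with hx
      have hrx : R.rot x = d := by rw [hx, Equiv.apply_symm_apply]
      have hxf : x.fst = w (i + 1) := by
        have := R.fst_rot x
        rw [hrx] at this
        rw [← this]; exact hj'
      have hx1 : x ≠ (e i).symm := by
        intro h2
        rw [h2] at hrx
        exact hne (i + 1) (hrx.symm.trans h)
      have hx2 : x ≠ d := by
        intro h2
        rw [h2] at hrx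
        exact g.rot_ne _ hrx
      have hx3 : x = e (i + 1) := by
        by_contra hx3
        exact hx2 (third_unique g.deg3 (hPQ i) rfl hxf hj' hx1 hx3 (hs i) (hne (i + 1)))
      have h2 : R.face d = R.face (e (i + 1)).symm := by
        rw [← hrx, hx3, R.face_rot]
      have h3 := (mDL d).1 hdL
      rw [h2, hR] at h3
      linarith
    rw [mem_image]
    refine ⟨i, by simpa using hc, ?_⟩
    exact (third_unique g.deg3 (hPQ i) rfl (R.fst_next _) hj' hn hc (hs i) (hne (i + 1)))
  have hI3 : #I ≤ 3 := ((card_le_card hIN).trans card_image_le).trans hN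
  -- the two kinds of inner darts
  set IA := I.filter fun d => d.snd ∈ A with hIA
  set IC := I.filter fun d => d.snd ∉ A with hIC
  have hsplit : #IA + #IC = #I := by
    rw [hIA, hIC]
    exact card_filter_add_card_filter_not (s := I) (fun d => d.snd ∈ A)
  have hAC : ∀ d : G.Dart, d.fst ∈ A → ∀ i, d.fst ≠ w i := fun d hd i h =>
    ((mA _).1 hd).1 i h
  have hout : #{d : G.Dart | d.fst ∈ A ∧ d.snd ∉ A} = #IA := by
    refine Finset.card_bij (fun d _ => d.symm) ?_ ?_ ?_
    · intro d hd
      simp only [mem_filter, mem_univ, true_and] at hd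
      rw [hIA, mem_filter, mI]
      have h1 : d ∈ DL := hAall d hd.1
      obtain ⟨h2, h3⟩ := offC d (hAC d hd.1)
      have h4 : d.symm ∈ DL := by
        rw [mDL, aoff d h2 h3]
        exact (mDL d).1 h1
      refine ⟨⟨h4, ?_, fun i h => h3 i ((hsymm _ _).1 h)⟩, hd.1⟩
      by_contra hcon
      push Not at hcon
      exact hd.2 ((mA _).2 ⟨hcon, d.symm, rfl, h4⟩)
    · intro d _ d' _ h
      have := congrArg SimpleGraph.Dart.symm h
      simpa using this
    · intro d hd
      rw [hIA, mem_filter] at hd
      refine ⟨d.symm, ?_, by simp⟩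
      simp only [mem_filter, mem_univ, true_and]
      refine ⟨hd.2, fun h => ?_⟩
      have h1 := ((mI d).1 hd.1).2.1
      obtain ⟨i, hi⟩ := h1
      exact ((mA _).1 h).1 i hi
  have hIC2 : IC = ∅ ∨ #IC = 2 := by
    rcases IC.eq_empty_or_nonempty with h | ⟨t, ht⟩
    · exact Or.inl h
    right
    have hcl : ∀ d ∈ IC, d.symm ∈ IC := by
      intro d hd
      rw [hIC, mem_filter] at hd ⊢
      refine ⟨Isn d hd.1 hd.2, fun h => ?_⟩
      obtain ⟨i, hi⟩ := ((mI d).1 hd.1).2.1
      exact ((mA _).1 h).1 i hi
    have hts : t.symm ≠ t := SimpleGraph.Dart.symm_ne t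
    have h1 : ({t, t.symm} : Finset G.Dart) ⊆ IC := by
      intro x hx
      simp only [mem_insert, mem_singleton] at hx
      rcases hx with rfl | rfl
      · exact ht
      · exact hcl _ ht
    by_cases h2 : IC ⊆ {t, t.symm}
    · rw [Subset.antisymm h2 h1, card_pair hts.symm]
    · exfalso
      rw [not_subset] at h2
      obtain ⟨x, hx, hxn⟩ := h2
      simp only [mem_insert, mem_singleton, not_or] at hxn
      have hxs : x.symm ≠ x := SimpleGraph.Dart.symm_ne x
      have h3 : ({t, t.symm, x, x.symm} : Finset G.Dart) ⊆ IC := by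
        intro z hz
        simp only [mem_insert, mem_singleton] at hz
        rcases hz with rfl | rfl | rfl | rfl
        · exact ht
        · exact hcl _ ht
        · exact hx
        · exact hcl _ hx
      have h4 : #({t, t.symm, x, x.symm} : Finset G.Dart) = 4 := by
        rw [card_insert_of_notMem, card_insert_of_notMem, card_insert_of_notMem, card_singleton]
        · simpa using hxs.symm
        · simp only [mem_insert, mem_singleton, not_or]
          refine ⟨fun h => hxn.2 h.symm, fun h => hxn.1 ?_⟩
          have := congrArg SimpleGraph.Dart.symm h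
          simpa using this.symm
        · simp only [mem_insert, mem_singleton, not_or]
          refine ⟨hts.symm, fun h => hxn.1 h.symm, fun h => hxn.2 ?_⟩
          rw [h]; simp
      have h5 := card_le_card h3
      omega
  -- the number of darts on the left
  have hDLc : #DL ≤ l + #I + ∑ x ∈ A, G.degree x := by
    have h1 : DL ⊆ (univ.image e ∪ I) ∪ A.biUnion fun x => univ.filter fun d : G.Dart =>
        d.fst = x := by
      intro d hd
      simp only [mem_union, mem_image, mem_univ, true_and, mem_biUnion, mem_filter]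
      by_cases hc : ∃ i, d.fst = w i
      · left
        by_cases hd' : ∃ i, e i = d
        · exact Or.inl hd'
        · right
          rw [mI]
          exact ⟨hd, hc, fun i h => hd' ⟨i, h.symm⟩⟩
      · right
        push Not at hc
        exact ⟨d.fst, (mA _).2 ⟨hc, d, rfl, hd⟩, rfl⟩
    refine (card_le_card h1).trans ((card_union_le _ _).trans (add_le_add
      ((card_union_le _ _).trans (add_le_add (card_image_le.trans ?_) le_rfl))
      (card_biUnion_le.trans (sum_le_sum fun x _ => ?_))))
    · rw [card_univ, ZMod.card]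
    · exact (G.dart_fst_fiber_card_eq_degree x).le
  -- faces on the left
  have hsub : ∀ d ∈ DL, (univ.filter fun x : G.Dart => R.face x = R.face d) ⊆ DL := by
    intro d hd x hx
    simp only [mem_filter, mem_univ, true_and] at hx
    rw [mDL, hx]
    exact (mDL d).1 hd
  have two : ∀ d d' : G.Dart, d ∈ DL → d' ∈ DL → R.face d ≠ R.face d' →
      sz R d + sz R d' ≤ #DL := by
    intro d d' h1 h2 h3
    unfold sz Rot.size
    rw [← card_union_of_disjoint]
    · exact card_le_card (union_subset (hsub d h1) (hsub d' h2))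
    · rw [disjoint_filter]
      intro x _ h4 h5
      exact h3 (h4.symm.trans h5)
  have three : ∀ d d' d'' : G.Dart, d ∈ DL → d' ∈ DL → d'' ∈ DL → R.face d ≠ R.face d' →
      R.face d ≠ R.face d'' → R.face d' ≠ R.face d'' →
      sz R d + sz R d' + sz R d'' ≤ #DL := by
    intro d d' d'' h1 h2 h3 h4 h5 h6
    unfold sz Rot.size
    rw [← card_union_of_disjoint, ← card_union_of_disjoint]
    · exact card_le_card (union_subset (union_subset (hsub d h1) (hsub d' h2)) (hsub d'' h3))
    · rw [disjoint_union_left, disjoint_filter, disjoint_filter]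
      exact ⟨fun x _ h7 h8 => h5 (h7.symm.trans h8), fun x _ h7 h8 => h6 (h7.symm.trans h8)⟩
    · rw [disjoint_filter]
      intro x _ h7 h8
      exact h4 (h7.symm.trans h8)
  have rotne : ∀ d : G.Dart, R.face (R.rot d) ≠ R.face d := fun d => by
    rw [R.face_rot]
    exact (g.br d).symm
  -- the set `A` is small
  have hA2 : #A ≤ 2 := by
    rcases g.cut A (by rw [hout]; exact (Nat.le_add_right _ _).trans (hsplit.le.trans hI3)) with h | h
    · exact h
    · exfalso
      have h1 : univ.image w ⊆ Aᶜ := by
        intro x hx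
        rw [mem_image] at hx
        obtain ⟨i, -, rfl⟩ := hx
        rw [mem_compl, mA]
        exact fun h2 => h2.1 i rfl
      have h2 := card_le_card h1
      rw [card_image_of_injective _ hinj, card_univ, ZMod.card] at h2
      omega
  have degA : ∀ x ∈ A, ∀ d : G.Dart, d.fst = x → d ∈ DL := fun x hx d hd =>
    hAall d (by rw [hd]; exact hx)
  have exd : ∀ x : V, ∃ d : G.Dart, d.fst = x := by
    intro x
    have h1 : 0 < G.degree x := by have := g.deg2 x; omega
    rw [← G.dart_fst_fiber_card_eq_degree x, card_pos] at h1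
    obtain ⟨d, hd⟩ := h1
    exact ⟨d, by simpa using hd⟩
  have threeAt : ∀ x ∈ A, ∀ d : G.Dart, d.fst = x → G.degree x = 3 →
      sz R d + sz R (R.rot d) + sz R (R.rot (R.rot d)) ≤ #DL := by
    intro x hx d hd h3
    have hd3 : G.degree d.fst = 3 := by rw [hd]; exact h3
    refine three _ _ _ (degA x hx d hd) (degA x hx _ (by rw [R.fst_rot, hd]))
      (degA x hx _ (by rw [R.fst_rot, R.fst_rot, hd])) (rotne d).symm ?_ (rotne _).symm
    have h4 := rotne (R.rot (R.rot d))
    rw [rot_three R hd3] at h4
    exact h4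
  have twoAt : ∀ x ∈ A, ∀ d : G.Dart, d.fst = x → sz R d + sz R d.symm ≤ #DL := by
    intro x hx d hd
    refine two d d.symm (degA x hx d hd) ?_ (g.br d)
    have h1 := degA x hx (R.rot d) (by rw [R.fst_rot, hd])
    rw [mDL, R.face_rot] at h1
    rw [mDL]
    exact h1
  have hcase : #A = 0 ∨ #A = 1 ∨ #A = 2 := by omega
  rcases hcase with h0 | h1 | h2
  · -- nothing inside
    rw [card_eq_zero] at h0
    have hIA0 : #IA = 0 := by
      rw [← hout, h0, card_eq_zero, filter_eq_empty_iff]
      intro d _ h
      exact notMem_empty _ h.1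
    rcases hIC2 with hc | hc
    · left
      intro i
      by_contra hi
      obtain ⟨h3, h4, -⟩ := thr i hi
      have h5 : R.next (e i) ∈ I := by
        rw [mI, mDL, R.face_next]
        exact ⟨hL i, ⟨i + 1, R.fst_next _⟩, h3⟩
      rw [hIA0, hc, card_empty] at hsplit
      have h6 : I = ∅ := by
        rw [← card_eq_zero]
        omega
      rw [h6] at h5
      exact notMem_empty _ h5
    · right; left
      obtain ⟨t, ht⟩ := card_pos.1 (by omega : 0 < #IC)
      rw [hIC, mem_filter] at ht
      refine ⟨t, (two t t.symm ((mI t).1 ht.1).1 (Isy t ht.1) (g.br t)).trans ?_⟩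
      rw [h0, sum_empty] at hDLc
      omega
  · -- one vertex inside
    obtain ⟨x, hx⟩ := card_eq_one.1 h1
    have hxA : x ∈ A := by rw [hx]; exact mem_singleton_self x
    have hdeg : #IA = G.degree x := by
      rw [← hout, ← G.dart_fst_fiber_card_eq_degree x]
      congr 1
      ext d
      simp only [mem_filter, mem_univ, true_and, hx, mem_singleton]
      constructor
      · exact fun h => h.1
      · exact fun h => ⟨h, fun h2 => d.adj.ne (h.trans h2.symm)⟩
    have hdx := g.deg2 x
    have hIC0 : #IC = 0 := by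
      rcases hIC2 with hc | hc
      · rw [hc, card_empty]
      · omega
    rw [hx, sum_singleton] at hDLc
    obtain ⟨d, hd⟩ := exd x
    rcases g.deg_cases x with hd2 | hd3
    · right; right; left
      refine ⟨d, by rw [hd]; exact hd2, (twoAt x hxA d hd).trans ?_⟩
      omega
    · right; right; right; left
      refine ⟨d, by rw [hd]; exact hd3, (threeAt x hxA d hd hd3).trans ?_⟩
      omega
  · -- two vertices inside
    obtain ⟨x, y', hxy, hAe⟩ := card_eq_two.1 h2
    have hxA : x ∈ A := by rw [hAe]; simp
    have hyA : y' ∈ A := by rw [hAe]; simp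
    have hsum : ∑ z ∈ A, G.degree z = G.degree x + G.degree y' := by
      rw [hAe, sum_pair hxy]
    -- darts at `A`
    have hAt : #{d : G.Dart | d.fst ∈ A} = G.degree x + G.degree y' := by
      rw [← G.dart_fst_fiber_card_eq_degree x, ← G.dart_fst_fiber_card_eq_degree y',
        ← card_union_of_disjoint]
      · congr 1
        ext d
        simp only [mem_filter, mem_univ, true_and, hAe, mem_insert, mem_singleton, mem_union]
      · rw [disjoint_filter]
        intro d _ h3 h4
        exact hxy (h3.symm.trans h4)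
    have hAt2 : #{d : G.Dart | d.fst ∈ A ∧ d.snd ∈ A} + #IA = G.degree x + G.degree y' := by
      rw [← hAt, ← hout, ← card_union_of_disjoint]
      · congr 1
        ext d
        simp only [mem_filter, mem_univ, true_and, mem_union]
        tauto
      · rw [disjoint_filter]
        intro d _ h3 h4
        exact h4.2 h3.2
    have hdx := g.deg2 x
    have hdy := g.deg2 y'
    have hIA3 : #IA ≤ 3 := (Nat.le_add_right _ _).trans (hsplit.le.trans hI3)
    have hadj : G.Adj x y' := by
      by_contra hno
      have h3 : #{d : G.Dart | d.fst ∈ A ∧ d.snd ∈ A} = 0 := by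
        rw [card_eq_zero, filter_eq_empty_iff]
        intro d _ h4
        rw [hAe] at h4
        simp only [mem_insert, mem_singleton] at h4
        have h5 := d.adj
        rcases h4 with ⟨h6 | h6, h7 | h7⟩
        · rw [h6, h7] at h5; exact h5.ne rfl
        · rw [h6, h7] at h5; exact hno h5
        · rw [h6, h7] at h5; exact hno h5.symm
        · rw [h6, h7] at h5; exact h5.ne rfl
      omega
    have hin : #{d : G.Dart | d.fst ∈ A ∧ d.snd ∈ A} ≤ 2 := by
      have h3 : (univ.filter fun d : G.Dart => d.fst ∈ A ∧ d.snd ∈ A) ⊆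
          {(⟨(x, y'), hadj⟩ : G.Dart), (⟨(x, y'), hadj⟩ : G.Dart).symm} := by
        intro d hd
        simp only [mem_filter, mem_univ, true_and, hAe, mem_insert, mem_singleton] at hd ⊢
        have h5 := d.adj
        rcases hd with ⟨h6 | h6, h7 | h7⟩
        · rw [h6, h7] at h5; exact absurd rfl h5.ne
        · left; exact SimpleGraph.Dart.ext _ _ (Prod.ext h6 h7)
        · right; exact SimpleGraph.Dart.ext _ _ (Prod.ext h6 h7)
        · rw [h6, h7] at h5; exact absurd rfl h5.ne
      exact (card_le_card h3).trans card_le_two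
    rcases g.deg_cases x with hx2 | hx3
    · -- `x` is the vertex of degree two
      have hy3 : G.degree y' = 3 := by
        rcases g.deg_cases y' with h | h
        · exact absurd h (g.no22 x y' hadj hx2)
        · exact h
      have hIC0 : #IC = 0 := by
        rcases hIC2 with hc | hc
        · rw [hc, card_empty]
        · omega
      right; right; right; right
      refine ⟨⟨(y', x), hadj.symm⟩, hy3, hx2, (threeAt y' hyA _ rfl hy3).trans ?_⟩
      rw [hsum] at hDLc
      omega
    · have hy2 : G.degree y' = 2 := by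
        rcases g.deg_cases y' with h | h
        · exact h
        · omega
      have hIC0 : #IC = 0 := by
        rcases hIC2 with hc | hc
        · rw [hc, card_empty]
        · omega
      right; right; right; right
      refine ⟨⟨(x, y'), hadj⟩, hx3, hy2, (threeAt x hxA _ rfl hx3).trans ?_⟩
      rw [hsum] at hDLc
      omega

end cyc

end Pool.Agent.T392
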