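import Mathlib
import Pool.Agent.Work.MP_392c8e_co_t1.Facial

/-!
# Cycles of length at most seven are faces
-/

namespace Pool.Agent.T392

open Finset Pool.Agent.Sub392 Pool.Agent.OddFlow

set_option linter.unusedSectionVars false

variable {V : Type} [Fintype V] [DecidableEq V] {G : SimpleGraph V} [DecidableRel G.Adj]

/-- The configurations of faces inside a cycle of length `l` which is not a face, with at most
three edges leaving it inwards: a chord, a vertex of degree two or three, an edge. -/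
def Bad (R : Rot G) (l : ℕ) : Prop :=
  (∃ t : G.Dart, sz R t + sz R t.symm ≤ l + 2) ∨
  (∃ t : G.Dart, G.degree t.fst = 2 ∧ sz R t + sz R t.symm ≤ l + 4) ∨
  (∃ t : G.Dart, G.degree t.fst = 3 ∧ sz R t + sz R (R.rot t) + sz R (R.rot (R.rot t)) ≤
    l + 6) ∨
  (∃ t : G.Dart, G.degree t.fst = 3 ∧ G.degree t.snd = 2 ∧
    sz R t + sz R (R.rot t) + sz R (R.rot (R.rot t)) ≤ l + 8)

variable {R : Rot G}

theorem Bad.mono {l m : ℕ} (h : l ≤ m) (hb : Bad R l) : Bad R m := by
  rcases hb with ⟨t, h1⟩ | ⟨t, h1, h2⟩ | ⟨t, h1, h2⟩ | ⟨t, h1, h2, h3⟩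
  · exact Or.inl ⟨t, by omega⟩
  · exact Or.inr (Or.inl ⟨t, h1, by omega⟩)
  · exact Or.inr (Or.inr (Or.inl ⟨t, h1, by omega⟩))
  · exact Or.inr (Or.inr (Or.inr ⟨t, h1, h2, by omega⟩))

theorem sz_next2 (d : G.Dart) : sz R (R.next d) = sz R d := sz_next R d

theorem rot_two_sz (d : G.Dart) : sz R (R.rot d) = sz R d.symm := sz_rot R d

/-- Cycles of length at most five. -/
theorem Geo.not_bad5 (g : Geo R) (h42 : ∀ d : G.Dart, sz R d = 4 → G.degree d.fst ≠ 2) :
    ¬ Bad R 5 := by
  have h4 := g.four_le_sz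
  have h5 : ∀ d : G.Dart, G.degree d.fst = 2 → 5 ≤ sz R d := by
    intro d hd
    have h6 := h4 d
    by_contra h7
    exact h42 d (by omega) hd
  have h5s : ∀ d : G.Dart, G.degree d.fst = 2 → 5 ≤ sz R d.symm := by
    intro d hd
    rw [← sz_rot]
    exact h5 _ (by rw [R.fst_rot]; exact hd)
  rintro (⟨t, h1⟩ | ⟨t, h1, h2⟩ | ⟨t, h1, h2⟩ | ⟨t, h1, h2, h3⟩)
  · have := h4 t
    have := h4 t.symm
    omega
  · have := h5 t h1
    have := h5s t h1
    omega
  · have := h4 t
    have := h4 (R.rot t)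
    have := h4 (R.rot (R.rot t))
    omega
  · have e1 := h5 t.symm h2
    have e2 := h5s t.symm h2
    rw [SimpleGraph.Dart.symm_symm] at e2
    rw [sz_rot R t] at h3
    have e3 := h4 (R.rot (R.rot t))
    omega

/-- Cycles of length at most six. -/
theorem Geo.not_bad6 (g : Geo R) (h42 : ∀ d : G.Dart, sz R d = 4 → G.degree d.fst ≠ 2)
    (h44 : ∀ d : G.Dart, sz R d = 4 → sz R d.symm ≠ 4)
    (hX : ∀ d : G.Dart, G.degree d.fst = 2 → sz R d = 5 → sz R d.symm ≠ 5) :
    ¬ Bad R 6 := by
  have h4 := g.four_le_sz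
  have h5 : ∀ d : G.Dart, G.degree d.fst = 2 → 5 ≤ sz R d := by
    intro d hd
    have h6 := h4 d
    by_contra h7
    exact h42 d (by omega) hd
  have h5s : ∀ d : G.Dart, G.degree d.fst = 2 → 5 ≤ sz R d.symm := by
    intro d hd
    rw [← sz_rot]
    exact h5 _ (by rw [R.fst_rot]; exact hd)
  have h11 : ∀ d : G.Dart, G.degree d.fst = 2 → 11 ≤ sz R d + sz R d.symm := by
    intro d hd
    have e1 := h5 d hd
    have e2 := h5s d hd
    by_contra e3
    exact hX d hd (by omega) (by omega)
  have h9 : ∀ d : G.Dart, 9 ≤ sz R d + sz R d.symm := by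
    intro d
    have e1 := h4 d
    have e2 := h4 d.symm
    by_contra e3
    exact h44 d (by omega) (by omega)
  rintro (⟨t, h1⟩ | ⟨t, h1, h2⟩ | ⟨t, h1, h2⟩ | ⟨t, h1, h2, h3⟩)
  · have := h9 t
    omega
  · have := h11 t h1
    omega
  · have e1 := h9 t
    rw [sz_rot R t] at h2
    have e2 := h4 (R.rot (R.rot t))
    omega
  · have e1 := h11 t.symm h2
    rw [SimpleGraph.Dart.symm_symm] at e1
    rw [sz_rot R t] at h3
    have e3 := h4 (R.rot (R.rot t))
    omega

/-- Cycles of length at most seven. -/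
theorem Geo.not_bad7 (g : Geo R)
    (h4 : ∀ d : G.Dart, sz R d = 4 → G.degree d.fst ≠ 2 ∧ 6 ≤ sz R d.symm)
    (h5 : ∀ d : G.Dart, sz R d = 5 → G.degree d.fst ≠ 2) : ¬ Bad R 7 := by
  have h40 := g.four_le_sz
  have h6 : ∀ d : G.Dart, G.degree d.fst = 2 → 6 ≤ sz R d := by
    intro d hd
    have e1 := h40 d
    by_contra e2
    rcases (by omega : sz R d = 4 ∨ sz R d = 5) with e3 | e3
    · exact (h4 d e3).1 hd
    · exact h5 d e3 hd
  have h6s : ∀ d : G.Dart, G.degree d.fst = 2 → 6 ≤ sz R d.symm := by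
    intro d hd
    rw [← sz_rot]
    exact h6 _ (by rw [R.fst_rot]; exact hd)
  have h10 : ∀ d : G.Dart, 10 ≤ sz R d + sz R d.symm := by
    intro d
    have e1 := h40 d
    have e2 := h40 d.symm
    by_contra e3
    rcases (by omega : sz R d = 4 ∨ sz R d.symm = 4) with e4 | e4
    · have := (h4 d e4).2
      omega
    · have := (h4 d.symm e4).2
      rw [SimpleGraph.Dart.symm_symm] at this
      omega
  rintro (⟨t, h1⟩ | ⟨t, h1, h2⟩ | ⟨t, h1, h2⟩ | ⟨t, h1, h2, h3⟩)
  · have := h10 t
    omega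
  · have := h6 t h1
    have := h6s t h1
    omega
  · have e1 := h10 t
    have e2 := h10 (R.rot t)
    rw [← sz_rot R (R.rot t)] at e2
    rw [← sz_rot R t] at e1
    have e3 := h40 t
    have e4 := h40 (R.rot t)
    have e5 := h40 (R.rot (R.rot t))
    omega
  · have e1 := h6 t.symm h2
    have e2 := h6s t.symm h2
    rw [SimpleGraph.Dart.symm_symm] at e2
    rw [sz_rot R t] at h3
    have e3 := h40 (R.rot (R.rot t))
    omega

section cyc

variable {l : ℕ} [NeZero l]

/-- **The two sides of a short cycle.** -/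
theorem Geo.sides (g : Geo R) (hl : l ≤ 7) (hbad : ¬ Bad R l) (w : ZMod l → V)
    (ha : ∀ i, G.Adj (w i) (w (i + 1))) (hb : ∀ i, w i ≠ w (i + 2)) :
    (∀ i, R.next (ed w ha i) = ed w ha (i + 1)) ∨
      (∀ i, R.rot (ed w ha (i + 1)) = (ed w ha i).symm) := by
  classical
  have hinj := inj_of_short g.tri hl w ha hb
  have hl4 := four_le_of_short g.tri w ha hb
  -- the reversed walk
  set w' : ZMod l → V := fun i => w (-i) with hw'
  have ha' : ∀ i, G.Adj (w' i) (w' (i + 1)) := by
    intro i
    have h1 := ha (-(i + 1))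
    rw [show -(i + 1) + 1 = -i by ring] at h1
    exact h1.symm
  have hb' : ∀ i, w' i ≠ w' (i + 2) := by
    intro i h
    have h1 := hb (-(i + 2))
    rw [show -(i + 2) + 2 = -i by ring] at h1
    exact h1 h.symm
  have hinj' : Function.Injective w' := fun i j h => neg_injective (hinj h)
  have hed : ∀ i, ed w' ha' (-(i + 2)) = (ed w ha (i + 1)).symm := by
    intro i
    refine SimpleGraph.Dart.ext _ _ (Prod.ext ?_ ?_)
    · show w (- -(i + 2)) = w (i + 1 + 1)
      congr 1
      ring
    · show w (-(-(i + 2) + 1)) = w (i + 1)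
      congr 1
      ring
  have hed2 : ∀ i, ed w' ha' (-(i + 2) + 1) = (ed w ha i).symm := by
    intro i
    refine SimpleGraph.Dart.ext _ _ (Prod.ext ?_ ?_)
    · show w (-(-(i + 2) + 1)) = w (i + 1)
      congr 1
      ring
    · show w (-(-(i + 2) + 1 + 1)) = w i
      congr 1
      ring
  have hPQ : ∀ i, (ed w ha i).symm ≠ ed w ha (i + 1) := by
    intro i h
    have h1 : (ed w ha i).symm.snd = (ed w ha (i + 1)).snd := by rw [h]
    have h2 : w i = w (i + 1 + 1) := h1
    exact hb i (by rw [h2]; congr 1; ring)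
  have hcount : #{i : ZMod l | R.next (ed w ha i) ≠ ed w ha (i + 1)} +
      #{i : ZMod l | R.next (ed w' ha' i) ≠ ed w' ha' (i + 1)} ≤ l := by
    have h1 : #{i : ZMod l | R.next (ed w' ha' i) ≠ ed w' ha' (i + 1)} =
        #{i : ZMod l | R.rot (ed w ha (i + 1)) ≠ (ed w ha i).symm} := by
      symm
      refine Finset.card_bij (fun i _ => -(i + 2)) ?_ ?_ ?_
      · intro i hi
        simp only [mem_filter, mem_univ, true_and] at hi ⊢
        rw [hed, hed2, next_eq, SimpleGraph.Dart.symm_symm]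
        exact hi
      · intro i _ j _ h
        have := neg_injective h
        exact add_right_cancel this
      · intro j hj
        refine ⟨-j - 2, ?_, by ring⟩
        simp only [mem_filter, mem_univ, true_and] at hj ⊢
        have e1 := hed (-j - 2)
        have e2 := hed2 (-j - 2)
        rw [show -(-j - 2 + 2) = j by ring] at e1 e2
        rw [e1, e2, next_eq, SimpleGraph.Dart.symm_symm] at hj
        exact hj
    rw [h1, ← card_union_of_disjoint]
    · refine (card_le_univ _).trans ?_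
      rw [ZMod.card]
    · rw [disjoint_filter]
      intro i _ h2 h3
      have h4 : R.next (ed w ha i) = R.rot (ed w ha (i + 1)) := by
        refine third_unique g.deg3 (hPQ i) rfl (R.fst_next _) (R.fst_rot _)
          (g.next_ne_symm _) h2 h3 (g.rot_ne _)
      rw [next_eq] at h4
      exact hPQ i (R.rot.injective h4)
  rcases (by omega : #{i : ZMod l | R.next (ed w ha i) ≠ ed w ha (i + 1)} ≤ 3 ∨
    #{i : ZMod l | R.next (ed w' ha' i) ≠ ed w' ha' (i + 1)} ≤ 3) with h | h
  · rcases g.left w ha hb hinj hl4 h with h1 | h1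
    · exact Or.inl h1
    · exact absurd h1 hbad
  · rcases g.left w' ha' hb' hinj' hl4 h with h1 | h1
    · right
      intro i
      have h2 := h1 (-(i + 2))
      rw [hed, hed2, next_eq, SimpleGraph.Dart.symm_symm] at h2
      exact h2
    · exact absurd h1 hbad

/-- **Corners.**  A closed walk of length at most seven through a corner of a face at a vertex of
degree three is the boundary of this face. -/
theorem Geo.corner (g : Geo R) (hl : l ≤ 7) (hbad : ¬ Bad R l) (w : ZMod l → V)
    (ha : ∀ i, G.Adj (w i) (w (i + 1))) (hb : ∀ i, w i ≠ w (i + 2)) (d : G.Dart)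
    (h0 : d.fst = w 0) (h1 : d.snd = w 1) (h2 : (R.next d).snd = w 2)
    (hdeg : G.degree (w 1) = 3) : sz R d = l ∧ ∀ i : ℕ, (R.next^[i] d).fst = w i := by
  have hd : d = ed w ha 0 := SimpleGraph.Dart.ext _ _ (Prod.ext h0 (by
    show d.snd = w (0 + 1)
    rw [h1, zero_add]))
  have hd1 : R.next d = ed w ha 1 := SimpleGraph.Dart.ext _ _ (Prod.ext (by
    show (R.next d).fst = w 1
    rw [R.fst_next, h1]) (by
    show (R.next d).snd = w (1 + 1)
    rw [h2, one_add_one_eq_two]))
  have key : ∀ i, R.next (ed w ha i) = ed w ha (i + 1) := by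
    rcases g.sides hl hbad w ha hb with h | h
    · exact h
    · exfalso
      have h3 := h 0
      rw [zero_add, ← hd1, ← hd, next_eq] at h3
      have h4 : G.degree d.symm.fst ∣ 2 := by
        rw [deg_eq R]
        exact Function.IsPeriodicPt.minimalPeriod_dvd (n := 2) h3
      have h5 : G.degree d.symm.fst = 3 := by
        have : d.symm.fst = w 1 := h1
        rw [this]; exact hdeg
      rw [h5] at h4
      omega
  have h3 : ∀ i : ℕ, R.next^[i] d = ed w ha i := by
    intro i
    induction i with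
    | zero => simpa using hd
    | succ n ih => rw [Function.iterate_succ_apply', ih, key]; congr 1; push_cast; rfl
  refine ⟨?_, fun i => by rw [h3]; rfl⟩
  have h4 : R.next^[l] d = d := by
    rw [h3, hd, ZMod.natCast_self]
  have h5 := sz_le R (Nat.pos_of_ne_zero (NeZero.ne l)) h4
  have h6 := g.four_le_sz d
  obtain ⟨k, hk⟩ := h5
  have h7 : k = 1 := by
    have hl0 := NeZero.ne l
    rcases (by omega : k = 0 ∨ k = 1 ∨ 2 ≤ k) with h | h | h
    · subst h; omega
    · exact h
    · exfalso
      nlinarith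
  subst h7
  omega

/-- Corners, opposite direction. -/
theorem Geo.corner' (g : Geo R) (hl : l ≤ 7) (hbad : ¬ Bad R l) (w : ZMod l → V)
    (ha : ∀ i, G.Adj (w i) (w (i + 1))) (hb : ∀ i, w i ≠ w (i + 2)) (d : G.Dart)
    (h0 : d.fst = w 2) (h1 : d.snd = w 1) (h2 : (R.next d).snd = w 0)
    (hdeg : G.degree (w 1) = 3) :
    sz R d = l ∧ ∀ i : ℕ, (R.next^[i] d).fst = w (2 - i) := by
  refine g.corner hl hbad (fun i => w (2 - i)) ?_ ?_ d ?_ ?_ ?_ ?_
  · intro i
    have h3 := ha (2 - (i + 1))
    rw [show (2 - (i + 1) + 1 : ZMod l) = 2 - i by ring] at h3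
    exact h3.symm
  · intro i h
    have h3 := hb (2 - (i + 2))
    rw [show (2 - (i + 2) + 2 : ZMod l) = 2 - i by ring] at h3
    exact h3 h.symm
  · rw [h0]; congr 1; ring
  · rw [h1]; congr 1; ring
  · rw [h2]; congr 1; ring
  · show G.degree (w (2 - 1)) = 3
    rw [show (2 - 1 : ZMod l) = 1 by ring]; exact hdeg

/-- **Short cycles are faces.** -/
theorem Geo.is_face (g : Geo R) (hl : l ≤ 7) (hbad : ¬ Bad R l) (w : ZMod l → V)
    (ha : ∀ i, G.Adj (w i) (w (i + 1))) (hb : ∀ i, w i ≠ w (i + 2)) :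
    (∃ d : G.Dart, sz R d = l ∧ ∀ i : ℕ, (R.next^[i] d).fst = w i) ∨
      (∃ d : G.Dart, sz R d = l ∧ ∀ i : ℕ, (R.next^[i] d).fst = w (-i)) := by
  have szl : ∀ d : G.Dart, R.next^[l] d = d → sz R d = l := by
    intro d h4
    have h5 := sz_le R (Nat.pos_of_ne_zero (NeZero.ne l)) h4
    have h6 := g.four_le_sz d
    obtain ⟨k, hk⟩ := h5
    have h7 : k = 1 := by
      have hl0 := NeZero.ne l
      rcases (by omega : k = 0 ∨ k = 1 ∨ 2 ≤ k) with h | h | h
      · subst h; omega
      · exact h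
      · exfalso
        nlinarith
    subst h7
    omega
  rcases g.sides hl hbad w ha hb with h | h
  · left
    have h3 : ∀ i : ℕ, R.next^[i] (ed w ha 0) = ed w ha i := by
      intro i
      induction i with
      | zero => simp
      | succ n ih => rw [Function.iterate_succ_apply', ih, h]; congr 1; push_cast; rfl
    refine ⟨ed w ha 0, szl _ ?_, fun i => by rw [h3]; rfl⟩
    rw [h3, ZMod.natCast_self]
  · right
    have h3 : ∀ i : ℕ, R.next^[i] (ed w ha (-1)).symm = (ed w ha (-1 - i)).symm := by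
      intro i
      induction i with
      | zero => simp
      | succ n ih =>
        rw [Function.iterate_succ_apply', ih, next_eq, SimpleGraph.Dart.symm_symm]
        have := h (-1 - n - 1)
        rw [sub_add_cancel] at this
        rw [this]
        congr 2
        push_cast
        ring
    refine ⟨(ed w ha (-1)).symm, szl _ ?_, fun i => ?_⟩
    · rw [h3, ZMod.natCast_self, sub_zero]
    · rw [h3]
      show w (-1 - i + 1) = w (-i)
      congr 1
      ring

end cyc

end Pool.Agent.T392
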