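import Mathlib

/-!
# Side conditions of clusters

Closed non-backtracking walks are lists of vertices.  A cluster is given by labels and a map `f`
to the vertices of the graph.  From the uniqueness of short closed walks through a corner the
checker derives that labels are distinct, not adjacent, or without a common neighbour.
-/

namespace Pool.T1Side

section walks

variable {V : Type*} (G : SimpleGraph V)

/-- Consecutive vertices are adjacent and there is no turning back. -/
def Tr : List V → Prop
  | a :: b :: c :: l => G.Adj a b ∧ a ≠ c ∧ Tr (b :: c :: l)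
  | _ => True

/-- The list is a closed walk without turning back. -/
def NB (l : List V) : Prop := Tr G (l ++ l.take 2)

/-- Two closed walks through a common corner are equal if their lengths are allowed by `A`
(the arguments of `A` are the lengths minus three). -/
def Corner (A : ℕ → ℕ → Bool) : Prop :=
  ∀ a v b l l', NB G (a :: v :: b :: l) → NB G (a :: v :: b :: l') →
    A l.length l'.length = true → l = l'

/-- Two closed walks through a common edge are equal if their lengths are allowed by `B`
(the arguments of `B` are the lengths minus two; for different lengths this means that there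
are no such walks). -/
def EdgeEq (B : ℕ → ℕ → Bool) : Prop :=
  ∀ a v l l', NB G (a :: v :: l) → NB G (a :: v :: l') → B l.length l'.length = true → l = l'

end walks

/-- The facts about the labels. -/
structure St where
  adj : List (ℕ × ℕ)
  ne : List (ℕ × ℕ)
  na : List (ℕ × ℕ)
  cn : List (ℕ × ℕ)

variable {V : Type*} {G : SimpleGraph V}

/-- The facts are true for the map `f`; `I` are the interior labels. -/
def St.Ok (G : SimpleGraph V) (I : List ℕ) (f : ℕ → V) (s : St) : Prop :=
  (∀ e ∈ s.adj, G.Adj (f e.1) (f e.2)) ∧ (∀ e ∈ s.ne, f e.1 ≠ f e.2) ∧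
    (∀ e ∈ s.na, ¬ G.Adj (f e.1) (f e.2)) ∧
    (∀ e ∈ s.cn, ∀ w, (∀ k ∈ I, w ≠ f k) → G.Adj (f e.1) w → G.Adj (f e.2) w → False)

/-- Membership of a pair in either order. -/
def has (l : List (ℕ × ℕ)) (i j : ℕ) : Bool :=
  l.any fun e => (e.1 == i && e.2 == j) || (e.1 == j && e.2 == i)

theorem has_spec {l : List (ℕ × ℕ)} {i j : ℕ} (h : has l i j = true) :
    (i, j) ∈ l ∨ (j, i) ∈ l := by
  unfold has at h
  rw [List.any_eq_true] at h
  obtain ⟨e, he, h⟩ := h
  rw [Bool.or_eq_true, Bool.and_eq_true, Bool.and_eq_true, beq_iff_eq, beq_iff_eq, beq_iff_eq,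
    beq_iff_eq] at h
  rcases h with ⟨h1, h2⟩ | ⟨h1, h2⟩
  · exact Or.inl (h1 ▸ h2 ▸ he)
  · exact Or.inr (h1 ▸ h2 ▸ he)

theorem St.Ok.adj {I : List ℕ} {f : ℕ → V} {s : St} (h : s.Ok G I f) {i j : ℕ}
    (hij : has s.adj i j = true) : G.Adj (f i) (f j) := by
  rcases has_spec hij with h1 | h1
  · exact h.1 _ h1
  · exact (h.1 _ h1).symm

theorem St.Ok.ne {I : List ℕ} {f : ℕ → V} {s : St} (h : s.Ok G I f) {i j : ℕ}
    (hij : has s.ne i j = true) : f i ≠ f j := by
  rcases has_spec hij with h1 | h1
  · exact h.2.1 _ h1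
  · exact (h.2.1 _ h1).symm

theorem St.Ok.na {I : List ℕ} {f : ℕ → V} {s : St} (h : s.Ok G I f) {i j : ℕ}
    (hij : has s.na i j = true) : ¬ G.Adj (f i) (f j) := by
  rcases has_spec hij with h1 | h1
  · exact h.2.2.1 _ h1
  · exact fun h2 => h.2.2.1 _ h1 h2.symm

theorem St.Ok.cn {I : List ℕ} {f : ℕ → V} {s : St} (h : s.Ok G I f) {i j : ℕ}
    (hij : has s.cn i j = true) (w : V) (hw : ∀ k ∈ I, w ≠ f k) (h1 : G.Adj (f i) w)
    (h2 : G.Adj (f j) w) : False := by
  rcases has_spec hij with h3 | h3
  · exact h.2.2.2 _ h3 w hw h1 h2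
  · exact h.2.2.2 _ h3 w hw h2 h1

/-- The test of a walk. -/
def St.trB (s : St) : List ℕ → Bool
  | a :: b :: c :: l => has s.adj a b && has s.ne a c && s.trB (b :: c :: l)
  | _ => true

/-- The test of a closed walk. -/
def St.nbB (s : St) (l : List ℕ) : Bool := s.trB (l ++ l.take 2)

theorem St.Ok.trB {I : List ℕ} {f : ℕ → V} {s : St} (h : s.Ok G I f) :
    ∀ l : List ℕ, s.trB l = true → Tr G (l.map f)
  | [], _ => trivial
  | [_], _ => trivial
  | [_, _], _ => trivial
  | a :: b :: c :: l, hl => by
    unfold St.trB at hl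
    rw [Bool.and_eq_true, Bool.and_eq_true] at hl
    exact ⟨h.adj hl.1.1, h.ne hl.1.2, St.Ok.trB h (b :: c :: l) hl.2⟩

theorem St.Ok.nbB {I : List ℕ} {f : ℕ → V} {s : St} (h : s.Ok G I f) {l : List ℕ}
    (hl : s.nbB l = true) : NB G (l.map f) := by
  have := h.trB _ hl
  rw [List.map_append, List.map_take] at this
  exact this

/-- The lists are different. -/
def St.dif (s : St) : List ℕ → List ℕ → Bool
  | [], [] => false
  | [], _ :: _ => true
  | _ :: _, [] => true
  | a :: l, b :: l' => has s.ne a b || s.dif l l'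

theorem St.Ok.dif {I : List ℕ} {f : ℕ → V} {s : St} (h : s.Ok G I f) :
    ∀ l l' : List ℕ, s.dif l l' = true → l.map f ≠ l'.map f
  | [], [], hd => by simp [St.dif] at hd
  | [], _ :: _, _ => by simp
  | _ :: _, [], _ => by simp
  | a :: l, b :: l', hd => by
    unfold St.dif at hd
    rw [Bool.or_eq_true] at hd
    intro he
    rw [List.map_cons, List.map_cons, List.cons.injEq] at he
    rcases hd with hd | hd
    · exact h.ne hd he.1
    · exact St.Ok.dif h l l' hd he.2

/-- Certificates of contradictions. -/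
inductive Cert
  /-- two closed walks through a common corner -/
  | corner (a v b : ℕ) (l l' : List ℕ)
  /-- two closed walks through a common edge -/
  | edge (a v : ℕ) (l l' : List ℕ)
  /-- a triangle -/
  | tri (a b c : ℕ)
  /-- a label different from itself -/
  | self (a : ℕ)
  /-- adjacent labels which are not adjacent -/
  | nadj (a b : ℕ)

/-- The check of a contradiction. -/
def St.ref (A B : ℕ → ℕ → Bool) (s : St) : Cert → Bool
  | .corner a v b l l' => s.nbB (a :: v :: b :: l) && s.nbB (a :: v :: b :: l') &&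
      A l.length l'.length && s.dif l l'
  | .edge a v l l' => s.nbB (a :: v :: l) && s.nbB (a :: v :: l') && B l.length l'.length &&
      s.dif l l'
  | .tri a b c => has s.adj a b && has s.adj b c && has s.adj a c
  | .self a => has s.ne a a || has s.adj a a
  | .nadj a b => has s.adj a b && has s.na a b

/-- The rules of the graph. -/
structure Rules (G : SimpleGraph V) (A B : ℕ → ℕ → Bool) : Prop where
  tri : G.CliqueFree 3
  corner : Corner G A
  edge : EdgeEq G B

theorem no_tri (h : G.CliqueFree 3) {a b c : V} (hab : G.Adj a b) (hbc : G.Adj b c)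
    (hac : G.Adj a c) : False := by
  classical
  exact h {a, b, c} (SimpleGraph.is3Clique_triple_iff.2 ⟨hab, hac, hbc⟩)

theorem St.Ok.ref {A B : ℕ → ℕ → Bool} (hG : Rules G A B) {I : List ℕ} {f : ℕ → V} {s : St}
    (h : s.Ok G I f) {c : Cert} (hc : s.ref A B c = true) : False := by
  cases c with
  | corner a v b l l' =>
    simp only [St.ref, Bool.and_eq_true] at hc
    obtain ⟨⟨⟨h1, h2⟩, h3⟩, h4⟩ := hc
    refine h.dif l l' h4 (hG.corner (f a) (f v) (f b) (l.map f) (l'.map f) (h.nbB h1) (h.nbB h2)
      ?_)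
    rw [List.length_map, List.length_map]
    exact h3
  | edge a v l l' =>
    simp only [St.ref, Bool.and_eq_true] at hc
    obtain ⟨⟨⟨h1, h2⟩, h3⟩, h4⟩ := hc
    refine h.dif l l' h4 (hG.edge (f a) (f v) (l.map f) (l'.map f) (h.nbB h1) (h.nbB h2) ?_)
    rw [List.length_map, List.length_map]
    exact h3
  | tri a b c =>
    simp only [St.ref, Bool.and_eq_true] at hc
    exact no_tri hG.tri (h.adj hc.1.1) (h.adj hc.1.2) (h.adj hc.2)
  | self a =>
    simp only [St.ref, Bool.or_eq_true] at hc
    rcases hc with hc | hc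
    · exact h.ne hc rfl
    · exact (h.adj hc).ne rfl
  | nadj a b =>
    simp only [St.ref, Bool.and_eq_true] at hc
    exact h.na hc.2 (h.adj hc.1)

/-- Replace the label `j` by `i`. -/
def rep (i j x : ℕ) : ℕ := cond (x == j) i x

/-- Replace in all pairs. -/
def repL (i j : ℕ) (l : List (ℕ × ℕ)) : List (ℕ × ℕ) := l.map fun e => (rep i j e.1, rep i j e.2)

theorem rep_spec {f : ℕ → V} {i j : ℕ} (h : f i = f j) (x : ℕ) : f (rep i j x) = f x := by
  unfold rep
  cases hx : x == j
  · rfl
  · rw [cond_true, h, beq_iff_eq.1 hx]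

theorem mem_repL {i j : ℕ} {l : List (ℕ × ℕ)} {e : ℕ × ℕ} (h : e ∈ repL i j l) :
    ∃ e' ∈ l, e = (rep i j e'.1, rep i j e'.2) := by
  unfold repL at h
  rw [List.mem_map] at h
  obtain ⟨e', h1, h2⟩ := h
  exact ⟨e', h1, h2.symm⟩

/-- The labels `i` and `j` are identified. -/
def St.ident (s : St) (i j : ℕ) : St := ⟨repL i j s.adj, repL i j s.ne, repL i j s.na, []⟩

theorem St.Ok.ident {I : List ℕ} {f : ℕ → V} {s : St} (h : s.Ok G I f) {i j : ℕ}
    (hij : f i = f j) : (s.ident i j).Ok G I f := by
  refine ⟨fun e he => ?_, fun e he => ?_, fun e he => ?_, fun e he => by simp [St.ident] at he⟩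
  · obtain ⟨e', h1, rfl⟩ := mem_repL he
    rw [rep_spec hij, rep_spec hij]
    exact h.1 _ h1
  · obtain ⟨e', h1, rfl⟩ := mem_repL he
    rw [rep_spec hij, rep_spec hij]
    exact h.2.1 _ h1
  · obtain ⟨e', h1, rfl⟩ := mem_repL he
    rw [rep_spec hij, rep_spec hij]
    exact h.2.2.1 _ h1

/-- The labels `i` and `j` are adjacent. -/
def St.join (s : St) (i j : ℕ) : St := ⟨(i, j) :: s.adj, (i, j) :: s.ne, s.na, []⟩

theorem St.Ok.join {I : List ℕ} {f : ℕ → V} {s : St} (h : s.Ok G I f) {i j : ℕ}
    (hij : G.Adj (f i) (f j)) : (s.join i j).Ok G I f := by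
  refine ⟨fun e he => ?_, fun e he => ?_, h.2.2.1, fun e he => by simp [St.join] at he⟩
  · rcases List.mem_cons.1 he with rfl | he
    · exact hij
    · exact h.1 _ he
  · rcases List.mem_cons.1 he with rfl | he
    · exact hij.ne
    · exact h.2.1 _ he

/-- A new label `n` adjacent to `i` and `j`, different from the interior labels. -/
def St.common (s : St) (I : List ℕ) (n i j : ℕ) : St :=
  ⟨(i, n) :: (j, n) :: s.adj, (i, n) :: (j, n) :: (I.map fun k => (n, k)) ++ s.ne, s.na, []⟩

/-- All labels are below `n`. -/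
def below (n : ℕ) (l : List (ℕ × ℕ)) : Bool := l.all fun e => Nat.blt e.1 n && Nat.blt e.2 n

theorem below_spec {n : ℕ} {l : List (ℕ × ℕ)} (h : below n l = true) {e : ℕ × ℕ} (he : e ∈ l) :
    e.1 < n ∧ e.2 < n := by
  unfold below at h
  rw [List.all_eq_true] at h
  have := h e he
  rw [Bool.and_eq_true] at this
  exact ⟨by simpa using this.1, by simpa using this.2⟩

theorem St.Ok.common {I : List ℕ} {f : ℕ → V} {s : St} (h : s.Ok G I f) {n i j : ℕ}
    (h1 : below n s.adj = true) (h2 : below n s.ne = true) (h3 : below n s.na = true)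
    (hI : ∀ k ∈ I, k < n) (hi : i < n) (hj : j < n) {w : V} (hw : ∀ k ∈ I, w ≠ f k)
    (hiw : G.Adj (f i) w) (hjw : G.Adj (f j) w) :
    (s.common I n i j).Ok G I (fun x => if x = n then w else f x) := by
  have hf : ∀ x, x < n → (if x = n then w else f x) = f x := fun x hx => if_neg (by omega)
  refine ⟨fun e he => ?_, fun e he => ?_, fun e he => ?_, fun e he => by simp [St.common] at he⟩
  · unfold St.common at he
    simp only [List.mem_cons] at he
    rcases he with rfl | rfl | he
    · show G.Adj (if i = n then w else f i) (if n = n then w else f n)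
      rw [hf i hi, if_pos rfl]
      exact hiw
    · show G.Adj (if j = n then w else f j) (if n = n then w else f n)
      rw [hf j hj, if_pos rfl]
      exact hjw
    · have h4 := below_spec h1 he
      show G.Adj (if e.1 = n then w else f e.1) (if e.2 = n then w else f e.2)
      rw [hf _ h4.1, hf _ h4.2]
      exact h.1 _ he
  · unfold St.common at he
    simp only [List.cons_append, List.mem_cons, List.mem_append, List.mem_map] at he
    rcases he with rfl | rfl | ⟨k, hk, rfl⟩ | he
    · show (if i = n then w else f i) ≠ (if n = n then w else f n)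
      rw [hf i hi, if_pos rfl]
      exact hiw.ne
    · show (if j = n then w else f j) ≠ (if n = n then w else f n)
      rw [hf j hj, if_pos rfl]
      exact hjw.ne
    · show (if n = n then w else f n) ≠ (if k = n then w else f k)
      rw [hf k (hI k hk), if_pos rfl]
      exact hw k hk
    · have h4 := below_spec h2 he
      show (if e.1 = n then w else f e.1) ≠ (if e.2 = n then w else f e.2)
      rw [hf _ h4.1, hf _ h4.2]
      exact h.2.1 _ he
  · have he' : e ∈ s.na := he
    have h4 := below_spec h3 he'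
    show ¬ G.Adj (if e.1 = n then w else f e.1) (if e.2 = n then w else f e.2)
    rw [hf _ h4.1, hf _ h4.2]
    exact h.2.2.1 _ he'

/-- The steps. -/
inductive Step
  /-- the labels are different -/
  | ne (i j : ℕ) (c : Cert)
  /-- the labels are not adjacent -/
  | na (i j : ℕ) (c : Cert)
  /-- the labels have no common neighbour outside; the new label is `n` -/
  | cn (i j n : ℕ) (c : Cert)

/-- One step. -/
def St.step (A B : ℕ → ℕ → Bool) (I : List ℕ) (s : St) : Step → Option St
  | .ne i j c => cond ((s.ident i j).ref A B c) (some ⟨s.adj, (i, j) :: s.ne, s.na, s.cn⟩) none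
  | .na i j c => cond ((s.join i j).ref A B c) (some ⟨s.adj, s.ne, (i, j) :: s.na, s.cn⟩) none
  | .cn i j n c =>
    cond (below n s.adj && below n s.ne && below n s.na && (I.all fun k => Nat.blt k n) &&
      Nat.blt i n && Nat.blt j n && (s.common I n i j).ref A B c)
      (some ⟨s.adj, s.ne, s.na, (i, j) :: s.cn⟩) none

theorem St.Ok.step {A B : ℕ → ℕ → Bool} (hG : Rules G A B) {I : List ℕ} {f : ℕ → V} {s s' : St}
    (h : s.Ok G I f) {t : Step} (hs : s.step A B I t = some s') : s'.Ok G I f := by
  cases t with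
  | ne i j c =>
    unfold St.step at hs
    cases hc : (s.ident i j).ref A B c
    · simp [hc] at hs
    · simp only [hc, cond_true, Option.some.injEq] at hs
      subst hs
      refine ⟨h.1, fun e he => ?_, h.2.2.1, h.2.2.2⟩
      rcases List.mem_cons.1 he with rfl | he
      · exact fun hij => (h.ident hij).ref hG hc
      · exact h.2.1 _ he
  | na i j c =>
    unfold St.step at hs
    cases hc : (s.join i j).ref A B c
    · simp [hc] at hs
    · simp only [hc, cond_true, Option.some.injEq] at hs
      subst hs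
      refine ⟨h.1, h.2.1, fun e he => ?_, h.2.2.2⟩
      rcases List.mem_cons.1 he with rfl | he
      · exact fun hij => (h.join hij).ref hG hc
      · exact h.2.2.1 _ he
  | cn i j n c =>
    unfold St.step at hs
    cases hc : (below n s.adj && below n s.ne && below n s.na && (I.all fun k => Nat.blt k n) &&
      Nat.blt i n && Nat.blt j n && (s.common I n i j).ref A B c)
    · simp [hc] at hs
    · simp only [hc, cond_true, Option.some.injEq] at hs
      subst hs
      simp only [Bool.and_eq_true, List.all_eq_true] at hc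
      obtain ⟨⟨⟨⟨⟨⟨h1, h2⟩, h3⟩, h4⟩, h5⟩, h6⟩, h7⟩ := hc
      refine ⟨h.1, h.2.1, h.2.2.1, fun e he => ?_⟩
      rcases List.mem_cons.1 he with rfl | he
      · intro w hw hiw hjw
        exact (h.common h1 h2 h3 (fun k hk => by simpa using h4 k hk) (by simpa using h5)
          (by simpa using h6) hw hiw hjw).ref hG h7
      · exact h.2.2.2 _ he

/-- All steps. -/
def St.run (A B : ℕ → ℕ → Bool) (I : List ℕ) : List Step → St → Option St
  | [], s => some s
  | t :: ts, s => match s.step A B I t with
    | none => none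
    | some s' => St.run A B I ts s'

theorem St.Ok.run {A B : ℕ → ℕ → Bool} (hG : Rules G A B) {I : List ℕ} {f : ℕ → V} :
    ∀ (ts : List Step) (s s' : St), s.Ok G I f → St.run A B I ts s = some s' → s'.Ok G I f
  | [], s, s', h, hs => by
    have : s = s' := by simpa [St.run] using hs
    exact this ▸ h
  | t :: ts, s, s', h, hs => by
    unfold St.run at hs
    split at hs
    · exact absurd hs (by simp)
    · rename_i s1 h1
      exact St.Ok.run hG ts s1 s' (h.step hG h1) hs

/-- The neighbours of a label. -/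
def nbs (ed : List (ℕ × ℕ)) (i : ℕ) : List ℕ :=
  (ed.filter fun e => e.1 == i).map (·.2) ++ (ed.filter fun e => e.2 == i).map (·.1)

/-- The pairs of a list. -/
def pairs : List ℕ → List (ℕ × ℕ)
  | [] => []
  | a :: l => l.map (fun b => (a, b)) ++ pairs l

/-- The initial state of the cluster with the edges `ed` and the interior labels `I`. -/
def St.start (ed : List (ℕ × ℕ)) (I : List ℕ) : St :=
  ⟨ed, ed ++ I.flatMap (fun i => pairs (nbs ed i)), [], []⟩

/-- `f` is a copy of the cluster. -/
structure Copy (G : SimpleGraph V) (ed : List (ℕ × ℕ)) (I : List ℕ) (f : ℕ → V) : Prop where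
  adj : ∀ e ∈ ed, G.Adj (f e.1) (f e.2)
  ne : ∀ i ∈ I, ∀ e ∈ pairs (nbs ed i), f e.1 ≠ f e.2

theorem Copy.start {ed : List (ℕ × ℕ)} {I : List ℕ} {f : ℕ → V} (h : Copy G ed I f) :
    (St.start ed I).Ok G I f := by
  refine ⟨h.adj, fun e he => ?_, fun e he => by simp [St.start] at he,
    fun e he => by simp [St.start] at he⟩
  unfold St.start at he
  rw [List.mem_append, List.mem_flatMap] at he
  rcases he with he | ⟨i, hi, he⟩
  · exact (h.adj e he).ne
  · exact h.ne i hi e he

/-- All pairs of labels below `n` are different. -/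
def allNe (n : ℕ) (ne : List (ℕ × ℕ)) : Bool :=
  (pairs (List.range n)).all fun e => has ne e.1 e.2

theorem mem_pairs : ∀ {l : List ℕ}, l.Pairwise (· < ·) → ∀ {i j : ℕ}, i ∈ l → j ∈ l → i < j →
    (i, j) ∈ pairs l
  | [], _, _, _, h, _, _ => by simp at h
  | a :: l, hp, i, j, hi, hj, hij => by
    unfold pairs
    rw [List.pairwise_cons] at hp
    rw [List.mem_append]
    rcases List.mem_cons.1 hi with h1 | h1
    · rcases List.mem_cons.1 hj with h2 | h2
      · omega
      · exact Or.inl (List.mem_map.2 ⟨j, h2, by rw [h1]⟩)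
    · rcases List.mem_cons.1 hj with h2 | h2
      · have := hp.1 i h1
        omega
      · exact Or.inr (mem_pairs hp.2 h1 h2 hij)

theorem St.Ok.inj {I : List ℕ} {f : ℕ → V} {s : St} (h : s.Ok G I f) {n : ℕ}
    (hn : allNe n s.ne = true) {i j : ℕ} (hi : i < n) (hj : j < n) (hij : f i = f j) : i = j := by
  unfold allNe at hn
  rw [List.all_eq_true] at hn
  have key : ∀ i j, i < n → j < n → i < j → f i ≠ f j := fun i j hi hj hlt =>
    h.ne (hn (i, j) (mem_pairs List.pairwise_lt_range (List.mem_range.2 hi)
      (List.mem_range.2 hj) hlt))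
  rcases lt_trichotomy i j with h1 | h1 | h1
  · exact absurd hij (key i j hi hj h1)
  · exact h1
  · exact absurd hij.symm (key j i hj hi h1)

/-- The whole check: all steps succeed, then all labels below `n` are different, the pairs `cns`
have no common neighbour outside and the pairs `nas` are not adjacent. -/
def St.fin (A B : ℕ → ℕ → Bool) (I : List ℕ) (ts : List Step) (s : St) (n : ℕ)
    (cns nas : List (ℕ × ℕ)) : Bool :=
  match St.run A B I ts s with
  | none => false
  | some s' => allNe n s'.ne && (cns.all fun e => has s'.cn e.1 e.2) &&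
      (nas.all fun e => has s'.na e.1 e.2)

theorem St.Ok.fin {A B : ℕ → ℕ → Bool} (hG : Rules G A B) {I : List ℕ} {f : ℕ → V} {s : St}
    (h : s.Ok G I f) {ts : List Step} {n : ℕ} {cns nas : List (ℕ × ℕ)}
    (hf : s.fin A B I ts n cns nas = true) :
    (∀ i j, i < n → j < n → f i = f j → i = j) ∧
    (∀ e ∈ cns, ∀ w, (∀ k ∈ I, w ≠ f k) → G.Adj (f e.1) w → G.Adj (f e.2) w → False) ∧
    (∀ e ∈ nas, ¬ G.Adj (f e.1) (f e.2)) := by
  unfold St.fin at hf
  split at hf
  · exact absurd hf (by simp)
  · rename_i s' hs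
    rw [Bool.and_eq_true, Bool.and_eq_true, List.all_eq_true, List.all_eq_true] at hf
    have h' := St.Ok.run hG ts s s' h hs
    exact ⟨fun i j hi hj hij => h'.inj hf.1.1 hi hj hij, fun e he w hw h1 h2 =>
      h'.cn (hf.1.2 e he) w hw h1 h2, fun e he => h'.na (hf.2 e he)⟩

/-- The initial state with additional pairs of different labels. -/
def St.startX (ed : List (ℕ × ℕ)) (I : List ℕ) (xs : List (ℕ × ℕ)) : St :=
  ⟨ed, xs ++ (ed ++ I.flatMap (fun i => pairs (nbs ed i))), [], []⟩

theorem Copy.startX {ed : List (ℕ × ℕ)} {I : List ℕ} {f : ℕ → V} (h : Copy G ed I f)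
    {xs : List (ℕ × ℕ)} (hx : ∀ e ∈ xs, f e.1 ≠ f e.2) : (St.startX ed I xs).Ok G I f := by
  refine ⟨h.adj, fun e he => ?_, fun e he => by simp [St.startX] at he,
    fun e he => by simp [St.startX] at he⟩
  unfold St.startX at he
  rw [List.mem_append] at he
  rcases he with he | he
  · exact hx e he
  · exact h.start.2.1 e he

/-- **The side conditions of a cluster.** -/
theorem Copy.side {A B : ℕ → ℕ → Bool} (hG : Rules G A B) {ed : List (ℕ × ℕ)} {I : List ℕ}
    {f : ℕ → V} (h : Copy G ed I f) {xs : List (ℕ × ℕ)} (hx : ∀ e ∈ xs, f e.1 ≠ f e.2)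
    {ts : List Step} {n : ℕ} {cns nas : List (ℕ × ℕ)}
    (hf : (St.startX ed I xs).fin A B I ts n cns nas = true) :
    (∀ i j, i < n → j < n → f i = f j → i = j) ∧
    (∀ e ∈ cns, ∀ w, (∀ k ∈ I, w ≠ f k) → G.Adj (f e.1) w → G.Adj (f e.2) w → False) ∧
    (∀ e ∈ nas, ¬ G.Adj (f e.1) (f e.2)) :=
  (h.startX hx).fin hG hf

end Pool.T1Side
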