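import Mathlib
import Pool.Agent.Work.MP_392c8e_co_t1.Facial7
import Pool.Agent.Work.MP_392c8e_co_t1.Side

/-!
# Corners and edges of short closed walks, in the language of lists
-/

namespace Pool.Agent.T392

open Finset Pool.Agent.Sub392 Pool.T1Side

set_option linter.unusedSectionVars false

section lists

variable {V : Type} {G : SimpleGraph V}

theorem tr_get : ∀ (L : List V) (x : V), Tr G L → ∀ i, i + 2 < L.length →
    G.Adj (L.getD i x) (L.getD (i + 1) x) ∧ L.getD i x ≠ L.getD (i + 2) x
  | [], _, _, i, hi => by simp at hi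
  | [_], _, _, i, hi => by simp at hi
  | [_, _], _, _, i, hi => by simp at hi
  | a :: b :: c :: l, x, h, 0, _ => by
    simp only [List.getD_cons_zero, List.getD_cons_succ]
    exact ⟨h.1, h.2.1⟩
  | a :: b :: c :: l, x, h, i + 1, hi => by
    have := tr_get (b :: c :: l) x h.2.2 i (by simpa using hi)
    simpa only [List.getD_cons_succ] using this

/-- The closed walk of a list. -/
def cw (L : List V) (x : V) (i : ZMod L.length) : V := L.getD i.val x

theorem ext_get {L : List V} (hL : 2 ≤ L.length) (x : V) {k : ℕ} (hk : k < L.length + 2) :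
    (L ++ L.take 2).getD k x = L.getD (k % L.length) x := by
  by_cases h : k < L.length
  · rw [Nat.mod_eq_of_lt h]
    simp only [List.getD_eq_getElem?_getD]
    rw [List.getElem?_append_left h]
  · have h1 : k % L.length = k - L.length := by
      rw [Nat.mod_eq_sub_mod (by omega), Nat.mod_eq_of_lt (by omega)]
    rw [h1]
    simp only [List.getD_eq_getElem?_getD]
    rw [List.getElem?_append_right (by omega), List.getElem?_take_of_lt (by omega)]

theorem cw_add {L : List V} [NeZero L.length] (x : V) (i : ZMod L.length) (k : ℕ) :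
    cw L x (i + k) = L.getD ((i.val + k) % L.length) x := by
  unfold cw
  rw [ZMod.val_add, ZMod.val_natCast, Nat.add_mod_mod]

/-- Closed walks as functions on residues. -/
theorem cw_spec {L : List V} [NeZero L.length] (hL : 2 ≤ L.length) (h : NB G L) (x : V) :
    (∀ i, G.Adj (cw L x i) (cw L x (i + 1))) ∧ ∀ i, cw L x i ≠ cw L x (i + 2) := by
  have key : ∀ i : ZMod L.length, G.Adj (cw L x i) (cw L x (i + 1)) ∧
      cw L x i ≠ cw L x (i + 2) := by
    intro i
    have hi : i.val < L.length := ZMod.val_lt i
    have h1 := tr_get (L ++ L.take 2) x h i.val (by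
      rw [List.length_append, List.length_take]
      omega)
    rw [ext_get hL x (by omega), ext_get hL x (by omega), ext_get hL x (by omega),
      Nat.mod_eq_of_lt hi] at h1
    have h2 := cw_add x i 1
    have h3 := cw_add x i 2
    rw [Nat.cast_one] at h2
    rw [Nat.cast_ofNat] at h3
    rw [h2, h3]
    exact h1
  exact ⟨fun i => (key i).1, fun i => (key i).2⟩

theorem list_eq_of_cw {L L' : List V} (x : V) (h : L.length = L'.length)
    (h1 : ∀ i < L.length, L.getD i x = L'.getD i x) : L = L' := by
  apply List.ext_getElem h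
  intro i hi hi'
  have := h1 i hi
  rwa [List.getD_eq_getElem _ _ hi, List.getD_eq_getElem _ _ hi'] at this

theorem cw_nat {L : List V} [NeZero L.length] (x : V) {i : ℕ} (hi : i < L.length) :
    cw L x (i : ZMod L.length) = L.getD i x := by
  unfold cw
  rw [ZMod.val_natCast, Nat.mod_eq_of_lt hi]

end lists

variable {V : Type} [Fintype V] [DecidableEq V] {G : SimpleGraph V} [DecidableRel G.Adj]
  {R : Rot G}

/-- Two closed walks through a common corner at a vertex of degree three. -/
theorem Geo.two_corner (g : Geo R) {l m : ℕ} [NeZero l] [NeZero m] (hl : l ≤ 7) (hm : m ≤ 7)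
    (hbl : ¬ Bad R l) (hbm : ¬ Bad R m) (w : ZMod l → V) (w' : ZMod m → V)
    (ha : ∀ i, G.Adj (w i) (w (i + 1))) (hb : ∀ i, w i ≠ w (i + 2))
    (ha' : ∀ i, G.Adj (w' i) (w' (i + 1))) (hb' : ∀ i, w' i ≠ w' (i + 2))
    (h0 : w 0 = w' 0) (h1 : w 1 = w' 1) (h2 : w 2 = w' 2) (hdeg : G.degree (w 1) = 3) :
    l = m ∧ ∀ i : ℕ, w i = w' i := by
  set d := ed w ha 0 with hd
  have hd0 : d.fst = w 0 := rfl
  have hd1 : d.snd = w 1 := by
    show w (0 + 1) = w 1
    rw [zero_add]
  by_cases hc : R.next d = ed w ha 1
  · have hn2 : (R.next d).snd = w 2 := by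
      rw [hc]
      show w (1 + 1) = w 2
      rw [one_add_one_eq_two]
    obtain ⟨e1, e2⟩ := g.corner hl hbl w ha hb d hd0 hd1 hn2 hdeg
    obtain ⟨e3, e4⟩ := g.corner hm hbm w' ha' hb' d (hd0.trans h0) (hd1.trans h1)
      (hn2.trans h2) (by rw [← h1]; exact hdeg)
    exact ⟨e1.symm.trans e3, fun i => (e2 i).symm.trans (e4 i)⟩
  · -- the other direction
    have hs : R.rot (ed w ha 1) = d.symm := by
      rcases g.sides hl hbl w ha hb with h | h
      · exfalso
        have := h 0
        rw [zero_add] at this
        exact hc this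
      · have := h 0
        rwa [zero_add] at this
    set d' := (ed w ha 1).symm with hd'
    have k0 : d'.fst = w 2 := by
      show w (1 + 1) = w 2
      rw [one_add_one_eq_two]
    have k1 : d'.snd = w 1 := rfl
    have k2 : (R.next d').snd = w 0 := by
      rw [next_eq, hd', SimpleGraph.Dart.symm_symm, hs]
      rfl
    obtain ⟨e1, e2⟩ := g.corner' hl hbl w ha hb d' k0 k1 k2 hdeg
    obtain ⟨e3, e4⟩ := g.corner' hm hbm w' ha' hb' d' (k0.trans h2) (k1.trans h1)
      (k2.trans h0) (by rw [← h1]; exact hdeg)
    have hlm : l = m := e1.symm.trans e3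
    subst hlm
    refine ⟨rfl, fun i => ?_⟩
    have h5 : (((2 - (i : ZMod l)).val : ℕ) : ZMod l) = 2 - (i : ZMod l) :=
      ZMod.natCast_zmod_val _
    have h6 := (e2 (2 - (i : ZMod l)).val).symm.trans (e4 (2 - (i : ZMod l)).val)
    rw [h5, sub_sub_cancel] at h6
    exact h6

/-- **Corners, list form.** -/
theorem Geo.cornerEq (g : Geo R) {n : ℕ} (hn : n ≤ 7) (hbad : ¬ Bad R n) {a v b : V}
    {l l' : List V} (h : NB G (a :: v :: b :: l)) (h' : NB G (a :: v :: b :: l'))
    (hl : l.length + 3 ≤ n) (hl' : l'.length + 3 ≤ n) (hdeg : G.degree v = 3) : l = l' := by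
  set L := a :: v :: b :: l with hL
  set L' := a :: v :: b :: l' with hL'
  have e1 : L.length = l.length + 3 := rfl
  have e2 : L'.length = l'.length + 3 := rfl
  have : NeZero L.length := ⟨by rw [e1]; omega⟩
  have : NeZero L'.length := ⟨by rw [e2]; omega⟩
  obtain ⟨ha, hb⟩ := cw_spec (by omega) h a
  obtain ⟨ha', hb'⟩ := cw_spec (by omega) h' a
  have g0 : cw L a 0 = a := by
    have := cw_nat (L := L) a (i := 0) (by omega)
    rw [Nat.cast_zero] at this
    exact this
  have g1 : cw L a 1 = v := by
    have := cw_nat (L := L) a (i := 1) (by omega)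
    rw [Nat.cast_one] at this
    exact this
  have g2 : cw L a 2 = b := by
    have := cw_nat (L := L) a (i := 2) (by omega)
    rw [Nat.cast_ofNat] at this
    exact this
  have g0' : cw L' a 0 = a := by
    have := cw_nat (L := L') a (i := 0) (by omega)
    rw [Nat.cast_zero] at this
    exact this
  have g1' : cw L' a 1 = v := by
    have := cw_nat (L := L') a (i := 1) (by omega)
    rw [Nat.cast_one] at this
    exact this
  have g2' : cw L' a 2 = b := by
    have := cw_nat (L := L') a (i := 2) (by omega)
    rw [Nat.cast_ofNat] at this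
    exact this
  obtain ⟨h3, h4⟩ := g.two_corner (by omega) (by omega) (fun hB => hbad (hB.mono (by omega)))
    (fun hB => hbad (hB.mono (by omega))) (cw L a) (cw L' a) ha hb ha' hb'
    (g0.trans g0'.symm) (g1.trans g1'.symm) (g2.trans g2'.symm) (by rw [g1]; exact hdeg)
  have h5 : L = L' := by
    refine list_eq_of_cw a h3 fun i hi => ?_
    rw [← cw_nat a hi, ← cw_nat a (by rw [← h3]; exact hi)]
    exact h4 i
  rw [hL, hL'] at h5
  simpa using h5

/-- The face of a closed walk through an edge. -/
theorem Geo.edge_face (g : Geo R) {n : ℕ} (hn : n ≤ 7) (hbad : ¬ Bad R n) {a v : V}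
    {l : List V} (h : NB G (a :: v :: l)) (hl0 : 1 ≤ l.length) (hl : l.length + 2 ≤ n)
    (hav : G.Adj a v) :
    (sz R ⟨(a, v), hav⟩ = l.length + 2 ∧ ∀ i < l.length + 2,
      (a :: v :: l).getD i a = (R.next^[i] ⟨(a, v), hav⟩).fst) ∨
    (sz R (⟨(a, v), hav⟩ : G.Dart).symm = l.length + 2 ∧ ∀ i < l.length + 2,
      (a :: v :: l).getD i a = (R.next^[l.length + 2 + 1 - i] (⟨(a, v), hav⟩ : G.Dart).symm).fst) := by
  set L := a :: v :: l with hL
  have e1 : L.length = l.length + 2 := rfl
  have : NeZero L.length := ⟨by rw [e1]; omega⟩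
  obtain ⟨ha, hb⟩ := cw_spec (by omega) h a
  have g0 : cw L a 0 = a := by
    have := cw_nat (L := L) a (i := 0) (by omega)
    rw [Nat.cast_zero] at this
    exact this
  have g1 : cw L a 1 = v := by
    have := cw_nat (L := L) a (i := 1) (by omega)
    rw [Nat.cast_one] at this
    exact this
  have hd : ed (cw L a) ha 0 = ⟨(a, v), hav⟩ := by
    refine SimpleGraph.Dart.ext _ _ (Prod.ext g0 ?_)
    show cw L a (0 + 1) = v
    rw [zero_add, g1]
  have szl : ∀ d : G.Dart, R.next^[L.length] d = d → sz R d = L.length := by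
    intro d h4
    have h5 := sz_le R (by omega) h4
    have h6 := g.four_le_sz d
    obtain ⟨k, hk⟩ := h5
    have h7 : k = 1 := by
      rcases (by omega : k = 0 ∨ k = 1 ∨ 2 ≤ k) with h | h | h
      · subst h; omega
      · exact h
      · exfalso
        nlinarith
    subst h7
    omega
  rcases g.sides (by omega) (fun hB => hbad (hB.mono (by omega))) (cw L a) ha hb with h1 | h1
  · left
    have h3 : ∀ i : ℕ, R.next^[i] (ed (cw L a) ha 0) = ed (cw L a) ha i := by
      intro i
      induction i with
      | zero => simp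
      | succ n ih => rw [Function.iterate_succ_apply', ih, h1]; congr 1; push_cast; rfl
    rw [hd] at h3
    refine ⟨(szl _ (by rw [h3, ZMod.natCast_self, hd])).trans e1, fun i hi => ?_⟩
    rw [h3]
    exact (cw_nat a (by omega)).symm
  · right
    have h3 : ∀ i : ℕ, R.next^[i] (ed (cw L a) ha 0).symm = (ed (cw L a) ha (-i)).symm := by
      intro i
      induction i with
      | zero => simp
      | succ n ih =>
        rw [Function.iterate_succ_apply', ih, next_eq, SimpleGraph.Dart.symm_symm]
        have := h1 (-n - 1)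
        rw [sub_add_cancel] at this
        rw [this]
        congr 2
        push_cast
        ring
    rw [hd] at h3
    refine ⟨(szl _ (by rw [h3, ZMod.natCast_self, neg_zero, hd])).trans e1, fun i hi => ?_⟩
    rw [h3]
    show _ = cw L a (-((l.length + 2 + 1 - i : ℕ) : ZMod L.length) + 1)
    have h6 : (-((l.length + 2 + 1 - i : ℕ) : ZMod L.length) + 1) = (i : ZMod L.length) := by
      rw [Nat.cast_sub (by omega), Nat.cast_add, ← e1, ZMod.natCast_self]
      push_cast
      ring
    rw [h6]
    exact (cw_nat a (by omega)).symm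

/-- **Edges, list form.**  Two closed walks through a common edge are equal, or they are the two
faces of this edge. -/
theorem Geo.edgeEq (g : Geo R) {n : ℕ} (hn : n ≤ 7) (hbad : ¬ Bad R n) {a v : V}
    {l l' : List V} (h : NB G (a :: v :: l)) (h' : NB G (a :: v :: l')) (hl0 : 1 ≤ l.length)
    (hl0' : 1 ≤ l'.length) (hl : l.length + 2 ≤ n) (hl' : l'.length + 2 ≤ n) :
    l = l' ∨ ∃ d : G.Dart, sz R d = l.length + 2 ∧ sz R d.symm = l'.length + 2 := by
  have hav : G.Adj a v := by
    obtain ⟨b, l1, rfl⟩ := List.exists_cons_of_length_pos hl0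
    exact h.1
  rcases g.edge_face hn hbad h hl0 hl hav with ⟨h1, h2⟩ | ⟨h1, h2⟩ <;>
    rcases g.edge_face hn hbad h' hl0' hl' hav with ⟨h3, h4⟩ | ⟨h3, h4⟩
  · left
    have h5 : (a :: v :: l) = (a :: v :: l') := by
      refine list_eq_of_cw a (by simp only [List.length_cons]; omega) fun i hi => ?_
      simp only [List.length_cons] at hi
      rw [h2 i (by omega), h4 i (by omega)]
    simpa using h5
  · exact Or.inr ⟨_, h1, h3⟩
  · refine Or.inr ⟨_, h1, ?_⟩
    rw [SimpleGraph.Dart.symm_symm]
    exact h3
  · left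
    have h5 : (a :: v :: l) = (a :: v :: l') := by
      refine list_eq_of_cw a (by simp only [List.length_cons]; omega) fun i hi => ?_
      simp only [List.length_cons] at hi
      rw [h2 i (by omega), h4 i (by omega)]
      have : l.length = l'.length := by omega
      rw [this]
    simpa using h5

/-- A vertex of a short closed walk lies on a face of this length. -/
theorem Geo.vertex_face (g : Geo R) {n : ℕ} (hn : n ≤ 7) (hbad : ¬ Bad R n) {a v b : V}
    {l : List V} (h : NB G (a :: v :: b :: l)) (hl : l.length + 3 ≤ n) :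
    ∃ d : G.Dart, d.fst = v ∧ sz R d = l.length + 3 := by
  have hav : G.Adj a v := h.1
  rcases g.edge_face hn hbad (l := b :: l) h (by simp) (by simpa using hl) hav with
    ⟨h1, -⟩ | ⟨h1, -⟩
  · refine ⟨R.next ⟨(a, v), hav⟩, R.fst_next _, ?_⟩
    rw [sz_next, h1, List.length_cons]
  · exact ⟨(⟨(a, v), hav⟩ : G.Dart).symm, rfl, by rw [h1, List.length_cons]⟩

/-- No closed walks of length at most three without turning back. -/
theorem nb_three (hG : G.CliqueFree 3) {a v b : V} (h : NB G [a, v, b]) : False := by
  have h1 : G.Adj a v := h.1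
  have h2 : G.Adj v b := h.2.2.1
  have h3 : G.Adj b a := h.2.2.2.2.1
  exact no_tri hG h1 h2 h3.symm

theorem nb_two {a v : V} (h : NB G [a, v]) : False := h.2.1 rfl

/-- The table of the corners. -/
def A7 (k l : ℕ) : Bool := (Nat.ble k 2 || Nat.ble l 2) && Nat.ble k 4 && Nat.ble l 4

/-- The table of the edges. -/
def B7 (k l : ℕ) : Bool := (Nat.ble k 2 || Nat.ble l 2) && Nat.ble k 3 && Nat.ble l 3

theorem Rules.mono {A B A' B' : ℕ → ℕ → Bool} (h : Rules G A B)
    (hA : ∀ k l, A' k l = true → A k l = true) (hB : ∀ k l, B' k l = true → B k l = true) :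
    Rules G A' B' :=
  ⟨h.tri, fun a v b l l' h1 h2 h3 => h.corner a v b l l' h1 h2 (hA _ _ h3),
    fun a v l l' h1 h2 h3 => h.edge a v l l' h1 h2 (hB _ _ h3)⟩

/-- **The rules of a minimal counterexample.** -/
theorem Geo.rules7 (g : Geo R)
    (h4 : ∀ d : G.Dart, sz R d = 4 → G.degree d.fst ≠ 2 ∧ 6 ≤ sz R d.symm)
    (h5 : ∀ d : G.Dart, sz R d = 5 → G.degree d.fst ≠ 2) : Rules G A7 B7 := by
  have hbad := g.not_bad7 h4 h5
  have hdeg : ∀ {a v b : V} {l : List V}, NB G (a :: v :: b :: l) → l.length ≤ 2 →
      G.degree v = 3 := by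
    intro a v b l h hl
    rcases (by omega : l.length = 0 ∨ l.length = 1 ∨ l.length = 2) with h6 | h6 | h6
    · rw [List.length_eq_zero_iff] at h6
      subst h6
      exact (nb_three g.tri h).elim
    · obtain ⟨d, hd, hs⟩ := g.vertex_face (by norm_num) hbad h (by omega)
      have := (h4 d (by omega)).1
      rw [hd] at this
      rcases g.deg_cases v with h7 | h7
      · exact absurd h7 this
      · exact h7
    · obtain ⟨d, hd, hs⟩ := g.vertex_face (by norm_num) hbad h (by omega)
      have := h5 d (by omega)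
      rw [hd] at this
      rcases g.deg_cases v with h7 | h7
      · exact absurd h7 this
      · exact h7
  refine ⟨g.tri, ?_, ?_⟩
  · intro a v b l l' h h' hA
    simp only [A7, Bool.and_eq_true, Bool.or_eq_true, Nat.ble_eq] at hA
    obtain ⟨⟨h6, h7⟩, h8⟩ := hA
    refine g.cornerEq (by norm_num) hbad h h' (by omega) (by omega) ?_
    rcases h6 with h6 | h6
    · exact hdeg h h6
    · exact hdeg h' h6
  · intro a v l l' h h' hB
    simp only [B7, Bool.and_eq_true, Bool.or_eq_true, Nat.ble_eq] at hB
    obtain ⟨⟨h6, h7⟩, h8⟩ := hB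
    -- lengths at least four
    have hlen : ∀ {l : List V}, NB G (a :: v :: l) → 2 ≤ l.length := by
      intro l hnb
      by_contra hcon
      rcases (by omega : l.length = 0 ∨ l.length = 1) with h9 | h9
      · rw [List.length_eq_zero_iff] at h9
        subst h9
        exact nb_two hnb
      · obtain ⟨b, rfl⟩ := List.length_eq_one_iff.1 h9
        exact nb_three g.tri hnb
    have e1 := hlen h
    have e2 := hlen h'
    rcases g.edgeEq (by norm_num) hbad h h' (by omega) (by omega) (by omega) (by omega) with
      h9 | ⟨d, h9, h10⟩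
    · exact h9
    · exfalso
      rcases h6 with h6 | h6
      · have := (h4 d (by omega)).2
        omega
      · have := (h4 d.symm (by omega)).2
        rw [SimpleGraph.Dart.symm_symm] at this
        omega

end Pool.Agent.T392
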