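import Mathlib
import Pool.Agent.Work.MP_392c8e_co_t1.Corners
import Pool.Agent.Work.MP_392c8e_co_t1.PlRot
import Pool.Agent.Work.MP_392c8e_co_red.CutsAll

/-!
# The geometric facts about a minimal counterexample
-/

namespace Pool.Agent.T392

open Finset Pool.Agent.Sub392 Pool.Agent.Red

set_option linter.unusedSectionVars false

variable {V : Type} [Fintype V] [DecidableEq V] {G : SimpleGraph V} [DecidableRel G.Adj]

theorem ncard_nbr (v : V) : (G.neighborSet v).ncard = G.degree v := by
  classical
  rw [Set.ncard_eq_toFinset_card', ← SimpleGraph.card_neighborFinset_eq_degree]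
  congr 1

/-- The edges leaving a set, as darts. -/
theorem ncard_leave (A : Finset V) :
    (leave G (A : Set V)).ncard = #{d : G.Dart | d.fst ∈ A ∧ d.snd ∉ A} := by
  classical
  have h1 : leave G (A : Set V) =
      ((univ.filter fun d : G.Dart => d.fst ∈ A ∧ d.snd ∉ A).image fun d => (d.fst, d.snd) :
        Finset (V × V)) := by
    ext p
    simp only [leave, Set.mem_ofPred_eq, Finset.coe_image, Set.mem_image, mem_coe, mem_filter,
      mem_univ, true_and]
    constructor
    · rintro ⟨h1, h2, h3⟩
      exact ⟨⟨(p.1, p.2), h3⟩, ⟨h1, h2⟩, rfl⟩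
    · rintro ⟨d, ⟨h1, h2⟩, rfl⟩
      exact ⟨h1, h2, d.adj⟩
  rw [h1, Set.ncard_coe_finset, card_image_of_injective]
  intro d d' h
  exact SimpleGraph.Dart.ext _ _ h

theorem MinCex.cutF (h : MinCex G) (A : Finset V)
    (hA : #{d : G.Dart | d.fst ∈ A ∧ d.snd ∉ A} ≤ 3) : #A ≤ 2 ∨ #Aᶜ ≤ 2 := by
  classical
  rcases h.cut_three (A : Set V) (by rw [ncard_leave]; exact hA) with h1 | h1
  · left
    rwa [Set.ncard_coe_finset] at h1
  · right
    rwa [← Finset.coe_compl, Set.ncard_coe_finset] at h1

/-- No two adjacent vertices of degree two. -/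
theorem MinCex.no22 (h : MinCex G) (u v : V) (huv : G.Adj u v) (hu : G.degree u = 2) :
    G.degree v ≠ 2 := by
  classical
  intro hv
  have hne := huv.ne
  -- the darts leaving `{u, v}`
  have h0 : #{d : G.Dart | d.fst = u ∨ d.fst = v} = 4 := by
    have h1 : (univ.filter fun d : G.Dart => d.fst = u ∨ d.fst = v) =
        (univ.filter fun d : G.Dart => d.fst = u) ∪ (univ.filter fun d : G.Dart => d.fst = v) := by
      ext d; simp
    rw [h1, card_union_of_disjoint]
    · have e1 := G.dart_fst_fiber_card_eq_degree u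
      have e2 := G.dart_fst_fiber_card_eq_degree v
      rw [e1, e2, hu, hv]
    · rw [disjoint_filter]
      intro d _ h3 h4
      exact hne (h3.symm.trans h4)
  have h2 : #{d : G.Dart | d.fst ∈ ({u, v} : Finset V) ∧ d.snd ∉ ({u, v} : Finset V)} + 2 ≤ 4 := by
    rw [← h0]
    have h3 : (univ.filter fun d : G.Dart =>
        d.fst ∈ ({u, v} : Finset V) ∧ d.snd ∉ ({u, v} : Finset V)) ∪
        {(⟨(u, v), huv⟩ : G.Dart), (⟨(u, v), huv⟩ : G.Dart).symm} ⊆
        univ.filter fun d : G.Dart => d.fst = u ∨ d.fst = v := by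
      intro d hd
      simp only [mem_union, mem_filter, mem_univ, true_and, mem_insert, mem_singleton] at hd ⊢
      rcases hd with ⟨h4, -⟩ | h4 | h4
      · exact h4
      · left; rw [h4]
      · right; rw [h4]; rfl
    refine le_trans (le_of_eq ?_) (card_le_card h3)
    rw [card_union_of_disjoint, card_pair]
    · exact (SimpleGraph.Dart.symm_ne _).symm
    · rw [Finset.disjoint_left]
      intro d hd hd'
      simp only [mem_filter, mem_univ, true_and, mem_insert, mem_singleton] at hd hd'
      rcases hd' with rfl | rfl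
      · exact hd.2 (Or.inr rfl)
      · exact hd.2 (Or.inl rfl)
  have h4 : (leave G (({u, v} : Finset V) : Set V)).ncard ≤ 2 := by
    rw [ncard_leave]
    omega
  have hcard : (({u, v} : Finset V) : Set V).ncard = 2 := by
    rw [Set.ncard_coe_finset, card_pair hne]
  -- the complement is small
  have h5 : ((({u, v} : Finset V) : Set V)ᶜ).ncard ≤ 1 := by
    rcases (by omega : (leave G (({u, v} : Finset V) : Set V)).ncard ≤ 1 ∨
      (leave G (({u, v} : Finset V) : Set V)).ncard = 2) with h6 | h6
    · rcases h.small_cut _ h6 with h7 | h7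
      · rw [h7, Set.ncard_empty] at hcard
        omega
      · rw [h7, Set.compl_univ, Set.ncard_empty]
        omega
    · rcases h.cut_two _ h6 with h7 | h7
      · omega
      · omega
  -- a third vertex adjacent to both
  have hx : ∃ x, G.Adj u x ∧ x ≠ v := by
    have h6 : 1 < #(G.neighborFinset u) := by
      rw [SimpleGraph.card_neighborFinset_eq_degree, hu]
      norm_num
    obtain ⟨x, hx, hxv⟩ := exists_mem_ne h6 v
    exact ⟨x, (SimpleGraph.mem_neighborFinset _ _ _).1 hx, hxv⟩
  have hy : ∃ y, G.Adj v y ∧ y ≠ u := by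
    have h6 : 1 < #(G.neighborFinset v) := by
      rw [SimpleGraph.card_neighborFinset_eq_degree, hv]
      norm_num
    obtain ⟨x, hx, hxv⟩ := exists_mem_ne h6 u
    exact ⟨x, (SimpleGraph.mem_neighborFinset _ _ _).1 hx, hxv⟩
  obtain ⟨x, hx1, hx2⟩ := hx
  obtain ⟨y, hy1, hy2⟩ := hy
  have hxy : x = y := by
    rw [Set.ncard_le_one] at h5
    refine h5 x ?_ y ?_
    · simp only [Finset.coe_insert, Finset.coe_singleton, Set.mem_compl_iff, Set.mem_insert_iff,
        Set.mem_singleton_iff, not_or]
      exact ⟨hx1.ne', hx2⟩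
    · simp only [Finset.coe_insert, Finset.coe_singleton, Set.mem_compl_iff, Set.mem_insert_iff,
        Set.mem_singleton_iff, not_or]
      exact ⟨hy2, hy1.ne'⟩
  subst hxy
  exact h.tri {u, v, x} (SimpleGraph.is3Clique_triple_iff.2 ⟨huv, hx1, hy1⟩)

/-- **The geometric facts about a minimal counterexample.** -/
theorem geo_of (h : MinCex G) {R : Rot G} (hP : R.Plane) : Geo R where
  plane := hP
  tri := h.tri
  deg3 := fun v => by rw [← ncard_nbr]; exact h.deg v
  deg2 := fun v => by rw [← ncard_nbr]; exact h.two_le v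
  br := by
    refine face_ne_of_nobridge R hP fun S u v hu hv huv => ?_
    by_contra hcon
    push Not at hcon
    refine h.cut_one {x | S x} ?_
    have h1 : leave G {x | S x} = {(u, v)} := by
      ext p
      simp only [leave, Set.mem_ofPred_eq, Set.mem_singleton_iff]
      constructor
      · rintro ⟨h1, h2, h3⟩
        have h4 := hcon p.1 p.2 h1 h2 h3
        rcases Sym2.eq_iff.1 h4 with ⟨h5, h6⟩ | ⟨h5, h6⟩
        · exact Prod.ext h5 h6
        · exfalso
          rw [h5] at h1
          exact hv h1
      · rintro rfl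
        exact ⟨hu, hv, huv⟩
    rw [h1, Set.ncard_singleton]
  cut := fun A hA => MinCex.cutF h A hA
  no22 := fun u v huv hu => MinCex.no22 h u v huv hu

/-- A minimal counterexample can be drawn on the sphere. -/
theorem exists_rot_of_minCex (h : MinCex G) : ∃ R : Rot G, R.Plane := by
  refine exists_rot_of_pl' h.pl h.connected ?_ (fun v => by rw [← ncard_nbr]; exact h.deg v)
    h.no_bridge
  by_contra hcon
  push Not at hcon
  exact h.bad ⟨fun _ => 0, fun _ => 0, fun u v huv => absurd huv (hcon u v)⟩

end Pool.Agent.T392
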