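import Mathlib
import Pool.Agent.Work.MP_392c8e_co_t1.GeoOf
import Pool.Agent.Work.MP_392c8e_co_t1.Strict
import Pool.Agent.Work.MP_392c8e_co.Final

/-!
# A minimal counterexample has at least fourteen vertices
-/

namespace Pool.Agent.Red

open Finset Pool.Agent.Sub392 Pool.Agent.T392 Pool.Agent.T1Red

set_option linter.unusedSectionVars false

variable {V : Type} [Fintype V] [DecidableEq V] {G : SimpleGraph V}

/-- **A minimal counterexample has at least fourteen vertices.**  A graph with at most six odd
faces has an `(11, 4)`-colouring; eight odd faces of length at least five need forty darts. -/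
theorem MinCex.card_ge (h : MinCex G) : 14 ≤ Fintype.card V := by
  classical
  obtain ⟨R, hP⟩ := exists_rot_of_minCex h
  have g : Geo R := geo_of h hP
  have h6 : 6 < #R.odd := by
    by_contra hcon
    obtain ⟨c, h1, h2⟩ := R.six hP h.tri g.deg3 (not_lt.1 hcon)
    have h3 : HasPQ G 11 4 := ⟨c, h1, fun u v huv => by
      have := h2 u v huv
      push_cast
      exact ⟨this.1, by linarith [this.2]⟩⟩
    exact h.bad (h3.hasStrict (by norm_num))
  have h8 : 8 ≤ #R.odd := by
    have := R.even_odd
    rw [Nat.even_iff] at this
    omega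
  have h5 : ∀ f ∈ R.odd, 5 ≤ R.size f := by
    intro f hf
    have hodd : Odd (R.size f) := by
      unfold Rot.odd at hf
      exact (mem_filter.1 hf).2
    obtain ⟨d, rfl⟩ := Quotient.mk_surjective f
    have h4 : 4 ≤ R.size (R.face d) := g.four_le_sz d
    have h4' : 4 ≤ R.size (Quotient.mk _ d) := h4
    rcases hodd with ⟨k, hk⟩
    omega
  have hsum : ∑ f ∈ R.odd, R.size f ≤ Fintype.card G.Dart := by
    have h1 : ∑ f ∈ R.odd, R.size f = #{d : G.Dart | R.face d ∈ R.odd} := by
      simp only [Rot.size]
      rw [card_eq_sum_card_fiberwise (f := R.face) (t := R.odd)]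
      · refine sum_congr rfl fun f hf => ?_
        congr 1
        ext d
        simp only [mem_filter, mem_univ, true_and]
        exact ⟨fun h => ⟨by rw [h]; exact hf, h⟩, fun h => h.2⟩
      · intro d hd
        simpa using hd
    rw [h1]
    exact card_le_univ _
  have hdart : Fintype.card G.Dart ≤ 3 * Fintype.card V := by
    rw [SimpleGraph.dart_card_eq_sum_degrees]
    refine (sum_le_card_nsmul univ _ 3 fun v _ => g.deg3 v).trans ?_
    rw [card_univ, smul_eq_mul, mul_comm]
  have h40 : #R.odd * 5 ≤ ∑ f ∈ R.odd, R.size f := by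
    rw [← smul_eq_mul]
    exact card_nsmul_le_sum _ _ _ h5
  omega

end Pool.Agent.Red
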