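import Mathlib
import Pool.Agent.Work.MP_392c8e_co_t1.Facial7
import Pool.Agent.Work.MP_392c8e_co_odd.PlaneN

/-!
# Short cycles bound faces: the form with walks
-/

namespace Pool.Agent.T392

open Finset Pool.Agent.Sub392 Pool.Agent.OddFlow

set_option linter.unusedSectionVars false

variable {V : Type} [Fintype V] [DecidableEq V] {G : SimpleGraph V} [DecidableRel G.Adj]
variable {R : Rot G}

/-- The edges of a walk. -/
theorem mem_edges_getVert {u v : V} (c : G.Walk u v) (e : Sym2 V) :
    e ∈ c.edges ↔ ∃ n < c.length, e = s(c.getVert n, c.getVert (n + 1)) := by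
  induction c with
  | nil => simp
  | cons h p ih =>
    rw [SimpleGraph.Walk.edges_cons, List.mem_cons, ih]
    constructor
    · rintro (h1 | ⟨n, hn, h1⟩)
      · refine ⟨0, by simp, ?_⟩
        rw [h1, SimpleGraph.Walk.getVert_zero, SimpleGraph.Walk.getVert_cons_succ,
          SimpleGraph.Walk.getVert_zero]
      · refine ⟨n + 1, by rw [SimpleGraph.Walk.length_cons]; omega, ?_⟩
        rw [h1, SimpleGraph.Walk.getVert_cons_succ, SimpleGraph.Walk.getVert_cons_succ]
    · rintro ⟨n, hn, h1⟩
      rcases n with _ | n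
      · left
        rw [h1, SimpleGraph.Walk.getVert_zero, SimpleGraph.Walk.getVert_cons_succ,
          SimpleGraph.Walk.getVert_zero]
      · right
        refine ⟨n, by rw [SimpleGraph.Walk.length_cons] at hn; omega, ?_⟩
        rw [h1, SimpleGraph.Walk.getVert_cons_succ, SimpleGraph.Walk.getVert_cons_succ]

/-- A period of at most seven darts is the length of the face. -/
theorem Geo.sz_eq_of_iterate (g : Geo R) {l : ℕ} (hl0 : 0 < l) (hl : l ≤ 7) {d : G.Dart}
    (h : R.next^[l] d = d) : sz R d = l := by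
  obtain ⟨k, hk⟩ := sz_le R hl0 h
  have h6 := g.four_le_sz d
  have h7 : k = 1 := by
    rcases (by omega : k = 0 ∨ k = 1 ∨ 2 ≤ k) with h | h | h
    · subst h; omega
    · exact h
    · exfalso
      nlinarith
  subst h7
  omega

/-- A cycle of darts of a face is one of the sides of the cycle. -/
theorem Geo.side_of_orbit (g : Geo R) {l : ℕ} [NeZero l] (hl : l ≤ 7) {v : V} (c : G.Walk v v)
    (E : ZMod l → G.Dart) (hE : ∀ i, R.next (E i) = E (i + 1))
    (hc : ∀ d : G.Dart, d.edge ∈ c.edges ↔ ∃ i, d.edge = (E i).edge) :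
    ∃ f : R.Face, R.size f = l ∧ Side R c {f} := by
  have h3 : ∀ i : ℕ, R.next^[i] (E 0) = E i := by
    intro i
    induction i with
    | zero => simp
    | succ n ih => rw [Function.iterate_succ_apply', ih, hE]; congr 1; push_cast; rfl
  have hf : ∀ i, R.face (E i) = R.face (E 0) :=
    zind _ rfl fun i hi => by rw [← hE i, R.face_next]; exact hi
  refine ⟨R.face (E 0), ?_, fun d => ?_⟩
  · refine g.sz_eq_of_iterate (Nat.pos_of_ne_zero (NeZero.ne l)) hl ?_
    rw [h3, ZMod.natCast_self]
  · rw [hc d]
    simp only [mem_singleton]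
    constructor
    · rintro ⟨i, hi⟩ hiff
      rcases (SimpleGraph.dart_edge_eq_iff d (E i)).1 hi with h | h
      · subst h
        exact g.br (E i) ((hf i).trans (hiff.1 (hf i)).symm)
      · subst h
        rw [SimpleGraph.Dart.symm_symm] at hiff
        exact g.br (E i) ((hf i).trans (hiff.2 (hf i)).symm)
    · intro hn
      have key : ∀ x : G.Dart, R.face x = R.face (E 0) → ∃ i, x = E i := by
        intro x hx
        obtain ⟨n, hn⟩ := ((face_eq_iff R (E 0) x).1 hx).exists_nat_pow_eq
        refine ⟨(n : ZMod l), ?_⟩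
        rw [← h3, ← hn, Equiv.Perm.coe_pow]
      by_cases h1 : R.face d = R.face (E 0)
      · obtain ⟨i, hi⟩ := key d h1
        exact ⟨i, by rw [hi]⟩
      · have h2 : R.face d.symm = R.face (E 0) := by
          by_contra h2
          exact hn (iff_of_false h1 h2)
        obtain ⟨i, hi⟩ := key d.symm h2
        exact ⟨i, by rw [← hi, SimpleGraph.Dart.edge_symm]⟩

/-- **Short cycles bound faces.** -/
theorem Geo.side_cycle (g : Geo R) {l : ℕ} (hl : l ≤ 7) (hbad : ¬ Bad R l) {v : V}
    (c : G.Walk v v) (hc : c.IsCycle) (hlen : c.length = l) :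
    ∃ f : R.Face, R.size f = l ∧ Side R c {f} := by
  have hl3 : 3 ≤ l := by rw [← hlen]; exact hc.three_le_length
  have : NeZero l := ⟨by omega⟩
  set w : ZMod l → V := fun i => c.getVert i.val with hw
  have hwn : ∀ n : ℕ, n ≤ l → w (n : ZMod l) = c.getVert n := by
    intro n hn
    rcases hn.lt_or_eq with h | h
    · simp only [hw]
      rw [ZMod.val_cast_of_lt h]
    · subst h
      simp only [hw]
      rw [ZMod.natCast_self, ZMod.val_zero, SimpleGraph.Walk.getVert_zero]
      conv_rhs => rw [← hlen]
      rw [SimpleGraph.Walk.getVert_length]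
  have hw1 : ∀ i : ZMod l, w (i + 1) = c.getVert (i.val + 1) := by
    intro i
    rw [← hwn (i.val + 1) (ZMod.val_lt i)]
    congr 1
    push_cast
    rw [ZMod.natCast_zmod_val]
  have ha : ∀ i, G.Adj (w i) (w (i + 1)) := by
    intro i
    rw [hw1]
    exact c.adj_getVert_succ (by rw [hlen]; exact ZMod.val_lt i)
  have hinj : Function.Injective w := by
    intro i j hij
    have hm : ∀ k : ZMod l, k.val ∈ {n : ℕ | n ≤ c.length - 1} := by
      intro k
      have := ZMod.val_lt k
      show k.val ≤ c.length - 1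
      omega
    exact ZMod.val_injective l (hc.getVert_injOn' (hm i) (hm j) hij)
  have hb : ∀ i, w i ≠ w (i + 2) := by
    intro i h
    have h1 := hinj h
    have h2 : (2 : ZMod l) = 0 := by
      have h3 : i + 0 = i + 2 := by rw [add_zero]; exact h1
      exact (add_left_cancel h3).symm
    have h4 : ((2 : ℕ) : ZMod l) = 0 := by exact_mod_cast h2
    rw [ZMod.natCast_eq_zero_iff] at h4
    have := Nat.le_of_dvd (by norm_num) h4
    omega
  have hedge : ∀ d : G.Dart, d.edge ∈ c.edges ↔ ∃ i, d.edge = (ed w ha i).edge := by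
    intro d
    constructor
    · intro h
      obtain ⟨n, hn, h1⟩ := (mem_edges_getVert c d.edge).1 h
      refine ⟨(n : ZMod l), ?_⟩
      rw [h1]
      show s(c.getVert n, c.getVert (n + 1)) = s(w n, w (n + 1))
      rw [hwn n (by omega), ← hwn (n + 1) (by omega)]
      push_cast
      rfl
    · rintro ⟨i, hi⟩
      refine (mem_edges_getVert c d.edge).2 ⟨i.val, by rw [hlen]; exact ZMod.val_lt i, ?_⟩
      rw [hi]
      show s(w i, w (i + 1)) = _
      rw [hw1]
  rcases g.sides hl hbad w ha hb with h | h
  · exact g.side_of_orbit hl c (ed w ha) h hedge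
  · refine g.side_of_orbit hl c (fun i => (ed w ha (-i)).symm) ?_ ?_
    · intro i
      have h1 := h (-(i + 1))
      rw [show -(i + 1) + 1 = -i by ring] at h1
      show R.next (ed w ha (-i)).symm = (ed w ha (-(i + 1))).symm
      rw [← h1, next_eq, SimpleGraph.Dart.symm_symm]
    · intro d
      rw [hedge d]
      constructor
      · rintro ⟨i, hi⟩
        exact ⟨-i, by rw [neg_neg, SimpleGraph.Dart.edge_symm]; exact hi⟩
      · rintro ⟨i, hi⟩
        exact ⟨-i, by rw [SimpleGraph.Dart.edge_symm] at hi; exact hi⟩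

/-- **Five-cycles bound faces.** -/
theorem Geo.side_five (g : Geo R) (hbad : ¬ Bad R 5) {v : V} (c : G.Walk v v) (hc : c.IsCycle)
    (hl : c.length = 5) : ∃ f : R.Face, R.size f = 5 ∧ Side R c {f} :=
  g.side_cycle (by norm_num) hbad c hc hl

end Pool.Agent.T392
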