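import Mathlib
import Pool.Agent.Work.MP_392c8e_co_t1.GeoOf
import Pool.Agent.Work.MP_392c8e_co_t1.WalkFace

/-!
# Faces as closed walks, and the stages of the geometric facts
-/

namespace Pool.Agent.T392

open Finset Pool.Agent.Sub392 Pool.Agent.Red Pool.T1Side

set_option linter.unusedSectionVars false

section lists

variable {V : Type} {G : SimpleGraph V}

theorem tr_of_get : ∀ (L : List V) (x : V), (∀ i, i + 2 < L.length →
    G.Adj (L.getD i x) (L.getD (i + 1) x) ∧ L.getD i x ≠ L.getD (i + 2) x) → Tr G L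
  | [], _, _ => trivial
  | [_], _, _ => trivial
  | [_, _], _, _ => trivial
  | a :: b :: c :: l, x, h => by
    have h0 := h 0 (by simp)
    simp only [List.getD_cons_zero, List.getD_cons_succ] at h0
    refine ⟨h0.1, h0.2, tr_of_get (b :: c :: l) x fun i hi => ?_⟩
    have := h (i + 1) (by simpa using hi)
    simpa only [List.getD_cons_succ] using this

/-- Periodic walks as lists. -/
theorem nb_range {n : ℕ} (hn : 2 ≤ n) (w : ℕ → V) (ha : ∀ i, G.Adj (w i) (w (i + 1)))
    (hb : ∀ i, w i ≠ w (i + 2)) (hp : ∀ i, w (i + n) = w i) :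
    NB G ((List.range n).map w) := by
  have hlen : ((List.range n).map w).length = n := by simp
  have hget : ∀ i < n, ((List.range n).map w).getD i (w 0) = w i := by
    intro i hi
    simp only [List.getD_eq_getElem?_getD, List.getElem?_map, List.getElem?_range hi,
      Option.map_some, Option.getD_some]
  have hall : ∀ k < n + 2, ((List.range n).map w ++ ((List.range n).map w).take 2).getD k (w 0) =
      w k := by
    intro k hk
    rw [ext_get (by rw [hlen]; exact hn) (w 0) (by rw [hlen]; exact hk), hlen,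
      hget _ (Nat.mod_lt _ (by omega))]
    by_cases h : k < n
    · rw [Nat.mod_eq_of_lt h]
    · have h1 : k % n = k - n := by
        rw [Nat.mod_eq_sub_mod (by omega), Nat.mod_eq_of_lt (by omega)]
      rw [h1, ← hp (k - n)]
      congr 1
      omega
  refine tr_of_get _ (w 0) fun i hi => ?_
  rw [List.length_append, List.length_take, hlen] at hi
  rw [hall i (by omega), hall (i + 1) (by omega), hall (i + 2) (by omega)]
  exact ⟨ha i, hb i⟩

end lists

variable {V : Type} [Fintype V] [DecidableEq V] {G : SimpleGraph V} [DecidableRel G.Adj]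
  {R : Rot G}

theorem snd_iter (d : G.Dart) (i : ℕ) : (R.next^[i] d).snd = (R.next^[i + 1] d).fst := by
  rw [Function.iterate_succ_apply', R.fst_next]

/-- Faces are closed walks. -/
theorem Geo.face_nb (g : Geo R) (d : G.Dart) {n : ℕ} (hd : sz R d = n) :
    NB G ((List.range n).map fun i => (R.next^[i] d).fst) := by
  have h4 := g.four_le_sz d
  refine nb_range (by omega) _ (fun i => ?_) (fun i h => ?_) (fun i => ?_)
  · have := (R.next^[i] d).adj
    rwa [snd_iter] at this
  · have h1 := g.next_ne_symm (R.next^[i] d)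
    apply h1
    refine SimpleGraph.Dart.ext _ _ (Prod.ext (R.fst_next _) ?_)
    show (R.next (R.next^[i] d)).snd = (R.next^[i] d).fst
    rw [h, ← snd_iter, Function.iterate_succ_apply']
  · rw [Function.iterate_add_apply, ← hd, next_sz]

/-- The list of a face of length four. -/
theorem Geo.face_nb4 (g : Geo R) {d : G.Dart} (hd : sz R d = 4) :
    NB G [d.fst, (R.next d).fst, (R.next (R.next d)).fst, (R.next (R.next (R.next d))).fst] :=
  g.face_nb d hd

/-- The list of a face of length five. -/
theorem Geo.face_nb5 (g : Geo R) {d : G.Dart} (hd : sz R d = 5) :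
    NB G [d.fst, (R.next d).fst, (R.next (R.next d)).fst, (R.next (R.next (R.next d))).fst,
      (R.next (R.next (R.next (R.next d)))).fst] :=
  g.face_nb d hd

/-! ### From the vertex language to the hypotheses of the stages -/

/-- No vertex of degree two on a 4-cycle. -/
theorem Geo.h42_of (g : Geo R) (h : ∀ a b c d, NB G [a, b, c, d] → G.degree a ≠ 2)
    (d : G.Dart) (hd : sz R d = 4) : G.degree d.fst ≠ 2 :=
  h _ _ _ _ (g.face_nb4 hd)

/-- No vertex of degree two on a 5-cycle. -/
theorem Geo.h5_of (g : Geo R) (h : ∀ a b c d e, NB G [a, b, c, d, e] → G.degree a ≠ 2)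
    (d : G.Dart) (hd : sz R d = 5) : G.degree d.fst ≠ 2 :=
  h _ _ _ _ _ (g.face_nb5 hd)

theorem nb4_rev {V : Type} {G : SimpleGraph V} {a b c d : V} (h : NB G [a, b, c, d]) :
    NB G [b, a, d, c] := by
  obtain ⟨h1, h2, h3, h4, h5, h6, h7, h8, h9⟩ := h
  exact ⟨h1.symm, h8.symm, h7.symm, h6.symm, h5.symm, h4.symm, h3.symm, h2.symm, trivial⟩

theorem nb5_rev {V : Type} {G : SimpleGraph V} {a b c d e : V} (h : NB G [a, b, c, d, e]) :
    NB G [b, a, e, d, c] := by
  obtain ⟨h1, h2, h3, h4, h5, h6, h7, h8, h9, h10, h11⟩ := h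
  exact ⟨h1.symm, h10.symm, h9.symm, h8.symm, h7.symm, h6.symm, h5.symm, h4.symm, h3.symm,
    h2.symm, trivial⟩

/-- If the faces of `d` and `d.symm` have also the next edge in common, the vertex between has
degree two. -/
theorem deg_two_of_common (d : G.Dart) (n : ℕ) (h1 : R.next^[n] d.symm = (R.next d).symm)
    (h2 : R.next^[n + 1] d.symm = d.symm) : G.degree d.snd ∣ 2 := by
  have h3 : R.rot (R.rot d.symm) = d.symm := by
    rw [Function.iterate_succ_apply', h1, next_eq, SimpleGraph.Dart.symm_symm, next_eq] at h2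
    exact h2
  have h4 : G.degree d.symm.fst ∣ 2 := by
    rw [deg_eq R]
    exact Function.IsPeriodicPt.minimalPeriod_dvd (n := 2) h3
  exact h4

/-- Adjacent 4-faces from the vertex language: two 4-cycles with a common edge are equal. -/
theorem Geo.h44_of (g : Geo R) (h2 : ∀ a b c d, NB G [a, b, c, d] → G.degree a ≠ 2)
    (h : ∀ a b c d e f, NB G [a, b, c, d] → NB G [a, b, e, f] → c = e)
    (d : G.Dart) (hd : sz R d = 4) : sz R d.symm ≠ 4 := by
  intro hs
  have e1 := g.face_nb4 hd
  have e2 := nb4_rev (g.face_nb4 hs)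
  have f1 : (R.next d.symm).fst = d.fst := R.fst_next _
  have f0 : (R.next d).fst = d.snd := R.fst_next _
  rw [f1] at e2
  rw [f0] at e1
  have e3 : (R.next (R.next d)).fst = (R.next (R.next (R.next d.symm))).fst :=
    h _ _ _ _ _ _ e1 e2
  have hper : R.next^[4] d.symm = d.symm := by
    have := next_sz R d.symm
    rwa [hs] at this
  have e4 : R.next^[3] d.symm = (R.next d).symm := by
    refine SimpleGraph.Dart.ext _ _ (Prod.ext ?_ ?_)
    · show (R.next (R.next (R.next d.symm))).fst = (R.next d).snd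
      rw [← e3, R.fst_next (R.next d)]
    · show (R.next^[3] d.symm).snd = (R.next d).fst
      rw [snd_iter, hper, f0]
      rfl
  have e5 := deg_two_of_common d 3 e4 hper
  have e6 : G.degree d.snd ≠ 2 := by
    have := g.h42_of h2 (R.next d) (by rw [sz_next]; exact hd)
    rwa [f0] at this
  rcases g.deg_cases d.snd with e7 | e7
  · exact e6 e7
  · rw [e7] at e5
    omega

/-- Two faces of length five at a vertex of degree two, from the vertex language. -/
theorem Geo.hX_of (g : Geo R)
    (h : ∀ a b c d e f k, G.degree b = 2 → NB G [a, b, c, d, e] → NB G [a, b, c, f, k] →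
      d = f ∧ e = k) (h3 : ∀ a b c d e, NB G [a, b, c, d, e] → G.degree b = 2 →
      G.degree a = 3 ∧ G.degree c = 3)
    (d : G.Dart) (h2 : G.degree d.fst = 2) (hd : sz R d = 5) : sz R d.symm ≠ 5 := by
  intro hs
  -- the other dart at the vertex
  set d' := R.rot d with hd'
  have hrr : R.rot d' = d := rot_two R h2
  have hs' : sz R d' = 5 := by rw [hd', sz_rot]; exact hs
  -- the face of `d`: ..., d'.snd, d.fst, d.snd, ...
  have hn : R.next d'.symm = d := by rw [next_eq, SimpleGraph.Dart.symm_symm, hrr]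
  have hn' : R.next d.symm = d' := by rw [next_eq, SimpleGraph.Dart.symm_symm]
  have hsz1 : sz R d'.symm = 5 := by rw [← sz_next, hn]; exact hd
  have hsz2 : sz R d.symm = 5 := hs
  have e1 := g.face_nb5 hsz1
  have e2 := nb5_rev (g.face_nb5 hsz2)
  rw [hn] at e1
  rw [hn'] at e2
  -- e1 : NB [d'.snd, d.fst, (next d).fst, ...];  e2 : NB [d'.fst, d.snd, y4, y3, (next d').fst]
  have g1 : d'.fst = d.fst := R.fst_rot d
  have g2 : (R.next d).fst = d.snd := R.fst_next _
  have g3 : (R.next d').fst = d'.snd := R.fst_next _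
  have g4 : d'.symm.fst = d'.snd := rfl
  have g5 : d.symm.fst = d.snd := rfl
  rw [g2, g4] at e1
  rw [g1, g3, g5] at e2
  -- rotate e2 : NB [d'.snd, d.fst, d.snd, y4, y3]
  have e3 : NB G [d'.snd, d.fst, d.snd, (R.next (R.next (R.next d'))).fst,
      (R.next (R.next d')).fst] := by
    obtain ⟨h1, h2, h3, h4, h5, h6, h7, h8, h9, h10, h11⟩ := e2
    exact ⟨h9, h10, h1, h2, h3, h4, h5, h6, h7, h8, trivial⟩
  obtain ⟨k1, k2⟩ := h _ _ _ _ _ _ _ h2 e1 e3
  have hd3 : G.degree d.snd = 3 := (h3 _ _ _ _ _ e1 h2).2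
  have hper : R.next^[5] d.symm = d.symm := by
    have := next_sz R d.symm
    rwa [hs] at this
  have hper' : R.next^[4] d' = d.symm := by
    rw [← hn', ← Function.iterate_succ_apply]
    exact hper
  have e4 : R.next^[4] d.symm = (R.next d).symm := by
    rw [Function.iterate_succ_apply, hn']
    refine SimpleGraph.Dart.ext _ _ (Prod.ext ?_ ?_)
    · show (R.next (R.next (R.next d'))).fst = (R.next d).snd
      rw [← k1, R.fst_next (R.next d)]
    · show (R.next^[3] d').snd = (R.next d).fst
      rw [snd_iter, hper', g2]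
      rfl
  have e5 := deg_two_of_common d 4 e4 hper
  rw [hd3] at e5
  omega

/-! ### The rules of the stages -/

/-- Corners at stage five: one of the closed walks has length four, the other at most five. -/
def A5 (k l : ℕ) : Bool := (Nat.ble k 1 || Nat.ble l 1) && Nat.ble k 2 && Nat.ble l 2

/-- Corners at stage six: one of the closed walks has length at most five, the other at most
six. -/
def A6 (k l : ℕ) : Bool := (Nat.ble k 2 || Nat.ble l 2) && Nat.ble k 3 && Nat.ble l 3

/-- Edges at stage six: two 4-cycles. -/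
def B6 (k l : ℕ) : Bool := Nat.ble k 2 && Nat.ble l 2

theorem Geo.deg_of_short (g : Geo R) {n : ℕ} (hn : n ≤ 7) (hbad : ¬ Bad R n) {m : ℕ}
    (hm : m ≤ n) (hdeg : ∀ d : G.Dart, sz R d ≤ m → G.degree d.fst ≠ 2)
    {a v b : V} {l : List V} (h : NB G (a :: v :: b :: l)) (hl : l.length + 3 ≤ m) :
    G.degree v = 3 := by
  obtain ⟨d, hd, hs⟩ := g.vertex_face hn hbad h (by omega)
  have := hdeg d (by omega)
  rw [hd] at this
  rcases g.deg_cases v with h7 | h7
  · exact absurd h7 this
  · exact h7

/-- **Stage five.** -/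
theorem Geo.rules5 (g : Geo R) (h42 : ∀ d : G.Dart, sz R d = 4 → G.degree d.fst ≠ 2) :
    Rules G A5 (fun _ _ => false) := by
  have hbad := g.not_bad5 h42
  have h4 := g.four_le_sz
  refine ⟨g.tri, ?_, fun _ _ _ _ _ _ h => absurd h (by simp)⟩
  intro a v b l l' h h' hA
  simp only [A5, Bool.and_eq_true, Bool.or_eq_true, Nat.ble_eq] at hA
  obtain ⟨⟨h6, h7⟩, h8⟩ := hA
  have hdeg : ∀ d : G.Dart, sz R d ≤ 4 → G.degree d.fst ≠ 2 := fun d hd =>
    h42 d (by have := h4 d; omega)
  refine g.cornerEq (by norm_num) hbad h h' (by omega) (by omega) ?_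
  rcases h6 with h6 | h6
  · exact g.deg_of_short (by norm_num) hbad (by norm_num) hdeg h (by omega)
  · exact g.deg_of_short (by norm_num) hbad (by norm_num) hdeg h' (by omega)

/-- **Stage six.** -/
theorem Geo.rules6 (g : Geo R) (h42 : ∀ d : G.Dart, sz R d = 4 → G.degree d.fst ≠ 2)
    (h44 : ∀ d : G.Dart, sz R d = 4 → sz R d.symm ≠ 4)
    (h5 : ∀ d : G.Dart, sz R d = 5 → G.degree d.fst ≠ 2) : Rules G A6 B6 := by
  have hbad := g.not_bad6 h42 h44 (fun d hd hs => absurd hd (h5 d hs))
  have h4 := g.four_le_sz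
  have hdeg : ∀ d : G.Dart, sz R d ≤ 5 → G.degree d.fst ≠ 2 := fun d hd => by
    have := h4 d
    rcases (by omega : sz R d = 4 ∨ sz R d = 5) with h | h
    · exact h42 d h
    · exact h5 d h
  refine ⟨g.tri, ?_, ?_⟩
  · intro a v b l l' h h' hA
    simp only [A6, Bool.and_eq_true, Bool.or_eq_true, Nat.ble_eq] at hA
    obtain ⟨⟨h6, h7⟩, h8⟩ := hA
    refine g.cornerEq (by norm_num) hbad h h' (by omega) (by omega) ?_
    rcases h6 with h6 | h6
    · exact g.deg_of_short (by norm_num) hbad (by norm_num) hdeg h (by omega)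
    · exact g.deg_of_short (by norm_num) hbad (by norm_num) hdeg h' (by omega)
  · intro a v l l' h h' hB
    simp only [B6, Bool.and_eq_true, Nat.ble_eq] at hB
    have hlen : ∀ {l : List V}, NB G (a :: v :: l) → 2 ≤ l.length := by
      intro l hnb
      by_contra hcon
      rcases (by omega : l.length = 0 ∨ l.length = 1) with h9 | h9
      · rw [List.length_eq_zero_iff] at h9
        subst h9
        exact nb_two hnb
      · obtain ⟨b, rfl⟩ := List.length_eq_one_iff.1 h9
        exact nb_three g.tri hnb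
    have e1 := hlen h
    have e2 := hlen h'
    rcases g.edgeEq (by norm_num) hbad h h' (by omega) (by omega) (by omega) (by omega) with
      h9 | ⟨d, h9, h10⟩
    · exact h9
    · exact absurd (by omega) (h44 d (by omega))

end Pool.Agent.T392
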