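import Mathlib
import Pool.Agent.Work.MP_392c8e_co_red.PlG
import Pool.Agent.Work.MP_392c8e_co_t1.Strict

/-!
# Replacing disjoint paths by edges

All graphs live on one fixed vertex type; deleted vertices become isolated.
-/

namespace Pool.Agent.T1Red

open Finset
open Pool.Agent.Red (Pl)

set_option linter.unusedSectionVars false

variable {V : Type} [Fintype V] [DecidableEq V] {G H : SimpleGraph V}

/-- The vertices of `l` are isolated and the edge `a b` is added. -/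
def pth (G : SimpleGraph V) (a b : V) (l : List V) : SimpleGraph V where
  Adj u v := (G.Adj u v ∧ u ∉ l ∧ v ∉ l) ∨ (a ≠ b ∧ ((u = a ∧ v = b) ∨ (u = b ∧ v = a)))
  symm := ⟨by
    rintro u v (⟨h1, h2, h3⟩ | ⟨h1, h2⟩)
    · exact Or.inl ⟨h1.symm, h3, h2⟩
    · exact Or.inr ⟨h1, by tauto⟩⟩
  loopless := ⟨by
    rintro u (⟨h1, -, -⟩ | ⟨h1, ⟨h2, h3⟩ | ⟨h2, h3⟩⟩)
    · exact G.loopless.irrefl u h1
    · exact h1 (h2.symm.trans h3)
    · exact h1 (h3.symm.trans h2)⟩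

/-- Suppression of one vertex. -/
theorem pl_sup (h : Pl G) {a x b : V} (hax : G.Adj a x) (hxb : G.Adj x b) (hab : a ≠ b) :
    Pl (pth G a b [x]) := by
  classical
  have hax' := hax.ne
  have hxb' := hxb.ne
  -- the edges at `x` other than `a x`, `x b` and the edge `a b` are deleted
  let G1 : SimpleGraph V :=
    { Adj := fun u v => (G.Adj u v ∧ u ≠ x ∧ v ≠ x ∧ ¬ (u = a ∧ v = b) ∧ ¬ (u = b ∧ v = a)) ∨
        (u = a ∧ v = x) ∨ (u = x ∧ v = a) ∨ (u = x ∧ v = b) ∨ (u = b ∧ v = x)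
      symm := ⟨by
        rintro u v (⟨h1, h2, h3, h4, h5⟩ | h1)
        · exact Or.inl ⟨h1.symm, h3, h2, fun h => h5 ⟨h.2, h.1⟩, fun h => h4 ⟨h.2, h.1⟩⟩
        · exact Or.inr (by tauto)⟩
      loopless := ⟨by
        rintro u (⟨h1, -⟩ | ⟨h1, h2⟩ | ⟨h1, h2⟩ | ⟨h1, h2⟩ | ⟨h1, h2⟩)
        · exact G.loopless.irrefl u h1
        · exact hax' (h1.symm.trans h2)
        · exact hax' (h2.symm.trans h1)
        · exact hxb' (h1.symm.trans h2)
        · exact hxb' (h2.symm.trans h1)⟩ }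
  have hG1 : G1 ≤ G := by
    rintro u v (⟨h1, -⟩ | ⟨rfl, rfl⟩ | ⟨rfl, rfl⟩ | ⟨rfl, rfl⟩ | ⟨rfl, rfl⟩)
    · exact h1
    · exact hax
    · exact hax.symm
    · exact hxb
    · exact hxb.symm
  have h1 : Pl G1 := h.del hG1
  refine Pool.Agent.Red.Pl.contract h1 (fun v => if v = x then a else v) ?_ ?_ ?_ ?_

  · rintro u v (⟨h2, h3, h4, h5, h6⟩ | ⟨rfl, rfl⟩ | ⟨rfl, rfl⟩ | ⟨rfl, rfl⟩ | ⟨rfl, rfl⟩) hne
    · simp only [if_neg h3, if_neg h4]
      exact Or.inl ⟨h2, by simpa using h3, by simpa using h4⟩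
    · simp [hax'] at hne
    · simp [hax'] at hne
    · simp only [if_true, if_neg hxb'.symm]
      exact Or.inr ⟨hab, Or.inl ⟨rfl, rfl⟩⟩
    · simp only [if_true, if_neg hxb'.symm]
      exact Or.inr ⟨hab, Or.inr ⟨rfl, rfl⟩⟩
  · rintro u v (⟨h2, h3, h4⟩ | ⟨-, ⟨rfl, rfl⟩ | ⟨rfl, rfl⟩⟩)
    · simp only [List.mem_singleton] at h3 h4
      by_cases h5 : u = a ∧ v = b
      · obtain ⟨rfl, rfl⟩ := h5
        exact ⟨x, v, Or.inr (Or.inr (Or.inr (Or.inl ⟨rfl, rfl⟩))), by simp, by simp [hxb'.symm]⟩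
      · by_cases h6 : u = b ∧ v = a
        · obtain ⟨rfl, rfl⟩ := h6
          exact ⟨u, x, Or.inr (Or.inr (Or.inr (Or.inr ⟨rfl, rfl⟩))), by simp [hxb'.symm],
            by simp⟩
        · exact ⟨u, v, Or.inl ⟨h2, h3, h4, h5, h6⟩, by simp [h3], by simp [h4]⟩
    · exact ⟨x, v, Or.inr (Or.inr (Or.inr (Or.inl ⟨rfl, rfl⟩))), by simp, by simp [hxb'.symm]⟩
    · exact ⟨u, x, Or.inr (Or.inr (Or.inr (Or.inr ⟨rfl, rfl⟩))), by simp [hxb'.symm], by simp⟩
  · intro u v u' v' huv huv' hu hv hne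
    -- the edges are determined by their images
    have key : ∀ u v, G1.Adj u v → (if u = x then a else u) ≠ (if v = x then a else v) →
        ((u ≠ x ∧ v ≠ x ∧ ¬ (u = a ∧ v = b) ∧ ¬ (u = b ∧ v = a)) ∨ (u = x ∧ v = b) ∨
          (u = b ∧ v = x)) := by
      rintro u v (⟨h2, h3, h4, h5, h6⟩ | ⟨rfl, rfl⟩ | ⟨rfl, rfl⟩ | ⟨rfl, rfl⟩ | ⟨rfl, rfl⟩) hne
      · exact Or.inl ⟨h3, h4, h5, h6⟩
      · simp [hax'] at hne
      · simp [hax'] at hne
      · exact Or.inr (Or.inl ⟨rfl, rfl⟩)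
      · exact Or.inr (Or.inr ⟨rfl, rfl⟩)
    have k1 := key u v huv hne
    have hne' : (if u' = x then a else u') ≠ (if v' = x then a else v') := by
      rw [← hu, ← hv]
      exact hne
    have k2 := key u' v' huv' hne'
    rcases k1 with ⟨a1, a2, a3, a4⟩ | ⟨a1, a2⟩ | ⟨a1, a2⟩
    · rw [if_neg a1] at hu
      rw [if_neg a2] at hv
      rcases k2 with ⟨b1, b2, b3, b4⟩ | ⟨b1, b2⟩ | ⟨b1, b2⟩
      · rw [if_neg b1] at hu
        rw [if_neg b2] at hv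
        exact ⟨hu, hv⟩
      · rw [if_pos b1] at hu
        rw [b2, if_neg hxb'.symm] at hv
        exact absurd ⟨hu, hv⟩ a3
      · rw [b1, if_neg hxb'.symm] at hu
        rw [if_pos b2] at hv
        exact absurd ⟨hu, hv⟩ a4
    · rw [if_pos a1] at hu
      rw [a2, if_neg hxb'.symm] at hv
      rcases k2 with ⟨b1, b2, b3, b4⟩ | ⟨b1, b2⟩ | ⟨b1, b2⟩
      · rw [if_neg b1] at hu
        rw [if_neg b2] at hv
        exact absurd ⟨hu.symm, hv.symm⟩ b3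
      · exact ⟨a1.trans b1.symm, a2.trans b2.symm⟩
      · rw [b1, if_neg hxb'.symm] at hu
        exact absurd hu hab
    · rw [a1, if_neg hxb'.symm] at hu
      rw [if_pos a2] at hv
      rcases k2 with ⟨b1, b2, b3, b4⟩ | ⟨b1, b2⟩ | ⟨b1, b2⟩
      · rw [if_neg b1] at hu
        rw [if_neg b2] at hv
        exact absurd ⟨hu.symm, hv.symm⟩ b4
      · rw [if_pos b1] at hu
        exact absurd hu.symm hab
      · exact ⟨a1.trans b1.symm, a2.trans b2.symm⟩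
  · intro φ hφ u v huv
    have h2 : φ a = φ x := hφ a x (Or.inr (Or.inl ⟨rfl, rfl⟩)) (by simp [hax'])
    by_cases h3 : u = x
    · rw [if_pos h3] at huv
      by_cases h4 : v = x
      · rw [h3, h4]
      · rw [if_neg h4] at huv
        rw [h3, ← huv, h2]
    · rw [if_neg h3] at huv
      by_cases h4 : v = x
      · rw [if_pos h4] at huv
        rw [h4, huv, h2]
      · rw [if_neg h4] at huv
        rw [huv]

/-- Replacement of a path by an edge. -/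
theorem pl_path (h : Pl G) {a b : V} (l : List V) (hc : List.IsChain G.Adj (a :: (l ++ [b])))
    (hn : (a :: (l ++ [b])).Nodup) : Pl (pth G a b l) := by
  classical
  induction l generalizing G with
  | nil =>
    refine h.del ?_
    rintro u v (⟨h1, -, -⟩ | ⟨-, ⟨rfl, rfl⟩ | ⟨rfl, rfl⟩⟩)
    · exact h1
    · simpa using hc
    · have : G.Adj v u := by simpa using hc
      exact this.symm
  | cons x l ih =>
    obtain ⟨y, hy⟩ : ∃ y r, l ++ [b] = y :: r := by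
      cases l with
      | nil => exact ⟨b, [], rfl⟩
      | cons y l => exact ⟨y, l ++ [b], rfl⟩
    obtain ⟨r, hy⟩ := hy
    rw [List.cons_append, hy] at hc hn
    rw [List.isChain_cons_cons, List.isChain_cons_cons] at hc
    obtain ⟨hax, hxy, hyr⟩ := hc
    have hn' := hn
    rw [List.nodup_cons, List.nodup_cons] at hn'
    obtain ⟨ha, hx, hyn⟩ := hn'
    have hay : a ≠ y := fun h => ha (by simp [h])
    have h1 := pl_sup h hax hxy hay
    have h2 : List.IsChain (pth G a y [x]).Adj (a :: (l ++ [b])) := by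
      rw [hy, List.isChain_cons_cons]
      refine ⟨Or.inr ⟨hay, Or.inl ⟨rfl, rfl⟩⟩, ?_⟩
      have h3 : ∀ z ∈ y :: r, z ≠ x := fun z hz h => hx (h ▸ hz)
      clear hy ih hn ha hx hyn
      revert hyr h3
      generalize y :: r = q
      intro hyr h3
      refine List.IsChain.imp_of_mem_imp ?_ hyr
      intro u v hu hv huv
      exact Or.inl ⟨huv, by simpa using h3 u hu, by simpa using h3 v hv⟩
    have h3 : (a :: (l ++ [b])).Nodup := by
      rw [hy, List.nodup_cons]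
      exact ⟨fun h => ha (List.mem_cons_of_mem _ h), hyn⟩
    refine (ih h1 h2 h3).del ?_
    rintro u v (⟨h4, h5, h6⟩ | h4)
    · rw [List.mem_cons, not_or] at h5 h6
      exact Or.inl ⟨Or.inl ⟨h4, by simpa using h5.1, by simpa using h6.1⟩, h5.2, h6.2⟩
    · exact Or.inr h4

/-- The inner vertices of the paths are isolated and their ends are joined. -/
def multi (G : SimpleGraph V) (P : List (V × List V × V)) : SimpleGraph V where
  Adj u v := (G.Adj u v ∧ (∀ p ∈ P, u ∉ p.2.1 ∧ v ∉ p.2.1)) ∨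
    ∃ p ∈ P, p.1 ≠ p.2.2 ∧ ((u = p.1 ∧ v = p.2.2) ∨ (u = p.2.2 ∧ v = p.1))
  symm := ⟨by
    rintro u v (⟨h1, h2⟩ | ⟨p, hp, h1, h2⟩)
    · exact Or.inl ⟨h1.symm, fun p hp => (h2 p hp).symm⟩
    · exact Or.inr ⟨p, hp, h1, by tauto⟩⟩
  loopless := ⟨by
    rintro u (⟨h1, -⟩ | ⟨p, -, h1, ⟨h2, h3⟩ | ⟨h2, h3⟩⟩)
    · exact G.loopless.irrefl u h1
    · exact h1 (h2.symm.trans h3)
    · exact h1 (h3.symm.trans h2)⟩

/-- Replacement of disjoint paths by edges. -/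
theorem pl_multi (h : Pl G) (P : List (V × List V × V))
    (hc : ∀ p ∈ P, List.IsChain G.Adj (p.1 :: (p.2.1 ++ [p.2.2])) ∧
      (p.1 :: (p.2.1 ++ [p.2.2])).Nodup)
    (hd : P.Pairwise fun p q => (∀ x ∈ p.2.1, x ∉ q.1 :: (q.2.1 ++ [q.2.2])) ∧
      ∀ x ∈ q.2.1, x ∉ p.1 :: (p.2.1 ++ [p.2.2])) : Pl (multi G P) := by
  classical
  induction P generalizing G with
  | nil =>
    refine h.del ?_
    rintro u v (⟨h1, -⟩ | ⟨p, hp, -⟩)
    · exact h1
    · simp at hp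
  | cons p P ih =>
    obtain ⟨a, l, b⟩ := p
    rw [List.pairwise_cons] at hd
    obtain ⟨hd1, hd2⟩ := hd
    have hp := hc _ List.mem_cons_self
    simp only at hp
    have h1 := pl_path h l hp.1 hp.2
    have h2 := ih h1 (fun q hq => ⟨?_, (hc q (List.mem_cons_of_mem _ hq)).2⟩) hd2
    · refine h2.del ?_
      rintro u v (⟨h3, h4⟩ | ⟨q, hq, h3, h4⟩)
      · have h5 := h4 _ List.mem_cons_self
        exact Or.inl ⟨Or.inl ⟨h3, h5.1, h5.2⟩, fun q hq => h4 q (List.mem_cons_of_mem _ hq)⟩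
      · rcases List.mem_cons.1 hq with rfl | hq
        · refine Or.inl ⟨Or.inr ⟨h3, h4⟩, fun q hq => ?_⟩
          have h5 := (hd1 q hq).2
          have h6 : a ∉ q.2.1 := fun h => h5 a h (by simp)
          have h7 : b ∉ q.2.1 := fun h => h5 b h (by simp)
          simp only at h4
          rcases h4 with ⟨rfl, rfl⟩ | ⟨rfl, rfl⟩
          · exact ⟨h6, h7⟩
          · exact ⟨h7, h6⟩
        · exact Or.inr ⟨q, hq, h3, h4⟩
    · have h5 := (hd1 q hq).1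
      refine List.IsChain.imp_of_mem_imp ?_ (hc q (List.mem_cons_of_mem _ hq)).1
      intro u v hu hv huv
      exact Or.inl ⟨huv, fun h => h5 u h hu, fun h => h5 v h hv⟩

/-- The vertices of `I` are isolated and the edges of `N` are added. -/
def newG (G : SimpleGraph V) (I : V → Prop) (N : List (V × V)) : SimpleGraph V where
  Adj u v := (G.Adj u v ∧ ¬ I u ∧ ¬ I v) ∨ (u ≠ v ∧ ((u, v) ∈ N ∨ (v, u) ∈ N))
  symm := ⟨by
    rintro u v (⟨h1, h2, h3⟩ | ⟨h1, h2⟩)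
    · exact Or.inl ⟨h1.symm, h3, h2⟩
    · exact Or.inr ⟨h1.symm, h2.symm⟩⟩
  loopless := ⟨by
    rintro u (⟨h1, -⟩ | ⟨h1, -⟩)
    · exact G.loopless.irrefl u h1
    · exact h1 rfl⟩

/-- The new graph has an algebraic dual. -/
theorem pl_newG (h : Pl G) (I : V → Prop) (N : List (V × V)) (P : List (V × List V × V))
    (hc : ∀ p ∈ P, List.IsChain G.Adj (p.1 :: (p.2.1 ++ [p.2.2])) ∧
      (p.1 :: (p.2.1 ++ [p.2.2])).Nodup)
    (hd : P.Pairwise fun p q => (∀ x ∈ p.2.1, x ∉ q.1 :: (q.2.1 ++ [q.2.2])) ∧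
      ∀ x ∈ q.2.1, x ∉ p.1 :: (p.2.1 ++ [p.2.2]))
    (hI : ∀ p ∈ P, ∀ x ∈ p.2.1, I x)
    (hN : ∀ e ∈ N, ∃ p ∈ P, (p.1 = e.1 ∧ p.2.2 = e.2) ∨ (p.1 = e.2 ∧ p.2.2 = e.1)) :
    Pl (newG G I N) := by
  refine (pl_multi h P hc hd).del ?_
  have key : ∀ u v, u ≠ v → (u, v) ∈ N →
      ∃ p ∈ P, p.1 ≠ p.2.2 ∧ ((u = p.1 ∧ v = p.2.2) ∨ (u = p.2.2 ∧ v = p.1)) := by
    intro u v huv hm
    obtain ⟨p, hp, h1 | h1⟩ := hN _ hm
    · refine ⟨p, hp, ?_, Or.inl ⟨h1.1.symm, h1.2.symm⟩⟩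
      rw [h1.1, h1.2]
      exact huv
    · refine ⟨p, hp, ?_, Or.inr ⟨h1.2.symm, h1.1.symm⟩⟩
      rw [h1.1, h1.2]
      exact huv.symm
  rintro u v (⟨h1, h2, h3⟩ | ⟨h1, h2 | h2⟩)
  · exact Or.inl ⟨h1, fun p hp => ⟨fun h => h2 (hI p hp _ h), fun h => h3 (hI p hp _ h)⟩⟩
  · exact Or.inr (key u v h1 h2)
  · obtain ⟨p, hp, h3, h4⟩ := key v u h1.symm h2
    exact Or.inr ⟨p, hp, h3, by tauto⟩

end Pool.Agent.T1Red
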