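import Mathlib
import Pool.Agent.Work.MP_392c8e_co_t1.Surgery
import Pool.Agent.Work.MP_392c8e_co_red.MinDef

/-!
# The reduction step

A configuration with a checked reducer gives a smaller graph of the same class such that every
strict colouring of the smaller graph gives a strict colouring of the graph.
-/

namespace Pool.Agent.T1Red

open Finset
open Pool.Agent.Red (Pl MinCex StrictCol)

set_option linter.unusedSectionVars false

/-- The indices are equal or a pair of the list. -/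
def Same (co : List (ℕ × ℕ)) (i j : ℕ) : Prop := i = j ∨ (i, j) ∈ co ∨ (j, i) ∈ co

instance (co : List (ℕ × ℕ)) (i j : ℕ) : Decidable (Same co i j) := by
  unfold Same
  infer_instance

theorem Same.symm {co : List (ℕ × ℕ)} {i j : ℕ} (h : Same co i j) : Same co j i := by
  unfold Same at h ⊢
  tauto

/-- The extension property of a reducer: every state of the labels which is strict on the new edges
extends to the interior, if labels with the same height are equal or a pair of the list `co`. -/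
def Red.Ext (R : Red) (co : List (ℕ × ℕ)) : Prop :=
  ∀ (c : ℕ → ZMod 3) (τ : ℕ → ℝ), (∀ i j, i < R.t → j < R.t → τ i = τ j → Same co i j) →
    (∀ e ∈ R.nw, Str c τ e.1 e.2) →
    ∃ (c' : ℕ → ZMod 3) (τ' : ℕ → ℝ), (∀ i, i < R.t → c' i = c i ∧ τ' i = τ i) ∧
      ∀ e ∈ R.ed, Str c' τ' e.1 e.2

/-- The masks only contain pairs of distinct labels which are not pairs of the list `co`. -/
def neOK (R : Red) (co : List (ℕ × ℕ)) : Bool :=
  (List.range R.ne.length).all fun i =>
    Nat.blt i R.t && Nat.blt (row R.ne i) (2 ^ R.t) &&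
      (List.range R.t).all fun j => !(bit (row R.ne i) j && decide (Same co i j))

theorem row_of_le : ∀ (M : List Nat) (i : Nat), M.length ≤ i → row M i = 0 := by
  intro M
  induction M with
  | nil => exact fun i _ => by simp [row]
  | cons r M ih =>
    intro i hi
    cases i with
    | zero => simp at hi
    | succ i =>
      have := ih i (by simpa using hi)
      simpa [row] using this

theorem Red.ext_of_check {R : Red} {cert : List (List Nat)} {co : List (ℕ × ℕ)}
    (h : check R cert = true) (hne : neOK R co = true) : R.Ext co := by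
  intro c τ hτ hnw
  refine Red.core h c τ hnw fun i j hij => ?_
  have hi : i < R.ne.length := by
    by_contra hcon
    have h1 : row R.ne i = 0 := row_of_le _ _ (by omega)
    rw [h1] at hij
    simp [bit_eq] at hij
  unfold neOK at hne
  rw [List.all_eq_true] at hne
  have h1 := hne i (List.mem_range.2 hi)
  rw [Bool.and_eq_true, Bool.and_eq_true, List.all_eq_true] at h1
  obtain ⟨⟨h2, h3⟩, h4⟩ := h1
  have h2' : i < R.t := by simpa using h2
  have h3' : row R.ne i < 2 ^ R.t := by simpa using h3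
  have hj : j < R.t := by
    by_contra hcon
    rw [bit_eq, Nat.testBit_eq_false_of_lt] at hij
    · simp at hij
    · exact h3'.trans_le (Nat.pow_le_pow_right (by norm_num) (by omega))
  intro h5
  have h6 := hτ i j h2' hj h5
  have h7 := h4 j (List.mem_range.2 hj)
  rw [hij] at h7
  simp [h6] at h7

/-- All degrees are at most three. -/
def Deg3 {V : Type*} (G : SimpleGraph V) : Prop :=
  ∀ (v : V) (A : Finset V), (∀ w ∈ A, G.Adj v w) → A.card ≤ 3

/-- New labels are placed on reused interior vertices. -/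
def rho (nl : List (ℕ × ℕ)) (j : ℕ) : ℕ :=
  match nl.find? (fun p => p.1 == j) with
  | some p => p.2
  | none => j

/-- The other end. -/
def oth (j : ℕ) (e : ℕ × ℕ) : ℕ := if e.1 = j then e.2 else e.1

/-- The present new edges in both directions. -/
def nwD (R : Red) (miss : List ℕ) : List (ℕ × ℕ) :=
  (R.nw ++ R.nw.map fun e => (e.2, e.1)).filter fun e =>
    !(decide (e.1 ∈ miss) || decide (e.2 ∈ miss))

theorem mem_nwD {R : Red} {miss : List ℕ} {i j : ℕ} : (i, j) ∈ nwD R miss ↔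
    ((i, j) ∈ R.nw ∨ (j, i) ∈ R.nw) ∧ i ∉ miss ∧ j ∉ miss := by
  unfold nwD
  rw [List.mem_filter, List.mem_append, List.mem_map]
  constructor
  · rintro ⟨h1 | ⟨e, he, h1⟩, h2⟩
    · exact ⟨Or.inl h1, by simpa using h2⟩
    · rw [Prod.mk.injEq] at h1
      refine ⟨Or.inr ?_, by simpa using h2⟩
      rwa [← h1.1, ← h1.2]
  · rintro ⟨h1 | h1, h2, h3⟩
    · exact ⟨Or.inl h1, by simp [h2, h3]⟩
    · exact ⟨Or.inr ⟨_, h1, rfl⟩, by simp [h2, h3]⟩

/-- The index is not a new label. -/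
def Old (nl : List (ℕ × ℕ)) (j : ℕ) : Prop := ∀ p ∈ nl, p.1 ≠ j

instance (nl : List (ℕ × ℕ)) (j : ℕ) : Decidable (Old nl j) := by
  unfold Old
  infer_instance

/-- The combinatorial data of a reduction. -/
structure Data (R : Red) (nl : List (ℕ × ℕ)) (ps : List (ℕ × List ℕ × ℕ)) (miss : List ℕ)
    (co com bad : List (ℕ × ℕ)) : Prop where
  ed_lt : ∀ e ∈ R.ed, e.1 < R.t + R.m ∧ e.2 < R.t + R.m ∧ e.1 ≠ e.2
  ed_int : ∀ e ∈ R.ed, R.t ≤ e.1 ∨ R.t ≤ e.2
  ed_new : ∀ e ∈ R.ed, Old nl e.1 ∧ Old nl e.2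
  ed_nodup : R.ed.Pairwise fun e e' => e ≠ e' ∧ e ≠ (e'.2, e'.1)
  att : ∀ j ∈ List.range R.t, Old nl j → ∃ e ∈ R.ed, e.1 = j ∨ e.2 = j
  new : ∀ p ∈ nl, p.1 < R.t ∧ R.t ≤ p.2 ∧ p.2 < R.t + R.m
  new_inj : ∀ p ∈ nl, ∀ q ∈ nl, p.2 = q.2 → p.1 = q.1
  miss_lt : ∀ j ∈ miss, j < R.t ∧ Old nl j
  nw_lt : ∀ e ∈ R.nw, e.1 < R.t ∧ e.2 < R.t ∧ e.1 ≠ e.2
  nw_deg : ∀ j ∈ List.range R.t, (R.nw.filter fun e => e.1 == j || e.2 == j).length ≤
    if Old nl j then 1 else 3
  nw_miss : ∀ e ∈ R.nw, ¬ (e.1 ∈ miss ∧ e.2 ∈ miss)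
  nw_co : ∀ e ∈ R.nw, ¬ Same co e.1 e.2
  nw_tri : ∀ e₁ ∈ nwD R miss, ∀ e₂ ∈ nwD R miss, Same co e₁.1 e₂.1 →
    ∀ e₃ ∈ nwD R miss, Same co e₁.2 e₃.1 → ¬ Same co e₂.2 e₃.2
  co_ter : ∀ p ∈ co, p.1 < R.t ∧ p.2 < R.t ∧ Old nl p.1 ∧ Old nl p.2
  co_att : ∀ p ∈ co, ∀ e ∈ R.ed, (e.1 = p.1 ∨ e.2 = p.1) → ∀ e' ∈ R.ed,
    (e'.1 = p.2 ∨ e'.2 = p.2) → oth p.1 e ≠ oth p.2 e'
  count : (R.nw.filter fun e => !(decide (e.1 ∈ miss) || decide (e.2 ∈ miss))).length <
    (R.ed.filter fun e => !(decide (e.1 ∈ miss) || decide (e.2 ∈ miss))).length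
  path : ∀ e ∈ R.nw, e.1 ∉ miss → e.2 ∉ miss → ∃ p ∈ ps,
    (p.1 = rho nl e.1 ∧ p.2.2 = rho nl e.2) ∨ (p.1 = rho nl e.2 ∧ p.2.2 = rho nl e.1)
  chain : ∀ p ∈ ps, List.IsChain (fun a b => (a, b) ∈ R.ed ∨ (b, a) ∈ R.ed)
    (p.1 :: (p.2.1 ++ [p.2.2]))
  nodup : ∀ p ∈ ps, (p.1 :: (p.2.1 ++ [p.2.2])).Pairwise fun a b => ¬ Same co a b
  inner : ∀ p ∈ ps, ∀ x ∈ p.2.1, R.t ≤ x
  rng : ∀ p ∈ ps, ∀ x ∈ p.1 :: (p.2.1 ++ [p.2.2]), x < R.t + R.m ∧ x ∉ miss ∧ Old nl x
  disj : ps.Pairwise fun p q => (∀ x ∈ p.2.1, x ∉ q.1 :: (q.2.1 ++ [q.2.2])) ∧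
    ∀ x ∈ q.2.1, x ∉ p.1 :: (p.2.1 ++ [p.2.2])
  com_mem : ∀ e ∈ R.nw, e.1 ∉ miss → e.2 ∉ miss → Old nl e.1 → Old nl e.2 →
    e ∈ com ∨ (e.2, e.1) ∈ com
  bad_mem : ∀ e₁ ∈ nwD R miss, ∀ e₂ ∈ nwD R miss, Same co e₁.1 e₂.1 → e₁.2 ≠ e₂.2 →
    Old nl e₁.2 → Old nl e₂.2 → (e₁.2, e₂.2) ∈ bad ∨ (e₂.2, e₁.2) ∈ bad

/-- The indices which are vertices of the configuration. -/
def Real (R : Red) (nl : List (ℕ × ℕ)) (miss : List ℕ) (j : ℕ) : Prop :=
  j < R.t + R.m ∧ j ∉ miss ∧ Old nl j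

theorem rho_old {nl : List (ℕ × ℕ)} {j : ℕ} (h : Old nl j) : rho nl j = j := by
  unfold rho
  have : nl.find? (fun p => p.1 == j) = none := by
    rw [List.find?_eq_none]
    intro p hp
    simpa using h p hp
  rw [this]

theorem rho_new {nl : List (ℕ × ℕ)} {j : ℕ} (h : ¬ Old nl j) :
    ∃ p ∈ nl, p.1 = j ∧ rho nl j = p.2 := by
  unfold rho
  cases h1 : nl.find? (fun p => p.1 == j) with
  | none =>
    exfalso
    apply h
    rw [List.find?_eq_none] at h1
    intro p hp
    simpa using h1 p hp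
  | some p =>
    have h2 := List.find?_some h1
    exact ⟨p, List.mem_of_find?_eq_some h1, by simpa using h2, rfl⟩

variable {R : Red} {nl : List (ℕ × ℕ)} {ps : List (ℕ × List ℕ × ℕ)} {miss : List ℕ}
  {co com bad : List (ℕ × ℕ)}

theorem Data.same_int (hd : Data R nl ps miss co com bad) {i j : ℕ} (h : Same co i j)
    (hi : R.t ≤ i) : i = j := by
  rcases h with h | h | h
  · exact h
  · have := (hd.co_ter _ h).1
    simp only at this
    omega
  · have := (hd.co_ter _ h).2.1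
    simp only at this
    omega

/-- The place of a present label is a vertex of the configuration. -/
theorem Data.real_rho (hd : Data R nl ps miss co com bad) {j : ℕ} (hj : j < R.t) (hm : j ∉ miss) :
    Real R nl miss (rho nl j) := by
  by_cases h : Old nl j
  · rw [rho_old h]
    exact ⟨by omega, hm, h⟩
  · obtain ⟨p, hp, h1, h2⟩ := rho_new h
    rw [h2]
    obtain ⟨a1, a2, a3⟩ := hd.new p hp
    refine ⟨a3, fun h3 => ?_, fun q hq h3 => ?_⟩
    · have := (hd.miss_lt _ h3).1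
      omega
    · have := (hd.new q hq).1
      omega

theorem Data.real_int (hd : Data R nl ps miss co com bad) {i : ℕ} (hi : R.t ≤ i)
    (hi' : i < R.t + R.m) : Real R nl miss i := by
  refine ⟨hi', fun h3 => ?_, fun p hp h3 => ?_⟩
  · have := (hd.miss_lt _ h3).1
    omega
  · have := (hd.new p hp).1
    omega

theorem Data.same_rho (hd : Data R nl ps miss co com bad) {i j : ℕ} (hi : i < R.t) (hj : j < R.t)
    (h : Same co (rho nl i) (rho nl j)) : Same co i j := by
  by_cases h1 : Old nl i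
  · by_cases h2 : Old nl j
    · rwa [rho_old h1, rho_old h2] at h
    · obtain ⟨p, hp, h3, h4⟩ := rho_new h2
      have h5 := (hd.new p hp).2.1
      rw [rho_old h1, h4] at h
      have h6 := hd.same_int h.symm h5
      omega
  · obtain ⟨p, hp, h3, h4⟩ := rho_new h1
    have h7 := (hd.new p hp).2.1
    by_cases h2 : Old nl j
    · rw [rho_old h2, h4] at h
      have h6 := hd.same_int h h7
      omega
    · obtain ⟨q, hq, h5, h6⟩ := rho_new h2
      rw [h4, h6] at h
      have h8 := hd.same_int h h7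
      refine Or.inl ?_
      rw [← h3, ← h5]
      exact hd.new_inj p hp q hq h8

section

variable {V : Type} [Fintype V] [DecidableEq V] {G : SimpleGraph V}

/-- The interior vertices. -/
def Int (R : Red) (f : ℕ → V) (v : V) : Prop := ∃ i, R.t ≤ i ∧ i < R.t + R.m ∧ f i = v

/-- The new edges. -/
def nedges (R : Red) (nl : List (ℕ × ℕ)) (miss : List ℕ) (f : ℕ → V) : List (V × V) :=
  (R.nw.filter fun e => !(decide (e.1 ∈ miss) || decide (e.2 ∈ miss))).map fun e =>
    (f (rho nl e.1), f (rho nl e.2))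

theorem mem_nedges {f : ℕ → V} {u v : V} : (u, v) ∈ nedges R nl miss f ↔
    ∃ e ∈ R.nw, e.1 ∉ miss ∧ e.2 ∉ miss ∧ u = f (rho nl e.1) ∧ v = f (rho nl e.2) := by
  unfold nedges
  rw [List.mem_map]
  constructor
  · rintro ⟨e, he, h⟩
    rw [List.mem_filter] at he
    have h1 : e.1 ∉ miss ∧ e.2 ∉ miss := by simpa using he.2
    rw [Prod.mk.injEq] at h
    exact ⟨e, he.1, h1.1, h1.2, h.1.symm, h.2.symm⟩
  · rintro ⟨e, he, h1, h2, h3, h4⟩
    refine ⟨e, List.mem_filter.2 ⟨he, by simp [h1, h2]⟩, ?_⟩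
    rw [h3, h4]

/-- Two labels are joined by a present new edge. -/
def Nw (R : Red) (miss : List ℕ) (i j : ℕ) : Prop :=
  ((i, j) ∈ R.nw ∨ (j, i) ∈ R.nw) ∧ i ∉ miss ∧ j ∉ miss

theorem Nw.symm {i j : ℕ} (h : Nw R miss i j) : Nw R miss j i := ⟨h.1.symm, h.2.2, h.2.1⟩

theorem Nw.mem {i j : ℕ} (h : Nw R miss i j) : (i, j) ∈ nwD R miss := mem_nwD.2 h

theorem Data.nw_lt' (hd : Data R nl ps miss co com bad) {i j : ℕ} (h : Nw R miss i j) :
    i < R.t ∧ j < R.t ∧ i ≠ j := by
  rcases h.1 with h1 | h1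
  · exact hd.nw_lt _ h1
  · have := hd.nw_lt _ h1
    exact ⟨this.2.1, this.1, this.2.2.symm⟩

/-- The edges of the new graph. -/
theorem newG_adj {f : ℕ → V} {u v : V} :
    (newG G (Int R f) (nedges R nl miss f)).Adj u v ↔
      (G.Adj u v ∧ ¬ Int R f u ∧ ¬ Int R f v) ∨
      (u ≠ v ∧ ∃ i j, Nw R miss i j ∧ u = f (rho nl i) ∧ v = f (rho nl j)) := by
  constructor
  · rintro (h | ⟨h, h1 | h1⟩)
    · exact Or.inl h
    · obtain ⟨e, he, h2, h3, h4, h5⟩ := mem_nedges.1 h1
      exact Or.inr ⟨h, e.1, e.2, ⟨Or.inl he, h2, h3⟩, h4, h5⟩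
    · obtain ⟨e, he, h2, h3, h4, h5⟩ := mem_nedges.1 h1
      exact Or.inr ⟨h, e.2, e.1, ⟨Or.inr he, h3, h2⟩, h5, h4⟩
  · rintro (h | ⟨h, i, j, ⟨h1 | h1, h2, h3⟩, h4, h5⟩)
    · exact Or.inl h
    · exact Or.inr ⟨h, Or.inl (mem_nedges.2 ⟨_, h1, h2, h3, h4, h5⟩)⟩
    · exact Or.inr ⟨h, Or.inr (mem_nedges.2 ⟨_, h1, h3, h2, h5, h4⟩)⟩

theorem rho_int_or (hd : Data R nl ps miss co com bad) (j : ℕ) :
    (rho nl j = j ∧ Old nl j) ∨ (R.t ≤ rho nl j ∧ rho nl j < R.t + R.m ∧ ¬ Old nl j) := by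
  by_cases h : Old nl j
  · exact Or.inl ⟨rho_old h, h⟩
  · obtain ⟨p, hp, h1, h2⟩ := rho_new h
    rw [h2]
    exact Or.inr ⟨(hd.new p hp).2.1, (hd.new p hp).2.2, h⟩

theorem eq_of_length_le_one {α : Type*} {l : List α} (h : l.length ≤ 1) {x y : α} (hx : x ∈ l)
    (hy : y ∈ l) : x = y := by
  match l, h, hx, hy with
  | [], _, h2, _ => simp at h2
  | [z], _, h2, h3 =>
    rw [List.mem_singleton] at h2 h3
    rw [h2, h3]
  | _ :: _ :: _, h, _, _ => simp at h

/-- A terminal has at most one new edge. -/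
theorem nw_unique (hd : Data R nl ps miss co com bad) {j k k' : ℕ} (hj : Old nl j)
    (h : Nw R miss j k) (h' : Nw R miss j k') : k = k' := by
  obtain ⟨hj1, -, hne⟩ := hd.nw_lt' h
  obtain ⟨-, -, hne'⟩ := hd.nw_lt' h'
  have hdg := hd.nw_deg j (List.mem_range.2 hj1)
  rw [if_pos hj] at hdg
  have key : ∀ k, Nw R miss j k → ∃ e ∈ R.nw.filter (fun e => e.1 == j || e.2 == j),
      e = (j, k) ∨ e = (k, j) := by
    rintro k ⟨h1 | h1, -⟩
    · exact ⟨_, List.mem_filter.2 ⟨h1, by simp⟩, Or.inl rfl⟩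
    · exact ⟨_, List.mem_filter.2 ⟨h1, by simp⟩, Or.inr rfl⟩
  obtain ⟨e, he, h1⟩ := key k h
  obtain ⟨e', he', h1'⟩ := key k' h'
  have hee : e = e' := eq_of_length_le_one hdg he he'
  subst hee
  rcases h1 with rfl | rfl
  · rcases h1' with h2 | h2
    · exact (Prod.mk.inj h2).2
    · exact absurd (Prod.mk.inj h2).1 hne'
  · rcases h1' with h2 | h2
    · exact absurd (Prod.mk.inj h2).1.symm hne
    · exact (Prod.mk.inj h2).1

/-- **The new graph has small degrees.** -/
theorem deg_newG (hd : Data R nl ps miss co com bad) (hdeg : Deg3 G) (f : ℕ → V)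
    (hinj : ∀ i j, Real R nl miss i → Real R nl miss j → f i = f j → Same co i j)
    (hadj : ∀ e ∈ R.ed, e.1 ∉ miss → e.2 ∉ miss → G.Adj (f e.1) (f e.2)) :
    Deg3 (newG G (Int R f) (nedges R nl miss f)) := by
  classical
  intro v A hA
  set A1 := A.filter fun w => G.Adj v w ∧ ¬ Int R f v ∧ ¬ Int R f w with hA1
  have hsplit : A.card = (A \ A1).card + A1.card := by
    rw [card_sdiff_add_card_eq_card (filter_subset _ _)]
  have hnew : ∀ w ∈ A \ A1, ∃ i j, Nw R miss i j ∧ v = f (rho nl i) ∧ w = f (rho nl j) := by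
    intro w hw
    rw [mem_sdiff] at hw
    rcases newG_adj.1 (hA w hw.1) with h1 | ⟨-, h1⟩
    · exact absurd (mem_filter.2 ⟨hw.1, h1⟩) hw.2
    · exact h1
  by_cases hvI : Int R f v
  · -- an interior vertex
    have h4 : A1 = ∅ := by
      rw [filter_eq_empty_iff]
      rintro w - ⟨-, h5, -⟩
      exact h5 hvI
    have h5 : A1.card = 0 := by
      rw [h4]
      exact card_empty
    rcases eq_empty_or_nonempty (A \ A1) with h6 | ⟨w0, hw0⟩
    · rw [h6, card_empty] at hsplit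
      omega
    obtain ⟨j, k0, hjk0, hvj, -⟩ := hnew w0 hw0
    obtain ⟨hj, -, -⟩ := hd.nw_lt' hjk0
    obtain ⟨i0, b1, b2, b3⟩ := hvI
    have hsame : ∀ i, i < R.t → i ∉ miss → v = f (rho nl i) → i = j := by
      intro i hi hm hvi
      have c1 := hinj _ _ (hd.real_int b1 b2) (hd.real_rho hi hm) (b3.trans hvi)
      have c2 := hinj _ _ (hd.real_int b1 b2) (hd.real_rho hj hjk0.2.1) (b3.trans hvj)
      have c3 := hd.same_int c1 b1
      have c4 := hd.same_int c2 b1
      rcases rho_int_or hd i with ⟨d1, -⟩ | ⟨d1, d2, d3⟩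
      · omega
      rcases rho_int_or hd j with ⟨e1, -⟩ | ⟨e1, e2, e3⟩
      · omega
      obtain ⟨p, hp, p1, p2⟩ := rho_new d3
      obtain ⟨q, hq, q1, q2⟩ := rho_new e3
      rw [← p1, ← q1]
      exact hd.new_inj p hp q hq (by omega)
    have hcard : (A \ A1).card ≤ (R.nw.filter fun e => e.1 == j || e.2 == j).length := by
      have h1 : A \ A1 ⊆ (((R.nw.filter fun e => e.1 == j || e.2 == j).map fun e =>
          f (rho nl (oth j e)))).toFinset := by
        intro w hw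
        obtain ⟨i, k, hik, hvi, hwk⟩ := hnew w hw
        obtain ⟨hi, hk, hne'⟩ := hd.nw_lt' hik
        have hij : i = j := hsame i hi hik.2.1 hvi
        subst hij
        rw [List.mem_toFinset, List.mem_map]
        rcases hik.1 with h2 | h2
        · refine ⟨(i, k), List.mem_filter.2 ⟨h2, by simp⟩, ?_⟩
          rw [hwk]
          simp [oth]
        · refine ⟨(k, i), List.mem_filter.2 ⟨h2, by simp⟩, ?_⟩
          rw [hwk]
          simp [oth, hne'.symm]
      refine (card_le_card h1).trans ((List.toFinset_card_le _).trans ?_)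
      rw [List.length_map]
    have hdg := hd.nw_deg j (List.mem_range.2 hj)
    have h7 : (if Old nl j then 1 else 3) ≤ 3 := by split_ifs <;> omega
    omega
  · -- an outer vertex
    set J := (range R.t).filter fun j => j ∉ miss ∧ Old nl j ∧ v = f j with hJ
    have hlab : ∀ i, i < R.t → i ∉ miss → v = f (rho nl i) → i ∈ J ∧ rho nl i = i := by
      intro i hi hm hvi
      rcases rho_int_or hd i with ⟨d1, d2⟩ | ⟨d1, d2, d3⟩
      · rw [d1] at hvi
        exact ⟨mem_filter.2 ⟨mem_range.2 hi, hm, d2, hvi⟩, d1⟩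
      · exact absurd ⟨_, d1, d2, hvi.symm⟩ hvI
    have hcard : (A \ A1).card ≤ J.card := by
      have h1 : ∀ w ∈ A \ A1, ∃ i ∈ J, ∃ j, Nw R miss i j ∧ w = f (rho nl j) := by
        intro w hw
        obtain ⟨i, j, hij, hvi, hwj⟩ := hnew w hw
        obtain ⟨hi, -, -⟩ := hd.nw_lt' hij
        exact ⟨i, (hlab i hi hij.2.1 hvi).1, j, hij, hwj⟩
      choose! g hgJ hg using h1
      refine card_le_card_of_injOn g (fun w hw => hgJ w hw) ?_
      intro w hw w' hw' hgg
      obtain ⟨j, hj1, hj2⟩ := hg w hw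
      obtain ⟨j', hj1', hj2'⟩ := hg w' hw'
      rw [← hgg] at hj1'
      have h2 := (mem_filter.1 (hgJ w hw)).2.2.1
      rw [hj2, hj2', nw_unique hd h2 hj1 hj1']
    -- the lost neighbours
    have hatt : ∀ j ∈ J, ∃ i, (R.t ≤ i ∧ i < R.t + R.m) ∧ G.Adj v (f i) ∧
        ∃ e ∈ R.ed, (e.1 = j ∨ e.2 = j) ∧ oth j e = i := by
      intro j hjJ
      obtain ⟨hjr, hjm, hjo, hvj⟩ := mem_filter.1 hjJ
      rw [mem_range] at hjr
      obtain ⟨e, he, hej⟩ := hd.att j (List.mem_range.2 hjr) hjo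
      obtain ⟨a1, a2, a3⟩ := hd.ed_lt e he
      by_cases h4 : e.1 = j
      · have h5 : R.t ≤ e.2 := by
          rcases hd.ed_int e he with h6 | h6
          · omega
          · exact h6
        refine ⟨e.2, ⟨h5, a2⟩, ?_, e, he, hej, by simp [oth, h4]⟩
        rw [hvj, ← h4]
        exact hadj e he (by rw [h4]; exact hjm) (hd.real_int h5 a2).2.1
      · have h4' := hej.resolve_left h4
        have h5 : R.t ≤ e.1 := by
          rcases hd.ed_int e he with h6 | h6
          · exact h6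
          · omega
        refine ⟨e.1, ⟨h5, a1⟩, ?_, e, he, hej, by simp [oth, h4]⟩
        rw [hvj, ← h4']
        exact (hadj e he (hd.real_int h5 a1).2.1 (by rw [h4']; exact hjm)).symm
    choose! a ha1 ha2 ha3 using hatt
    have hainj : Set.InjOn (fun j => f (a j)) (J : Set ℕ) := by
      intro j hj j' hj' hjj
      by_contra hne
      have c1 := hd.same_int (hinj _ _ (hd.real_int (ha1 j hj).1 (ha1 j hj).2)
        (hd.real_int (ha1 j' hj').1 (ha1 j' hj').2) hjj) (ha1 j hj).1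
      obtain ⟨e, he, he1, he2⟩ := ha3 j hj
      obtain ⟨e', he', he1', he2'⟩ := ha3 j' hj'
      obtain ⟨b1, b2, b3, b4⟩ := mem_filter.1 hj
      obtain ⟨b1', b2', b3', b4'⟩ := mem_filter.1 hj'
      rw [mem_range] at b1 b1'
      rcases hinj j j' ⟨by omega, b2, b3⟩ ⟨by omega, b2', b3'⟩ (b4.symm.trans b4') with h | h | h
      · exact hne h
      · exact hd.co_att _ h e he he1 e' he' he1' (by rw [he2, he2', c1])
      · exact hd.co_att _ h e' he' he1' e he he1 (by rw [he2, he2', c1])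
    have hdis : Disjoint (J.image fun j => f (a j)) A1 := by
      rw [Finset.disjoint_left]
      intro w hw hw'
      obtain ⟨j, hj, rfl⟩ := mem_image.1 hw
      exact (mem_filter.1 hw').2.2.2 ⟨a j, (ha1 j hj).1, (ha1 j hj).2, rfl⟩
    have h5 := hdeg v ((J.image fun j => f (a j)) ∪ A1) (by
      intro w hw
      rcases mem_union.1 hw with hw | hw
      · obtain ⟨j, hj, rfl⟩ := mem_image.1 hw
        exact ha2 j hj
      · exact (mem_filter.1 hw).2.1)
    rw [card_union_of_disjoint hdis, card_image_of_injOn hainj] at h5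
    omega

/-- **The new graph is triangle-free.** -/
theorem cliqueFree_newG (hd : Data R nl ps miss co com bad) (hG : G.CliqueFree 3) (f : ℕ → V)
    (hinj : ∀ i j, Real R nl miss i → Real R nl miss j → f i = f j → Same co i j)
    (hC : ∀ p ∈ com, ∀ w, ¬ Int R f w → ¬ (G.Adj (f p.1) w ∧ G.Adj w (f p.2)))
    (hT : ∀ p ∈ bad, ¬ G.Adj (f p.1) (f p.2)) :
    (newG G (Int R f) (nedges R nl miss f)).CliqueFree 3 := by
  classical
  have hlab : ∀ i j, i < R.t → j < R.t → i ∉ miss → j ∉ miss → f (rho nl i) = f (rho nl j) →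
      Same co i j := by
    intro i j hi hj hi' hj' h
    exact hd.same_rho hi hj (hinj _ _ (hd.real_rho hi hi') (hd.real_rho hj hj') h)
  -- labels outside the interior are terminals
  have hter : ∀ j, ¬ Int R f (f (rho nl j)) → rho nl j = j ∧ Old nl j := by
    intro j h
    rcases rho_int_or hd j with h1 | ⟨h1, h2, -⟩
    · exact h1
    · exact absurd ⟨_, h1, h2, rfl⟩ h
  have hTT : ∀ i i' j k, Nw R miss i j → Nw R miss i' k → Same co i i' →
      ¬ Int R f (f (rho nl j)) → ¬ Int R f (f (rho nl k)) →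
      ¬ G.Adj (f (rho nl j)) (f (rho nl k)) := by
    intro i i' j k hij hik hii h1 h2 h3
    obtain ⟨e1, e2⟩ := hter j h1
    obtain ⟨e3, e4⟩ := hter k h2
    have hjk : j ≠ k := by
      rintro rfl
      exact h3.ne rfl
    rw [e1, e3] at h3
    rcases hd.bad_mem _ hij.mem _ hik.mem hii hjk e2 e4 with h4 | h4
    · exact hT _ h4 h3
    · exact hT _ h4 h3.symm
  have tri : ∀ a b c, (a ≠ b ∧ ∃ i j, Nw R miss i j ∧ a = f (rho nl i) ∧ b = f (rho nl j)) →
      (newG G (Int R f) (nedges R nl miss f)).Adj a c →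
      (newG G (Int R f) (nedges R nl miss f)).Adj b c → False := by
    rintro a b c ⟨hab, i, j, hij, rfl, rfl⟩ hac hbc
    obtain ⟨hi, hj, hne⟩ := hd.nw_lt' hij
    rw [newG_adj] at hac hbc
    rcases hac with ⟨a1, a2, a3⟩ | ⟨a1, i', k, a2, a3, rfl⟩
    · rcases hbc with ⟨b1, b2, b3⟩ | ⟨b1, j', k, b2, b3, rfl⟩
      · -- a common neighbour outside
        obtain ⟨e1, e2⟩ := hter i a2
        obtain ⟨e3, e4⟩ := hter j b2
        rw [e1] at a1
        rw [e3] at b1
        rcases hij.1 with h4 | h4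
        · rcases hd.com_mem _ h4 hij.2.1 hij.2.2 e2 e4 with h5 | h5
          · exact hC _ h5 c a3 ⟨a1, b1.symm⟩
          · exact hC _ h5 c a3 ⟨b1, a1.symm⟩
        · rcases hd.com_mem _ h4 hij.2.2 hij.2.1 e4 e2 with h5 | h5
          · exact hC _ h5 c a3 ⟨b1, a1.symm⟩
          · exact hC _ h5 c a3 ⟨a1, b1.symm⟩
      · have hjj : Same co j j' := hlab j j' hj (hd.nw_lt' b2).1 hij.2.2 b2.2.1 b3
        exact hTT j j' i k hij.symm b2 hjj a2 a3 a1
    · have hii : Same co i i' := hlab i i' hi (hd.nw_lt' a2).1 hij.2.1 a2.2.1 a3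
      rcases hbc with ⟨b1, b2, b3⟩ | ⟨b1, j', k', b2, b3, b4⟩
      · exact hTT i i' j k hij a2 hii b2 b3 b1
      · have hjj : Same co j j' := hlab j j' hj (hd.nw_lt' b2).1 hij.2.2 b2.2.1 b3
        have hkk : Same co k k' := hlab k k' (hd.nw_lt' a2).2.1 (hd.nw_lt' b2).2.1 a2.2.2 b2.2.2 b4
        exact hd.nw_tri _ hij.mem _ a2.mem hii _ b2.mem hjj hkk
  intro s hs
  rw [SimpleGraph.is3Clique_iff] at hs
  obtain ⟨a, b, c, hab, hac, hbc, -⟩ := hs
  rcases newG_adj.1 hab with h1 | h1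
  · rcases newG_adj.1 hac with h2 | h2
    · rcases newG_adj.1 hbc with h3 | h3
      · exact hG {a, b, c} (SimpleGraph.is3Clique_iff.2 ⟨a, b, c, h1.1, h2.1, h3.1, rfl⟩)
      · exact tri b c a h3 hab.symm hac.symm
    · exact tri a c b h2 hab hbc.symm
  · exact tri a b c h1 hac hbc

/-- **The new graph has fewer edges.** -/
theorem ncard_newG (hd : Data R nl ps miss co com bad) (f : ℕ → V)
    (hinj : ∀ i j, Real R nl miss i → Real R nl miss j → f i = f j → Same co i j)
    (hadj : ∀ e ∈ R.ed, e.1 ∉ miss → e.2 ∉ miss → G.Adj (f e.1) (f e.2)) :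
    (newG G (Int R f) (nedges R nl miss f)).edgeSet.ncard < G.edgeSet.ncard := by
  classical
  set Eo : Set (Sym2 V) := {e | e ∈ G.edgeSet ∧ ∀ v ∈ e, ¬ Int R f v} with hEo
  set En : Finset (Sym2 V) := ((nedges R nl miss f).map fun p => s(p.1, p.2)).toFinset with hEn
  set Li := (R.ed.filter fun e => !(decide (e.1 ∈ miss) || decide (e.2 ∈ miss))).map fun e =>
    s(f e.1, f e.2) with hLi
  have h1 : (newG G (Int R f) (nedges R nl miss f)).edgeSet ⊆ Eo ∪ ↑En := by
    intro e he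
    induction e using Sym2.ind with
    | _ u v =>
      rw [SimpleGraph.mem_edgeSet] at he
      rcases he with ⟨h1, h2, h3⟩ | ⟨-, h1 | h1⟩
      · refine Or.inl ⟨h1, fun w hw => ?_⟩
        rcases Sym2.mem_iff.1 hw with rfl | rfl
        · exact h2
        · exact h3
      · refine Or.inr ?_
        rw [mem_coe, hEn, List.mem_toFinset, List.mem_map]
        exact ⟨_, h1, rfl⟩
      · refine Or.inr ?_
        rw [mem_coe, hEn, List.mem_toFinset, List.mem_map]
        exact ⟨_, h1, Sym2.eq_swap⟩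
  have hreal : ∀ e ∈ R.ed, e.1 ∉ miss → e.2 ∉ miss →
      Real R nl miss e.1 ∧ Real R nl miss e.2 := by
    intro e he h2 h3
    obtain ⟨a1, a2, -⟩ := hd.ed_lt e he
    exact ⟨⟨a1, h2, (hd.ed_new e he).1⟩, ⟨a2, h3, (hd.ed_new e he).2⟩⟩
  have hpres : ∀ e, e ∈ (R.ed.filter fun e => !(decide (e.1 ∈ miss) || decide (e.2 ∈ miss))) →
      e ∈ R.ed ∧ e.1 ∉ miss ∧ e.2 ∉ miss := by
    intro e he
    rw [List.mem_filter] at he
    exact ⟨he.1, by simpa using he.2⟩
  -- an edge is determined by its ends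
  have hdet : ∀ a b a' b', ((a, b) ∈ R.ed ∨ (b, a) ∈ R.ed) → ((a', b') ∈ R.ed ∨ (b', a') ∈ R.ed) →
      Same co a a' → Same co b b' → a = a' ∧ b = b' := by
    -- the case of an interior first end
    have key : ∀ a b b', R.t ≤ a → ((a, b) ∈ R.ed ∨ (b, a) ∈ R.ed) →
        ((a, b') ∈ R.ed ∨ (b', a) ∈ R.ed) → Same co b b' → b = b' := by
      intro a b b' ha h1 h2 h3
      have hco : ∀ b b', ((a, b) ∈ R.ed ∨ (b, a) ∈ R.ed) → ((a, b') ∈ R.ed ∨ (b', a) ∈ R.ed) →
          (b, b') ∉ co := by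
        intro b b' h1 h2 h3
        obtain ⟨c1, c2, -⟩ := hd.co_ter _ h3
        simp only at c1 c2
        have hoth : ∀ b, b < R.t → ((a, b) ∈ R.ed ∨ (b, a) ∈ R.ed) →
            ∃ e ∈ R.ed, (e.1 = b ∨ e.2 = b) ∧ oth b e = a := by
          intro b hb h
          rcases h with h | h
          · exact ⟨_, h, Or.inr rfl, by
              unfold oth
              rw [if_neg (show ¬ a = b by omega)]⟩
          · exact ⟨_, h, Or.inl rfl, by simp [oth]⟩
        obtain ⟨e, he, d1, d2⟩ := hoth b c1 h1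
        obtain ⟨e', he', d1', d2'⟩ := hoth b' c2 h2
        exact hd.co_att _ h3 e he d1 e' he' d1' (d2.trans d2'.symm)
      rcases h3 with h3 | h3 | h3
      · exact h3
      · exact absurd h3 (hco b b' h1 h2)
      · exact absurd h3 (hco b' b h2 h1)
    intro a b a' b' h1 h2 h3 h4
    have hor : R.t ≤ a ∨ R.t ≤ b := by
      rcases h1 with h1 | h1
      · exact hd.ed_int _ h1
      · exact (hd.ed_int _ h1).symm
    rcases hor with h5 | h5
    · have h6 := hd.same_int h3 h5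
      subst h6
      exact ⟨rfl, key a b b' h5 h1 h2 h4⟩
    · have h6 := hd.same_int h4 h5
      subst h6
      exact ⟨key b a a' h5 h1.symm h2.symm h3, rfl⟩
  have hnd : Li.Nodup := by
    rw [hLi, List.Nodup, List.pairwise_map]
    refine List.Pairwise.imp_of_mem ?_ (hd.ed_nodup.filter _)
    intro e e' he he' hne heq
    obtain ⟨a1, a2, a3⟩ := hpres e he
    obtain ⟨b1, b2, b3⟩ := hpres e' he'
    obtain ⟨r1, r2⟩ := hreal e a1 a2 a3
    obtain ⟨r3, r4⟩ := hreal e' b1 b2 b3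
    rcases Sym2.eq_iff.1 heq with ⟨h2, h3⟩ | ⟨h2, h3⟩
    · obtain ⟨h4, h5⟩ := hdet _ _ _ _ (Or.inl a1) (Or.inl b1) (hinj _ _ r1 r3 h2)
        (hinj _ _ r2 r4 h3)
      exact hne.1 (Prod.ext h4 h5)
    · obtain ⟨h4, h5⟩ := hdet _ _ _ _ (Or.inl a1) (Or.inr b1) (hinj _ _ r1 r4 h2)
        (hinj _ _ r2 r3 h3)
      exact hne.2 (Prod.ext h4 h5)
  have h2 : Eo ∪ ↑Li.toFinset ⊆ G.edgeSet := by
    rintro e (he | he)
    · exact he.1
    · rw [mem_coe, List.mem_toFinset, hLi, List.mem_map] at he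
      obtain ⟨e', he', rfl⟩ := he
      obtain ⟨a1, a2, a3⟩ := hpres e' he'
      exact hadj e' a1 a2 a3
  have h3 : Disjoint Eo (↑Li.toFinset : Set (Sym2 V)) := by
    rw [Set.disjoint_left]
    intro e he he'
    rw [mem_coe, List.mem_toFinset, hLi, List.mem_map] at he'
    obtain ⟨e', he', rfl⟩ := he'
    obtain ⟨a1, a2, a3⟩ := hpres e' he'
    obtain ⟨b1, b2, -⟩ := hd.ed_lt e' a1
    rcases hd.ed_int e' a1 with h4 | h4
    · exact he.2 (f e'.1) (Sym2.mem_mk_left _ _) ⟨_, h4, b1, rfl⟩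
    · exact he.2 (f e'.2) (Sym2.mem_mk_right _ _) ⟨_, h4, b2, rfl⟩
  have hfin : ∀ S : Set (Sym2 V), S.Finite := fun S => Set.toFinite S
  have c1 := Set.ncard_le_ncard h1 (hfin _)
  have c2 := Set.ncard_union_le Eo (↑En : Set (Sym2 V))
  have c3 := Set.ncard_le_ncard h2 (hfin _)
  have c4 := Set.ncard_union_eq h3 (hfin _) (hfin _)
  rw [Set.ncard_coe_finset] at c2
  rw [Set.ncard_coe_finset] at c4
  have c5 : En.card ≤ (R.nw.filter fun e => !(decide (e.1 ∈ miss) || decide (e.2 ∈ miss))).length := by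
    refine (List.toFinset_card_le _).trans ?_
    rw [List.length_map, nedges, List.length_map]
  have c6 : Li.toFinset.card = (R.ed.filter fun e =>
      !(decide (e.1 ∈ miss) || decide (e.2 ∈ miss))).length := by
    rw [List.toFinset_card_of_nodup hnd, hLi, List.length_map]
  have c7 := hd.count
  omega

/-- The label at the other end of the new edge of a missing terminal. -/
def par (R : Red) (j : ℕ) : Option ℕ := (R.nw.find? fun e => e.1 == j || e.2 == j).map (oth j)

theorem find_unique {α : Type*} {l : List α} {q : α → Bool} (h : (l.filter q).length ≤ 1) {x : α}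
    (hx : x ∈ l) (hq : q x = true) : l.find? q = some x := by
  cases h1 : l.find? q with
  | none =>
    rw [List.find?_eq_none] at h1
    exact absurd hq (h1 x hx)
  | some y =>
    have h2 := List.mem_filter.2 ⟨List.mem_of_find?_eq_some h1, List.find?_some h1⟩
    have h3 := List.mem_filter.2 ⟨hx, hq⟩
    rw [eq_of_length_le_one h h2 h3]

/-- **Strict colourings of the new graph extend.** -/
theorem hasStrict_of_newG (h : R.Ext co)
    (hd : Data R nl ps miss co com bad) (f : ℕ → V)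
    (hinj : ∀ i j, Real R nl miss i → Real R nl miss j → f i = f j → Same co i j)
    (hnbr : ∀ i, R.t ≤ i → i < R.t + R.m → ∀ w, G.Adj (f i) w →
      ∃ j, ((i, j) ∈ R.ed ∨ (j, i) ∈ R.ed) ∧ j ∉ miss ∧ w = f j)
    (hs : HasStrict (newG G (Int R f) (nedges R nl miss f))) : HasStrict G := by
  classical
  obtain ⟨c, τ, hs, hτ⟩ := hs.inj
  have hlab : ∀ i j, i < R.t → j < R.t → i ∉ miss → j ∉ miss → f (rho nl i) = f (rho nl j) →
      Same co i j := by
    intro i j hi hj hi' hj' h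
    exact hd.same_rho hi hj (hinj _ _ (hd.real_rho hi hi') (hd.real_rho hj hj') h)
  -- a bound for the heights
  obtain ⟨B, hB⟩ : ∃ B : ℝ, ∀ v, τ v < B := by
    refine ⟨∑ v, |τ v| + 1, fun v => ?_⟩
    have h1 : |τ v| ≤ ∑ v, |τ v| := single_le_sum (fun v _ => abs_nonneg (τ v)) (mem_univ v)
    have h2 := le_abs_self (τ v)
    linarith
  -- the values of the labels
  set cl : ℕ → ZMod 3 := fun j => if j ∈ miss then (par R j).elim 0 (fun k => c (f (rho nl k)) + 1)
    else c (f (rho nl j)) with hcl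
  set tl : ℕ → ℝ := fun j => if j ∈ miss then B + j else τ (f (rho nl j)) with htl
  have htinj : ∀ i j, i < R.t → j < R.t → tl i = tl j → Same co i j := by
    intro i j hi hj hij
    simp only [htl] at hij
    by_cases m1 : i ∈ miss
    · by_cases m2 : j ∈ miss
      · rw [if_pos m1, if_pos m2] at hij
        have : (i : ℝ) = j := by linarith
        exact Or.inl (by exact_mod_cast this)
      · rw [if_pos m1, if_neg m2] at hij
        have h1 := hB (f (rho nl j))
        have h2 : (0 : ℝ) ≤ i := Nat.cast_nonneg i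
        linarith
    · by_cases m2 : j ∈ miss
      · rw [if_neg m1, if_pos m2] at hij
        have h1 := hB (f (rho nl i))
        have h2 : (0 : ℝ) ≤ j := Nat.cast_nonneg j
        linarith
      · rw [if_neg m1, if_neg m2] at hij
        exact hlab i j hi hj m1 m2 (hτ hij)
  have hnw : ∀ e ∈ R.nw, Str cl tl e.1 e.2 := by
    intro e he
    obtain ⟨a1, a2, a3⟩ := hd.nw_lt e he
    by_cases m1 : e.1 ∈ miss
    · have m2 : e.2 ∉ miss := fun m2 => hd.nw_miss e he ⟨m1, m2⟩
      have h1 := hd.nw_deg e.1 (List.mem_range.2 a1)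
      rw [if_pos (hd.miss_lt _ m1).2] at h1
      have h2 : par R e.1 = some e.2 := by
        unfold par
        rw [find_unique h1 he (by simp)]
        simp [oth]
      refine Or.inr ⟨?_, ?_⟩
      · simp only [hcl]
        rw [if_pos m1, if_neg m2, h2]
        rfl
      · simp only [htl]
        rw [if_pos m1, if_neg m2]
        have h3 := hB (f (rho nl e.2))
        have h4 : (0 : ℝ) ≤ e.1 := Nat.cast_nonneg _
        linarith
    · by_cases m2 : e.2 ∈ miss
      · have h1 := hd.nw_deg e.2 (List.mem_range.2 a2)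
        rw [if_pos (hd.miss_lt _ m2).2] at h1
        have h2 : par R e.2 = some e.1 := by
          unfold par
          rw [find_unique h1 he (by simp)]
          simp [oth, a3]
        refine Or.inl ⟨?_, ?_⟩
        · simp only [hcl]
          rw [if_pos m2, if_neg m1, h2]
          rfl
        · simp only [htl]
          rw [if_pos m2, if_neg m1]
          have h3 := hB (f (rho nl e.1))
          have h4 : (0 : ℝ) ≤ e.2 := Nat.cast_nonneg _
          linarith
      · have h1 : Str c τ (f (rho nl e.1)) (f (rho nl e.2)) := by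
          refine hs _ _ (newG_adj.2 (Or.inr ⟨fun h4 => hd.nw_co e he (hlab _ _ a1 a2 m1 m2 h4), e.1, e.2,
            ⟨Or.inl he, m1, m2⟩, rfl, rfl⟩))
        refine h1.of_eq ?_ ?_ ?_ ?_
        · simp only [hcl, if_neg m1]
        · simp only [htl, if_neg m1]
        · simp only [hcl, if_neg m2]
        · simp only [htl, if_neg m2]
  obtain ⟨c1, τ1, h1, h2⟩ := h cl tl htinj hnw
  let g : V → Option ℕ := fun v =>
    if hv : ∃ i, R.t ≤ i ∧ i < R.t + R.m ∧ f i = v then some hv.choose else none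
  have hreal : ∀ i, R.t ≤ i → i < R.t + R.m → Real R nl miss i := fun i hi hi' =>
    hd.real_int hi hi'
  have hg1 : ∀ i, R.t ≤ i → i < R.t + R.m → g (f i) = some i := by
    intro i hi hi'
    have hv : ∃ j, R.t ≤ j ∧ j < R.t + R.m ∧ f j = f i := ⟨i, hi, hi', rfl⟩
    show (if hv : ∃ j, R.t ≤ j ∧ j < R.t + R.m ∧ f j = f i then some hv.choose else none) = some i
    rw [dif_pos hv]
    obtain ⟨k1, k2, k3⟩ := hv.choose_spec
    rw [hd.same_int (hinj _ _ (hreal _ k1 k2) (hreal _ hi hi') k3) k1]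
  have hg2 : ∀ v, ¬ Int R f v → g v = none := fun v hv => dif_neg hv
  refine ⟨fun v => (g v).elim (c v) c1, fun v => (g v).elim (τ v) τ1, ?_⟩
  -- the values at the vertices of the configuration
  have hval : ∀ j, Real R nl miss j →
      (g (f j)).elim (c (f j)) c1 = c1 j ∧ (g (f j)).elim (τ (f j)) τ1 = τ1 j := by
    intro j hj
    rcases lt_or_ge j R.t with h3 | h3
    · have h4 : ¬ Int R f (f j) := by
        rintro ⟨i, k1, k2, k3⟩
        have := hd.same_int (hinj _ _ (hreal _ k1 k2) hj k3) k1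
        omega
      rw [hg2 _ h4]
      obtain ⟨h5, h6⟩ := h1 j h3
      rw [h5, h6]
      simp only [hcl, htl, if_neg hj.2.1, rho_old hj.2.2]
      exact ⟨rfl, rfl⟩
    · rw [hg1 j h3 hj.1]
      exact ⟨rfl, rfl⟩
  have hin : ∀ i, R.t ≤ i → i < R.t + R.m → ∀ w, G.Adj (f i) w →
      Str (fun v => (g v).elim (c v) c1) (fun v => (g v).elim (τ v) τ1) (f i) w := by
    intro i hi hi' w hw
    obtain ⟨j, hj, hjm, rfl⟩ := hnbr i hi hi' w hw
    have hjr : Real R nl miss j := by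
      rcases hj with hj | hj
      · exact ⟨(hd.ed_lt _ hj).2.1, hjm, (hd.ed_new _ hj).2⟩
      · exact ⟨(hd.ed_lt _ hj).1, hjm, (hd.ed_new _ hj).1⟩
    obtain ⟨a1, a2⟩ := hval i (hreal i hi hi')
    obtain ⟨b1, b2⟩ := hval j hjr
    have hs : Str c1 τ1 i j := by
      rcases hj with hj | hj
      · exact h2 _ hj
      · exact (h2 _ hj).symm
    exact hs.of_eq a1 a2 b1 b2
  intro u v huv
  by_cases hu : Int R f u
  · obtain ⟨i, hi, hi', rfl⟩ := hu
    exact hin i hi hi' v huv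
  · by_cases hv : Int R f v
    · obtain ⟨i, hi, hi', rfl⟩ := hv
      exact (hin i hi hi' u huv.symm).symm
    · refine (hs u v (newG_adj.2 (Or.inl ⟨huv, hu, hv⟩))).of_eq ?_ ?_ ?_ ?_
      · show (g u).elim (c u) c1 = c u
        rw [hg2 u hu]
        rfl
      · show (g u).elim (τ u) τ1 = τ u
        rw [hg2 u hu]
        rfl
      · show (g v).elim (c v) c1 = c v
        rw [hg2 v hv]
        rfl
      · show (g v).elim (τ v) τ1 = τ v
        rw [hg2 v hv]
        rfl

/-- **The new graph has an algebraic dual.** -/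
theorem pl_step (hd : Data R nl ps miss co com bad) (hPl : Pl G) (f : ℕ → V)
    (hinj : ∀ i j, Real R nl miss i → Real R nl miss j → f i = f j → Same co i j)
    (hadj : ∀ e ∈ R.ed, e.1 ∉ miss → e.2 ∉ miss → G.Adj (f e.1) (f e.2)) :
    Pl (newG G (Int R f) (nedges R nl miss f)) := by
  have hmap : ∀ p : ℕ × List ℕ × ℕ, f p.1 :: (p.2.1.map f ++ [f p.2.2]) =
      (p.1 :: (p.2.1 ++ [p.2.2])).map f := by
    intro p
    simp
  refine pl_newG hPl _ _ (ps.map fun p => (f p.1, p.2.1.map f, f p.2.2)) ?_ ?_ ?_ ?_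
  · intro p hp
    obtain ⟨q, hq, rfl⟩ := List.mem_map.1 hp
    simp only
    rw [hmap]
    constructor
    · rw [List.isChain_map]
      refine List.IsChain.imp_of_mem_imp ?_ (hd.chain q hq)
      intro a b ha hb hab
      have h1 := hd.rng q hq a ha
      have h2 := hd.rng q hq b hb
      rcases hab with h3 | h3
      · exact hadj _ h3 h1.2.1 h2.2.1
      · exact (hadj _ h3 h2.2.1 h1.2.1).symm
    · rw [List.Nodup, List.pairwise_map]
      refine List.Pairwise.imp_of_mem ?_ (hd.nodup q hq)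
      intro a b ha hb hne hab
      exact hne (hinj _ _ (hd.rng q hq a ha) (hd.rng q hq b hb) hab)
  · rw [List.pairwise_map]
    refine List.Pairwise.imp_of_mem ?_ hd.disj
    intro p q hp hq hpq
    simp only
    rw [hmap, hmap]
    constructor
    · intro x hx hx'
      obtain ⟨a, ha, rfl⟩ := List.mem_map.1 hx
      obtain ⟨b, hb, hab⟩ := List.mem_map.1 hx'
      have h1 := hd.same_int (hinj _ _ (hd.rng q hq b hb) (hd.rng p hp a (by simp [ha])) hab).symm
        (hd.inner p hp a ha)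
      subst h1
      exact hpq.1 _ ha hb
    · intro x hx hx'
      obtain ⟨a, ha, rfl⟩ := List.mem_map.1 hx
      obtain ⟨b, hb, hab⟩ := List.mem_map.1 hx'
      have h1 := hd.same_int (hinj _ _ (hd.rng p hp b hb) (hd.rng q hq a (by simp [ha])) hab).symm
        (hd.inner q hq a ha)
      subst h1
      exact hpq.2 _ ha hb
  · intro p hp x hx
    obtain ⟨q, hq, rfl⟩ := List.mem_map.1 hp
    obtain ⟨a, ha, rfl⟩ := List.mem_map.1 hx
    exact ⟨a, hd.inner q hq a ha, (hd.rng q hq a (by simp [ha])).1, rfl⟩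
  · rintro ⟨u, v⟩ huv
    obtain ⟨e, he, h1, h2, rfl, rfl⟩ := mem_nedges.1 huv
    obtain ⟨p, hp, h3 | h3⟩ := hd.path e he h1 h2
    · exact ⟨_, List.mem_map.2 ⟨p, hp, rfl⟩, Or.inl ⟨by rw [← h3.1], by rw [← h3.2]⟩⟩
    · exact ⟨_, List.mem_map.2 ⟨p, hp, rfl⟩, Or.inr ⟨by rw [← h3.1], by rw [← h3.2]⟩⟩

/-- **The reduction step.** -/
theorem Red.reduce (h : R.Ext co)
    (hd : Data R nl ps miss co com bad) (hPl : Pl G) (hdeg : Deg3 G) (hG : G.CliqueFree 3)
    (f : ℕ → V)
    (hinj : ∀ i j, Real R nl miss i → Real R nl miss j → f i = f j → Same co i j)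
    (hadj : ∀ e ∈ R.ed, e.1 ∉ miss → e.2 ∉ miss → G.Adj (f e.1) (f e.2))
    (hnbr : ∀ i, R.t ≤ i → i < R.t + R.m → ∀ w, G.Adj (f i) w →
      ∃ j, ((i, j) ∈ R.ed ∨ (j, i) ∈ R.ed) ∧ j ∉ miss ∧ w = f j)
    (hC : ∀ p ∈ com, ∀ w, ¬ Int R f w → ¬ (G.Adj (f p.1) w ∧ G.Adj w (f p.2)))
    (hT : ∀ p ∈ bad, ¬ G.Adj (f p.1) (f p.2)) :
    ∃ G' : SimpleGraph V, Pl G' ∧ Deg3 G' ∧ G'.CliqueFree 3 ∧
      G'.edgeSet.ncard < G.edgeSet.ncard ∧ (HasStrict G' → HasStrict G) :=
  ⟨newG G (Int R f) (nedges R nl miss f), pl_step hd hPl f hinj hadj, deg_newG hd hdeg f hinj hadj,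
    cliqueFree_newG hd hG f hinj hC hT, ncard_newG hd f hinj hadj,
    hasStrict_of_newG h hd f hinj hnbr⟩

theorem deg3_iff {G : SimpleGraph V} : Deg3 G ↔ ∀ v, (G.neighborSet v).ncard ≤ 3 := by
  classical
  constructor
  · intro h v
    have h1 := h v (Set.toFinite (G.neighborSet v)).toFinset (fun w hw => by simpa using hw)
    rwa [← Set.ncard_eq_toFinset_card _ (Set.toFinite _)] at h1
  · intro h v A hA
    refine le_trans ?_ (h v)
    rw [← Set.ncard_coe_finset]
    exact Set.ncard_le_ncard (fun w hw => hA w hw) (Set.toFinite _)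

/-- **A reducible configuration does not occur in a minimal counterexample.** -/
theorem Red.no_conf (hmin : MinCex G) (h : R.Ext co) (hd : Data R nl ps miss co com bad) (f : ℕ → V)
    (hinj : ∀ i j, Real R nl miss i → Real R nl miss j → f i = f j → Same co i j)
    (hadj : ∀ e ∈ R.ed, e.1 ∉ miss → e.2 ∉ miss → G.Adj (f e.1) (f e.2))
    (hnbr : ∀ i, R.t ≤ i → i < R.t + R.m → ∀ w, G.Adj (f i) w →
      ∃ j, ((i, j) ∈ R.ed ∨ (j, i) ∈ R.ed) ∧ j ∉ miss ∧ w = f j)
    (hC : ∀ p ∈ com, ∀ w, ¬ Int R f w → ¬ (G.Adj (f p.1) w ∧ G.Adj w (f p.2)))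
    (hT : ∀ p ∈ bad, ¬ G.Adj (f p.1) (f p.2)) : False := by
  obtain ⟨G', h1, h2, h3, h4, h5⟩ := Red.reduce h hd hmin.pl (deg3_iff.2 hmin.deg) hmin.tri f hinj
    hadj hnbr hC hT
  exact hmin.bad (h5 (hmin.min V G' h1 h3 (deg3_iff.1 h2) h4))

end

end Pool.Agent.T1Red
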