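import Mathlib
import Pool.Agent.Work.MP_392c8e_co_t1.Apply
import Pool.Agent.Work.MP_392c8e_co_red.CutsAll

/-!
# Vertices of degree two in a smallest counterexample: basic facts

Notation of the files `TV*`: `x p1 p2 p3 p4` is a 5-cycle, `x` has degree two, `t1 … t4` are the
third neighbours of `p1 … p4`.
-/

namespace Pool.Agent.TwoV

open Finset
open Pool.Agent.Red (Pl MinCex StrictCol leave)
open Pool.Agent.T1Red

/-- `x` has exactly the two neighbours `a` and `b`. -/
def Two {V : Type*} (G : SimpleGraph V) (x a b : V) : Prop :=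
  G.Adj x a ∧ G.Adj x b ∧ a ≠ b ∧ ∀ w, G.Adj x w → w = a ∨ w = b

/-- `x` has exactly the three neighbours `a`, `b` and `c`. -/
def Three {V : Type*} (G : SimpleGraph V) (x a b c : V) : Prop :=
  G.Adj x a ∧ G.Adj x b ∧ G.Adj x c ∧ a ≠ b ∧ a ≠ c ∧ b ≠ c ∧ ∀ w, G.Adj x w → w = a ∨ w = b ∨ w = c

section

variable {V : Type*} {G : SimpleGraph V}

theorem Two.swap {x a b : V} (h : Two G x a b) : Two G x b a :=
  ⟨h.2.1, h.1, h.2.2.1.symm, fun w hw => (h.2.2.2 w hw).symm⟩

theorem Three.swap {x a b c : V} (h : Three G x a b c) : Three G x b a c := by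
  obtain ⟨h1, h2, h3, h4, h5, h6, h7⟩ := h
  refine ⟨h2, h1, h3, h4.symm, h6, h5, fun w hw => ?_⟩
  rcases h7 w hw with h | h | h
  · exact Or.inr (Or.inl h)
  · exact Or.inl h
  · exact Or.inr (Or.inr h)

theorem Three.rot {x a b c : V} (h : Three G x a b c) : Three G x b c a := by
  obtain ⟨h1, h2, h3, h4, h5, h6, h7⟩ := h
  refine ⟨h2, h3, h1, h6, h4.symm, h5.symm, fun w hw => ?_⟩
  rcases h7 w hw with h | h | h
  · exact Or.inr (Or.inr h)
  · exact Or.inl h
  · exact Or.inr (Or.inl h)

theorem no_tri (h : G.CliqueFree 3) {a b c : V} (hab : G.Adj a b) (hbc : G.Adj b c)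
    (hac : G.Adj a c) : False := by
  classical
  exact h {a, b, c} (SimpleGraph.is3Clique_triple_iff.2 ⟨hab, hac, hbc⟩)

end

variable {V : Type} [Fintype V] [DecidableEq V] {G : SimpleGraph V}

/-- A vertex with two different neighbours `a`, `b` has exactly these or one more. -/
theorem two_or_three (h : MinCex G) {v a b : V} (ha : G.Adj v a) (hb : G.Adj v b) (hab : a ≠ b) :
    Two G v a b ∨ ∃ c, Three G v a b c := by
  by_cases h1 : ∀ w, G.Adj v w → w = a ∨ w = b
  · exact Or.inl ⟨ha, hb, hab, h1⟩
  · push Not at h1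
    obtain ⟨c, hc, hca, hcb⟩ := h1
    refine Or.inr ⟨c, ha, hb, hc, hab, hca.symm, hcb.symm, fun w hw => ?_⟩
    by_contra hcon
    push Not at hcon
    obtain ⟨h2, h3, h4⟩ := hcon
    have h5 := (deg3_iff.2 h.deg) v {a, b, c, w} (by
      intro u hu
      simp only [mem_insert, mem_singleton] at hu
      rcases hu with rfl | rfl | rfl | rfl <;> assumption)
    rw [card_insert_of_notMem, card_insert_of_notMem, card_insert_of_notMem, card_singleton] at h5
    · omega
    · simpa using h4.symm
    · simpa using ⟨hcb.symm, h3.symm⟩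
    · simpa using ⟨hab, hca.symm, h2.symm⟩

/-- Every vertex has exactly two or exactly three neighbours. -/
theorem two_or_three' (h : MinCex G) (v : V) :
    (∃ a b, Two G v a b) ∨ ∃ a b c, Three G v a b c := by
  have h1 := h.two_le v
  have h2 : 1 < (G.neighborSet v).ncard := h1
  obtain ⟨a, b, ha, hb, hab⟩ := (Set.one_lt_ncard_iff (Set.toFinite _)).1 h2
  rcases two_or_three h ha hb hab with h3 | ⟨c, h3⟩
  · exact Or.inl ⟨a, b, h3⟩
  · exact Or.inr ⟨a, b, c, h3⟩

/-- **Small cuts.** No list `L` of 3 to 11 distinct vertices is left by at most three edges. The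
list `M` contains the edges which leave `L`. -/
theorem no_small (h : MinCex G) (hn : 14 ≤ Fintype.card V) (L : List V) (hL : L.Nodup)
    (h3 : 3 ≤ L.length) (h11 : L.length ≤ 11) (M : List (V × V)) (hM : M.length ≤ 3)
    (hcov : ∀ u ∈ L, ∀ w, G.Adj u w → w ∈ L ∨ (u, w) ∈ M) : False := by
  have h1 : (leave G {v | v ∈ L}).ncard ≤ 3 := by
    refine le_trans (Set.ncard_le_ncard (t := (↑(M.toFinset) : Set (V × V))) ?_ (Set.toFinite _)) ?_
    · rintro ⟨u, w⟩ ⟨hu, hw, huw⟩
      rcases hcov u hu w huw with h4 | h4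
      · exact absurd h4 hw
      · simpa using h4
    · rw [Set.ncard_coe_finset]
      exact (List.toFinset_card_le M).trans hM
  have h2 : ({v | v ∈ L} : Set V).ncard = L.length := by
    have : ({v | v ∈ L} : Set V) = ↑(L.toFinset) := by
      ext v
      simp
    rw [this, Set.ncard_coe_finset, List.toFinset_card_of_nodup hL]
  have h4 : ({v | v ∈ L} : Set V)ᶜ.ncard + L.length = Fintype.card V := by
    rw [← h2, ← Nat.card_eq_fintype_card, add_comm]
    exact Set.ncard_add_ncard_compl _
  rcases h.cut_three _ h1 with h5 | h5 <;> omega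

/-- A vertex with two neighbours is not dominated. -/
theorem no_dom (h : MinCex G) {x a b w : V} (hx : Two G x a b) (ha : G.Adj w a) (hb : G.Adj w b) :
    w = x := by
  by_contra hwx
  -- delete the edges at `x`
  set H : SimpleGraph V :=
    { Adj := fun u v => G.Adj u v ∧ u ≠ x ∧ v ≠ x
      symm := ⟨fun u v huv => ⟨huv.1.symm, huv.2.2, huv.2.1⟩⟩
      loopless := ⟨fun u hu => hu.1.ne rfl⟩ } with hH
  obtain ⟨c, τ, hc⟩ := h.sub (H := H) (fun u v huv => huv.1) hx.1 (fun h1 => h1.2.1 rfl)
  refine h.bad ⟨fun v => if v = x then c w else c v, fun v => if v = x then τ w else τ v,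
    fun u v huv => ?_⟩
  have hax : a ≠ x := hx.1.ne.symm
  have hbx : b ≠ x := hx.2.1.ne.symm
  by_cases hu : u = x
  · subst hu
    have hv : v ≠ u := huv.ne.symm
    simp only [if_pos, if_neg hv]
    rcases hx.2.2.2 v huv with rfl | rfl
    · exact hc w v ⟨ha, hwx, hv⟩
    · exact hc w v ⟨hb, hwx, hv⟩
  · by_cases hv : v = x
    · subst hv
      simp only [if_pos, if_neg hu]
      rcases hx.2.2.2 u huv.symm with rfl | rfl
      · exact hc u w ⟨ha.symm, hu, hwx⟩
      · exact hc u w ⟨hb.symm, hu, hwx⟩
    · simp only [if_neg hu, if_neg hv]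
      exact hc u v ⟨huv, hu, hv⟩

/-- Neighbours of a vertex of degree two have degree three. -/
theorem three_of_adj (h : MinCex G) (hn : 14 ≤ Fintype.card V) {x a b p : V} (hx : Two G x a b)
    (hp : G.Adj a p) (hpx : p ≠ x) : ∃ t, Three G a x p t := by
  rcases two_or_three h hx.1.symm hp hpx.symm with h1 | h1
  · exfalso
    have hpb : p ≠ b := by
      rintro rfl
      exact no_tri h.tri hx.1 hp hx.2.1
    -- `x`, `a`, `p` are left by at most three edges
    rcases two_or_three' h p with ⟨c, d, h2⟩ | ⟨c, d, e, h2⟩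
    · refine no_small h hn [x, a, p] ?_ (by simp) (by simp) [(x, b), (p, c), (p, d)] (by simp) ?_
      · simp only [List.nodup_cons, List.mem_cons, List.not_mem_nil, or_false, not_or,
          List.nodup_nil, and_true, not_false_eq_true]
        exact ⟨⟨hx.1.ne, hpx.symm⟩, hp.ne⟩
      · intro u hu w hw
        simp only [List.mem_cons, List.not_mem_nil, or_false] at hu ⊢
        rcases hu with rfl | rfl | rfl
        · rcases hx.2.2.2 w hw with rfl | rfl <;> simp
        · rcases h1.2.2.2 w hw with rfl | rfl <;> simp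
        · rcases h2.2.2.2 w hw with rfl | rfl <;> simp
    · -- `a` is one of the neighbours of `p`
      have key : ∀ c d e : V, Three G p c d e → a = c → False := by
        intro c d e h2 hac
        refine no_small h hn [x, a, p] ?_ (by simp) (by simp) [(x, b), (p, d), (p, e)] (by simp) ?_
        · simp only [List.nodup_cons, List.mem_cons, List.not_mem_nil, or_false, not_or,
            List.nodup_nil, and_true, not_false_eq_true]
          exact ⟨⟨hx.1.ne, hpx.symm⟩, hp.ne⟩
        · intro u hu w hw
          simp only [List.mem_cons, List.not_mem_nil, or_false] at hu ⊢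
          rcases hu with rfl | rfl | rfl
          · rcases hx.2.2.2 w hw with rfl | rfl <;> simp
          · rcases h1.2.2.2 w hw with rfl | rfl <;> simp
          · rcases h2.2.2.2.2.2.2 w hw with rfl | rfl | rfl <;> simp [hac]
      rcases h2.2.2.2.2.2.2 a hp.symm with h3 | h3 | h3
      · exact key c d e h2 h3
      · exact key d e c h2.rot h3
      · exact key e c d h2.rot.rot h3
  · exact h1

/-- Vertices at distance two from a vertex of degree two have degree three. -/
theorem three_of_adj2 (h : MinCex G) (hn : 14 ≤ Fintype.card V) {x a b p q : V} (hx : Two G x a b)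
    (hp : G.Adj a p) (hpx : p ≠ x) (hq : G.Adj p q) (hqa : q ≠ a) : ∃ t, Three G p a q t := by
  obtain ⟨t, ht⟩ := three_of_adj h hn hx hp hpx
  rcases two_or_three h hp.symm hq hqa.symm with h1 | h1
  · exfalso
    refine no_small h hn [x, a, p] ?_ (by simp) (by simp) [(x, b), (a, t), (p, q)] (by simp) ?_
    · simp only [List.nodup_cons, List.mem_cons, List.not_mem_nil, or_false, not_or,
        List.nodup_nil, and_true, not_false_eq_true]
      exact ⟨⟨hx.1.ne, hpx.symm⟩, hp.ne⟩
    · intro u hu w hw
      simp only [List.mem_cons, List.not_mem_nil, or_false] at hu ⊢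
      rcases hu with rfl | rfl | rfl
      · rcases hx.2.2.2 w hw with rfl | rfl <;> simp
      · rcases ht.2.2.2.2.2.2 w hw with rfl | rfl | rfl <;> simp
      · rcases h1.2.2.2 w hw with rfl | rfl <;> simp
  · exact h1

end Pool.Agent.TwoV
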