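import Mathlib
import Pool.Agent.Work.MP_392c8e_co_t1.TVDefs
import Pool.Agent.Work.MP_392c8e_co_t1.Inst.Small

/-!
# A pentagon with a vertex of degree two: the opposite edge

`x p1 p2 p3 p4` is a 5-cycle, `x` has degree two and `t1 … t4` are the third neighbours of
`p1 … p4`.  If `t1` and `t4` are not adjacent then `t2` and `t3` have a common neighbour which is
not on the 5-cycle.
-/

namespace Pool.Agent.TwoV

open Finset
open Pool.Agent.Red (Pl MinCex StrictCol leave)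
open Pool.Agent.T1Red

theorem data_S1b : Data S1b [(4, 5)] [(0, [6], 5), (5, [9], 3), (1, [7, 8], 2)] [] [] [(1, 2)]
    [(0, 3)] := by
  constructor <;> decide

theorem ext_S1b : S1b.Ext [] := Red.ext_of_check check_S1b (by decide)

variable {V : Type} [Fintype V] [DecidableEq V] {G : SimpleGraph V}

section dist

variable {x p1 p2 p3 p4 t1 t2 t3 t4 : V}

/-- The 5-cycle has no repeated vertices. -/
theorem nodup5 (hx : Two G x p1 p4) (h1 : Three G p1 x p2 t1)
    (h2 : Three G p2 p1 p3 t2) (h3 : Three G p3 p2 p4 t3) (h4 : Three G p4 p3 x t4) :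
    [x, p1, p2, p3, p4].Nodup := by
  obtain ⟨x1, x4, x14, -⟩ := hx
  obtain ⟨a1, a2, a3, a4, a5, a6, -⟩ := h1
  obtain ⟨b1, b2, b3, b4, b5, b6, -⟩ := h2
  obtain ⟨c1, c2, c3, c4, c5, c6, -⟩ := h3
  obtain ⟨d1, d2, d3, d4, d5, d6, -⟩ := h4
  simp only [List.nodup_cons, List.mem_cons, List.not_mem_nil, or_false, not_or,
    List.nodup_nil, and_true, not_false_eq_true]
  exact ⟨⟨x1.ne, a4, d4.symm, x4.ne⟩, ⟨b1.symm.ne, b4, x14⟩, ⟨c1.symm.ne, c4⟩, d1.symm.ne⟩

/-- The third neighbours are not on the 5-cycle. -/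
theorem t_notMem (h : MinCex G) (hx : Two G x p1 p4) (h1 : Three G p1 x p2 t1)
    (h2 : Three G p2 p1 p3 t2) (h3 : Three G p3 p2 p4 t3) (h4 : Three G p4 p3 x t4) :
    t1 ∉ [x, p1, p2, p3, p4] ∧ t2 ∉ [x, p1, p2, p3, p4] ∧ t3 ∉ [x, p1, p2, p3, p4] ∧
      t4 ∉ [x, p1, p2, p3, p4] := by
  obtain ⟨x1, x4, x14, xw⟩ := hx
  obtain ⟨a1, a2, a3, a4, a5, a6, -⟩ := h1
  obtain ⟨b1, b2, b3, b4, b5, b6, -⟩ := h2
  obtain ⟨c1, c2, c3, c4, c5, c6, -⟩ := h3
  obtain ⟨d1, d2, d3, d4, d5, d6, -⟩ := h4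
  have T := h.tri
  simp only [List.mem_cons, List.not_mem_nil, or_false, not_or]
  refine ⟨⟨a5.symm, a3.ne.symm, a6.symm, ?_, ?_⟩, ⟨?_, b5.symm, b3.ne.symm, b6.symm, ?_⟩,
    ⟨?_, ?_, c5.symm, c3.ne.symm, c6.symm⟩, ⟨d6.symm, ?_, ?_, d5.symm, d3.ne.symm⟩⟩
  · rintro rfl
    exact no_tri T a2 b2 a3
  · rintro rfl
    exact no_tri T x1 a3 x4
  · rintro rfl
    rcases xw p2 b3.symm with h5 | h5
    · exact b1.ne h5
    · exact c4 h5
  · rintro rfl
    exact no_tri T b2 c2 b3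
  · rintro rfl
    rcases xw p3 c3.symm with h5 | h5
    · exact b4 h5.symm
    · exact c2.ne h5
  · rintro rfl
    exact no_tri T c1 b1 c3
  · rintro rfl
    exact no_tri T x1 d3.symm x4
  · rintro rfl
    exact no_tri T c2 d3 c1

/-- A vertex with two given neighbours has at most one more. -/
theorem third (h : MinCex G) {t a b : V} (ha : G.Adj t a) (hb : G.Adj t b) (hab : a ≠ b) :
    ∃ s, ∀ w, G.Adj t w → w = a ∨ w = b ∨ w = s := by
  rcases two_or_three h ha hb hab with h1 | ⟨c, h1⟩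
  · refine ⟨a, fun w hw => ?_⟩
    rcases h1.2.2.2 w hw with h2 | h2
    · exact Or.inl h2
    · exact Or.inr (Or.inl h2)
  · exact ⟨c, h1.2.2.2.2.2.2⟩

/-- The third neighbours are distinct. -/
theorem nodupT (h : MinCex G) (hn : 14 ≤ Fintype.card V) (hx : Two G x p1 p4)
    (h1 : Three G p1 x p2 t1) (h2 : Three G p2 p1 p3 t2) (h3 : Three G p3 p2 p4 t3)
    (h4 : Three G p4 p3 x t4) : [t1, t2, t3, t4].Nodup := by
  have hP := nodup5 hx h1 h2 h3 h4
  obtain ⟨n1, n2, n3, n4⟩ := t_notMem h hx h1 h2 h3 h4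
  have T := h.tri
  have e12 : t1 ≠ t2 := by
    rintro rfl
    exact no_tri T h1.2.1 h2.2.2.1 h1.2.2.1
  have e23 : t2 ≠ t3 := by
    rintro rfl
    exact no_tri T h2.2.1 h3.2.2.1 h2.2.2.1
  have e34 : t3 ≠ t4 := by
    rintro rfl
    exact no_tri T h3.2.1 h4.2.2.1 h3.2.2.1
  have e14 : t1 ≠ t4 := by
    rintro rfl
    have := no_dom h hx h1.2.2.1.symm h4.2.2.1.symm
    exact n1 (by simp [this])
  have e13 : t1 ≠ t3 := by
    rintro rfl
    obtain ⟨s, hs⟩ := third h h1.2.2.1.symm h3.2.2.1.symm h2.2.2.2.1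
    refine no_small h hn [t1, x, p1, p2, p3, p4] (List.nodup_cons.2 ⟨n1, hP⟩) (by simp) (by simp)
      [(p2, t2), (p4, t4), (t1, s)] (by simp) ?_
    intro u hu w hw
    simp only [List.mem_cons, List.not_mem_nil, or_false] at hu ⊢
    rcases hu with rfl | rfl | rfl | rfl | rfl | rfl
    · rcases hs w hw with rfl | rfl | rfl <;> simp
    · rcases hx.2.2.2 w hw with rfl | rfl <;> simp
    · rcases h1.2.2.2.2.2.2 w hw with rfl | rfl | rfl <;> simp
    · rcases h2.2.2.2.2.2.2 w hw with rfl | rfl | rfl <;> simp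
    · rcases h3.2.2.2.2.2.2 w hw with rfl | rfl | rfl <;> simp
    · rcases h4.2.2.2.2.2.2 w hw with rfl | rfl | rfl <;> simp
  have e24 : t2 ≠ t4 := by
    rintro rfl
    obtain ⟨s, hs⟩ := third h h2.2.2.1.symm h4.2.2.1.symm h3.2.2.2.1
    refine no_small h hn [t2, x, p1, p2, p3, p4] (List.nodup_cons.2 ⟨n2, hP⟩) (by simp) (by simp)
      [(p1, t1), (p3, t3), (t2, s)] (by simp) ?_
    intro u hu w hw
    simp only [List.mem_cons, List.not_mem_nil, or_false] at hu ⊢
    rcases hu with rfl | rfl | rfl | rfl | rfl | rfl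
    · rcases hs w hw with rfl | rfl | rfl <;> simp
    · rcases hx.2.2.2 w hw with rfl | rfl <;> simp
    · rcases h1.2.2.2.2.2.2 w hw with rfl | rfl | rfl <;> simp
    · rcases h2.2.2.2.2.2.2 w hw with rfl | rfl | rfl <;> simp
    · rcases h3.2.2.2.2.2.2 w hw with rfl | rfl | rfl <;> simp
    · rcases h4.2.2.2.2.2.2 w hw with rfl | rfl | rfl <;> simp
  simp only [List.nodup_cons, List.mem_cons, List.not_mem_nil, or_false, not_or,
    List.nodup_nil, and_true, not_false_eq_true]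
  exact ⟨⟨e12, e13, e14⟩, ⟨e23, e24⟩, e34⟩

/-- **The common neighbour.** -/
theorem exists_z (h : MinCex G) (hn : 14 ≤ Fintype.card V) (hx : Two G x p1 p4)
    (h1 : Three G p1 x p2 t1) (h2 : Three G p2 p1 p3 t2) (h3 : Three G p3 p2 p4 t3)
    (h4 : Three G p4 p3 x t4) (h14 : ¬ G.Adj t1 t4) :
    ∃ z, G.Adj t2 z ∧ G.Adj z t3 ∧ z ∉ [x, p1, p2, p3, p4] := by
  by_contra hcon
  have hP := nodup5 hx h1 h2 h3 h4
  have hT := nodupT h hn hx h1 h2 h3 h4
  obtain ⟨n1, n2, n3, n4⟩ := t_notMem h hx h1 h2 h3 h4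
  have hL : [t1, t2, t3, t4, x, p1, p2, p3, p4].Nodup := by
    have : [t1, t2, t3, t4, x, p1, p2, p3, p4] = [t1, t2, t3, t4] ++ [x, p1, p2, p3, p4] := rfl
    rw [this, List.nodup_append]
    refine ⟨hT, hP, ?_⟩
    intro a ha b hb hab
    subst hab
    simp only [List.mem_cons, List.not_mem_nil, or_false] at ha
    rcases ha with rfl | rfl | rfl | rfl
    · exact n1 hb
    · exact n2 hb
    · exact n3 hb
    · exact n4 hb
  set f : ℕ → V := fun n => [t1, t2, t3, t4, x, x, p1, p2, p3, p4].getD n x with hf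
  refine Red.no_conf h ext_S1b data_S1b f ?_ ?_ ?_ ?_ ?_
  · intro i j hi hj hij
    refine Or.inl ?_
    have hi' : i < 10 ∧ i ≠ 4 := ⟨hi.1, (hi.2.2 (4, 5) (by simp)).symm⟩
    have hj' : j < 10 ∧ j ≠ 4 := ⟨hj.1, (hj.2.2 (4, 5) (by simp)).symm⟩
    have key : ∀ k, k < 10 → k ≠ 4 → ∃ m : Fin 9, (if k < 4 then k else k - 1) = m.1 ∧
        f k = [t1, t2, t3, t4, x, p1, p2, p3, p4].get m := by
      intro k hk hk4
      interval_cases k
      · exact ⟨0, rfl, rfl⟩
      · exact ⟨1, rfl, rfl⟩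
      · exact ⟨2, rfl, rfl⟩
      · exact ⟨3, rfl, rfl⟩
      · exact absurd rfl hk4
      · exact ⟨4, rfl, rfl⟩
      · exact ⟨5, rfl, rfl⟩
      · exact ⟨6, rfl, rfl⟩
      · exact ⟨7, rfl, rfl⟩
      · exact ⟨8, rfl, rfl⟩
    obtain ⟨a, ha, hfa⟩ := key i hi'.1 hi'.2
    obtain ⟨b, hb, hfb⟩ := key j hj'.1 hj'.2
    rw [hfa, hfb] at hij
    have hab : a = b := hL.injective_get hij
    rw [hab, ← hb] at ha
    split_ifs at ha <;> omega
  · intro e he _ _
    simp only [S1b, List.mem_cons, List.not_mem_nil, or_false] at he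
    rcases he with rfl | rfl | rfl | rfl | rfl | rfl | rfl | rfl | rfl
    · exact hx.1
    · exact h1.2.1
    · exact h2.2.1
    · exact h3.2.1
    · exact hx.2.1.symm
    · exact h1.2.2.1
    · exact h2.2.2.1
    · exact h3.2.2.1
    · exact h4.2.2.1
  · intro i hi hi' w hw
    have hi1 : 5 ≤ i := hi
    have hi2 : i < 10 := hi'
    interval_cases i
    · rcases hx.2.2.2 w hw with rfl | rfl
      · exact ⟨6, by decide, by simp, rfl⟩
      · exact ⟨9, by decide, by simp, rfl⟩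
    · rcases h1.2.2.2.2.2.2 w hw with rfl | rfl | rfl
      · exact ⟨5, by decide, by simp, rfl⟩
      · exact ⟨7, by decide, by simp, rfl⟩
      · exact ⟨0, by decide, by simp, rfl⟩
    · rcases h2.2.2.2.2.2.2 w hw with rfl | rfl | rfl
      · exact ⟨6, by decide, by simp, rfl⟩
      · exact ⟨8, by decide, by simp, rfl⟩
      · exact ⟨1, by decide, by simp, rfl⟩
    · rcases h3.2.2.2.2.2.2 w hw with rfl | rfl | rfl
      · exact ⟨7, by decide, by simp, rfl⟩
      · exact ⟨9, by decide, by simp, rfl⟩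
      · exact ⟨2, by decide, by simp, rfl⟩
    · rcases h4.2.2.2.2.2.2 w hw with rfl | rfl | rfl
      · exact ⟨8, by decide, by simp, rfl⟩
      · exact ⟨5, by decide, by simp, rfl⟩
      · exact ⟨3, by decide, by simp, rfl⟩
  · intro p hp w hw hpw
    rw [List.mem_singleton] at hp
    subst hp
    refine hcon ⟨w, hpw.1, hpw.2, fun hmem => hw ?_⟩
    simp only [List.mem_cons, List.not_mem_nil, or_false] at hmem
    rcases hmem with rfl | rfl | rfl | rfl | rfl
    · exact ⟨5, by decide, by decide, rfl⟩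
    · exact ⟨6, by decide, by decide, rfl⟩
    · exact ⟨7, by decide, by decide, rfl⟩
    · exact ⟨8, by decide, by decide, rfl⟩
    · exact ⟨9, by decide, by decide, rfl⟩
  · intro p hp
    rw [List.mem_singleton] at hp
    subst hp
    exact h14

end dist

end Pool.Agent.TwoV
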