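import Mathlib
import Pool.Agent.Work.MP_392c8e_co_t1.Apply
import Pool.Agent.Work.MP_392c8e_co_t1.Inst.Theta
import Pool.Agent.Work.MP_392c8e_co_red.CutsAll

/-!
# No two 5-cycles with two common edges at a vertex of degree two
-/

namespace Pool.Agent.T1Red

open Pool.Agent.Red (MinCex leave leave_erase leave_compl_ncard)

set_option linter.unusedSectionVars false

variable {V : Type} [Fintype V] [DecidableEq V] {G : SimpleGraph V}

theorem theta_ext : Theta.Ext [] := Red.ext_of_check check_Theta (by decide)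

/-- The places of the new labels. -/
def thetaNl : List (ℕ × ℕ) := [(4, 10), (5, 11), (6, 12), (7, 13), (8, 14), (9, 15)]

/-- The paths of the new edges. -/
def thetaPs : List (ℕ × List ℕ × ℕ) :=
  [(10, [], 11), (11, [], 12), (12, [], 13), (13, [], 14), (14, [], 15), (15, [], 10),
    (0, [], 11), (1, [], 12), (2, [], 14), (3, [], 15)]

set_option synthInstance.maxSize 200000 in
theorem theta_data : Data Theta thetaNl thetaPs [] [] [] [] := by
  constructor <;> decide

/-- A third neighbour, possibly a dummy. -/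
theorem exists_third (hdeg : ∀ v, (G.neighborSet v).ncard ≤ 3) {v a b : V} (ha : G.Adj v a)
    (hb : G.Adj v b) (hab : a ≠ b) : ∃ s, ∀ w, G.Adj v w → w = a ∨ w = b ∨ w = s := by
  classical
  by_cases h : ∃ s, G.Adj v s ∧ s ≠ a ∧ s ≠ b
  · obtain ⟨s, h1, h2, h3⟩ := h
    refine ⟨s, fun w hw => ?_⟩
    by_contra hcon
    push Not at hcon
    have h4 : (({a, b, s, w} : Finset V) : Set V) ⊆ G.neighborSet v := by
      intro z hz
      simp only [Finset.coe_insert, Finset.coe_singleton, Set.mem_insert_iff,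
        Set.mem_singleton_iff] at hz
      rcases hz with rfl | rfl | rfl | rfl
      · exact ha
      · exact hb
      · exact h1
      · exact hw
    have h5 := Set.ncard_le_ncard h4 (Set.toFinite _)
    rw [Set.ncard_coe_finset, Finset.card_insert_of_notMem, Finset.card_insert_of_notMem,
      Finset.card_insert_of_notMem, Finset.card_singleton] at h5
    · have := hdeg v
      omega
    · simpa using hcon.2.2.symm
    · simp [h3.symm, hcon.2.1.symm]
    · simp [hab, h2.symm, hcon.1.symm]
  · push Not at h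
    refine ⟨a, fun w hw => ?_⟩
    by_cases h1 : w = a
    · exact Or.inl h1
    · exact Or.inr (Or.inl (h w hw h1))

/-- A small set with few leaving edges. -/
theorem few_leave (h : MinCex G) (hV : 11 ≤ Fintype.card V) (A : Set V) (h1 : 3 ≤ A.ncard)
    (h2 : A.ncard ≤ 8) (h3 : (leave G A).ncard ≤ 3) : False := by
  have h4 := Set.ncard_add_ncard_compl A
  rw [Nat.card_eq_fintype_card] at h4
  rcases h.cut_three A h3 with h5 | h5 <;> omega

/-- Two leaving edges with the same end outside. -/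
theorem two_in (h : MinCex G) (hV : 11 ≤ Fintype.card V) (A : Set V) (h1 : 2 ≤ A.ncard)
    (h2 : A.ncard ≤ 7) (h3 : (leave G A).ncard ≤ 4) {a a' u : V} (ha : (a, u) ∈ leave G A)
    (ha' : (a', u) ∈ leave G A) (hne : a ≠ a') : False := by
  have h4 := Set.ncard_add_ncard_compl A
  rw [Nat.card_eq_fintype_card] at h4
  have hu : u ∈ Aᶜ := ha.2.1
  have h5 := leave_erase Aᶜ hu (b := a) (b' := a') (fun hh => hh ha.1) (fun hh => hh ha'.1)
    ha.2.2.symm ha'.2.2.symm hne (h.deg u)
  rw [leave_compl_ncard] at h5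
  have h6 := Set.ncard_sdiff_singleton_of_mem hu
  have h7 := Set.ncard_add_ncard_compl (Aᶜ \ {u})
  rw [Nat.card_eq_fintype_card] at h7
  rcases h.cut_three (Aᶜ \ {u}) (by omega) with h8 | h8 <;> omega

/-- The labelled copy. -/
def thetaL (s1 s2 s4 s5 c0 c1 c2 c3 c4 c5 x : V) : List V :=
  [s1, s2, s4, s5, c0, c1, c2, c3, c4, c5, x]

/-- **No two 5-cycles with two common edges at a vertex of degree two.** -/
theorem no_theta (h : MinCex G) (hV : 11 ≤ Fintype.card V) {x c0 c1 c2 c3 c4 c5 : V}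
    (hnd : [c0, c1, c2, c3, c4, c5, x].Nodup) (h01 : G.Adj c0 c1) (h12 : G.Adj c1 c2)
    (h23 : G.Adj c2 c3) (h34 : G.Adj c3 c4) (h45 : G.Adj c4 c5) (h50 : G.Adj c5 c0)
    (hx0 : G.Adj x c0) (hx3 : G.Adj x c3) (hx : ∀ w, G.Adj x w → w = c0 ∨ w = c3) : False := by
  classical
  have hnd' := hnd
  simp only [List.nodup_cons, List.mem_cons, List.not_mem_nil, or_false, not_or,
    List.nodup_nil, and_true, not_false_eq_true] at hnd'
  obtain ⟨⟨n01, n02, n03, n04, n05, n0x⟩, ⟨n12, n13, n14, n15, n1x⟩, ⟨n23, n24, n25, n2x⟩,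
    ⟨n34, n35, n3x⟩, ⟨n45, n4x⟩, n5x⟩ := hnd'
  obtain ⟨s1, hs1⟩ := exists_third h.deg h01.symm h12 n02
  obtain ⟨s2, hs2⟩ := exists_third h.deg h12.symm h23 n13
  obtain ⟨s4, hs4⟩ := exists_third h.deg h34.symm h45 n35
  obtain ⟨s5, hs5⟩ := exists_third h.deg h45.symm h50 (Ne.symm n04)
  have hN0 : ∀ w, G.Adj c0 w → w = c1 ∨ w = c5 ∨ w = x := by
    obtain ⟨s, hs⟩ := exists_third h.deg h01 h50.symm n15
    rcases hs x hx0.symm with h1 | h1 | h1
    · exact absurd h1 (Ne.symm n1x)
    · exact absurd h1 (Ne.symm n5x)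
    · rw [h1]; exact hs
  have hN3 : ∀ w, G.Adj c3 w → w = c2 ∨ w = c4 ∨ w = x := by
    obtain ⟨s, hs⟩ := exists_third h.deg h23.symm h34 n24
    rcases hs x hx3.symm with h1 | h1 | h1
    · exact absurd h1 (Ne.symm n2x)
    · exact absurd h1 (Ne.symm n4x)
    · rw [h1]; exact hs
  set A : Set V := {c0, c1, c2, c3, c4, c5, x} with hA
  have hAc : A.ncard = 7 := by
    have h1 : A = (([c0, c1, c2, c3, c4, c5, x].toFinset : Finset V) : Set V) := by
      ext z
      simp [hA]
    rw [h1, Set.ncard_coe_finset, List.toFinset_card_of_nodup hnd]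
    rfl
  have mem : ∀ z, z ∈ A ↔ z = c0 ∨ z = c1 ∨ z = c2 ∨ z = c3 ∨ z = c4 ∨ z = c5 ∨ z = x := by
    intro z
    simp [hA]
  set T : Finset (V × V) := {(c1, s1), (c2, s2), (c4, s4), (c5, s5)} with hT
  have hsub : leave G A ⊆ (T : Set (V × V)) := by
    rintro ⟨a, b⟩ ⟨ha, hb, hab⟩
    have hb' : ¬ (b = c0 ∨ b = c1 ∨ b = c2 ∨ b = c3 ∨ b = c4 ∨ b = c5 ∨ b = x) := by
      rwa [← mem]
    push Not at hb'
    obtain ⟨b0, b1, b2, b3, b4, b5, bx⟩ := hb'
    simp only [hT, Finset.coe_insert, Finset.coe_singleton, Set.mem_insert_iff,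
      Set.mem_singleton_iff, Prod.mk.injEq]
    rcases (mem a).1 ha with rfl | rfl | rfl | rfl | rfl | rfl | rfl
    · rcases hN0 b hab with h1 | h1 | h1
      · exact absurd h1 b1
      · exact absurd h1 b5
      · exact absurd h1 bx
    · rcases hs1 b hab with h1 | h1 | h1
      · exact absurd h1 b0
      · exact absurd h1 b2
      · exact Or.inl ⟨rfl, h1⟩
    · rcases hs2 b hab with h1 | h1 | h1
      · exact absurd h1 b1
      · exact absurd h1 b3
      · exact Or.inr (Or.inl ⟨rfl, h1⟩)
    · rcases hN3 b hab with h1 | h1 | h1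
      · exact absurd h1 b2
      · exact absurd h1 b4
      · exact absurd h1 bx
    · rcases hs4 b hab with h1 | h1 | h1
      · exact absurd h1 b3
      · exact absurd h1 b5
      · exact Or.inr (Or.inr (Or.inl ⟨rfl, h1⟩))
    · rcases hs5 b hab with h1 | h1 | h1
      · exact absurd h1 b4
      · exact absurd h1 b0
      · exact Or.inr (Or.inr (Or.inr ⟨rfl, h1⟩))
    · rcases hx b hab with h1 | h1
      · exact absurd h1 b0
      · exact absurd h1 b3
  have hTc : T.card ≤ 4 := Finset.card_le_four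
  have hle4 : (leave G A).ncard ≤ 4 := by
    have h1 := Set.ncard_le_ncard hsub (Set.toFinite _)
    rw [Set.ncard_coe_finset] at h1
    omega
  have hall : ∀ p ∈ T, p ∈ leave G A := by
    intro p hp
    by_contra hcon
    refine few_leave h hV A (by omega) (by omega) ?_
    have h1 : leave G A ⊆ ((T.erase p : Finset (V × V)) : Set (V × V)) := by
      intro q hq
      rw [Finset.mem_coe, Finset.mem_erase]
      exact ⟨fun h2 => hcon (h2 ▸ hq), hsub hq⟩
    have h2 := Set.ncard_le_ncard h1 (Set.toFinite _)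
    rw [Set.ncard_coe_finset, Finset.card_erase_of_mem hp] at h2
    omega
  have l1 : (c1, s1) ∈ leave G A := hall _ (by simp [hT])
  have l2 : (c2, s2) ∈ leave G A := hall _ (by simp [hT])
  have l4 : (c4, s4) ∈ leave G A := hall _ (by simp [hT])
  have l5 : (c5, s5) ∈ leave G A := hall _ (by simp [hT])
  have hd : ∀ {a b u u' : V}, (a, u) ∈ leave G A → (b, u') ∈ leave G A → a ≠ b → u ≠ u' := by
    intro a b u u' hau hbu hab huu
    subst huu
    exact two_in h hV A (by omega) (by omega) hle4 hau hbu hab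
  have m12 := hd l1 l2 n12
  have m14 := hd l1 l4 n14
  have m15 := hd l1 l5 n15
  have m24 := hd l2 l4 n24
  have m25 := hd l2 l5 n25
  have m45 := hd l4 l5 n45
  have out : ∀ {a u : V}, (a, u) ∈ leave G A → u ≠ c0 ∧ u ≠ c1 ∧ u ≠ c2 ∧ u ≠ c3 ∧ u ≠ c4 ∧
      u ≠ c5 ∧ u ≠ x := by
    intro a u hu
    have h1 := hu.2.1
    rw [mem] at h1
    push Not at h1
    exact h1
  obtain ⟨o10, o11, o12, o13, o14, o15, o1x⟩ := out l1
  obtain ⟨o20, o21, o22, o23, o24, o25, o2x⟩ := out l2
  obtain ⟨o40, o41, o42, o43, o44, o45, o4x⟩ := out l4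
  obtain ⟨o50, o51, o52, o53, o54, o55, o5x⟩ := out l5
  set L := thetaL s1 s2 s4 s5 c0 c1 c2 c3 c4 c5 x with hL
  have hLn : L.Nodup := by
    simp only [hL, thetaL, List.nodup_cons, List.mem_cons, List.not_mem_nil, or_false, not_or,
      List.nodup_nil, and_true, not_false_eq_true]
    exact ⟨⟨m12, m14, m15, o10, o11, o12, o13, o14, o15, o1x⟩,
      ⟨m24, m25, o20, o21, o22, o23, o24, o25, o2x⟩, ⟨m45, o40, o41, o42, o43, o44, o45, o4x⟩,
      ⟨o50, o51, o52, o53, o54, o55, o5x⟩, ⟨n01, n02, n03, n04, n05, n0x⟩,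
      ⟨n12, n13, n14, n15, n1x⟩, ⟨n23, n24, n25, n2x⟩, ⟨n34, n35, n3x⟩, ⟨n45, n4x⟩, n5x⟩
  set f : ℕ → V := fun i => L.getD (if i < 4 then i else i - 6) x with hf
  refine Red.no_conf h theta_ext theta_data f ?_ ?_ ?_ ?_ ?_
  · intro i j hi hj hij
    left
    have key : ∀ k, Real Theta thetaNl [] k → (k < 4 ∨ (10 ≤ k ∧ k < 17)) := by
      intro k hk
      have h1 : k < 17 := hk.1
      by_contra hcon
      have h2 : 4 ≤ k ∧ k < 10 := by omega
      obtain ⟨h3, h4⟩ := h2
      have h6 : (k, k + 6) ∈ thetaNl := by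
        clear hk
        interval_cases k <;> decide
      exact hk.2.2 _ h6 rfl
    have hl : L.length = 11 := rfl
    have ki := key i hi
    have kj := key j hj
    have gi : (if i < 4 then i else i - 6) < L.length := by split_ifs <;> omega
    have gj : (if j < 4 then j else j - 6) < L.length := by split_ifs <;> omega
    simp only [hf] at hij
    rw [List.getD_eq_getElem _ _ gi, List.getD_eq_getElem _ _ gj, hLn.getElem_inj_iff] at hij
    split_ifs at hij <;> omega
  · intro e he _ _
    have : e ∈ [(10, 11), (11, 12), (12, 13), (13, 14), (14, 15), (15, 10), (16, 10), (16, 13),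
      (11, 0), (12, 1), (14, 2), (15, 3)] := he
    simp only [List.mem_cons, List.not_mem_nil, or_false] at this
    rcases this with rfl | rfl | rfl | rfl | rfl | rfl | rfl | rfl | rfl | rfl | rfl | rfl
    · exact h01
    · exact h12
    · exact h23
    · exact h34
    · exact h45
    · exact h50
    · exact hx0
    · exact hx3
    · exact l1.2.2
    · exact l2.2.2
    · exact l4.2.2
    · exact l5.2.2
  · intro i hi hi' w hw
    have e1 : 10 ≤ i := hi
    have e2 : i < 17 := hi'
    interval_cases i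
    · rcases hN0 w hw with rfl | rfl | rfl
      · exact ⟨11, by decide, by simp, rfl⟩
      · exact ⟨15, by decide, by simp, rfl⟩
      · exact ⟨16, by decide, by simp, rfl⟩
    · rcases hs1 w hw with rfl | rfl | rfl
      · exact ⟨10, by decide, by simp, rfl⟩
      · exact ⟨12, by decide, by simp, rfl⟩
      · exact ⟨0, by decide, by simp, rfl⟩
    · rcases hs2 w hw with rfl | rfl | rfl
      · exact ⟨11, by decide, by simp, rfl⟩
      · exact ⟨13, by decide, by simp, rfl⟩
      · exact ⟨1, by decide, by simp, rfl⟩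
    · rcases hN3 w hw with rfl | rfl | rfl
      · exact ⟨12, by decide, by simp, rfl⟩
      · exact ⟨14, by decide, by simp, rfl⟩
      · exact ⟨16, by decide, by simp, rfl⟩
    · rcases hs4 w hw with rfl | rfl | rfl
      · exact ⟨13, by decide, by simp, rfl⟩
      · exact ⟨15, by decide, by simp, rfl⟩
      · exact ⟨2, by decide, by simp, rfl⟩
    · rcases hs5 w hw with rfl | rfl | rfl
      · exact ⟨14, by decide, by simp, rfl⟩
      · exact ⟨10, by decide, by simp, rfl⟩
      · exact ⟨3, by decide, by simp, rfl⟩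
    · rcases hx w hw with rfl | rfl
      · exact ⟨10, by decide, by simp, rfl⟩
      · exact ⟨13, by decide, by simp, rfl⟩
  · intro p hp
    simp at hp
  · intro p hp
    simp at hp

end Pool.Agent.T1Red
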