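import Mathlib
import Pool.Agent.Work.MP_392c8e_co_t1.TVDefs
import Pool.Agent.Work.MP_392c8e_co_t1.NoTheta

/-!
# A vertex of degree two lies on at most one 5-cycle of this kind
-/

namespace Pool.Agent.TwoV

open Pool.Agent.Red (MinCex)

variable {V : Type} [Fintype V] [DecidableEq V] {G : SimpleGraph V}

/-- Two 5-cycles do not share both edges at a vertex of degree two. -/
theorem no_x55 (h : MinCex G) (hn : 14 ≤ Fintype.card V) {x p1 p2 p3 p4 t1 t2 t3 t4 : V}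
    (hx : Two G x p1 p4) (h1 : Three G p1 x p2 t1) (h2 : Three G p2 p1 p3 t2)
    (h3 : Three G p3 p2 p4 t3) (h4 : Three G p4 p3 x t4) : ¬ G.Adj t1 t4 := by
  intro h14
  obtain ⟨hx1, hx4, hx14, hxN⟩ := hx
  obtain ⟨a1, a2, a3, a4, a5, a6, -⟩ := h1
  obtain ⟨b1, b2, b3, b4, b5, b6, -⟩ := h2
  obtain ⟨c1, c2, c3, c4, c5, c6, -⟩ := h3
  obtain ⟨d1, d2, d3, d4, d5, d6, -⟩ := h4
  have tri : ∀ {a b c : V}, G.Adj a b → G.Adj b c → G.Adj a c → False := fun hab hbc hac =>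
    no_tri h.tri hab hbc hac
  refine T1Red.no_theta h (by omega) (x := x) (c0 := p1) (c1 := p2) (c2 := p3) (c3 := p4)
    (c4 := t4) (c5 := t1) ?_ a2 b2 c2 d3 h14.symm a3.symm hx1 hx4 hxN
  simp only [List.nodup_cons, List.mem_cons, List.not_mem_nil, or_false, not_or,
    List.nodup_nil, and_true, not_false_eq_true]
  refine ⟨⟨a2.ne, b4, hx14, ?_, a3.ne, a1.ne⟩, ⟨b2.ne, c4, ?_, a6, Ne.symm a4⟩,
    ⟨c2.ne, d5, ?_, d4⟩, ⟨d3.ne, ?_, d2.ne⟩, ⟨h14.ne.symm, Ne.symm d6⟩, Ne.symm a5⟩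
  · rintro rfl
    exact tri hx1 d3.symm hx4
  · rintro rfl
    exact tri b2 d1.symm d3.symm
  · rintro rfl
    exact tri a2 b2 a3
  · rintro rfl
    exact tri hx1 a3 hx4

end Pool.Agent.TwoV
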