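import Mathlib
import Pool.Agent.Work.MP_392c8e_co_t1.TVTheta
import Pool.Agent.Work.MP_392c8e_co_t1.TVS1
import Pool.Agent.Work.MP_392c8e_co_t1.Side
import Pool.Agent.Work.MP_392c8e_co_t1.Inst.MidExt

/-!
# Two pentagons with a common edge, the opposite vertex of the first one has degree two
-/

namespace Pool.Agent.TwoV

open Pool.Agent.Red (Pl MinCex StrictCol leave)
open Pool.Agent.T1Red
open Pool.T1Side (Tr NB Corner EdgeEq Rules St Step Cert nbs pairs has)

variable {V : Type} [Fintype V] [DecidableEq V] {G : SimpleGraph V}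

/-- Two closed walks of length at most six through a corner at a vertex with three neighbours are
equal. -/
def CornerC (G : SimpleGraph V) : Prop :=
  ∀ (a v b : V) (l l' : List V), (∃ c d e, Three G v c d e) → NB G (a :: v :: b :: l) →
    NB G (a :: v :: b :: l') → l.length ≤ 3 → l'.length ≤ 3 → l = l'

/-- The data of a pentagon with a vertex of degree two. -/
theorem setup (h : MinCex G) (hn : 14 ≤ Fintype.card V) {x p1 p2 p3 p4 : V}
    (hx : Two G x p1 p4) (h12 : G.Adj p1 p2) (h23 : G.Adj p2 p3) (h34 : G.Adj p3 p4)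
    (h2x : p2 ≠ x) (h3x : p3 ≠ x) (h13 : p1 ≠ p3) (h24 : p2 ≠ p4) :
    ∃ t1 t2 t3 t4, Three G p1 x p2 t1 ∧ Three G p2 p1 p3 t2 ∧ Three G p3 p2 p4 t3 ∧
      Three G p4 p3 x t4 := by
  obtain ⟨t1, k1⟩ := three_of_adj h hn hx h12 h2x
  obtain ⟨t2, k2⟩ := three_of_adj2 h hn hx h12 h2x h23 h13.symm
  obtain ⟨t4, k4⟩ := three_of_adj h hn hx.swap h34.symm h3x
  obtain ⟨t3, k3⟩ := three_of_adj2 h hn hx.swap h34.symm h3x h23.symm h24
  exact ⟨t1, t2, t3, t4, k1, k2, k3.swap, k4.swap⟩

/-- Two 5-cycles through the same corner at a vertex of degree two. -/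
theorem corner_two (h : MinCex G) (hn : 14 ≤ Fintype.card V) {v a b c d c' d' : V}
    (hx : Two G v b a) (a5 : G.Adj b c) (a4 : v ≠ c) (a7 : G.Adj c d) (a6 : b ≠ d) (a8 : c ≠ a)
    (a9 : G.Adj d a) (a10 : d ≠ v) (b5 : G.Adj b c') (b4 : v ≠ c') (b7 : G.Adj c' d')
    (b9 : G.Adj d' a) (b10 : d' ≠ v) : c' = c ∧ d' = d := by
  obtain ⟨t1, t2, t3, t4, k1, k2, k3, k4⟩ :=
    setup h hn hx a5 a7 a9 a4.symm a10 a6 a8
  have hT := nodupT h hn hx k1 k2 k3 k4
  have hN := no_x55 h hn hx k1 k2 k3 k4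
  simp only [List.nodup_cons, List.mem_cons, List.not_mem_nil, or_false, not_or,
    List.nodup_nil, and_true, not_false_eq_true] at hT
  rcases k1.2.2.2.2.2.2 c' b5 with e1 | e1 | e1
  · exact absurd e1.symm b4
  · rcases k4.2.2.2.2.2.2 d' b9.symm with e2 | e2 | e2
    · exact ⟨e1, e2⟩
    · exact absurd e2 b10
    · -- `d' = t4` is adjacent to `c`
      exfalso
      rw [e1, e2] at b7
      rcases k2.2.2.2.2.2.2 t4 b7 with e3 | e3 | e3
      · rw [e3] at k4
        exact no_tri h.tri k4.2.2.1.symm k4.2.1 hx.1.symm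
      · exact k4.2.2.2.2.1 e3.symm
      · exact hT.2.1.2 e3.symm
  · rcases k4.2.2.2.2.2.2 d' b9.symm with e2 | e2 | e2
    · exfalso
      rw [e1, e2] at b7
      rcases k3.2.2.2.2.2.2 t1 b7.symm with e3 | e3 | e3
      · exact k1.2.2.2.2.2.1 e3.symm
      · rw [e3] at k1
        exact no_tri h.tri k1.2.2.1.symm k1.1 hx.2.1.symm
      · exact hT.1.2.1 e3
    · exact absurd e2 b10
    · exfalso
      rw [e1, e2] at b7
      exact hN b7

/-- Corners of short closed walks at arbitrary vertices. -/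
def t5 (k l : ℕ) : Bool := Nat.ble k 2 && Nat.ble l 2

/-- **The corner rules for closed walks of length at most five.** -/
theorem rules5 (h : MinCex G) (hn : 14 ≤ Fintype.card V) (hc : CornerC G) :
    Rules G t5 (fun _ _ => false) := by
  refine ⟨h.tri, ?_, fun a v l l' _ _ hf => by simp at hf⟩
  intro a v b l l' hl hl' hlen
  simp only [t5, Bool.and_eq_true, Nat.ble_eq] at hlen
  have hav : G.Adj a v := hl.1
  have hab : a ≠ b := hl.2.1
  have hvb : G.Adj v b := by
    have := hl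
    cases l with
    | nil => exact this.2.2.1
    | cons c l => exact this.2.2.1
  rcases two_or_three h hvb hav.symm hab.symm with hx | ⟨c, hx⟩
  · -- a vertex of degree two
    have h4 : ∀ c, NB G [a, v, b, c] → False := by
      intro c hc4
      obtain ⟨a1, a2, a3, a4, a5, a6, a7, a8, -⟩ := hc4
      exact a4 (no_dom h hx a5.symm a7).symm
    have h3 : NB G [a, v, b] → False := by
      intro hc3
      obtain ⟨a1, a2, a3, a4, a5, a6, -⟩ := hc3
      exact no_tri h.tri a1 a3 a5.symm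
    have hfive : ∀ l : List V, NB G (a :: v :: b :: l) → l.length ≤ 2 →
        ∃ c d, l = [c, d] := by
      intro l hl hle
      match l, hl, hle with
      | [], hl, _ => exact (h3 hl).elim
      | [c], hl, _ => exact (h4 c hl).elim
      | [c, d], _, _ => exact ⟨c, d, rfl⟩
      | _ :: _ :: _ :: _, _, hle => simp at hle
    obtain ⟨c, d, rfl⟩ := hfive l hl hlen.1
    obtain ⟨c', d', rfl⟩ := hfive l' hl' hlen.2
    obtain ⟨a1, a2, a3, a4, a5, a6, a7, a8, a9, a10, -⟩ := hl
    obtain ⟨b1, b2, b3, b4, b5, b6, b7, b8, b9, b10, -⟩ := hl'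
    obtain ⟨e1, e2⟩ := corner_two h hn hx a5 a4 a7 a6 a8 a9 a10 b5 b4 b7 b9 b10
    rw [e1, e2]
  · exact hc a v b l l' ⟨_, _, _, hx⟩ hl hl' (by omega) (by omega)

/-- The certificate of the side conditions. -/
def midSteps : List Step := [
  .ne 0 1 (.nadj 11 0),
  .ne 0 4 (.corner 10 0 7 [6] [8, 9]),
  .ne 0 9 (.tri 7 0 8),
  .ne 0 10 (.nadj 0 4),
  .ne 0 11 (.tri 7 0 8),
  .ne 0 12 (.corner 9 0 7 [8] [6, 10]),
  .ne 0 13 (.nadj 11 0),
  .ne 1 2 (.tri 11 1 13),
  .ne 1 3 (.corner 11 1 12 [13] [9, 8]),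
  .ne 1 6 (.corner 1 7 8 [11] [9, 10]),
  .ne 1 7 (.tri 11 1 8),
  .ne 1 9 (.tri 11 1 8),
  .ne 1 10 (.corner 11 8 9 [1] [12, 13]),
  .ne 1 12 (.tri 11 1 13),
  .ne 2 3 (.tri 12 2 13),
  .ne 2 7 (.corner 13 2 8 [11] [9, 12]),
  .ne 2 8 (.tri 11 13 2),
  .ne 2 9 (.tri 2 12 13),
  .ne 2 10 (.corner 13 2 9 [12] [8, 11]),
  .ne 3 4 (.nadj 12 3),
  .ne 3 6 (.corner 9 10 3 [12] [7, 8]),
  .ne 3 7 (.corner 9 8 3 [12] [6, 10]),
  .ne 3 8 (.tri 9 12 3),
  .ne 3 10 (.tri 9 3 12),
  .ne 3 11 (.tri 12 3 13),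
  .ne 4 7 (.nadj 4 0),
  .ne 4 8 (.tri 9 10 4),
  .ne 4 11 (.corner 9 8 4 [10] [13, 12]),
  .ne 4 12 (.tri 9 10 4),
  .ne 4 13 (.nadj 4 12),
  .ne 6 11 (.tri 6 7 8),
  .ne 6 12 (.tri 9 10 6),
  .ne 6 13 (.corner 9 10 6 [12] [7, 8]),
  .ne 7 12 (.tri 8 9 7),
  .ne 7 13 (.tri 11 7 8),
  .ne 10 11 (.tri 9 10 8),
  .ne 10 13 (.tri 9 10 12),
  .ne 0 2 (.corner 13 11 8 [9, 12] [7, 0]),
  .ne 0 3 (.corner 9 8 7 [0, 12] [6, 10]),
  .ne 1 4 (.corner 9 8 11 [1, 10] [13, 12]),
  .ne 2 4 (.corner 9 12 13 [2, 10] [11, 8]),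
  .ne 2 6 (.corner 9 10 2 [13, 12] [7, 8])]

/-- The interior labels. -/
def midI : List ℕ := [6, 7, 8, 9, 10, 11, 12, 13]

/-- The initial state. -/
def midSt : St :=
  ⟨Mid5.ed, Mid5.ed ++ midI.flatMap (fun i => pairs (nbs Mid5.ed i)),
    [(0, 11), (4, 12), (0, 4)], []⟩

/-- The check of the distinctness. -/
def midOK : Bool :=
  match St.run t5 (fun _ _ => false) midI midSteps midSt with
  | none => false
  | some s => (pairs [0, 1, 2, 3, 4, 6, 7, 8, 9, 10, 11, 12, 13]).all fun e => has s.ne e.1 e.2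

theorem midOK_true : midOK = true := by
  decide +kernel

/-- The pairs of neighbours of the interior labels. -/
def midNe : List (ℕ × ℕ) :=
  [(7, 10), (8, 0), (8, 6), (0, 6), (9, 11), (9, 7), (11, 7), (10, 12), (10, 8), (12, 8), (4, 6),
    (4, 9), (6, 9), (13, 1), (13, 8), (1, 8), (3, 9), (3, 13), (9, 13), (12, 2), (12, 11), (2, 11)]

theorem midSt_eq : midSt = ⟨Mid5.ed, Mid5.ed ++ midNe, [(0, 11), (4, 12), (0, 4)], []⟩ := by
  rfl

/-- **All terminals are present.** -/
theorem no_mid (h : MinCex G) (hn : 14 ≤ Fintype.card V) (hc : CornerC G)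
    {x p1 p2 p3 p4 t1 t2 t3 t4 : V} (hx : Two G x p1 p4) (h1 : Three G p1 x p2 t1)
    (h2 : Three G p2 p1 p3 t2) (h3 : Three G p3 p2 p4 t3) (h4 : Three G p4 p3 x t4)
    (h14 : ¬ G.Adj t1 t4) (h12 : ¬ G.Adj t1 t2) (h34 : ¬ G.Adj t3 t4) {z s2 s s3 : V}
    (k2 : Three G t2 p2 z s2) (kz : Three G z t2 t3 s) (k3 : Three G t3 p3 z s3) : False := by
  set f : ℕ → V := fun i => [t1, s2, s, s3, t4, x, x, p1, p2, p3, p4, t2, t3, z].getD i x with hf
  obtain ⟨x1, x2, x3, x4⟩ := hx
  obtain ⟨a1, a2, a3, a4, a5, a6, a7⟩ := h1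
  obtain ⟨b1, b2, b3, b4, b5, b6, b7⟩ := h2
  obtain ⟨c1, c2, c3, c4, c5, c6, c7⟩ := h3
  obtain ⟨d1, d2, d3, d4, d5, d6, d7⟩ := h4
  obtain ⟨e1, e2, e3, e4, e5, e6, e7⟩ := k2
  obtain ⟨z1, z2, z3, z4, z5, z6, z7⟩ := kz
  obtain ⟨g1, g2, g3, g4, g5, g6, g7⟩ := k3
  have hadj : ∀ e ∈ Mid5.ed, G.Adj (f e.1) (f e.2) := by
    intro e he
    simp only [Mid5, List.mem_cons, List.not_mem_nil, or_false] at he
    rcases he with rfl | rfl | rfl | rfl | rfl | rfl | rfl | rfl | rfl | rfl | rfl | rfl | rfl |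
      rfl
    · exact x1
    · exact x2
    · exact a2
    · exact b2
    · exact c2
    · exact b3
    · exact c3
    · exact e2
    · exact z2
    · exact a3
    · exact e3
    · exact z3
    · exact g3
    · exact d3
  have hok : midSt.Ok G midI f := by
    rw [midSt_eq]
    refine ⟨hadj, fun e he => ?_, fun e he => ?_, fun e he => by simp at he⟩
    · rcases List.mem_append.1 he with he | he
      · exact (hadj e he).ne
      · simp only [midNe, List.mem_cons, List.not_mem_nil, or_false] at he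
        rcases he with rfl | rfl | rfl | rfl | rfl | rfl | rfl | rfl | rfl | rfl | rfl | rfl |
          rfl | rfl | rfl | rfl | rfl | rfl | rfl | rfl | rfl | rfl
        · exact x3
        · exact a6
        · exact a4.symm
        · exact a5.symm
        · exact b6
        · exact b4.symm
        · exact b5.symm
        · exact c6
        · exact c4.symm
        · exact c5.symm
        · exact d6.symm
        · exact d5.symm
        · exact d4.symm
        · exact e6
        · exact e4.symm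
        · exact e5.symm
        · exact g5.symm
        · exact g6.symm
        · exact g4
        · exact z6
        · exact z4.symm
        · exact z5.symm
    · simp only [List.mem_cons, List.not_mem_nil, or_false] at he
      rcases he with rfl | rfl | rfl
      · exact h12
      · exact fun h => h34 h.symm
      · exact h14
  have hok2 := midOK_true
  unfold midOK at hok2
  split at hok2
  · exact absurd hok2 (by simp)
  rename_i s' hrun
  have hs : s'.Ok G midI f := St.Ok.run (rules5 h hn hc) _ _ s' hok hrun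
  rw [List.all_eq_true] at hok2
  have key : ∀ i j, Real Mid5 [(5, 6)] [] i → Real Mid5 [(5, 6)] [] j → i < j → f i ≠ f j := by
    intro i j hi hj hij
    refine hs.ne (hok2 (i, j) ?_)
    have h5 : ∀ k, Real Mid5 [(5, 6)] [] k → k ∈ [0, 1, 2, 3, 4, 6, 7, 8, 9, 10, 11, 12, 13] := by
      intro k hk
      have e1 : k < 14 := hk.1
      have e2 : (5 : ℕ) ≠ k := hk.2.2 (5, 6) (by simp)
      simp only [List.mem_cons, List.not_mem_nil, or_false]
      omega
    exact Pool.T1Side.mem_pairs (by decide) (h5 i hi) (h5 j hj) hij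
  refine Red.no_conf h Mid5_ext Mid5_data f ?_ (fun e he _ _ => hadj e he) ?_ ?_ ?_
  · intro i j hi hj hij
    rcases lt_trichotomy i j with h5 | h5 | h5
    · exact absurd hij (key i j hi hj h5)
    · exact Or.inl h5
    · exact absurd hij.symm (key j i hj hi h5)
  · intro i hi hi' w hw
    have e1 : 6 ≤ i := hi
    have e2 : i < 14 := hi'
    interval_cases i
    · rcases x4 w hw with rfl | rfl
      · exact ⟨7, by decide, by simp, rfl⟩
      · exact ⟨10, by decide, by simp, rfl⟩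
    · rcases a7 w hw with rfl | rfl | rfl
      · exact ⟨6, by decide, by simp, rfl⟩
      · exact ⟨8, by decide, by simp, rfl⟩
      · exact ⟨0, by decide, by simp, rfl⟩
    · rcases b7 w hw with rfl | rfl | rfl
      · exact ⟨7, by decide, by simp, rfl⟩
      · exact ⟨9, by decide, by simp, rfl⟩
      · exact ⟨11, by decide, by simp, rfl⟩
    · rcases c7 w hw with rfl | rfl | rfl
      · exact ⟨8, by decide, by simp, rfl⟩
      · exact ⟨10, by decide, by simp, rfl⟩
      · exact ⟨12, by decide, by simp, rfl⟩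
    · rcases d7 w hw with rfl | rfl | rfl
      · exact ⟨9, by decide, by simp, rfl⟩
      · exact ⟨6, by decide, by simp, rfl⟩
      · exact ⟨4, by decide, by simp, rfl⟩
    · rcases e7 w hw with rfl | rfl | rfl
      · exact ⟨8, by decide, by simp, rfl⟩
      · exact ⟨13, by decide, by simp, rfl⟩
      · exact ⟨1, by decide, by simp, rfl⟩
    · rcases g7 w hw with rfl | rfl | rfl
      · exact ⟨9, by decide, by simp, rfl⟩
      · exact ⟨13, by decide, by simp, rfl⟩
      · exact ⟨3, by decide, by simp, rfl⟩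
    · rcases z7 w hw with rfl | rfl | rfl
      · exact ⟨11, by decide, by simp, rfl⟩
      · exact ⟨12, by decide, by simp, rfl⟩
      · exact ⟨2, by decide, by simp, rfl⟩
  · intro p hp w hw hpw
    rw [List.mem_singleton] at hp
    subst hp
    have w1 : G.Adj s2 w := hpw.1
    have w2 : G.Adj w s3 := hpw.2
    have hR : ∀ i, i < 14 → i ≠ 5 → Real Mid5 [(5, 6)] [] i := by
      intro i hi hi5
      refine ⟨hi, by simp, fun p hp => ?_⟩
      rw [List.mem_singleton] at hp
      rw [hp]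
      exact hi5.symm
    have hs23 : s2 ≠ s3 := key 1 3 (hR 1 (by norm_num) (by norm_num))
      (hR 3 (by norm_num) (by norm_num)) (by norm_num)
    have hw2 : w ≠ t2 := by
      rintro rfl
      exact hw ⟨11, by decide, by decide, rfl⟩
    have hw3 : w ≠ t3 := by
      rintro rfl
      exact hw ⟨12, by decide, by decide, rfl⟩
    have n1 : NB G (t2 :: z :: t3 :: [s3, w, s2]) :=
      ⟨z1.symm, z4, z2, g6, g3, hw3.symm, w2.symm, hs23.symm, w1.symm, hw2, e3.symm, e6.symm,
        trivial⟩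
    have hp3z : p3 ≠ z := g4
    have n2 : NB G (t2 :: z :: t3 :: [p3, p2]) :=
      ⟨z1.symm, z4, z2, hp3z.symm, g1, c5.symm, b2.symm, b6, b3, e4, trivial⟩
    have := hc t2 z t3 _ _ ⟨_, _, _, z1, z2, z3, z4, z5, z6, z7⟩ n1 n2 (by simp) (by simp)
    simp at this
  · intro p hp
    rw [List.mem_singleton] at hp
    subst hp
    exact h14

end Pool.Agent.TwoV
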