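import Mathlib
import Pool.Agent.Work.MP_392c8e_co_t1.Stages
import Pool.Agent.Work.MP_392c8e_co_t1.CardGe
import Pool.Agent.Work.MP_392c8e_co_t1.TVMid

/-!
# The stages of the geometric facts for a smallest counterexample

Stage five: no vertex of degree two on a 4-cycle.  Stage six: from the absence of two 4-cycles
with a common edge.  Stage seven: from the absence of vertices of degree two on 5-cycles and of
5-cycles with an edge on a 4-cycle.
-/

namespace Pool.Agent.T392

open Finset Pool.Agent.Sub392 Pool.Agent.Red Pool.T1Side Pool.Agent.TwoV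

set_option linter.unusedSectionVars false

section

variable {V : Type} [Fintype V] [DecidableEq V] {G : SimpleGraph V}

/-- Closed walks as lists can be turned by one vertex. -/
theorem nb4_turn {a b c d : V} (h : NB G [a, b, c, d]) : NB G [b, c, d, a] := by
  obtain ⟨h1, h2, h3, h4, h5, h6, h7, h8, h9⟩ := h
  exact ⟨h3, h4, h5, h6, h7, h8, h1, h2, trivial⟩

theorem nb5_turn {a b c d e : V} (h : NB G [a, b, c, d, e]) : NB G [b, c, d, e, a] := by
  obtain ⟨h1, h2, h3, h4, h5, h6, h7, h8, h9, h10, h11⟩ := h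
  exact ⟨h3, h4, h5, h6, h7, h8, h9, h10, h1, h2, trivial⟩

/-- No vertex with two neighbours on a 4-cycle. -/
theorem no_two_four (h : MinCex G) {v a b c : V} (hx : Two G v a b) : ¬ NB G [a, v, b, c] := by
  rintro ⟨a1, a2, a3, a4, a5, a6, a7, a8, -⟩
  exact a4 (no_dom h hx a7 a5.symm).symm

/-- Two 5-cycles with a common vertex with two neighbours are equal. -/
theorem two_five (h : MinCex G) {v a b c d c' d' : V} (hx : Two G v a b)
    (hl : NB G [a, v, b, c, d]) (hl' : NB G [a, v, b, c', d']) : c = c' ∧ d = d' := by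
  have hn := h.card_ge
  obtain ⟨a1, a2, a3, a4, a5, a6, a7, a8, a9, a10, -⟩ := hl
  obtain ⟨b1, b2, b3, b4, b5, b6, b7, b8, b9, b10, -⟩ := hl'
  obtain ⟨t1, t2, t3, t4, k1, k2, k3, k4⟩ :=
    setup h hn hx.swap a5 a7 a9 a4.symm a10 a6 a8
  have hT := nodupT h hn hx.swap k1 k2 k3 k4
  have hN := no_x55 h hn hx.swap k1 k2 k3 k4
  simp only [List.nodup_cons, List.mem_cons, List.not_mem_nil, or_false, not_or,
    List.nodup_nil, and_true, not_false_eq_true] at hT
  rcases k1.2.2.2.2.2.2 c' b5 with e1 | e1 | e1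
  · exact absurd e1.symm b4
  · rcases k4.2.2.2.2.2.2 d' b9.symm with e2 | e2 | e2
    · exact ⟨e1.symm, e2.symm⟩
    · exact absurd e2 b10
    · exfalso
      rw [e1, e2] at b7
      rcases k2.2.2.2.2.2.2 t4 b7 with e3 | e3 | e3
      · rw [e3] at k4
        exact TwoV.no_tri h.tri k4.2.2.1.symm k4.2.1 hx.2.1.symm
      · exact k4.2.2.2.2.1 e3.symm
      · exact hT.2.1.2 e3.symm
  · rcases k4.2.2.2.2.2.2 d' b9.symm with e2 | e2 | e2
    · exfalso
      rw [e1, e2] at b7
      rcases k3.2.2.2.2.2.2 t1 b7.symm with e3 | e3 | e3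
      · exact k1.2.2.2.2.2.1 e3.symm
      · rw [e3] at k1
        exact TwoV.no_tri h.tri k1.2.2.1.symm k1.1 hx.1.symm
      · exact hT.1.2.1 e3
    · exact absurd e2 b10
    · exfalso
      rw [e1, e2] at b7
      exact hN b7

end

variable {V : Type} [Fintype V] [DecidableEq V] {G : SimpleGraph V} [DecidableRel G.Adj]
  {R : Rot G}

/-- A vertex of degree two. -/
theorem two_of_degree (h : MinCex G) {v a b : V} (ha : G.Adj v a) (hb : G.Adj v b) (hab : a ≠ b)
    (hd : G.degree v = 2) : Two G v a b := by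
  rcases two_or_three h ha hb hab with h1 | ⟨c, h1⟩
  · exact h1
  · exfalso
    have h2 : ({a, b, c} : Finset V) ⊆ G.neighborFinset v := by
      intro u hu
      simp only [mem_insert, mem_singleton] at hu
      rw [SimpleGraph.mem_neighborFinset]
      rcases hu with rfl | rfl | rfl
      · exact ha
      · exact hb
      · exact h1.2.2.1
    have h3 := card_le_card h2
    rw [SimpleGraph.card_neighborFinset_eq_degree, hd, card_insert_of_notMem,
      card_insert_of_notMem, card_singleton] at h3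
    · omega
    · simpa using h1.2.2.2.2.2.1
    · simpa using ⟨hab, h1.2.2.2.2.1⟩

theorem degree_of_three {v a b c : V} (h : Three G v a b c) : G.degree v = 3 := by
  have h2 : G.neighborFinset v = {a, b, c} := by
    ext u
    rw [SimpleGraph.mem_neighborFinset, mem_insert, mem_insert, mem_singleton]
    constructor
    · exact h.2.2.2.2.2.2 u
    · rintro (rfl | rfl | rfl)
      · exact h.1
      · exact h.2.1
      · exact h.2.2.1
  rw [← SimpleGraph.card_neighborFinset_eq_degree, h2, card_insert_of_notMem,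
    card_insert_of_notMem, card_singleton]
  · simpa using h.2.2.2.2.2.1
  · simpa using ⟨h.2.2.2.1, h.2.2.2.2.1⟩

/-- A vertex of degree two is not on a 4-cycle. -/
theorem MinCex.deg_four (h : MinCex G) (a b c d : V) (hl : NB G [a, b, c, d]) :
    G.degree a ≠ 2 := by
  intro h2
  have h3 : NB G [d, a, b, c] := nb4_turn (nb4_turn (nb4_turn hl))
  have h4 := h3
  obtain ⟨a1, a2, a3, a4, a5, a6, a7, a8, -⟩ := h4
  exact no_two_four h (two_of_degree h a1.symm a3 a2 h2) h3

theorem MinCex.h42 (h : MinCex G) (g : Geo R) (d : G.Dart) (hd : sz R d = 4) :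
    G.degree d.fst ≠ 2 :=
  g.h42_of (MinCex.deg_four h) d hd

/-- **Stage five.** -/
theorem MinCex.rules5 (h : MinCex G) (g : Geo R) : Rules G A5 (fun _ _ => false) :=
  g.rules5 (MinCex.h42 h g)

theorem MinCex.hX (h : MinCex G) (g : Geo R) (d : G.Dart) (h2 : G.degree d.fst = 2)
    (hd : sz R d = 5) : sz R d.symm ≠ 5 := by
  refine g.hX_of ?_ ?_ d h2 hd
  · intro a b c d e f k hb hl hl'
    have h3 := hl
    obtain ⟨a1, a2, a3, a4, -⟩ := h3
    exact two_five h (two_of_degree h a1.symm a3 a2 hb) hl hl'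
  · intro a b c d e hl hb
    have h3 := hl
    obtain ⟨a1, a2, a3, a4, a5, a6, a7, a8, a9, a10, -⟩ := h3
    have hx : Two G b a c := two_of_degree h a1.symm a3 a2 hb
    constructor
    · obtain ⟨t, ht⟩ := three_of_adj h h.card_ge hx a9.symm a10
      exact degree_of_three ht
    · obtain ⟨t, ht⟩ := three_of_adj h h.card_ge hx.swap a5 a4.symm
      exact degree_of_three ht

/-- **Stage six: there are no bad short closed walks.** -/
theorem MinCex.not_bad6 (h : MinCex G) (g : Geo R)
    (h44 : ∀ a b c d e f, NB G [a, b, c, d] → NB G [a, b, e, f] → c = e) : ¬ Bad R 6 :=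
  g.not_bad6 (MinCex.h42 h g) (g.h44_of (MinCex.deg_four h) h44) (MinCex.hX h g)

/-- **Stage six: corners.** -/
theorem MinCex.cornerC (h : MinCex G) (g : Geo R)
    (h44 : ∀ a b c d e f, NB G [a, b, c, d] → NB G [a, b, e, f] → c = e) : CornerC G := by
  rintro a v b l l' ⟨c, d, e, hv⟩ hl hl' h1 h2
  exact g.cornerEq (by norm_num) (MinCex.not_bad6 h g h44) hl hl' (by omega) (by omega)
    (degree_of_three hv)

/-- **Stage six: the rules.** -/
theorem MinCex.rules6 (h : MinCex G) (g : Geo R)
    (h44 : ∀ a b c d e f, NB G [a, b, c, d] → NB G [a, b, e, f] → c = e)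
    (h5 : ∀ a b c d e, NB G [a, b, c, d, e] → G.degree a ≠ 2) : Rules G A6 B6 :=
  g.rules6 (MinCex.h42 h g) (g.h44_of (MinCex.deg_four h) h44) (g.h5_of h5)

/-- **Stage seven: the rules.** -/
theorem MinCex.rules7 (h : MinCex G) (g : Geo R)
    (h44 : ∀ a b c d e f, NB G [a, b, c, d] → NB G [a, b, e, f] → c = e)
    (h5 : ∀ a b c d e, NB G [a, b, c, d, e] → G.degree a ≠ 2)
    (h45 : ∀ d : G.Dart, sz R d = 4 → sz R d.symm ≠ 5) : Rules G A7 B7 := by
  have h40 := g.four_le_sz
  refine g.rules7 (fun d hd => ⟨MinCex.h42 h g d hd, ?_⟩) (g.h5_of h5)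
  have e1 := g.h44_of (MinCex.deg_four h) h44 d hd
  have e2 := h45 d hd
  have e3 := h40 d.symm
  omega

/-- **Stage seven: there are no bad short closed walks.** -/
theorem MinCex.not_bad7 (h : MinCex G) (g : Geo R)
    (h44 : ∀ a b c d e f, NB G [a, b, c, d] → NB G [a, b, e, f] → c = e)
    (h5 : ∀ a b c d e, NB G [a, b, c, d, e] → G.degree a ≠ 2)
    (h45 : ∀ d : G.Dart, sz R d = 4 → sz R d.symm ≠ 5) : ¬ Bad R 7 := by
  have h40 := g.four_le_sz
  refine g.not_bad7 (fun d hd => ⟨MinCex.h42 h g d hd, ?_⟩) (g.h5_of h5)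
  have e1 := g.h44_of (MinCex.deg_four h) h44 d hd
  have e2 := h45 d hd
  have e3 := h40 d.symm
  omega

end Pool.Agent.T392
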