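import Mathlib
import Pool.Agent.Work.MP_392c8e_co_t1.StageFin
import Pool.Agent.Work.MP_392c8e_co_t1.Master

/-!
# The facts about a smallest counterexample from the two statements about faces of length five
-/

namespace Pool.Agent.T392

open Finset Pool.Agent.Sub392 Pool.Agent.OddFlow Pool.Agent.Red Pool.T1Side Pool.Agent.T1Red

set_option linter.unusedSectionVars false

variable {V : Type} [Fintype V] [DecidableEq V] {G : SimpleGraph V} [DecidableRel G.Adj]

/-- Every 5-cycle of a smallest counterexample bounds a face. -/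
theorem MinCex.face_five (h : MinCex G) {R : Rot G} (hP : R.Plane) {v : V} (c : G.Walk v v)
    (hc : c.IsCycle) (hl : c.length = 5) : ∃ f : R.Face, R.size f = 5 ∧ Side R c {f} :=
  (geo_of h hP).side_five ((geo_of h hP).not_bad5 (MinCex.h42 h (geo_of h hP))) c hc hl

/-- **The facts about a smallest counterexample** from the last two of them. -/
theorem facts_of
    (adj : ∀ (V : Type) [Fintype V] [DecidableEq V] (G : SimpleGraph V) [DecidableRel G.Adj],
      MinCex G → ∀ (R : Rot G), R.Plane → ∀ d : G.Dart, sz R d = 5 → sz R d.symm ≠ 5)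
    (join : ∀ (V : Type) [Fintype V] [DecidableEq V] (G : SimpleGraph V) [DecidableRel G.Adj],
      MinCex G → ∀ (R : Rot G), R.Plane →
        ∀ P ∈ pent G, ∀ Q ∈ pent G, P ≠ Q → ∀ u ∈ verts P, ∀ v ∈ verts Q, ¬ G.Adj u v) :
    Facts where
  conn := fun _ _ _ _ h => h.connected
  bridge := fun _ _ _ _ h => h.no_bridge
  face := fun _ _ _ _ _ h _ hP _ c hc hl => MinCex.face_five h hP c hc hl
  adj := fun V _ _ G _ h R hP => adj V G h R hP
  join := join

end Pool.Agent.T392
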