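import Mathlib
import Pool.Agent.Work.MP_392c8e_co.Exact

/-!
# From darts to labelled clusters of faces of length 5

`fx R d i` is the `i`-th vertex of the face of the dart `d` and `fy R d i` is its third neighbour.
-/

namespace Pool.Agent.T1FF

set_option linter.unusedSectionVars false

open Pool.Agent.Sub392 Finset

variable {V : Type} [Fintype V] [DecidableEq V] {G : SimpleGraph V} [DecidableRel G.Adj]

/-! ## Orbits -/

/-- The rotation at a vertex is a cycle of the length of the degree. -/
theorem isCycleOn_rot (R : Rot G) (v : V) :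
    R.rot.IsCycleOn (({d : G.Dart | d.fst = v} : Finset G.Dart) : Set G.Dart) := by
  constructor
  · refine ⟨?_, R.rot.injective.injOn, ?_⟩
    · intro d hd
      simp only [coe_filter, mem_univ, true_and, Set.mem_ofPred_eq] at hd ⊢
      rw [R.fst_rot, hd]
    · intro d hd
      refine ⟨R.rot.symm d, ?_, Equiv.apply_symm_apply _ _⟩
      simp only [coe_filter, mem_univ, true_and, Set.mem_ofPred_eq] at hd ⊢
      have := R.fst_rot (R.rot.symm d)
      rw [Equiv.apply_symm_apply] at this
      rw [← this, hd]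
  · intro d hd d' hd'
    simp only [coe_filter, mem_univ, true_and, Set.mem_ofPred_eq] at hd hd'
    exact R.cyc d d' (hd.trans hd'.symm)

theorem card_darts_at (v : V) : #({d : G.Dart | d.fst = v} : Finset G.Dart) = G.degree v :=
  G.dart_fst_fiber_card_eq_degree v

/-- The face of a dart is a cycle of the face permutation. -/
theorem isCycleOn_next (R : Rot G) (f : R.Face) :
    R.next.IsCycleOn (({d : G.Dart | R.face d = f} : Finset G.Dart) : Set G.Dart) := by
  constructor
  · refine ⟨?_, R.next.injective.injOn, ?_⟩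
    · intro d hd
      simp only [coe_filter, mem_univ, true_and, Set.mem_ofPred_eq] at hd ⊢
      rw [R.face_next, hd]
    · intro d hd
      refine ⟨R.next.symm d, ?_, Equiv.apply_symm_apply _ _⟩
      simp only [coe_filter, mem_univ, true_and, Set.mem_ofPred_eq] at hd ⊢
      have := R.face_next (R.next.symm d)
      rw [Equiv.apply_symm_apply] at this
      rw [← this, hd]
  · intro d hd d' hd'
    simp only [coe_filter, mem_univ, true_and, Set.mem_ofPred_eq] at hd hd'
    exact Quotient.exact (hd.trans hd'.symm)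

theorem next_pow_eq (R : Rot G) (d : G.Dart) (n : ℕ) :
    (R.next ^ n) d = d ↔ R.size (R.face d) ∣ n :=
  (isCycleOn_next R (R.face d)).pow_apply_eq (by simp)

theorem rot_pow_eq (R : Rot G) (d : G.Dart) (n : ℕ) :
    (R.rot ^ n) d = d ↔ G.degree d.fst ∣ n := by
  rw [← card_darts_at]
  exact (isCycleOn_rot R d.fst).pow_apply_eq (by simp)

/-! ## Cubic vertices -/

theorem rot3 (R : Rot G) {d : G.Dart} (h : G.degree d.fst = 3) : R.rot (R.rot (R.rot d)) = d := by
  have := (rot_pow_eq R d 3).2 (by rw [h])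
  rwa [pow_succ, pow_succ, pow_one, Equiv.Perm.mul_apply, Equiv.Perm.mul_apply] at this

theorem rot1_ne (R : Rot G) {d : G.Dart} (h : G.degree d.fst = 3) : R.rot d ≠ d := by
  intro h1
  have := (rot_pow_eq R d 1).1 (by rwa [pow_one])
  rw [h] at this
  omega

theorem rot2_ne (R : Rot G) {d : G.Dart} (h : G.degree d.fst = 3) : R.rot (R.rot d) ≠ d := by
  intro h1
  have := (rot_pow_eq R d 2).1 (by rwa [pow_succ, pow_one, Equiv.Perm.mul_apply])
  rw [h] at this
  omega

/-- Two darts with the same ends are equal. -/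
theorem dart_ext {d d' : G.Dart} (h1 : d.fst = d'.fst) (h2 : d.snd = d'.snd) : d = d' := by
  apply SimpleGraph.Dart.ext
  exact Prod.ext h1 h2

/-- The three neighbours of a cubic vertex. -/
theorem nbr3 (R : Rot G) {d : G.Dart} (h : G.degree d.fst = 3) :
    (d.snd ≠ (R.rot d).snd ∧ d.snd ≠ (R.rot (R.rot d)).snd ∧
      (R.rot d).snd ≠ (R.rot (R.rot d)).snd) ∧
    ∀ w, G.Adj d.fst w → w = d.snd ∨ w = (R.rot d).snd ∨ w = (R.rot (R.rot d)).snd := by
  have e1 : (R.rot d).fst = d.fst := R.fst_rot d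
  have e2 : (R.rot (R.rot d)).fst = d.fst := (R.fst_rot _).trans e1
  have n1 : d.snd ≠ (R.rot d).snd := fun hh => rot1_ne R h (dart_ext e1 hh.symm)
  have n2 : d.snd ≠ (R.rot (R.rot d)).snd := fun hh => rot2_ne R h (dart_ext e2 hh.symm)
  have n3 : (R.rot d).snd ≠ (R.rot (R.rot d)).snd := fun hh =>
    rot1_ne R (d := R.rot d) (by rw [e1]; exact h) (dart_ext (by rw [e1, e2]) hh.symm)
  refine ⟨⟨n1, n2, n3⟩, fun w hw => ?_⟩
  have hcard : #({d.snd, (R.rot d).snd, (R.rot (R.rot d)).snd} : Finset V) = 3 := by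
    rw [card_eq_three]
    exact ⟨_, _, _, n1, n2, n3, rfl⟩
  have hsub : ({d.snd, (R.rot d).snd, (R.rot (R.rot d)).snd} : Finset V) ⊆
      G.neighborFinset d.fst := by
    intro z hz
    simp only [mem_insert, mem_singleton] at hz
    rw [SimpleGraph.mem_neighborFinset]
    rcases hz with rfl | rfl | rfl
    · exact d.adj
    · have := (R.rot d).adj
      rwa [e1] at this
    · have := (R.rot (R.rot d)).adj
      rwa [e2] at this
  have heq := eq_of_subset_of_card_le hsub (by rw [hcard, SimpleGraph.card_neighborFinset_eq_degree, h])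
  have hw' : w ∈ G.neighborFinset d.fst := by rwa [SimpleGraph.mem_neighborFinset]
  rw [← heq] at hw'
  simpa only [mem_insert, mem_singleton] using hw'

/-! ## Faces -/

/-- The vertices of the face of a dart, numbered from the dart. -/
def X (R : Rot G) (d : G.Dart) (n : ℕ) : V := ((R.next ^ n) d).fst

/-- Their third neighbours. -/
def Y (R : Rot G) (d : G.Dart) (n : ℕ) : V := (R.rot ((R.next ^ n) d)).snd

/-- The dart of the face across the `n`-th edge. -/
def ac (R : Rot G) (d : G.Dart) (n : ℕ) : G.Dart := ((R.next ^ n) d).symm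

/-- The face of the dart has length `L` and its vertices have degree three. -/
structure Good (R : Rot G) (d : G.Dart) (L : ℕ) : Prop where
  size : R.size (R.face d) = L
  cub : ∀ n : ℕ, G.degree ((R.next ^ n) d).fst = 3

theorem next_rot2 (R : Rot G) {d : G.Dart} (h : G.degree (R.next d).fst = 3) :
    R.rot (R.rot (R.next d)) = d.symm := by
  have h1 : R.rot d.symm = R.next d := by rw [R.rot_eq, SimpleGraph.Dart.symm_symm]
  have h2 : d.symm.fst = (R.next d).fst := by rw [R.fst_next]; rfl
  rw [← h1]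
  exact rot3 R (by rw [h2]; exact h)

theorem face_pow (R : Rot G) (d : G.Dart) (n : ℕ) : R.face ((R.next ^ n) d) = R.face d := by
  induction n with
  | zero => rfl
  | succ n ih => rw [pow_succ', Equiv.Perm.mul_apply, R.face_next, ih]

theorem snd_pow (R : Rot G) (d : G.Dart) (n : ℕ) : ((R.next ^ n) d).snd = X R d (n + 1) := by
  unfold X
  rw [pow_succ', Equiv.Perm.mul_apply, R.fst_next]

variable {R : Rot G} {d : G.Dart} {L : ℕ}

theorem Good.per (h : Good R d L) : (R.next ^ L) d = d := (next_pow_eq R d L).2 (by rw [h.size])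

theorem Good.shift (h : Good R d L) (n : ℕ) : Good R ((R.next ^ n) d) L := by
  constructor
  · rw [face_pow, h.size]
  · intro i
    rw [← Equiv.Perm.mul_apply, ← pow_add]
    exact h.cub _

theorem Good.pow_add (h : Good R d L) (n : ℕ) : (R.next ^ (n + L)) d = (R.next ^ n) d := by
  rw [_root_.pow_add, Equiv.Perm.mul_apply, h.per]

theorem Good.pow_mod (h : Good R d L) (n : ℕ) : (R.next ^ n) d = (R.next ^ (n % L)) d := by
  conv_lhs => rw [← Nat.div_add_mod n L, Nat.add_comm, _root_.pow_add, Equiv.Perm.mul_apply]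
  congr 1
  induction n / L with
  | zero => rfl
  | succ k ih => rw [Nat.mul_succ, _root_.pow_add, Equiv.Perm.mul_apply, h.per, ih]

theorem Good.X_mod (h : Good R d L) (n : ℕ) : X R d n = X R d (n % L) := by
  unfold X; rw [h.pow_mod]

theorem Good.Y_mod (h : Good R d L) (n : ℕ) : Y R d n = Y R d (n % L) := by
  unfold Y; rw [h.pow_mod]

theorem Good.adjX (_ : Good R d L) (n : ℕ) : G.Adj (X R d n) (X R d (n + 1)) := by
  have := ((R.next ^ n) d).adj
  rw [snd_pow] at this
  exact this

theorem Good.adjY (_ : Good R d L) (n : ℕ) : G.Adj (X R d n) (Y R d n) := by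
  have := (R.rot ((R.next ^ n) d)).adj
  rw [R.fst_rot] at this
  exact this

theorem Good.snd_rot2 (h : Good R d L) (hL : 0 < L) (n : ℕ) :
    (R.rot (R.rot ((R.next ^ n) d))).snd = X R d (n + (L - 1)) := by
  have h1 : (R.next ^ n) d = R.next ((R.next ^ (n + (L - 1))) d) := by
    rw [← Equiv.Perm.mul_apply, ← pow_succ', ← h.pow_add n]
    congr 2
    omega
  rw [h1, next_rot2 R (by rw [← h1]; exact h.cub _)]
  rfl

/-- The three neighbours of a vertex of the face. -/
theorem Good.three (h : Good R d L) (hL : 0 < L) (n : ℕ) :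
    (X R d (n + 1) ≠ X R d (n + (L - 1)) ∧ Y R d n ≠ X R d (n + 1) ∧
      Y R d n ≠ X R d (n + (L - 1))) ∧
    ∀ w, G.Adj (X R d n) w → w = X R d (n + 1) ∨ w = X R d (n + (L - 1)) ∨ w = Y R d n := by
  have key := nbr3 R (d := (R.next ^ n) d) (h.cub n)
  rw [h.snd_rot2 hL, snd_pow] at key
  exact ⟨⟨key.1.2.1, key.1.1.symm, key.1.2.2⟩, fun w hw => by
    rcases key.2 w hw with h1 | h1 | h1
    · exact Or.inl h1
    · exact Or.inr (Or.inr h1)
    · exact Or.inr (Or.inl h1)⟩

/-! ## The face across an edge -/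

theorem next_ac (R : Rot G) (d : G.Dart) (n : ℕ) :
    R.next (ac R d n) = R.rot ((R.next ^ n) d) := by
  rw [R.rot_eq]; rfl

theorem ac_X0 (R : Rot G) (d : G.Dart) (n : ℕ) : X R (ac R d n) 0 = X R d (n + 1) := by
  show ((R.next ^ n) d).snd = _
  exact snd_pow R d n

theorem ac_X1 (R : Rot G) (d : G.Dart) (n : ℕ) : X R (ac R d n) 1 = X R d n := by
  show ((R.next ^ 1) (ac R d n)).fst = _
  rw [pow_one, next_ac, R.fst_rot]
  rfl

theorem ac_X2 (R : Rot G) (d : G.Dart) (n : ℕ) : X R (ac R d n) 2 = Y R d n := by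
  show ((R.next ^ 2) (ac R d n)).fst = _
  rw [pow_succ', pow_one, Equiv.Perm.mul_apply, R.fst_next, next_ac]
  rfl

theorem ac_Y0 (R : Rot G) (d : G.Dart) (n : ℕ) : Y R (ac R d n) 0 = X R d (n + 2) := by
  show (R.rot (ac R d n)).snd = _
  unfold ac
  rw [R.rot_eq, SimpleGraph.Dart.symm_symm, ← Equiv.Perm.mul_apply, ← pow_succ', snd_pow]

theorem Good.ac_Y1 (h : Good R d L) (hL : 0 < L) (n : ℕ) :
    Y R (ac R d n) 1 = X R d (n + (L - 1)) := by
  show (R.rot ((R.next ^ 1) (ac R d n))).snd = _
  rw [pow_one, next_ac, h.snd_rot2 hL]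

/-- The last vertex of the face across. -/
theorem Good.ac_last (h : Good R d L) (n : ℕ) {L' : ℕ} (h' : Good R (ac R d n) L')
    (hL' : 0 < L') : X R (ac R d n) (L' - 1) = Y R d (n + 1) := by
  set e := (R.next ^ n) d with he
  have h4 : R.next e = (R.next ^ (n + 1)) d := by
    rw [pow_succ', Equiv.Perm.mul_apply]
  have h1 : R.next (R.rot (R.next e)).symm = e.symm := by
    rw [← R.rot_eq, next_rot2 R]
    rw [h4]
    exact h.cub (n + 1)
  have h2 : (R.next ^ (L' - 1)) (ac R d n) = (R.rot (R.next e)).symm := by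
    have h3 : R.next ((R.next ^ (L' - 1)) (ac R d n)) = R.next (R.rot (R.next e)).symm := by
      rw [← Equiv.Perm.mul_apply, ← pow_succ', Nat.sub_add_cancel hL', h'.per, h1]
      rfl
    exact R.next.injective h3
  show ((R.next ^ (L' - 1)) (ac R d n)).fst = _
  rw [h2]
  show (R.rot (R.next e)).snd = _
  rw [h4]
  rfl

/-- The third neighbour of the last vertex of the face across lies on the next face across. -/
theorem Good.last_dart (h : Good R d L) (n : ℕ) {L' : ℕ} (h' : Good R (ac R d n) L')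
    (hL' : 0 < L') :
    (R.next ^ (L' - 1)) (ac R d n) = (R.rot ((R.next ^ (n + 1)) d)).symm := by
  have h4 : R.next ((R.next ^ n) d) = (R.next ^ (n + 1)) d := by
    rw [pow_succ', Equiv.Perm.mul_apply]
  have h1 : R.next (R.rot ((R.next ^ (n + 1)) d)).symm = ((R.next ^ n) d).symm := by
    rw [← R.rot_eq, ← h4, next_rot2 R]
    rw [h4]
    exact h.cub (n + 1)
  refine R.next.injective ?_
  rw [← Equiv.Perm.mul_apply, ← pow_succ', Nat.sub_add_cancel hL', h'.per, h1]
  rfl

theorem Good.ac_Ylast (h : Good R d L) (n : ℕ) {L' : ℕ} (h' : Good R (ac R d n) L')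
    (hL' : 0 < L') : Y R (ac R d n) (L' - 1) = X R (ac R d (n + 1)) 3 := by
  unfold Y
  rw [h.last_dart n h' hL', R.rot_eq, SimpleGraph.Dart.symm_symm, ← next_ac,
    ← snd_pow R (ac R d (n + 1)) 2]
  rfl

theorem Good.ac_Y2 (h : Good R d L) (n : ℕ) {L' : ℕ} (h' : Good R (ac R d n) L')
    (hL' : 1 < L') : Y R (ac R d (n + 1)) 2 = X R (ac R d n) (L' - 2) := by
  have h1 := h.last_dart n h' (by omega)
  have h2 : (R.next ^ (L' - 1)) (ac R d n) = R.next ((R.next ^ (L' - 2)) (ac R d n)) := by
    rw [← Equiv.Perm.mul_apply, ← pow_succ']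
    congr 2
    omega
  have h3 : (R.next ^ 2) (ac R d (n + 1)) = R.rot ((R.next ^ (L' - 1)) (ac R d n)) := by
    rw [pow_succ', pow_one, Equiv.Perm.mul_apply, next_ac, h1,
      R.rot_eq (R.rot ((R.next ^ (n + 1)) d)).symm, SimpleGraph.Dart.symm_symm]
  unfold Y
  rw [h3, h2]
  have h4 : R.next ((R.next ^ (L' - 2)) (ac R d n)) =
      R.rot ((R.next ^ (L' - 2)) (ac R d n)).symm := by
    rw [R.rot_eq, SimpleGraph.Dart.symm_symm]
  rw [h4, rot3 R]
  · rfl
  · have := h'.cub (L' - 1)
    rw [h2, R.fst_next] at this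
    exact this

/-! ## The face at the far end of the third edge -/

/-- The dart of the face at the other end of the third edge of the first vertex. -/
def opp (R : Rot G) (d : G.Dart) : G.Dart := R.rot (R.rot (R.rot d).symm)

theorem opp_X0 (R : Rot G) (d : G.Dart) : X R (opp R d) 0 = Y R d 0 := by
  show (opp R d).fst = (R.rot d).snd
  unfold opp
  rw [R.fst_rot, R.fst_rot]
  rfl

theorem opp_Y0 {L' : ℕ} (h' : Good R (opp R d) L') : Y R (opp R d) 0 = X R d 0 := by
  show (R.rot (opp R d)).snd = d.fst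
  unfold opp
  rw [rot3 R]
  · show (R.rot d).fst = d.fst
    exact R.fst_rot d
  · have := h'.cub 0
    have e : ((R.next ^ 0) (opp R d)).fst = (R.rot d).symm.fst := by
      show (opp R d).fst = _
      unfold opp
      rw [R.fst_rot, R.fst_rot]
    rw [e] at this
    exact this

theorem ac_per (h : Good R d L) (n : ℕ) : ac R d (n + L) = ac R d n := by
  unfold ac
  rw [h.pow_add]

/-- The face across the edge of the face across is the face. -/
theorem ac_ac (R : Rot G) (d : G.Dart) (n : ℕ) : ac R (ac R d n) 0 = (R.next ^ n) d := by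
  show ((R.next ^ n) d).symm.symm = _
  rw [SimpleGraph.Dart.symm_symm]

end Pool.Agent.T1FF
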