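import Mathlib
import Pool.Agent.Work.MP_392c8e_co_t1.FF
import Pool.Agent.Work.MP_392c8e_co_t1.Side

/-!
# Labelled copies of clusters in a cubic neighbourhood

A table lists the interior labels with their three neighbours.
-/

namespace Pool.Agent.T1FF

open Pool.Agent.Sub392 Pool.T1Side

section tables

variable {V : Type*} {G : SimpleGraph V}

/-- `a`, `b`, `c` are the neighbours of `p`. -/
structure Nb3 (G : SimpleGraph V) (p a b c : V) : Prop where
  ha : G.Adj p a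
  hb : G.Adj p b
  hc : G.Adj p c
  ab : a ≠ b
  ac : a ≠ c
  bc : b ≠ c
  all : ∀ w, G.Adj p w → w = a ∨ w = b ∨ w = c

theorem Nb3.s12 {p a b c : V} (h : Nb3 G p a b c) : Nb3 G p b a c :=
  ⟨h.hb, h.ha, h.hc, h.ab.symm, h.bc, h.ac, fun w hw => by
    rcases h.all w hw with h | h | h <;> simp [h]⟩

theorem Nb3.s23 {p a b c : V} (h : Nb3 G p a b c) : Nb3 G p a c b :=
  ⟨h.ha, h.hc, h.hb, h.ac, h.ab, h.bc.symm, fun w hw => by
    rcases h.all w hw with h | h | h <;> simp [h]⟩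

/-- All entries of the table are correct. -/
def TabOk (G : SimpleGraph V) (f : ℕ → V) (N : List (ℕ × ℕ × ℕ × ℕ)) : Prop :=
  ∀ e ∈ N, Nb3 G (f e.1) (f e.2.1) (f e.2.2.1) (f e.2.2.2)

/-- The list is a permutation of the three labels. -/
def isPerm3 (l : List ℕ) (a b c : ℕ) : Bool :=
  l == [a, b, c] || l == [a, c, b] || l == [b, a, c] || l == [b, c, a] || l == [c, a, b] ||
    l == [c, b, a]

/-- The check of a table. -/
def chk (ed : List (ℕ × ℕ)) (I : List ℕ) (N : List (ℕ × ℕ × ℕ × ℕ)) : Bool :=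
  (I.all fun i => N.any fun e => e.1 == i && isPerm3 (nbs ed i) e.2.1 e.2.2.1 e.2.2.2) &&
    ed.all fun e => I.contains e.1 || I.contains e.2

theorem mem_nbs {ed : List (ℕ × ℕ)} {i j : ℕ} (h : (i, j) ∈ ed ∨ (j, i) ∈ ed) : j ∈ nbs ed i := by
  unfold nbs
  rw [List.mem_append, List.mem_map, List.mem_map]
  rcases h with h | h
  · exact Or.inl ⟨(i, j), List.mem_filter.2 ⟨h, by simp⟩, rfl⟩
  · exact Or.inr ⟨(j, i), List.mem_filter.2 ⟨h, by simp⟩, rfl⟩

/-- **Copies from tables.** -/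
theorem copy_of_tab {f : ℕ → V} {N : List (ℕ × ℕ × ℕ × ℕ)} (h : TabOk G f N)
    {ed : List (ℕ × ℕ)} {I : List ℕ} (hc : chk ed I N = true) :
    Copy G ed I f ∧ ∀ i ∈ I, ∀ w, G.Adj (f i) w → ∃ j ∈ nbs ed i, w = f j := by
  unfold chk at hc
  rw [Bool.and_eq_true, List.all_eq_true, List.all_eq_true] at hc
  obtain ⟨h1, h2⟩ := hc
  have key : ∀ i ∈ I, ∃ a b c, nbs ed i = [a, b, c] ∧ Nb3 G (f i) (f a) (f b) (f c) := by
    intro i hi
    have h3 := h1 i hi
    rw [List.any_eq_true] at h3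
    obtain ⟨⟨i', a, b, c⟩, h4, h5⟩ := h3
    rw [Bool.and_eq_true] at h5
    have h6 : i' = i := by simpa using h5.1
    subst h6
    have h7 := h _ h4
    have h8 := h5.2
    unfold isPerm3 at h8
    simp only [Bool.or_eq_true, beq_iff_eq] at h8
    rcases h8 with ((((h8 | h8) | h8) | h8) | h8) | h8
    · exact ⟨_, _, _, h8, h7⟩
    · exact ⟨_, _, _, h8, h7.s23⟩
    · exact ⟨_, _, _, h8, h7.s12⟩
    · exact ⟨_, _, _, h8, h7.s12.s23⟩
    · exact ⟨_, _, _, h8, h7.s23.s12⟩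
    · exact ⟨_, _, _, h8, h7.s23.s12.s23⟩
  refine ⟨⟨?_, ?_⟩, ?_⟩
  · rintro ⟨i, j⟩ he
    have h3 := h2 _ he
    rw [Bool.or_eq_true] at h3
    have adj : ∀ i j, i ∈ I → j ∈ nbs ed i → G.Adj (f i) (f j) := by
      intro i j hi hj
      obtain ⟨a, b, c, h4, h5⟩ := key i hi
      rw [h4] at hj
      simp only [List.mem_cons, List.not_mem_nil, or_false] at hj
      rcases hj with rfl | rfl | rfl
      · exact h5.ha
      · exact h5.hb
      · exact h5.hc
    rcases h3 with h3 | h3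
    · exact adj i j (by simpa using h3) (mem_nbs (Or.inl he))
    · exact (adj j i (by simpa using h3) (mem_nbs (Or.inr he))).symm
  · intro i hi e he
    obtain ⟨a, b, c, h4, h5⟩ := key i hi
    rw [h4] at he
    simp only [pairs, List.map_cons, List.map_nil, List.cons_append, List.nil_append,
      List.mem_cons, List.not_mem_nil, or_false] at he
    rcases he with rfl | rfl | rfl
    · exact h5.ab
    · exact h5.ac
    · exact h5.bc
  · intro i hi w hw
    obtain ⟨a, b, c, h4, h5⟩ := key i hi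
    rw [h4]
    rcases h5.all w hw with rfl | rfl | rfl
    · exact ⟨a, by simp, rfl⟩
    · exact ⟨b, by simp, rfl⟩
    · exact ⟨c, by simp, rfl⟩

end tables

variable {V : Type} [Fintype V] [DecidableEq V] {G : SimpleGraph V} [DecidableRel G.Adj]
variable {R : Rot G} {d : G.Dart} {L : ℕ}

/-- The neighbours of a vertex of a face. -/
theorem Good.nb3 (h : Good R d L) (hL : 1 < L) (n : ℕ) :
    Nb3 G (X R d n) (X R d (n + 1)) (X R d (n + (L - 1))) (Y R d n) := by
  obtain ⟨⟨h1, h2, h3⟩, h4⟩ := h.three (by omega) n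
  refine ⟨h.adjX n, ?_, h.adjY n, h1, h2.symm, h3.symm, h4⟩
  have := h.adjX (n + (L - 1))
  have e : n + (L - 1) + 1 = n + L := by omega
  rw [e] at this
  have e2 : X R d (n + L) = X R d n := by unfold X; rw [h.pow_add]
  rw [e2] at this
  exact this.symm

/-- The five vertices of a face of length five. -/
theorem Good.stars5 (h : Good R d 5) :
    Nb3 G (X R d 0) (X R d 1) (X R d 4) (Y R d 0) ∧
    Nb3 G (X R d 1) (X R d 2) (X R d 0) (Y R d 1) ∧
    Nb3 G (X R d 2) (X R d 3) (X R d 1) (Y R d 2) ∧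
    Nb3 G (X R d 3) (X R d 4) (X R d 2) (Y R d 3) ∧
    Nb3 G (X R d 4) (X R d 0) (X R d 3) (Y R d 4) := by
  have h5 : X R d 5 = X R d 0 := h.X_mod 5
  have h6 : X R d 6 = X R d 1 := h.X_mod 6
  have h7 : X R d 7 = X R d 2 := h.X_mod 7
  have h8 : X R d 8 = X R d 3 := h.X_mod 8
  have n0 := h.nb3 (by norm_num) 0
  have n1 := h.nb3 (by norm_num) 1
  have n2 := h.nb3 (by norm_num) 2
  have n3 := h.nb3 (by norm_num) 3
  have n4 := h.nb3 (by norm_num) 4
  norm_num only at n0 n1 n2 n3 n4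
  rw [h5] at n1 n4
  rw [h6] at n2
  rw [h7] at n3
  rw [h8] at n4
  exact ⟨n0, n1, n2, n3, n4⟩

/-- The four vertices of a face of length four. -/
theorem Good.stars4 (h : Good R d 4) :
    Nb3 G (X R d 0) (X R d 1) (X R d 3) (Y R d 0) ∧
    Nb3 G (X R d 1) (X R d 2) (X R d 0) (Y R d 1) ∧
    Nb3 G (X R d 2) (X R d 3) (X R d 1) (Y R d 2) ∧
    Nb3 G (X R d 3) (X R d 0) (X R d 2) (Y R d 3) := by
  have h5 : X R d 4 = X R d 0 := h.X_mod 4
  have h6 : X R d 5 = X R d 1 := h.X_mod 5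
  have h7 : X R d 6 = X R d 2 := h.X_mod 6
  have n0 := h.nb3 (by norm_num) 0
  have n1 := h.nb3 (by norm_num) 1
  have n2 := h.nb3 (by norm_num) 2
  have n3 := h.nb3 (by norm_num) 3
  norm_num only at n0 n1 n2 n3
  rw [h5] at n1 n3
  rw [h6] at n2
  rw [h7] at n3
  exact ⟨n0, n1, n2, n3⟩

/-! ## Two adjacent faces of length five -/

/-- The labels of two adjacent faces of length five, across the dart `d`: terminals `0, …, 5`,
interior `6, …, 13`. -/
def f55 (R : Rot G) (d : G.Dart) (n : ℕ) : V :=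
  [Y R (ac R d 0) 4, Y R d 2, Y R d 3, Y R d 4, Y R (ac R d 0) 2, Y R (ac R d 0) 3,
    X R (ac R d 0) 4, X R d 1, X R d 2, X R d 3, X R d 4, X R d 0, X R (ac R d 0) 2,
    X R (ac R d 0) 3].getD n (X R d 0)

/-- The table of two adjacent faces of length five. -/
def t55 : List (ℕ × ℕ × ℕ × ℕ) :=
  [(6, 7, 13, 0), (7, 8, 11, 6), (8, 9, 7, 1), (9, 10, 8, 2), (10, 11, 9, 3), (11, 7, 10, 12),
    (12, 13, 11, 4), (13, 6, 12, 5)]

theorem tab55 (h : Good R d 5) (h' : Good R (ac R d 0) 5) : TabOk G (f55 R d) t55 := by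
  obtain ⟨a0, a1, a2, a3, a4⟩ := h.stars5
  obtain ⟨b0, b1, b2, b3, b4⟩ := h'.stars5
  have e0 : X R (ac R d 0) 0 = X R d 1 := ac_X0 R d 0
  have e1 : X R (ac R d 0) 1 = X R d 0 := ac_X1 R d 0
  have e2 : X R (ac R d 0) 2 = Y R d 0 := ac_X2 R d 0
  have e4 : X R (ac R d 0) 4 = Y R d 1 := h.ac_last 0 h' (by norm_num)
  rw [← e2] at a0
  rw [← e4] at a1
  rw [e1] at b2
  rw [e0] at b4
  intro e he
  simp only [t55, List.mem_cons, List.not_mem_nil, or_false] at he
  rcases he with rfl | rfl | rfl | rfl | rfl | rfl | rfl | rfl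
  · exact b4
  · exact a1
  · exact a2
  · exact a3
  · exact a4
  · exact a0
  · exact b2
  · exact b3

/-! ## Three faces of length five along a face -/

/-- The labels of a face of length five (dart `m`) and the faces of length five across its edges
`0` and `2`: terminals `0, …, 6`, interior `7, …, 17`. -/
def fc3 (R : Rot G) (m : G.Dart) (n : ℕ) : V :=
  [Y R m 4, Y R (ac R m 0) 2, Y R (ac R m 0) 3, Y R (ac R m 0) 4, Y R (ac R m 2) 2,
    Y R (ac R m 2) 3, Y R (ac R m 2) 4, X R m 4, X R m 0, X R (ac R m 0) 2, X R (ac R m 0) 3,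
    X R (ac R m 0) 4, X R m 1, X R m 2, X R (ac R m 2) 2, X R (ac R m 2) 3, X R (ac R m 2) 4,
    X R m 3].getD n (X R m 0)

/-- The table. -/
def tc3 : List (ℕ × ℕ × ℕ × ℕ) :=
  [(7, 8, 17, 0), (8, 12, 7, 9), (9, 10, 8, 1), (10, 11, 9, 2), (11, 12, 10, 3), (12, 13, 8, 11),
    (13, 17, 12, 14), (14, 15, 13, 4), (15, 16, 14, 5), (16, 17, 15, 6), (17, 7, 13, 16)]

theorem tabc3 {m : G.Dart} (h : Good R m 5) (h0 : Good R (ac R m 0) 5)
    (h2 : Good R (ac R m 2) 5) : TabOk G (fc3 R m) tc3 := by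
  obtain ⟨a0, a1, a2, a3, a4⟩ := h.stars5
  obtain ⟨b0, b1, b2, b3, b4⟩ := h0.stars5
  obtain ⟨c0, c1, c2, c3, c4⟩ := h2.stars5
  have e0 : X R (ac R m 0) 0 = X R m 1 := ac_X0 R m 0
  have e1 : X R (ac R m 0) 1 = X R m 0 := ac_X1 R m 0
  have e2 : X R (ac R m 0) 2 = Y R m 0 := ac_X2 R m 0
  have e4 : X R (ac R m 0) 4 = Y R m 1 := h.ac_last 0 h0 (by norm_num)
  have g0 : X R (ac R m 2) 0 = X R m 3 := ac_X0 R m 2
  have g1 : X R (ac R m 2) 1 = X R m 2 := ac_X1 R m 2
  have g2 : X R (ac R m 2) 2 = Y R m 2 := ac_X2 R m 2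
  have g4 : X R (ac R m 2) 4 = Y R m 3 := h.ac_last 2 h2 (by norm_num)
  rw [← e2] at a0
  rw [← e4] at a1
  rw [← g2] at a2
  rw [← g4] at a3
  rw [e1] at b2
  rw [e0] at b4
  rw [g1] at c2
  rw [g0] at c4
  intro e he
  simp only [tc3, List.mem_cons, List.not_mem_nil, or_false] at he
  rcases he with rfl | rfl | rfl | rfl | rfl | rfl | rfl | rfl | rfl | rfl | rfl
  · exact a4
  · exact a0
  · exact b2
  · exact b3
  · exact b4
  · exact a1
  · exact a2
  · exact c2
  · exact c3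
  · exact c4
  · exact a3

/-! ## A face of length five surrounded by faces of length five -/

/-- The labels: terminals `0, …, 4`, the inner face `5, …, 9`, its third neighbours `10, …, 14`,
the outer vertices with terminals `15, …, 19`. -/
def ffl (R : Rot G) (d : G.Dart) (n : ℕ) : V :=
  [Y R (ac R d 0) 3, Y R (ac R d 1) 3, Y R (ac R d 2) 3, Y R (ac R d 3) 3, Y R (ac R d 4) 3,
    X R d 0, X R d 1, X R d 2, X R d 3, X R d 4, Y R d 0, Y R d 1, Y R d 2, Y R d 3, Y R d 4,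
    X R (ac R d 0) 3, X R (ac R d 1) 3, X R (ac R d 2) 3, X R (ac R d 3) 3,
    X R (ac R d 4) 3].getD n (X R d 0)

/-- The table. -/
def tfl : List (ℕ × ℕ × ℕ × ℕ) :=
  [(5, 6, 9, 10), (6, 7, 5, 11), (7, 8, 6, 12), (8, 9, 7, 13), (9, 5, 8, 14),
    (10, 15, 5, 19), (11, 16, 6, 15), (12, 17, 7, 16), (13, 18, 8, 17), (14, 19, 9, 18),
    (15, 11, 10, 0), (16, 12, 11, 1), (17, 13, 12, 2), (18, 14, 13, 3), (19, 10, 14, 4)]

theorem tabfl (h : Good R d 5) (g : ∀ n, n < 5 → Good R (ac R d n) 5) :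
    TabOk G (ffl R d) tfl := by
  obtain ⟨a0, a1, a2, a3, a4⟩ := h.stars5
  have x5 : X R d 5 = X R d 0 := h.X_mod 5
  have y5 : Y R d 5 = Y R d 0 := h.Y_mod 5
  have p5 : ac R d 5 = ac R d 0 := ac_per h 0
  -- the vertices of the outer faces
  have hw : ∀ n, n < 5 → Nb3 G (Y R d n) (X R (ac R d n) 3) (X R d n) (Y R (ac R d n) 2) := by
    intro n hn
    have := (g n hn).stars5.2.2.1
    rw [ac_X2, ac_X1] at this
    exact this
  have hm : ∀ n, n < 5 → Nb3 G (X R (ac R d n) 3) (Y R d (n + 1)) (Y R d n)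
      (Y R (ac R d n) 3) := by
    intro n hn
    have := (g n hn).stars5.2.2.2.1
    have e4 : X R (ac R d n) 4 = Y R d (n + 1) := h.ac_last n (g n hn) (by norm_num)
    rw [ac_X2, e4] at this
    exact this
  have hy : ∀ n, n < 5 → Y R (ac R d (n + 1)) 2 = X R (ac R d n) 3 := fun n hn =>
    h.ac_Y2 n (g n hn) (by norm_num)
  have w0 := hw 0 (by norm_num)
  have w1 := hw 1 (by norm_num)
  have w2 := hw 2 (by norm_num)
  have w3 := hw 3 (by norm_num)
  have w4 := hw 4 (by norm_num)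
  have m0 := hm 0 (by norm_num)
  have m1 := hm 1 (by norm_num)
  have m2 := hm 2 (by norm_num)
  have m3 := hm 3 (by norm_num)
  have m4 := hm 4 (by norm_num)
  have y0 := hy 0 (by norm_num)
  have y1 := hy 1 (by norm_num)
  have y2 := hy 2 (by norm_num)
  have y3 := hy 3 (by norm_num)
  have y4 := hy 4 (by norm_num)
  norm_num only at m0 m1 m2 m3 m4 y0 y1 y2 y3 y4
  rw [p5] at y4
  rw [y4] at w0
  rw [y0] at w1
  rw [y1] at w2
  rw [y2] at w3
  rw [y3] at w4
  rw [y5] at m4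
  intro e he
  simp only [tfl, List.mem_cons, List.not_mem_nil, or_false] at he
  rcases he with rfl | rfl | rfl | rfl | rfl | rfl | rfl | rfl | rfl | rfl | rfl | rfl | rfl |
    rfl | rfl
  · exact a0
  · exact a1
  · exact a2
  · exact a3
  · exact a4
  · exact w0
  · exact w1
  · exact w2
  · exact w3
  · exact w4
  · exact m0
  · exact m1
  · exact m2
  · exact m3
  · exact m4

/-! ## Two faces of length five joined by an edge -/

/-- The labels: terminals `0, …, 3` (third neighbours of the vertices `1, …, 4` of the first face),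
`4, …, 7` (the same for the second face), interior `8, …, 12` and `13, …, 17`. -/
def fd5 (R : Rot G) (d : G.Dart) (n : ℕ) : V :=
  [Y R d 1, Y R d 2, Y R d 3, Y R d 4, Y R (opp R d) 1, Y R (opp R d) 2, Y R (opp R d) 3,
    Y R (opp R d) 4, X R d 0, X R d 1, X R d 2, X R d 3, X R d 4, X R (opp R d) 0,
    X R (opp R d) 1, X R (opp R d) 2, X R (opp R d) 3, X R (opp R d) 4].getD n (X R d 0)

/-- The table. -/
def td5 : List (ℕ × ℕ × ℕ × ℕ) :=
  [(8, 9, 12, 13), (9, 10, 8, 0), (10, 11, 9, 1), (11, 12, 10, 2), (12, 8, 11, 3),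
    (13, 14, 17, 8), (14, 15, 13, 4), (15, 16, 14, 5), (16, 17, 15, 6), (17, 13, 16, 7)]

theorem tabd5 (h : Good R d 5) (h' : Good R (opp R d) 5) : TabOk G (fd5 R d) td5 := by
  obtain ⟨a0, a1, a2, a3, a4⟩ := h.stars5
  obtain ⟨b0, b1, b2, b3, b4⟩ := h'.stars5
  rw [← opp_X0] at a0
  rw [opp_Y0 h'] at b0
  intro e he
  simp only [td5, List.mem_cons, List.not_mem_nil, or_false] at he
  rcases he with rfl | rfl | rfl | rfl | rfl | rfl | rfl | rfl | rfl | rfl
  · exact a0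
  · exact a1
  · exact a2
  · exact a3
  · exact a4
  · exact b0
  · exact b1
  · exact b2
  · exact b3
  · exact b4

end Pool.Agent.T1FF
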