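import Mathlib
import Pool.Agent.Work.MP_392c8e_co_t1.Apply
import Pool.Agent.Work.MP_392c8e_co_t1.Maps

/-!
# A labelled cluster with a checked reducer does not occur

The labels are those of the reducer: terminals and new vertices below `t`, interior vertices
`t, …, t + m - 1`.  All interior vertices have degree three.
-/

namespace Pool.Agent.T1Red

open Pool.Agent.Red (Pl MinCex StrictCol)
open Pool.T1Side Pool.Agent.T1FF

/-- The interior labels. -/
def Red.int (R : Red) : List ℕ := (List.range R.m).map (· + R.t)

theorem Red.mem_int {R : Red} {i : ℕ} : i ∈ R.int ↔ R.t ≤ i ∧ i < R.t + R.m := by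
  unfold Red.int
  rw [List.mem_map]
  constructor
  · rintro ⟨a, ha, rfl⟩
    rw [List.mem_range] at ha
    omega
  · rintro ⟨h1, h2⟩
    exact ⟨i - R.t, List.mem_range.2 (by omega), by omega⟩

/-- All pairs of vertices of the configuration are different or allowed to be equal. -/
def Red.neB (R : Red) (nl co ne : List (ℕ × ℕ)) : Bool :=
  (pairs (List.range (R.t + R.m))).all fun e =>
    (nl.any fun p => p.1 == e.1 || p.1 == e.2) || has co e.1 e.2 || has ne e.1 e.2

/-- The check of the side conditions. -/
def Red.side (R : Red) (A B : ℕ → ℕ → Bool) (nl co com bad : List (ℕ × ℕ)) (ts : List Step)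
    (N : List (ℕ × ℕ × ℕ × ℕ)) : Bool :=
  chk R.ed R.int N && match St.run A B R.int ts (St.start R.ed R.int) with
  | none => false
  | some s => R.neB nl co s.ne && (com.all fun e => has s.cn e.1 e.2) &&
      (bad.all fun e => has s.na e.1 e.2)

variable {V : Type} [Fintype V] [DecidableEq V] {G : SimpleGraph V} {R : Red}
  {nl : List (ℕ × ℕ)} {ps : List (ℕ × List ℕ × ℕ)} {co com bad : List (ℕ × ℕ)}

/-- **A cluster with a checked reducer does not occur in a minimal counterexample.**  The pairs
`com1` have no common neighbour by the check and the pairs `com2` by hypothesis. -/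
theorem Red.kill' (hmin : MinCex G) {A B : ℕ → ℕ → Bool} (hG : Rules G A B) (h : R.Ext co)
    {com1 com2 : List (ℕ × ℕ)} (hd : Data R nl ps [] co (com1 ++ com2) bad) {ts : List Step}
    {N : List (ℕ × ℕ × ℕ × ℕ)} {f : ℕ → V} (hN : TabOk G f N)
    (hs : R.side A B nl co com1 bad ts N = true)
    (h2 : ∀ p ∈ com2, ∀ w, (∀ k ∈ R.int, w ≠ f k) → G.Adj (f p.1) w → G.Adj (f p.2) w → False) :
    False := by
  rename' h2 => hcom
  unfold Red.side at hs
  rw [Bool.and_eq_true] at hs
  obtain ⟨h1, h2⟩ := hs
  obtain ⟨hc, hn⟩ := copy_of_tab hN h1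
  split at h2
  · exact absurd h2 (by simp)
  · rename_i s hrun
    have hok : s.Ok G R.int f := St.Ok.run hG ts _ s hc.start hrun
    rw [Bool.and_eq_true, Bool.and_eq_true, List.all_eq_true, List.all_eq_true] at h2
    obtain ⟨⟨h3, h4⟩, h5⟩ := h2
    refine Red.no_conf hmin h hd f ?_ (fun e he _ _ => hc.adj e he) ?_ ?_ ?_
    · have key : ∀ i j, Real R nl [] i → Real R nl [] j → i < j → f i = f j →
          Same co i j := by
        intro i j hi hj hij hf
        unfold Red.neB at h3
        rw [List.all_eq_true] at h3
        have h6 := h3 (i, j) (mem_pairs List.pairwise_lt_range (List.mem_range.2 hi.1)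
          (List.mem_range.2 hj.1) hij)
        rw [Bool.or_eq_true, Bool.or_eq_true] at h6
        rcases h6 with (h6 | h6) | h6
        · exfalso
          rw [List.any_eq_true] at h6
          obtain ⟨p, hp, h7⟩ := h6
          simp only [Bool.or_eq_true, beq_iff_eq] at h7
          rcases h7 with h7 | h7
          · exact hi.2.2 p hp h7
          · exact hj.2.2 p hp h7
        · exact Or.inr (has_spec h6)
        · exact absurd hf (hok.ne h6)
      intro i j hi hj hf
      rcases lt_trichotomy i j with h6 | h6 | h6
      · exact key i j hi hj h6 hf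
      · exact Or.inl h6
      · exact (key j i hj hi h6 hf.symm).symm
    · intro i hi hi' w hw
      obtain ⟨j, hj, rfl⟩ := hn i (Red.mem_int.2 ⟨hi, hi'⟩) w hw
      refine ⟨j, ?_, by simp, rfl⟩
      unfold nbs at hj
      rw [List.mem_append, List.mem_map, List.mem_map] at hj
      rcases hj with ⟨e, he, rfl⟩ | ⟨e, he, rfl⟩
      · rw [List.mem_filter] at he
        obtain ⟨h7, h8⟩ := he
        have h9 : e.1 = i := by simpa using h8
        subst h9
        exact Or.inl h7
      · rw [List.mem_filter] at he
        obtain ⟨h7, h8⟩ := he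
        have h9 : e.2 = i := by simpa using h8
        subst h9
        exact Or.inr h7
    · intro p hp w hw hpw
      have h9 : ∀ k ∈ R.int, w ≠ f k := by
        rintro k hk rfl
        obtain ⟨h7, h8⟩ := Red.mem_int.1 hk
        exact hw ⟨k, h7, h8, rfl⟩
      rcases List.mem_append.1 hp with hp | hp
      · exact hok.cn (h4 p hp) w h9 hpw.1 hpw.2.symm
      · exact hcom p hp w h9 hpw.1 hpw.2.symm
    · intro p hp
      exact hok.na (h5 p hp)

/-- **A cluster with a checked reducer does not occur in a minimal counterexample.** -/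
theorem Red.kill (hmin : MinCex G) {A B : ℕ → ℕ → Bool} (hG : Rules G A B) (h : R.Ext co)
    (hd : Data R nl ps [] co com bad) {ts : List Step} {N : List (ℕ × ℕ × ℕ × ℕ)} {f : ℕ → V}
    (hN : TabOk G f N) (hs : R.side A B nl co com bad ts N = true) : False :=
  Red.kill' hmin hG h (com1 := com) (com2 := []) (by rw [List.append_nil]; exact hd) hN hs
    (fun p hp => by simp at hp)

end Pool.Agent.T1Red
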