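import Mathlib
import Pool.Agent.Work.MP_392c8e_co_t1.Maps
import Pool.Agent.Work.MP_392c8e_co_t1.Apply
import Pool.Agent.Work.MP_392c8e_co_t1.Inst.F55
import Pool.Agent.Work.MP_392c8e_co_t1.Inst.C3

/-!
# Copies of the reducers in terms of darts
-/

namespace Pool.Agent.T1FF

open Pool.Agent.Sub392 Pool.T1Side Pool.Agent.T1Red Pool.Agent.Red

theorem of_mem_nbs {ed : List (ℕ × ℕ)} {i j : ℕ} (h : j ∈ nbs ed i) :
    (i, j) ∈ ed ∨ (j, i) ∈ ed := by
  unfold nbs at h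
  rw [List.mem_append, List.mem_map, List.mem_map] at h
  rcases h with ⟨e, h, rfl⟩ | ⟨e, h, rfl⟩
  · rw [List.mem_filter, beq_iff_eq] at h
    exact Or.inl (h.2 ▸ h.1)
  · rw [List.mem_filter, beq_iff_eq] at h
    exact Or.inr (h.2 ▸ h.1)

/-- The interior labels of a reducer. -/
abbrev II (Q : Red) : List ℕ := List.range' Q.t Q.m

section

variable {V : Type} [Fintype V] [DecidableEq V] {G : SimpleGraph V}

/-- All neighbours of interior vertices are labelled. -/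
def Full (G : SimpleGraph V) (Q : Red) (f : ℕ → V) : Prop :=
  Copy G Q.ed (II Q) f ∧ ∀ i ∈ II Q, ∀ w, G.Adj (f i) w → ∃ j ∈ nbs Q.ed i, w = f j

/-- **A reducible configuration with all terminals does not occur in a minimal
counterexample** (general form: new vertices `nl`, allowed coincidences `co`). -/
theorem no_conf_full (hmin : MinCex G) {Q : Red} {nl : List (ℕ × ℕ)}
    {ps : List (ℕ × List ℕ × ℕ)} {co com bad : List (ℕ × ℕ)} (h : Q.Ext co)
    (hd : Data Q nl ps [] co com bad) {f : ℕ → V} (hf : Full G Q f)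
    (hinj : ∀ i j, Real Q nl [] i → Real Q nl [] j → f i = f j → Same co i j)
    (hC : ∀ e ∈ com, ∀ w, (∀ k ∈ II Q, w ≠ f k) → G.Adj (f e.1) w → G.Adj (f e.2) w → False)
    (hT : ∀ e ∈ bad, ¬ G.Adj (f e.1) (f e.2)) : False := by
  refine Red.no_conf hmin h hd f hinj (fun e he _ _ => hf.1.adj e he) ?_ ?_ hT
  · intro i h1 h2 w hw
    obtain ⟨j, hj, hwj⟩ := hf.2 i (List.mem_range'_1.2 ⟨h1, h2⟩) w hw
    exact ⟨j, of_mem_nbs hj, by simp, hwj⟩
  · rintro p hp w hw ⟨h1, h2⟩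
    refine hC p hp w (fun k hk he => hw ?_) h1 h2.symm
    obtain ⟨h3, h4⟩ := List.mem_range'_1.1 hk
    exact ⟨k, h3, h4, he.symm⟩

/-- **A reducible configuration with all terminals does not occur in a minimal
counterexample** (all labels below `t + m` are different vertices). -/
theorem no_conf_copy (hmin : MinCex G) {Q : Red} {nl : List (ℕ × ℕ)}
    {ps : List (ℕ × List ℕ × ℕ)} {com bad : List (ℕ × ℕ)} (h : Q.Ext [])
    (hd : Data Q nl ps [] [] com bad) {f : ℕ → V} (hf : Full G Q f)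
    (hinj : ∀ i j, i < Q.t + Q.m → j < Q.t + Q.m → f i = f j → i = j)
    (hC : ∀ e ∈ com, ∀ w, (∀ k ∈ II Q, w ≠ f k) → G.Adj (f e.1) w → G.Adj (f e.2) w → False)
    (hT : ∀ e ∈ bad, ¬ G.Adj (f e.1) (f e.2)) : False :=
  no_conf_full hmin h hd hf (fun i j hi hj hij => Or.inl (hinj i j hi.1 hj.1 hij)) hC hT

end

variable {V : Type} [Fintype V] [DecidableEq V] {G : SimpleGraph V} [DecidableRel G.Adj]
variable {R : Rot G} {d : G.Dart} {L : ℕ}

/-! ## The flower -/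

theorem full_Flower (h : Good R d 5) (g : ∀ n, n < 5 → Good R (ac R d n) 5) :
    Full G Flower (ffl R d) :=
  copy_of_tab (tabfl h g) (by decide)

/-! ## Two adjacent pentagons -/

/-- The labels of F55, first orientation; here `x_c` and `y_a` are shortened. -/
def fA (R : Rot G) (d : G.Dart) (n : ℕ) : V :=
  [Y R d 2, Y R d 3, Y R d 4, Y R (ac R d 0) 2, Y R (ac R d 0) 3, Y R (ac R d 0) 4,
    X R d 1, X R d 0, X R d 2, X R d 3, X R d 4,
    X R (ac R d 0) 2, X R (ac R d 0) 3, X R (ac R d 0) 4].getD n (X R d 0)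

/-- The table of the first orientation. -/
def tA1 : List (ℕ × ℕ × ℕ × ℕ) :=
  [(6, 8, 7, 13), (7, 6, 10, 11), (8, 9, 6, 0), (9, 10, 8, 1), (10, 7, 9, 2), (11, 12, 7, 3),
    (12, 13, 11, 4), (13, 6, 12, 5)]

theorem tabA (h : Good R d 5) (h' : Good R (ac R d 0) 5) : TabOk G (fA R d) tA1 := by
  obtain ⟨a0, a1, a2, a3, a4⟩ := h.stars5
  obtain ⟨b0, b1, b2, b3, b4⟩ := h'.stars5
  have e0 : X R (ac R d 0) 0 = X R d 1 := ac_X0 R d 0
  have e1 : X R (ac R d 0) 1 = X R d 0 := ac_X1 R d 0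
  have e2 : X R (ac R d 0) 2 = Y R d 0 := ac_X2 R d 0
  have e4 : X R (ac R d 0) 4 = Y R d 1 := h.ac_last 0 h' (by norm_num)
  rw [← e2] at a0
  rw [← e4] at a1
  rw [e1] at b2
  rw [e0] at b4
  intro e he
  simp only [tA1, List.mem_cons, List.not_mem_nil, or_false] at he
  rcases he with rfl | rfl | rfl | rfl | rfl | rfl | rfl | rfl
  · exact a1
  · exact a0
  · exact a2
  · exact a3
  · exact a4
  · exact b2
  · exact b3
  · exact b4

theorem full_A (h : Good R d 5) (h' : Good R (ac R d 0) 5) : Full G F55 (fA R d) :=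
  copy_of_tab (tabA h h') (by decide)

/-- The labels of F55, second orientation; here `x_a` and `y_c` are shortened. -/
def fA' (R : Rot G) (d : G.Dart) (n : ℕ) : V :=
  [Y R d 4, Y R d 3, Y R d 2, Y R (ac R d 0) 4, Y R (ac R d 0) 3, Y R (ac R d 0) 2,
    X R d 0, X R d 1, X R d 4, X R d 3, X R d 2,
    X R (ac R d 0) 4, X R (ac R d 0) 3, X R (ac R d 0) 2].getD n (X R d 0)

/-- The table of the second orientation. -/
def tA2 : List (ℕ × ℕ × ℕ × ℕ) :=
  [(6, 7, 8, 13), (7, 10, 6, 11), (8, 6, 9, 0), (9, 8, 10, 1), (10, 9, 7, 2), (11, 7, 12, 3),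
    (12, 11, 13, 4), (13, 12, 6, 5)]

theorem tabA' (h : Good R d 5) (h' : Good R (ac R d 0) 5) : TabOk G (fA' R d) tA2 := by
  obtain ⟨a0, a1, a2, a3, a4⟩ := h.stars5
  obtain ⟨b0, b1, b2, b3, b4⟩ := h'.stars5
  have e0 : X R (ac R d 0) 0 = X R d 1 := ac_X0 R d 0
  have e1 : X R (ac R d 0) 1 = X R d 0 := ac_X1 R d 0
  have e2 : X R (ac R d 0) 2 = Y R d 0 := ac_X2 R d 0
  have e4 : X R (ac R d 0) 4 = Y R d 1 := h.ac_last 0 h' (by norm_num)
  rw [← e2] at a0
  rw [← e4] at a1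
  rw [e1] at b2
  rw [e0] at b4
  intro e he
  simp only [tA2, List.mem_cons, List.not_mem_nil, or_false] at he
  rcases he with rfl | rfl | rfl | rfl | rfl | rfl | rfl | rfl
  · exact a0
  · exact a1
  · exact a4
  · exact a3
  · exact a2
  · exact b4
  · exact b3
  · exact b2

theorem full_A' (h : Good R d 5) (h' : Good R (ac R d 0) 5) : Full G F55 (fA' R d) :=
  copy_of_tab (tabA' h h') (by decide)

/-! ## Chains of three pentagons -/

/-- The labels of C3 for the chain of the faces of `d`, `e = ac d 0` and `ac e 3`. -/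
def fB (R : Rot G) (d : G.Dart) (n : ℕ) : V :=
  [Y R d 2, Y R d 3, Y R d 4, Y R (ac R d 0) 2, Y R (ac R (ac R d 0) 3) 2,
    Y R (ac R (ac R d 0) 3) 3, Y R (ac R (ac R d 0) 3) 4,
    X R d 2, X R d 1, X R (ac R d 0) 4, X R (ac R (ac R d 0) 3) 4,
    X R d 3, X R d 0, X R (ac R d 0) 3, X R (ac R (ac R d 0) 3) 3,
    X R d 4, X R (ac R d 0) 2, X R (ac R (ac R d 0) 3) 2].getD n (X R d 0)

/-- The table of C3. -/
def tC : List (ℕ × ℕ × ℕ × ℕ) :=
  [(7, 11, 8, 0), (8, 7, 12, 9), (9, 8, 13, 10), (10, 9, 14, 6), (11, 15, 7, 1), (12, 8, 15, 16),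
    (13, 9, 16, 17), (14, 10, 17, 5), (15, 12, 11, 2), (16, 13, 12, 3), (17, 14, 13, 4)]

theorem tabB (h : Good R d 5) (h' : Good R (ac R d 0) 5)
    (h'' : Good R (ac R (ac R d 0) 3) 5) : TabOk G (fB R d) tC := by
  obtain ⟨a0, a1, a2, a3, a4⟩ := h.stars5
  obtain ⟨b0, b1, b2, b3, b4⟩ := h'.stars5
  obtain ⟨c0, c1, c2, c3, c4⟩ := h''.stars5
  have e0 : X R (ac R d 0) 0 = X R d 1 := ac_X0 R d 0
  have e1 : X R (ac R d 0) 1 = X R d 0 := ac_X1 R d 0
  have e2 : X R (ac R d 0) 2 = Y R d 0 := ac_X2 R d 0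
  have e4 : X R (ac R d 0) 4 = Y R d 1 := h.ac_last 0 h' (by norm_num)
  have g0 : X R (ac R (ac R d 0) 3) 0 = X R (ac R d 0) 4 := ac_X0 R (ac R d 0) 3
  have g1 : X R (ac R (ac R d 0) 3) 1 = X R (ac R d 0) 3 := ac_X1 R (ac R d 0) 3
  have g2 : X R (ac R (ac R d 0) 3) 2 = Y R (ac R d 0) 3 := ac_X2 R (ac R d 0) 3
  have g4 : X R (ac R (ac R d 0) 3) 4 = Y R (ac R d 0) 4 := h'.ac_last 3 h'' (by norm_num)
  rw [← e2] at a0
  rw [← e4] at a1
  rw [e1] at b2
  rw [← g2] at b3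
  rw [e0, ← g4] at b4
  rw [g1] at c2
  rw [g0] at c4
  intro e he
  simp only [tC, List.mem_cons, List.not_mem_nil, or_false] at he
  rcases he with rfl | rfl | rfl | rfl | rfl | rfl | rfl | rfl | rfl | rfl | rfl
  · exact a2
  · exact a1
  · exact b4
  · exact c4
  · exact a3
  · exact a0
  · exact b3
  · exact c3
  · exact a4
  · exact b2
  · exact c2

theorem full_B (h : Good R d 5) (h' : Good R (ac R d 0) 5)
    (h'' : Good R (ac R (ac R d 0) 3) 5) : Full G C3 (fB R d) :=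
  copy_of_tab (tabB h h' h'') (by decide)

/-- The labels of C3 for the chain of the faces of `e = ac d 0`, `d` and `ac d 2`. -/
def fB' (R : Rot G) (d : G.Dart) (n : ℕ) : V :=
  [Y R (ac R d 0) 4, Y R (ac R d 0) 3, Y R (ac R d 0) 2, Y R d 4, Y R (ac R d 2) 4,
    Y R (ac R d 2) 3, Y R (ac R d 2) 2,
    X R (ac R d 0) 4, X R d 1, X R d 2, X R (ac R d 2) 2,
    X R (ac R d 0) 3, X R d 0, X R d 3, X R (ac R d 2) 3,
    X R (ac R d 0) 2, X R d 4, X R (ac R d 2) 4].getD n (X R d 0)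

/-- The table of C3, second orientation. -/
def tC' : List (ℕ × ℕ × ℕ × ℕ) :=
  [(7, 8, 11, 0), (8, 9, 12, 7), (9, 13, 8, 10), (10, 14, 9, 6), (11, 7, 15, 1), (12, 8, 16, 15),
    (13, 16, 9, 17), (14, 17, 10, 5), (15, 11, 12, 2), (16, 12, 13, 3), (17, 13, 14, 4)]

theorem tabB' (h : Good R d 5) (h' : Good R (ac R d 0) 5)
    (h'' : Good R (ac R d 2) 5) : TabOk G (fB' R d) tC' := by
  obtain ⟨a0, a1, a2, a3, a4⟩ := h.stars5
  obtain ⟨b0, b1, b2, b3, b4⟩ := h'.stars5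
  obtain ⟨c0, c1, c2, c3, c4⟩ := h''.stars5
  have e0 : X R (ac R d 0) 0 = X R d 1 := ac_X0 R d 0
  have e1 : X R (ac R d 0) 1 = X R d 0 := ac_X1 R d 0
  have e2 : X R (ac R d 0) 2 = Y R d 0 := ac_X2 R d 0
  have e4 : X R (ac R d 0) 4 = Y R d 1 := h.ac_last 0 h' (by norm_num)
  have g0 : X R (ac R d 2) 0 = X R d 3 := ac_X0 R d 2
  have g1 : X R (ac R d 2) 1 = X R d 2 := ac_X1 R d 2
  have g2 : X R (ac R d 2) 2 = Y R d 2 := ac_X2 R d 2
  have g4 : X R (ac R d 2) 4 = Y R d 3 := h.ac_last 2 h'' (by norm_num)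
  rw [← e2] at a0
  rw [← e4] at a1
  rw [← g2] at a2
  rw [← g4] at a3
  rw [e1] at b2
  rw [e0] at b4
  rw [g1] at c2
  rw [g0] at c4
  intro e he
  simp only [tC', List.mem_cons, List.not_mem_nil, or_false] at he
  rcases he with rfl | rfl | rfl | rfl | rfl | rfl | rfl | rfl | rfl | rfl | rfl
  · exact b4
  · exact a1
  · exact a2
  · exact c2
  · exact b3
  · exact a0
  · exact a3
  · exact c3
  · exact b2
  · exact a4
  · exact c4

theorem full_B' (h : Good R d 5) (h' : Good R (ac R d 0) 5)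
    (h'' : Good R (ac R d 2) 5) : Full G C3 (fB' R d) :=
  copy_of_tab (tabB' h h' h'') (by decide)

end Pool.Agent.T1FF
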