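import Mathlib
import Pool.Agent.Work.MP_392c8e_co_t1.Maps2
import Pool.Agent.Work.MP_392c8e_co_t1.Inst.Four
import Pool.Agent.Work.MP_392c8e_co_t1.Inst.C545
import Pool.Agent.Work.MP_392c8e_co_t1.Inst.More

/-!
# Copies of the reducers with faces of length four in terms of darts
-/

namespace Pool.Agent.T1FF

open Pool.Agent.Sub392 Pool.T1Side Pool.Agent.T1Red Pool.Agent.Red

variable {V : Type} [Fintype V] [DecidableEq V] {G : SimpleGraph V} [DecidableRel G.Adj]
variable {R : Rot G} {d : G.Dart}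

/-! ## Two adjacent faces of length four -/

/-- The labels of F44; the labels of the new vertices have no meaning. -/
def f44 (R : Rot G) (d : G.Dart) (n : ℕ) : V :=
  [Y R d 2, Y R d 3, Y R (ac R d 0) 2, Y R (ac R d 0) 3, X R d 0, X R d 0, X R d 0, X R d 0,
    X R d 2, X R d 3, X R d 0, X R d 1, X R (ac R d 0) 2, X R (ac R d 0) 3].getD n (X R d 0)

/-- The table. -/
def t44 : List (ℕ × ℕ × ℕ × ℕ) :=
  [(8, 9, 11, 0), (9, 10, 8, 1), (10, 11, 9, 12), (11, 8, 10, 13), (12, 13, 10, 2),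
    (13, 11, 12, 3)]

theorem tab44 (h : Good R d 4) (h' : Good R (ac R d 0) 4) : TabOk G (f44 R d) t44 := by
  obtain ⟨a0, a1, a2, a3⟩ := h.stars4
  obtain ⟨b0, b1, b2, b3⟩ := h'.stars4
  have e0 : X R (ac R d 0) 0 = X R d 1 := ac_X0 R d 0
  have e1 : X R (ac R d 0) 1 = X R d 0 := ac_X1 R d 0
  have e2 : X R (ac R d 0) 2 = Y R d 0 := ac_X2 R d 0
  have e4 : X R (ac R d 0) 3 = Y R d 1 := h.ac_last 0 h' (by norm_num)
  rw [← e2] at a0
  rw [← e4] at a1
  rw [e1] at b2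
  rw [e0] at b3
  intro e he
  simp only [t44, List.mem_cons, List.not_mem_nil, or_false] at he
  rcases he with rfl | rfl | rfl | rfl | rfl | rfl
  · exact a2
  · exact a3
  · exact a0
  · exact a1
  · exact b2
  · exact b3

theorem full_F44 (h : Good R d 4) (h' : Good R (ac R d 0) 4) : Full G F44 (f44 R d) :=
  copy_of_tab (tab44 h h') (by decide)

/-! ## A face of length four and a face of length five -/

/-- The labels of F45. -/
def f45 (R : Rot G) (d : G.Dart) (n : ℕ) : V :=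
  [Y R d 2, Y R d 3, Y R (ac R d 0) 2, Y R (ac R d 0) 3, Y R (ac R d 0) 4, X R d 0, X R d 0,
    X R d 2, X R d 3, X R d 0, X R d 1, X R (ac R d 0) 2, X R (ac R d 0) 3,
    X R (ac R d 0) 4].getD n (X R d 0)

/-- The table. -/
def t45 : List (ℕ × ℕ × ℕ × ℕ) :=
  [(7, 8, 10, 0), (8, 9, 7, 1), (9, 10, 8, 11), (10, 7, 9, 13), (11, 12, 9, 2),
    (12, 13, 11, 3), (13, 10, 12, 4)]

theorem tab45 (h : Good R d 4) (h' : Good R (ac R d 0) 5) : TabOk G (f45 R d) t45 := by
  obtain ⟨a0, a1, a2, a3⟩ := h.stars4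
  obtain ⟨b0, b1, b2, b3, b4⟩ := h'.stars5
  have e0 : X R (ac R d 0) 0 = X R d 1 := ac_X0 R d 0
  have e1 : X R (ac R d 0) 1 = X R d 0 := ac_X1 R d 0
  have e2 : X R (ac R d 0) 2 = Y R d 0 := ac_X2 R d 0
  have e4 : X R (ac R d 0) 4 = Y R d 1 := h.ac_last 0 h' (by norm_num)
  rw [← e2] at a0
  rw [← e4] at a1
  rw [e1] at b2
  rw [e0] at b4
  intro e he
  simp only [t45, List.mem_cons, List.not_mem_nil, or_false] at he
  rcases he with rfl | rfl | rfl | rfl | rfl | rfl | rfl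
  · exact a2
  · exact a3
  · exact a0
  · exact a1
  · exact b2
  · exact b3
  · exact b4

theorem full_F45 (h : Good R d 4) (h' : Good R (ac R d 0) 5) : Full G F45 (f45 R d) :=
  copy_of_tab (tab45 h h') (by decide)

/-! ## A face of length four between two faces of length five -/

/-- The labels of C545. -/
def f545 (R : Rot G) (d : G.Dart) (n : ℕ) : V :=
  [Y R (ac R d 0) 2, Y R (ac R d 0) 3, Y R (ac R d 0) 4, Y R (ac R d 2) 2, Y R (ac R d 2) 3,
    Y R (ac R d 2) 4, X R d 0, X R d 0, X R d 0, X R d 1, X R d 2, X R d 3,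
    X R (ac R d 0) 2, X R (ac R d 0) 3, X R (ac R d 0) 4, X R (ac R d 2) 2, X R (ac R d 2) 3,
    X R (ac R d 2) 4].getD n (X R d 0)

/-- The table. -/
def t545 : List (ℕ × ℕ × ℕ × ℕ) :=
  [(8, 9, 11, 12), (9, 10, 8, 14), (10, 11, 9, 15), (11, 8, 10, 17), (12, 13, 8, 0),
    (13, 14, 12, 1), (14, 9, 13, 2), (15, 16, 10, 3), (16, 17, 15, 4), (17, 11, 16, 5)]

theorem tab545 (h : Good R d 4) (h' : Good R (ac R d 0) 5) (h'' : Good R (ac R d 2) 5) :
    TabOk G (f545 R d) t545 := by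
  obtain ⟨a0, a1, a2, a3⟩ := h.stars4
  obtain ⟨b0, b1, b2, b3, b4⟩ := h'.stars5
  obtain ⟨c0, c1, c2, c3, c4⟩ := h''.stars5
  have e0 : X R (ac R d 0) 0 = X R d 1 := ac_X0 R d 0
  have e1 : X R (ac R d 0) 1 = X R d 0 := ac_X1 R d 0
  have e2 : X R (ac R d 0) 2 = Y R d 0 := ac_X2 R d 0
  have e4 : X R (ac R d 0) 4 = Y R d 1 := h.ac_last 0 h' (by norm_num)
  have g0 : X R (ac R d 2) 0 = X R d 3 := ac_X0 R d 2
  have g1 : X R (ac R d 2) 1 = X R d 2 := ac_X1 R d 2
  have g2 : X R (ac R d 2) 2 = Y R d 2 := ac_X2 R d 2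
  have g4 : X R (ac R d 2) 4 = Y R d 3 := h.ac_last 2 h'' (by norm_num)
  rw [← e2] at a0
  rw [← e4] at a1
  rw [← g2] at a2
  rw [← g4] at a3
  rw [e1] at b2
  rw [e0] at b4
  rw [g1] at c2
  rw [g0] at c4
  intro e he
  simp only [t545, List.mem_cons, List.not_mem_nil, or_false] at he
  rcases he with rfl | rfl | rfl | rfl | rfl | rfl | rfl | rfl | rfl | rfl
  · exact a0
  · exact a1
  · exact a2
  · exact a3
  · exact b2
  · exact b3
  · exact b4
  · exact c2
  · exact c3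
  · exact c4

theorem full_C545 (h : Good R d 4) (h' : Good R (ac R d 0) 5) (h'' : Good R (ac R d 2) 5) :
    Full G C545 (f545 R d) :=
  copy_of_tab (tab545 h h' h'') (by decide)

/-! ## A face of length four surrounded by faces of length five -/

/-- The labels of C4F. -/
def f4F (R : Rot G) (d : G.Dart) (n : ℕ) : V :=
  [Y R (ac R d 0) 3, Y R (ac R d 1) 3, Y R (ac R d 2) 3, Y R (ac R d 3) 3,
    X R d 0, X R d 0, X R d 0, X R d 0, X R d 0, X R d 0,
    X R d 0, X R d 1, X R d 2, X R d 3, Y R d 0, X R (ac R d 0) 3, Y R d 1, X R (ac R d 1) 3,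
    Y R d 2, X R (ac R d 2) 3, Y R d 3, X R (ac R d 3) 3].getD n (X R d 0)

/-- The table. -/
def t4F : List (ℕ × ℕ × ℕ × ℕ) :=
  [(10, 11, 13, 14), (11, 12, 10, 16), (12, 13, 11, 18), (13, 10, 12, 20),
    (14, 15, 10, 21), (16, 17, 11, 15), (18, 19, 12, 17), (20, 21, 13, 19),
    (15, 16, 14, 0), (17, 18, 16, 1), (19, 20, 18, 2), (21, 14, 20, 3)]

theorem tab4F (h : Good R d 4) (g : ∀ n, n < 4 → Good R (ac R d n) 5) :
    TabOk G (f4F R d) t4F := by
  obtain ⟨a0, a1, a2, a3⟩ := h.stars4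
  have y4 : Y R d 4 = Y R d 0 := h.Y_mod 4
  have p4 : ac R d 4 = ac R d 0 := ac_per h 0
  have hw : ∀ n, n < 4 → Nb3 G (Y R d n) (X R (ac R d n) 3) (X R d n) (Y R (ac R d n) 2) := by
    intro n hn
    have := (g n hn).stars5.2.2.1
    rw [ac_X2, ac_X1] at this
    exact this
  have hm : ∀ n, n < 4 → Nb3 G (X R (ac R d n) 3) (Y R d (n + 1)) (Y R d n)
      (Y R (ac R d n) 3) := by
    intro n hn
    have := (g n hn).stars5.2.2.2.1
    have e4 : X R (ac R d n) 4 = Y R d (n + 1) := h.ac_last n (g n hn) (by norm_num)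
    rw [ac_X2, e4] at this
    exact this
  have hy : ∀ n, n < 4 → Y R (ac R d (n + 1)) 2 = X R (ac R d n) 3 := fun n hn =>
    h.ac_Y2 n (g n hn) (by norm_num)
  have w0 := hw 0 (by norm_num)
  have w1 := hw 1 (by norm_num)
  have w2 := hw 2 (by norm_num)
  have w3 := hw 3 (by norm_num)
  have m0 := hm 0 (by norm_num)
  have m1 := hm 1 (by norm_num)
  have m2 := hm 2 (by norm_num)
  have m3 := hm 3 (by norm_num)
  have y0 := hy 0 (by norm_num)
  have y1 := hy 1 (by norm_num)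
  have y2 := hy 2 (by norm_num)
  have y3 := hy 3 (by norm_num)
  norm_num only at m0 m1 m2 m3 y0 y1 y2 y3
  rw [p4] at y3
  rw [y3] at w0
  rw [y0] at w1
  rw [y1] at w2
  rw [y2] at w3
  rw [y4] at m3
  intro e he
  simp only [t4F, List.mem_cons, List.not_mem_nil, or_false] at he
  rcases he with rfl | rfl | rfl | rfl | rfl | rfl | rfl | rfl | rfl | rfl | rfl | rfl
  · exact a0
  · exact a1
  · exact a2
  · exact a3
  · exact w0
  · exact w1
  · exact w2
  · exact w3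
  · exact m0
  · exact m1
  · exact m2
  · exact m3

theorem full_C4F (h : Good R d 4) (g : ∀ n, n < 4 → Good R (ac R d n) 5) :
    Full G C4F (f4F R d) :=
  copy_of_tab (tab4F h g) (by decide)

end Pool.Agent.T1FF
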