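import Mathlib
import Pool.Agent.Work.MP_392c8e_co_t1.Kill
import Pool.Agent.Work.MP_392c8e_co_t1.Stages
import Pool.Agent.Work.MP_392c8e_co_t1.MapFour

/-!
# Faces of length four next to faces of length four or five

Two faces of length four are not adjacent, and a face of length five next to a face of length
four is opposite to another one.
-/

namespace Pool.Agent.T392

open Finset Pool.Agent.Sub392 Pool.T1Side Pool.Agent.T1FF Pool.Agent.T1Red
open Pool.Agent.Red (MinCex)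

set_option linter.unusedSectionVars false
set_option synthInstance.maxSize 200000

/-! ## Certificates -/

/-- The certificate of the side conditions of two adjacent 4-cycles. -/
def steps44 : List Step :=
  [.ne 0 1 (.tri 0 8 9),
  .ne 0 10 (.tri 0 8 9),
  .ne 0 12 (.corner 10 0 8 [9] [11]),
  .ne 0 13 (.tri 8 0 11),
  .ne 1 11 (.tri 9 1 10),
  .ne 1 12 (.tri 9 1 10),
  .ne 1 13 (.corner 9 8 11 [1] [10]),
  .ne 2 3 (.tri 12 2 13),
  .ne 2 8 (.corner 10 9 2 [11] [12]),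
  .ne 2 9 (.tri 2 12 10),
  .ne 2 11 (.tri 2 12 10),
  .ne 3 8 (.tri 11 3 13),
  .ne 3 9 (.corner 3 8 11 [10] [13]),
  .ne 3 10 (.tri 11 3 13),
  .ne 8 12 (.tri 9 8 10),
  .ne 9 13 (.tri 9 11 10),
  .ne 0 2 (.corner 10 9 8 [0, 12] [11]),
  .ne 1 3 (.corner 9 8 11 [10] [13, 1])]

theorem side44 : F44.side A5 (fun _ _ => false) [(4, 8), (5, 9), (6, 13), (7, 12)]
    [(0, 3), (1, 2)] [] [] steps44 t44 = true := by
  decide +kernel

theorem F44_ext' : F44.Ext [(0, 3), (1, 2)] :=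
  Red.ext_of_check check_F44 (by decide)

theorem F44_data' : Data F44 [(4, 8), (5, 9), (6, 13), (7, 12)]
    [(0, [], 8), (8, [], 9), (9, [], 1), (9, [10, 11], 13), (13, [], 3), (13, [], 12),
      (12, [], 2)] [] [(0, 3), (1, 2)] [] [] := by
  constructor <;> decide

/-- The certificate of the side conditions of a 4-cycle next to a 5-cycle. -/
def steps45 : List Step :=
  [.ne 0 1 (.tri 0 8 7),
  .ne 0 4 (.edge 10 7 [0, 13] [8, 9]),
  .ne 0 9 (.tri 0 8 7),
  .ne 0 11 (.corner 9 0 7 [8] [10]),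
  .ne 0 12 (.edge 10 7 [0, 13] [8, 9]),
  .ne 0 13 (.tri 0 10 7),
  .ne 1 2 (.edge 9 8 [1, 11] [7, 10]),
  .ne 1 10 (.tri 1 9 8),
  .ne 1 11 (.tri 1 9 8),
  .ne 1 12 (.edge 9 8 [1, 11] [7, 10]),
  .ne 1 13 (.edge 9 8 [1, 10] [7, 10]),
  .ne 2 3 (.tri 11 2 12),
  .ne 2 4 (.corner 13 2 11 [9, 10] [12]),
  .ne 2 7 (.corner 9 8 2 [10] [11]),
  .ne 2 8 (.tri 2 11 9),
  .ne 2 10 (.tri 2 11 9),
  .ne 2 13 (.tri 11 2 12),
  .ne 3 4 (.tri 12 3 13),
  .ne 3 7 (.edge 10 3 [8, 9] [12, 13]),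
  .ne 3 8 (.edge 9 3 [12, 11] [7, 10]),
  .ne 3 9 (.tri 11 3 12),
  .ne 3 10 (.tri 12 3 13),
  .ne 4 7 (.tri 4 13 10),
  .ne 4 8 (.edge 9 10 [13, 4] [7, 4]),
  .ne 4 9 (.tri 4 13 10),
  .ne 4 11 (.tri 4 12 13),
  .ne 7 11 (.tri 9 7 10),
  .ne 7 12 (.tri 7 13 10),
  .ne 8 12 (.tri 8 11 9),
  .ne 8 13 (.tri 9 8 10),
  .na 2 4 (.corner 13 12 11 [9, 10] [2, 4]),
  .ne 0 2 (.corner 9 8 7 [0, 11] [10]),
  .ne 0 3 (.corner 9 8 7 [0, 12, 11] [10]),
  .ne 1 3 (.corner 9 11 12 [1, 8] [13, 10]),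
  .ne 1 4 (.corner 10 9 8 [1, 13] [7])]

theorem side45 : F45.side A6 B6 [(5, 13), (6, 12)] [] [] [(2, 4)] steps45 t45 = true := by
  decide +kernel

theorem F45_ext' : F45.Ext [] :=
  Red.ext_of_check check_F45 (by decide)

theorem F45_data' : Data F45 [(5, 13), (6, 12)]
    [(0, [7, 8], 1), (13, [10, 9, 11], 2), (13, [], 4), (13, [], 12), (12, [], 3)] [] []
      ([] ++ [(0, 1)]) [(2, 4)] := by
  constructor <;> decide

/-! ## The theorems -/

variable {V : Type} [Fintype V] [DecidableEq V] {G : SimpleGraph V} [DecidableRel G.Adj]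
  {R : Rot G}

/-- Faces with vertices of degree three. -/
theorem good_of_size (g : Geo R) {L : ℕ} (hL : ∀ d : G.Dart, sz R d = L → G.degree d.fst ≠ 2)
    {d : G.Dart} (hd : sz R d = L) : Good R d L := by
  refine ⟨hd, fun n => ?_⟩
  have h1 : sz R ((R.next ^ n) d) = L := by
    unfold sz
    rw [face_pow]
    exact hd
  rcases g.deg_cases ((R.next ^ n) d).fst with h2 | h2
  · exact absurd h2 (hL _ h1)
  · exact h2

/-- **Two faces of length four are not adjacent.** -/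
theorem no_44 (hmin : MinCex G) (g : Geo R)
    (h42 : ∀ d : G.Dart, sz R d = 4 → G.degree d.fst ≠ 2) (d : G.Dart) (hd : sz R d = 4) :
    sz R d.symm ≠ 4 := by
  intro hd'
  have h := good_of_size g h42 hd
  have h' : Good R (ac R d 0) 4 := good_of_size g h42 hd'
  exact Red.kill hmin (g.rules5 h42) F44_ext' F44_data' (tab44 h h') side44

/-- Two 4-cycles with a common edge are equal. -/
theorem h44_of_min (hmin : MinCex G) (g : Geo R)
    (h42 : ∀ d : G.Dart, sz R d = 4 → G.degree d.fst ≠ 2) :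
    ∀ a b c d e f, NB G [a, b, c, d] → NB G [a, b, e, f] → c = e := by
  intro a b c d e f h h'
  rcases g.edgeEq (by norm_num) (g.not_bad5 h42) h h' (by simp) (by simp) (by simp) (by simp)
    with h1 | ⟨t, h1, h2⟩
  · simp only [List.cons.injEq] at h1
    exact h1.1
  · exact absurd h2 (no_44 hmin g h42 t h1)

/-- **A face of length five next to a face of length four is opposite to another one.** -/
theorem no_45 (hmin : MinCex G) (g : Geo R) (r6 : Rules G A6 B6)
    (h42 : ∀ d : G.Dart, sz R d = 4 → G.degree d.fst ≠ 2)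
    (h52 : ∀ d : G.Dart, sz R d = 5 → G.degree d.fst ≠ 2) (d : G.Dart) (hd : sz R d = 4)
    (hd0 : sz R (ac R d 0) = 5) : sz R (ac R d 2) = 5 := by
  by_contra hd2
  have h := good_of_size g h42 hd
  have h' : Good R (ac R d 0) 5 := good_of_size g h52 hd0
  have hbad := g.not_bad5 h42
  obtain ⟨a0, a1, a2, a3⟩ := h.stars4
  refine Red.kill' hmin r6 F45_ext' F45_data' (tab45 h h') side45 ?_
  intro p hp w hw h1 h2
  simp only [List.mem_singleton] at hp
  subst hp
  have h1' : G.Adj (Y R d 2) w := h1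
  have h2' : G.Adj (Y R d 3) w := h2
  have w2 : w ≠ X R d 2 := hw 7 (by decide)
  have w3 : w ≠ X R d 3 := hw 8 (by decide)
  have h3 : NB G [X R d 2, X R d 3, Y R d 3, w, Y R d 2] := by
    refine ⟨a2.ha, a3.bc, a3.hc, w3.symm, h2', ?_, h1'.symm, w2, a2.hc.symm, a2.ac.symm,
      trivial⟩
    intro h4
    have h5 := a3.hc
    rw [h4] at h5
    exact no_tri g.tri a2.ha h5 a2.hc
  have hadj : G.Adj (X R d 2) (X R d 3) := a2.ha
  have hdart : (⟨(X R d 2, X R d 3), hadj⟩ : G.Dart) = (R.next ^ 2) d := by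
    refine SimpleGraph.Dart.ext _ _ (Prod.ext rfl ?_)
    exact (snd_pow R d 2).symm
  rcases g.edge_face (by norm_num) hbad h3 (by simp) (by simp) hadj with ⟨h4, -⟩ | ⟨h4, -⟩
  · rw [hdart] at h4
    have h5 : sz R ((R.next ^ 2) d) = 4 := by
      unfold sz
      rw [face_pow]
      exact hd
    rw [h5] at h4
    simp at h4
  · rw [hdart] at h4
    exact hd2 h4

end Pool.Agent.T392
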