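import Mathlib
import Pool.Agent.Work.MP_392c8e_co_t1.Side
import Pool.Agent.Work.MP_392c8e_co_t1.Reducer

/-!
# Side conditions of reducers
-/

namespace Pool.T1Side

open Pool.Agent.T1Red

/-- The interior labels. -/
def inner (R : Red) : List ℕ := List.range' R.t R.m

theorem mem_inner {R : Red} {i : ℕ} : i ∈ inner R ↔ R.t ≤ i ∧ i < R.t + R.m := by
  unfold inner
  rw [List.mem_range'_1]

/-- A closed walk of length at most seven through a corner of a 5-cycle. -/
def tA (k l : ℕ) : Bool := Nat.beq k 2 && Nat.ble l 4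

/-- A 5-cycle and a 4-cycle. -/
def tB (k l : ℕ) : Bool := Nat.beq k 3 && Nat.beq l 2

end Pool.T1Side
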