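import Mathlib
import Pool.Agent.Work.MP_392c8e_co_t1.Apply
import Pool.Agent.Work.MP_392c8e_co_t1.Bridge
import Pool.Agent.Work.MP_392c8e_co_t1.Corners
import Pool.Agent.Work.MP_392c8e_co_t1.GeoOf
import Pool.Agent.Work.MP_392c8e_co_t1.Maps
import Pool.Agent.Work.MP_392c8e_co_t1.SideR
import Pool.Agent.Work.MP_392c8e_co_t1.Inst.D5

/-!
# Two 5-cycles of a minimal counterexample are not joined by an edge
-/

namespace Pool.Agent.T1Red

open Finset Pool.Agent.Sub392 Pool.Agent.OddFlow Pool.Agent.T1FF Pool.Agent.T392 Pool.T1Side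
open Pool.Agent.Red (Pl MinCex StrictCol)

set_option linter.unusedSectionVars false

/-- A 5-cycle and a 4-cycle, or two 5-cycles. -/
def tB5 (k l : ℕ) : Bool := Nat.beq k 3 && (Nat.beq l 2 || Nat.beq l 3)

/-- Interior labels. -/
def D5I : List ℕ := [8, 9, 10, 11, 12, 13, 14, 15, 16, 17]

/-- Certificate of the side conditions. -/
def D5steps : List Step := [
  .ne 0 1 (.tri 0 9 10),
  .ne 0 2 (.edge 8 9 [0, 11, 12] [10, 11, 12]),
  .ne 0 3 (.edge 11 10 [9, 0, 12] [9, 8, 12]),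
  .ne 0 11 (.tri 0 9 10),
  .ne 0 12 (.tri 0 8 9),
  .ne 0 13 (.tri 0 8 9),
  .ne 0 14 (.edge 8 9 [10, 11, 12] [0, 13]),
  .ne 0 17 (.edge 8 9 [10, 11, 12] [0, 13]),
  .ne 1 2 (.tri 1 10 11),
  .ne 1 3 (.edge 12 1 [10, 9, 8] [10, 11]),
  .ne 1 8 (.tri 1 9 10),
  .ne 1 12 (.tri 1 10 11),
  .ne 1 13 (.edge 11 10 [1, 8, 12] [9, 8, 12]),
  .ne 2 3 (.tri 2 11 12),
  .ne 2 8 (.tri 2 11 12),
  .ne 2 9 (.tri 2 10 11),
  .ne 2 13 (.edge 11 2 [8, 9, 10] [8, 12]),
  .ne 3 9 (.tri 3 8 12),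
  .ne 3 10 (.tri 3 11 12),
  .ne 3 13 (.tri 3 8 12),
  .ne 3 14 (.edge 3 13 [17, 16, 15] [8, 12]),
  .ne 3 17 (.edge 3 13 [14, 15, 16] [8, 12]),
  .ne 4 5 (.tri 4 14 15),
  .ne 4 6 (.edge 14 4 [16, 17, 13] [16, 15]),
  .ne 4 7 (.edge 14 4 [17, 16, 15] [17, 13]),
  .ne 4 8 (.tri 4 13 14),
  .ne 4 9 (.edge 4 8 [12, 11, 10] [13, 14]),
  .ne 4 12 (.edge 14 13 [17, 16, 15] [8, 4]),
  .ne 4 16 (.tri 4 14 15),
  .ne 4 17 (.tri 4 13 14),
  .ne 5 6 (.tri 5 15 16),
  .ne 5 7 (.edge 14 13 [17, 5, 15] [17, 16, 15]),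
  .ne 5 8 (.edge 14 13 [17, 16, 15] [5, 15]),
  .ne 5 13 (.tri 5 14 15),
  .ne 5 17 (.tri 5 15 16),
  .ne 6 7 (.tri 6 16 17),
  .ne 6 8 (.edge 6 13 [14, 15, 16] [17, 16]),
  .ne 6 13 (.tri 6 16 17),
  .ne 6 14 (.tri 6 15 16),
  .ne 7 8 (.tri 7 13 17),
  .ne 7 9 (.edge 7 8 [12, 11, 10] [13, 17]),
  .ne 7 12 (.edge 7 8 [9, 10, 11] [13, 17]),
  .ne 7 14 (.tri 7 13 17),
  .ne 7 15 (.tri 7 16 17),
  .ne 8 15 (.tri 8 13 14),
  .ne 8 16 (.tri 8 13 17),
  .ne 9 14 (.tri 8 9 13),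
  .ne 9 15 (.edge 14 9 [16, 17, 13] [8, 13]),
  .ne 9 16 (.edge 14 13 [8, 9, 15] [17, 9, 15]),
  .ne 9 17 (.tri 8 9 13),
  .ne 10 13 (.tri 8 9 10),
  .ne 10 14 (.edge 8 9 [10, 11, 12] [10, 13]),
  .ne 10 15 (.edge 14 10 [9, 8, 13] [16, 17, 13]),
  .ne 10 16 (.edge 8 9 [10, 11, 12] [10, 17, 13]),
  .ne 10 17 (.edge 8 9 [10, 11, 12] [10, 13]),
  .ne 11 13 (.tri 8 11 12),
  .ne 11 14 (.edge 11 10 [9, 8, 12] [9, 8, 13]),
  .ne 11 17 (.edge 11 10 [9, 8, 12] [9, 8, 13]),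
  .ne 12 14 (.tri 8 12 13),
  .ne 12 15 (.edge 14 12 [16, 17, 13] [8, 13]),
  .ne 12 16 (.edge 14 13 [8, 12, 15] [17, 12, 15]),
  .ne 12 17 (.tri 8 12 13),
  .ne 0 4 (.edge 14 13 [8, 9, 0] [17, 16, 15]),
  .ne 0 7 (.edge 17 13 [8, 9, 0] [14, 15, 16]),
  .ne 0 15 (.edge 14 0 [9, 8, 13] [16, 17, 13]),
  .ne 0 16 (.edge 17 0 [9, 8, 13] [15, 14, 13]),
  .ne 1 14 (.edge 8 9 [10, 1, 13] [10, 11, 12]),
  .ne 1 17 (.edge 8 9 [10, 1, 13] [10, 11, 12]),
  .ne 2 14 (.edge 11 12 [8, 9, 10] [8, 13, 2]),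
  .ne 2 17 (.edge 11 12 [8, 9, 10] [8, 13, 2]),
  .ne 3 4 (.edge 14 13 [8, 12, 3] [17, 16, 15]),
  .ne 3 7 (.edge 17 13 [8, 12, 3] [14, 15, 16]),
  .ne 3 15 (.edge 14 3 [12, 8, 13] [16, 17, 13]),
  .ne 3 16 (.edge 17 3 [12, 8, 13] [15, 14, 13]),
  .ne 4 10 (.edge 14 13 [8, 9, 4] [17, 16, 15]),
  .ne 4 11 (.edge 12 4 [10, 9, 8] [14, 13, 8]),
  .ne 5 9 (.edge 14 13 [8, 5, 15] [17, 16, 15]),
  .ne 5 12 (.edge 14 13 [8, 5, 15] [17, 16, 15]),
  .ne 6 9 (.edge 8 6 [10, 11, 12] [16, 17, 13]),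
  .ne 6 12 (.edge 8 6 [11, 10, 9] [16, 17, 13]),
  .ne 7 10 (.edge 7 9 [8, 12, 11] [8, 13, 17]),
  .ne 7 11 (.edge 7 12 [8, 9, 10] [8, 13, 17]),
  .ne 11 15 (.edge 14 11 [12, 8, 13] [16, 17, 13]),
  .ne 11 16 (.edge 11 12 [8, 9, 10] [8, 13, 17]),
  .ne 0 5 (.corner 13 14 15 [16, 17] [0, 9, 8]),
  .ne 0 6 (.corner 13 17 16 [15, 14] [0, 9, 8]),
  .ne 1 4 (.corner 8 9 10 [11, 12] [1, 14, 13]),
  .ne 1 7 (.corner 8 9 10 [11, 12] [1, 17, 13]),
  .ne 1 15 (.corner 8 9 10 [11, 12] [1, 14, 13]),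
  .ne 1 16 (.corner 8 9 10 [11, 12] [1, 17, 13]),
  .ne 2 4 (.corner 11 12 8 [9, 10] [13, 14, 2]),
  .ne 2 7 (.corner 11 12 8 [9, 10] [13, 17, 2]),
  .ne 2 15 (.corner 11 12 8 [9, 10] [13, 14, 2]),
  .ne 2 16 (.corner 11 12 8 [9, 10] [13, 17, 2]),
  .ne 3 5 (.corner 13 14 15 [16, 17] [3, 12, 8]),
  .ne 3 6 (.corner 13 17 16 [15, 14] [3, 12, 8]),
  .ne 5 10 (.corner 5 9 8 [12, 11] [13, 14, 15]),
  .ne 5 11 (.corner 5 12 8 [9, 10] [13, 14, 15]),
  .ne 6 10 (.corner 8 9 6 [11, 12] [16, 17, 13]),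
  .ne 6 11 (.corner 6 12 8 [9, 10] [13, 17, 16]),
  .ne 1 5 (.corner 8 9 10 [11, 12] [1, 15, 14, 13]),
  .ne 1 6 (.corner 8 9 10 [11, 12] [1, 16, 17, 13]),
  .ne 2 5 (.corner 11 12 8 [9, 10] [13, 14, 15, 2]),
  .ne 2 6 (.corner 11 12 8 [9, 10] [13, 17, 16, 2]),
  .cn 0 1 18 (.edge 9 10 [1, 18, 0] [11, 12, 8]),
  .cn 2 3 18 (.edge 11 12 [3, 18, 2] [8, 9, 10]),
  .cn 4 5 18 (.edge 14 15 [5, 18, 4] [16, 17, 13]),
  .cn 6 7 18 (.edge 16 17 [7, 18, 6] [13, 14, 15])]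

theorem D5_finJ : (St.startX D5.ed D5I []).fin tA tB5 D5I D5steps 18
    [(0, 1), (2, 3), (4, 5), (6, 7)] [] = true := by
  decide +kernel

theorem D5_extJ : D5.Ext [] := Red.ext_of_check check_D5 (by decide)

theorem D5_dataJ : Data D5 [] [(0, [9, 10], 1), (2, [11, 12], 3), (4, [14, 15], 5),
    (6, [16, 17], 7)] [] [] [(0, 1), (2, 3), (4, 5), (6, 7)] [] where
  ed_lt := by decide
  ed_int := by decide
  ed_new := by decide
  ed_nodup := by decide
  att := by decide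
  new := by decide
  new_inj := by decide
  miss_lt := by decide
  nw_lt := by decide
  nw_deg := by decide
  nw_miss := by decide
  nw_co := by decide
  nw_tri := by decide
  co_ter := by decide
  co_att := by decide
  count := by decide
  path := by decide
  chain := by decide
  nodup := by decide
  inner := by decide
  rng := by decide
  disj := by decide
  com_mem := by decide
  bad_mem := by decide

variable {V : Type} [Fintype V] [DecidableEq V] {G : SimpleGraph V} [DecidableRel G.Adj]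
  {R : Rot G}

/-- The configuration does not occur. -/
theorem no_D5 (hmin : MinCex G) (hr : Rules G tA tB5) {d : G.Dart} (h : Good R d 5)
    (h' : Good R (opp R d) 5) : False := by
  have htab := tabd5 h h'
  obtain ⟨hcopy, hn⟩ := copy_of_tab htab (ed := D5.ed) (I := D5I) (by decide)
  obtain ⟨hinj, hcn, -⟩ := hcopy.side hr (xs := []) (by simp) D5_finJ
  have hI : ∀ i, D5.t ≤ i → i < D5.t + D5.m → i ∈ D5I := by
    intro i h1 h2
    have h3 : 8 ≤ i := h1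
    have h4 : i < 18 := h2
    unfold D5I
    interval_cases i <;> simp
  refine Red.no_conf hmin D5_extJ D5_dataJ (fd5 R d) ?_ ?_ ?_ ?_ ?_
  · intro i j hi hj hij
    exact Or.inl (hinj i j hi.1 hj.1 hij)
  · intro e he _ _
    exact hcopy.adj e he
  · intro i h1 h2 w hw
    obtain ⟨j, hj, hjw⟩ := hn i (hI i h1 h2) w hw
    refine ⟨j, ?_, by simp, hjw⟩
    unfold nbs at hj
    rw [List.mem_append, List.mem_map, List.mem_map] at hj
    rcases hj with ⟨e, he, rfl⟩ | ⟨e, he, rfl⟩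
    · rw [List.mem_filter] at he
      left
      have : e.1 = i := by simpa using he.2
      rw [← this]
      exact he.1
    · rw [List.mem_filter] at he
      right
      have : e.2 = i := by simpa using he.2
      rw [← this]
      exact he.1
  · intro p hp w hw hpw
    refine hcn p hp w (fun k hk hwk => hw ⟨k, ?_, ?_, hwk.symm⟩) hpw.1 hpw.2.symm
    · have : k ∈ [8, 9, 10, 11, 12, 13, 14, 15, 16, 17] := hk
      show 8 ≤ k
      simp only [List.mem_cons, List.not_mem_nil, or_false] at this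
      omega
    · have : k ∈ [8, 9, 10, 11, 12, 13, 14, 15, 16, 17] := hk
      show k < 18
      simp only [List.mem_cons, List.not_mem_nil, or_false] at this
      omega
  · intro p hp
    simp at hp

/-- The rules if no two faces of size five are adjacent. -/
theorem rules5 (g : Geo R)
    (h4 : ∀ d : G.Dart, sz R d = 4 → G.degree d.fst ≠ 2 ∧ 6 ≤ sz R d.symm)
    (h5 : ∀ d : G.Dart, sz R d = 5 → G.degree d.fst ≠ 2)
    (hadj : ∀ d : G.Dart, sz R d = 5 → sz R d.symm ≠ 5) : Rules G tA tB5 := by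
  have hr := g.rules7 h4 h5
  refine ⟨hr.tri, fun a v b l l' h1 h2 h3 => hr.corner a v b l l' h1 h2 ?_, ?_⟩
  · unfold tA at h3
    unfold A7
    simp only [Bool.and_eq_true, Nat.beq_eq, Nat.ble_eq, Bool.or_eq_true] at h3 ⊢
    omega
  · intro a v l l' h1 h2 h3
    unfold tB5 at h3
    simp only [Bool.and_eq_true, Nat.beq_eq, Bool.or_eq_true] at h3
    obtain ⟨h6, h7 | h7⟩ := h3
    · refine hr.edge a v l l' h1 h2 ?_
      unfold B7
      simp only [Bool.and_eq_true, Nat.ble_eq, Bool.or_eq_true]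
      omega
    · rcases g.edgeEq (by norm_num) (g.not_bad7 h4 h5) h1 h2 (by omega) (by omega) (by omega)
        (by omega) with h8 | ⟨d, h8, h9⟩
      · exact h8
      · exact absurd (by omega) (hadj d (by omega))

/-- The face at a vertex of a 5-cycle which does not contain the third edge has size five. -/
theorem pent_face (g : Geo R) (h5 : ∀ d : G.Dart, sz R d = 5 → G.degree d.fst ≠ 2)
    (hfac : ∀ (v : V) (c : G.Walk v v), c.IsCycle → c.length = 5 →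
      ∃ f : R.Face, R.size f = 5 ∧ Side R c {f})
    {P : Finset (Sym2 V)} (hP : P ∈ pent G) {u v : V} (hu : u ∈ verts P) (hv : v ∉ verts P)
    (huv : G.Adj u v) :
    sz R (R.rot (R.rot ⟨(u, v), huv⟩)) = 5 ∧ G.degree u = 3 := by
  classical
  set x : G.Dart := ⟨(u, v), huv⟩ with hx
  obtain ⟨y, hy, hPy⟩ := pent_param hP
  have hP' := hP
  rw [pent, mem_filter] at hP'
  obtain ⟨-, w, c, hc, hlen, hPc⟩ := hP'
  obtain ⟨f, hf, hs⟩ := hfac w c hc hlen
  have hmem : ∀ e : Sym2 V, e ∈ c.edges ↔ e ∈ P := by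
    intro e
    rw [hPc, List.mem_toFinset]
  have hu' := hu
  rw [hPy, verts_param hy.1, mem_image] at hu'
  obtain ⟨i, -, hi⟩ := hu'
  have hvn : ∀ j, y j ≠ v := by
    intro j hj
    apply hv
    rw [hPy, verts_param hy.1, mem_image]
    exact ⟨j, mem_univ _, hj⟩
  -- the two darts of the cycle at `u`
  have ha1 : G.Adj u (y (i + 1)) := by
    rw [← hi]
    exact hy.2 i
  have ha2 : G.Adj u (y (i - 1)) := by
    have := hy.2 (i - 1)
    rw [sub_add_cancel, hi] at this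
    exact this.symm
  set a : G.Dart := ⟨(u, y (i + 1)), ha1⟩ with ha
  set b : G.Dart := ⟨(u, y (i - 1)), ha2⟩ with hb
  have hae : a.edge ∈ c.edges := by
    rw [hmem, hPy, mem_image]
    refine ⟨i, mem_univ _, ?_⟩
    show s(y i, y (i + 1)) = s(u, y (i + 1))
    rw [hi]
  have hbe : b.edge ∈ c.edges := by
    rw [hmem, hPy, mem_image]
    refine ⟨i - 1, mem_univ _, ?_⟩
    show s(y (i - 1), y (i - 1 + 1)) = s(u, y (i - 1))
    rw [sub_add_cancel, hi]
    exact Sym2.eq_swap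
  have hxe : x.edge ∉ c.edges := by
    rw [hmem]
    intro h
    apply hv
    rw [verts, mem_filter]
    exact ⟨mem_univ _, x.edge, h, Sym2.mem_mk_right _ _⟩
  have hax : a ≠ x := by
    intro h
    have : a.snd = x.snd := by rw [h]
    exact hvn _ this
  have hbx : b ≠ x := by
    intro h
    have : b.snd = x.snd := by rw [h]
    exact hvn _ this
  have hab : a ≠ b := by
    intro h
    have : a.snd = b.snd := by rw [h]
    exact (by decide : ∀ k : Fin 5, k + 1 ≠ k - 1) i (hy.1 this)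
  -- degree three
  have hdeg : G.degree u = 3 := by
    have h1 := (hs a).1 hae
    rcases g.deg_cases u with h2 | h2
    · exfalso
      simp only [mem_singleton] at h1
      by_cases h3 : R.face a = f
      · exact h5 a (by rw [sz, h3]; exact hf) h2
      · have h4 : R.face a.symm = f := by tauto
        refine h5 (R.next a.symm) ?_ ?_
        · rw [sz_next, sz, h4]
          exact hf
        · rw [R.fst_next]
          exact h2
    · exact h2
  refine ⟨?_, hdeg⟩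
  -- the three darts at `u`
  have e3 : R.rot (R.rot (R.rot x)) = x := rot_three R hdeg
  have k1 : R.rot x ≠ x := g.rot_ne x
  have k2 : R.rot (R.rot x) ≠ R.rot x := g.rot_ne _
  have k3 : R.rot (R.rot x) ≠ x := by
    intro h
    rw [h] at e3
    exact k1 e3
  have hset : (R.rot x = a ∧ R.rot (R.rot x) = b) ∨ (R.rot x = b ∧ R.rot (R.rot x) = a) := by
    have f1 : (R.rot x).fst = x.fst := R.fst_rot x
    have f2 : (R.rot (R.rot x)).fst = x.fst := (R.fst_rot _).trans f1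
    by_cases h1 : R.rot x = a
    · left
      refine ⟨h1, third_unique g.deg3 (P := x) (Q := a) hax.symm rfl f2 rfl k3 ?_ hbx hab.symm⟩
      rw [← h1]
      exact k2
    · right
      have h2 : R.rot x = b := third_unique g.deg3 (P := x) (Q := a) hax.symm rfl f1 rfl k1 h1 hbx
        hab.symm
      refine ⟨h2, third_unique g.deg3 (P := x) (Q := b) hbx.symm rfl f2 rfl k3 ?_ hax hab⟩
      rw [← h2]
      exact k2
  have hin : (R.rot x).edge ∈ c.edges ∧ (R.rot (R.rot x)).edge ∈ c.edges := by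
    rcases hset with ⟨h1, h2⟩ | ⟨h1, h2⟩
    · rw [h2, h1]
      exact ⟨hae, hbe⟩
    · rw [h2, h1]
      exact ⟨hbe, hae⟩
  have s1 := (hs (R.rot x)).1 hin.1
  have s2 := (hs (R.rot (R.rot x))).1 hin.2
  have s3 := (not_congr (hs x)).1 hxe
  simp only [mem_singleton, not_not] at s1 s2 s3
  rw [← R.face_rot (R.rot x), R.face_rot x] at s1
  rw [← R.face_rot (R.rot (R.rot x)), e3] at s2
  have hbr := g.br x
  have h6 : R.face (R.rot (R.rot x)) = f := by
    by_contra h6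
    have h7 : R.face x.symm = f := by tauto
    have h8 : R.face x = f := by tauto
    exact hbr (h8.trans h7.symm)
  rw [sz, h6]
  exact hf

/-- **Two 5-cycles are not joined by an edge** (the form used by the assembly). -/
theorem join_of (hmin : MinCex G) (hP : R.Plane)
    (h4 : ∀ d : G.Dart, sz R d = 4 → G.degree d.fst ≠ 2 ∧ 6 ≤ sz R d.symm)
    (h5 : ∀ d : G.Dart, sz R d = 5 → G.degree d.fst ≠ 2)
    (hadj : ∀ d : G.Dart, R.size (R.face d) = 5 → R.size (R.face d.symm) ≠ 5)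
    (hfac : ∀ (v : V) (c : G.Walk v v), c.IsCycle → c.length = 5 →
      ∃ f : R.Face, R.size f = 5 ∧ Side R c {f}) :
    ∀ P ∈ pent G, ∀ Q ∈ pent G, P ≠ Q → ∀ u ∈ verts P, ∀ v ∈ verts Q, ¬ G.Adj u v := by
  intro P hPp Q hQ hne u hu v hv huv
  have g : Geo R := geo_of hmin hP
  have hd := disj_of_faces R g.deg3 hfac hadj
  have hvP : v ∉ verts P := fun h => hne (hd P hPp Q hQ v h hv)
  have huQ : u ∉ verts Q := fun h => hne (hd P hPp Q hQ u hu h)
  obtain ⟨a1, a2⟩ := pent_face g h5 hfac hPp hu hvP huv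
  obtain ⟨b1, -⟩ := pent_face g h5 hfac hQ hv huQ huv.symm
  have good : ∀ d : G.Dart, sz R d = 5 → Good R d 5 := by
    intro d hd5
    refine ⟨hd5, fun n => ?_⟩
    have h1 : sz R ((R.next ^ n) d) = 5 := by
      rw [sz, face_pow]
      exact hd5
    rcases g.deg_cases ((R.next ^ n) d).fst with h2 | h2
    · exact absurd h2 (h5 _ h1)
    · exact h2
  set d : G.Dart := R.rot (R.rot ⟨(u, v), huv⟩) with hdd
  have e1 : opp R d = R.rot (R.rot ⟨(v, u), huv.symm⟩) := by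
    unfold opp
    rw [hdd, rot_three R (d := (⟨(u, v), huv⟩ : G.Dart)) a2]
    rfl
  refine no_D5 hmin (rules5 g h4 h5 hadj) (good d a1) (good _ ?_)
  rw [e1]
  exact b1

end Pool.Agent.T1Red
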