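import Mathlib
import Pool.Agent.Work.MP_392c8e_co_t1.Apply
import Pool.Agent.Work.MP_392c8e_co_t1.Maps
import Pool.Agent.Work.MP_392c8e_co_t1.Corners
import Pool.Agent.Work.MP_392c8e_co_t1.Inst.C545
import Pool.Agent.Work.MP_392c8e_co_t1.Inst.More

/-!
# A 4-cycle between two 5-cycles, and a 4-cycle surrounded by four 5-cycles
-/

namespace Pool.Agent.T1Red

open Pool.T1Side Pool.Agent.T1FF
open Pool.Agent.Red (Pl MinCex StrictCol)

/-- The corner table before the fourth step: 4- and 5-cycles against cycles of length at most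
six. -/
def tA4 (k l : ℕ) : Bool := (Nat.beq k 1 || Nat.beq k 2) && Nat.ble l 3

/-- The edge table before the fourth step: two 4-cycles. -/
def tB4 (k l : ℕ) : Bool := Nat.beq k 2 && Nat.beq l 2

/-- All pairs of labels are different except for the pairs of a list. -/
def allNeL (L : List ℕ) (co ne : List (ℕ × ℕ)) : Bool :=
  (pairs L).all fun e => has ne e.1 e.2 || has co e.1 e.2

theorem inj_of_allNeL {V : Type*} {G : SimpleGraph V} {I : List ℕ} {f : ℕ → V} {s : St}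
    (h : s.Ok G I f) {L : List ℕ} (hL : L.Pairwise (· < ·)) {co : List (ℕ × ℕ)}
    (hn : allNeL L co s.ne = true) {i j : ℕ} (hi : i ∈ L) (hj : j ∈ L) (hij : f i = f j) :
    i = j ∨ (i, j) ∈ co ∨ (j, i) ∈ co := by
  unfold allNeL at hn
  rw [List.all_eq_true] at hn
  have key : ∀ i j, i ∈ L → j ∈ L → i < j → f i = f j → (i, j) ∈ co ∨ (j, i) ∈ co := by
    intro i j hi hj hlt hij
    have h1 := hn (i, j) (mem_pairs hL hi hj hlt)
    rw [Bool.or_eq_true] at h1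
    rcases h1 with h1 | h1
    · exact absurd hij (h.ne h1)
    · exact has_spec h1
  rcases lt_trichotomy i j with h1 | h1 | h1
  · exact Or.inr (key i j hi hj h1 hij)
  · exact Or.inl h1
  · exact Or.inr (key j i hj hi h1 hij.symm).symm

/-- The whole check. -/
def finL (A B : ℕ → ℕ → Bool) (I : List ℕ) (ts : List Step) (s : St) (L : List ℕ)
    (co cns nas : List (ℕ × ℕ)) : Bool :=
  match St.run A B I ts s with
  | none => false
  | some s' => allNeL L co s'.ne && (cns.all fun e => has s'.cn e.1 e.2) &&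
      (nas.all fun e => has s'.na e.1 e.2)

/-- **The side conditions of a cluster.** -/
theorem sideL {V : Type*} {G : SimpleGraph V} {A B : ℕ → ℕ → Bool} (hG : Rules G A B)
    {ed : List (ℕ × ℕ)} {I : List ℕ} {f : ℕ → V} (h : Copy G ed I f) {xs : List (ℕ × ℕ)}
    (hx : ∀ e ∈ xs, f e.1 ≠ f e.2) {ts : List Step} {L : List ℕ} (hL : L.Pairwise (· < ·))
    {co cns nas : List (ℕ × ℕ)}
    (hf : finL A B I ts (St.startX ed I xs) L co cns nas = true) :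
    (∀ i ∈ L, ∀ j ∈ L, f i = f j → i = j ∨ (i, j) ∈ co ∨ (j, i) ∈ co) ∧
    (∀ e ∈ cns, ∀ w, (∀ k ∈ I, w ≠ f k) → G.Adj (f e.1) w → G.Adj (f e.2) w → False) ∧
    (∀ e ∈ nas, ¬ G.Adj (f e.1) (f e.2)) := by
  unfold finL at hf
  split at hf
  · exact absurd hf (by simp)
  · rename_i s' hs
    rw [Bool.and_eq_true, Bool.and_eq_true, List.all_eq_true, List.all_eq_true] at hf
    have h' := St.Ok.run hG ts _ s' (h.startX hx) hs
    exact ⟨fun i hi j hj hij => inj_of_allNeL h' hL hf.1.1 hi hj hij, fun e he w hw h1 h2 =>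
      h'.cn (hf.1.2 e he) w hw h1 h2, fun e he => h'.na (hf.2 e he)⟩

theorem of_nbs {ed : List (ℕ × ℕ)} {i j : ℕ} (h : j ∈ nbs ed i) : (i, j) ∈ ed ∨ (j, i) ∈ ed := by
  unfold nbs at h
  rw [List.mem_append, List.mem_map, List.mem_map] at h
  rcases h with ⟨e, h1, h2⟩ | ⟨e, h1, h2⟩
  · rw [List.mem_filter, beq_iff_eq] at h1
    left
    rw [← h2, ← h1.2]
    exact h1.1
  · rw [List.mem_filter, beq_iff_eq] at h1
    right
    rw [← h2, ← h1.2]
    exact h1.1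

/-- **The reduction step from a table.** -/
theorem no_conf_of_tab {V : Type} [Fintype V] [DecidableEq V] {G : SimpleGraph V}
    {A B : ℕ → ℕ → Bool} {R : Red} {nl : List (ℕ × ℕ)} {ps : List (ℕ × List ℕ × ℕ)}
    {co com bad : List (ℕ × ℕ)} (hmin : MinCex G) (hr : Rules G A B) (hext : R.Ext co)
    (hd : Data R nl ps [] co com bad) {f : ℕ → V} {N : List (ℕ × ℕ × ℕ × ℕ)} (hN : TabOk G f N)
    {I L : List ℕ} (hI : I = List.range' R.t R.m) (hc : chk R.ed I N = true)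
    {xs : List (ℕ × ℕ)} (hx : ∀ e ∈ xs, f e.1 ≠ f e.2) {ts : List Step}
    (hL : L.Pairwise (· < ·)) (hLR : ∀ i ∈ List.range (R.t + R.m), Old nl i → i ∈ L)
    (hf : finL A B I ts (St.startX R.ed I xs) L co com bad = true) : False := by
  obtain ⟨hcopy, hnb⟩ := copy_of_tab hN hc
  obtain ⟨h1, h2, h3⟩ := sideL hr hcopy hx hL hf
  refine Red.no_conf hmin hext hd f ?_ ?_ ?_ ?_ ?_
  · intro i j hi hj hij
    exact h1 i (hLR i (List.mem_range.2 hi.1) hi.2.2) j (hLR j (List.mem_range.2 hj.1) hj.2.2) hij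
  · intro e he _ _
    exact hcopy.adj e he
  · intro i hi hi' w hw
    obtain ⟨j, hj, rfl⟩ := hnb i (by rw [hI, List.mem_range'_1]; omega) w hw
    exact ⟨j, of_nbs hj, by simp, rfl⟩
  · intro p hp w hw h4
    refine h2 p hp w (fun k hk h5 => hw ?_) h4.1 h4.2.symm
    rw [hI, List.mem_range'_1] at hk
    exact ⟨k, hk.1, hk.2, h5.symm⟩
  · exact h3

/-! ## A 4-cycle between two 5-cycles -/

/-- Certificate. -/
def steps545 : List Step := [
  .ne 0 1 (.tri 0 13 12),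
  .ne 0 2 (.corner 12 13 14 [9, 8] [0]),
  .ne 0 9 (.tri 0 12 8),
  .ne 0 10 (.corner 9 8 12 [13, 14] [0]),
  .ne 0 11 (.tri 0 12 8),
  .ne 0 14 (.tri 0 13 12),
  .ne 0 17 (.edge 11 8 [9, 10] [12, 0]),
  .ne 1 2 (.tri 13 14 1),
  .ne 1 8 (.tri 1 12 13),
  .ne 1 9 (.tri 13 14 1),
  .ne 1 10 (.corner 13 14 9 [8, 12] [1]),
  .ne 1 11 (.corner 8 12 13 [14, 9] [1]),
  .ne 2 8 (.tri 2 14 9),
  .ne 2 10 (.tri 2 14 9),
  .ne 2 11 (.corner 14 9 8 [12, 13] [2]),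
  .ne 2 12 (.tri 13 14 2),
  .ne 2 15 (.edge 9 10 [11, 8] [2, 14]),
  .ne 3 4 (.tri 3 16 15),
  .ne 3 5 (.corner 15 16 17 [11, 10] [3]),
  .ne 3 8 (.corner 11 10 15 [16, 17] [3]),
  .ne 3 9 (.tri 10 15 3),
  .ne 3 11 (.tri 10 15 3),
  .ne 3 14 (.edge 9 10 [11, 8] [15, 3]),
  .ne 3 17 (.tri 3 16 15),
  .ne 4 5 (.tri 4 16 17),
  .ne 4 8 (.corner 16 17 11 [10, 15] [4]),
  .ne 4 9 (.corner 10 15 16 [17, 11] [4]),
  .ne 4 10 (.tri 4 16 15),
  .ne 4 11 (.tri 4 16 17),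
  .ne 5 8 (.tri 5 11 17),
  .ne 5 9 (.corner 17 11 10 [15, 16] [5]),
  .ne 5 10 (.tri 5 11 17),
  .ne 5 12 (.edge 11 8 [9, 10] [5, 17]),
  .ne 5 15 (.tri 16 17 5),
  .ne 8 15 (.tri 9 10 8),
  .ne 8 16 (.tri 8 17 11),
  .ne 9 16 (.tri 9 10 15),
  .ne 9 17 (.tri 9 10 11),
  .ne 10 12 (.tri 9 10 8),
  .ne 10 13 (.tri 9 10 14),
  .ne 11 13 (.tri 11 12 8),
  .ne 11 14 (.tri 9 10 11),
  .ne 12 15 (.corner 8 9 10 [11] [12]),
  .ne 12 16 (.edge 11 8 [9, 10] [12, 17]),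
  .ne 12 17 (.tri 11 12 8),
  .ne 13 15 (.edge 9 10 [11, 8] [13, 14]),
  .ne 13 16 (.corner 8 12 13 [14, 9] [17, 11]),
  .ne 13 17 (.edge 11 8 [9, 10] [12, 13]),
  .ne 14 15 (.tri 9 10 14),
  .ne 14 16 (.edge 9 10 [11, 8] [15, 14]),
  .ne 14 17 (.edge 8 9 [10, 11] [14, 11]),
  .na 3 5 (.corner 15 16 17 [11, 10] [5, 3]),
  .cn 0 2 18 (.corner 12 13 14 [9, 8] [2, 18, 0]),
  .ne 0 3 (.corner 8 9 10 [11] [15, 0, 12]),
  .ne 0 4 (.corner 16 17 11 [10, 15] [8, 12, 0]),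
  .ne 0 15 (.corner 8 9 10 [11] [0, 12]),
  .ne 0 16 (.corner 8 9 10 [11] [15, 0, 12]),
  .ne 1 3 (.corner 13 14 9 [8, 12] [10, 15, 1]),
  .ne 1 5 (.corner 8 12 13 [14, 9] [1, 17, 11]),
  .ne 1 15 (.corner 13 14 9 [8, 12] [10, 1]),
  .ne 1 16 (.corner 8 12 13 [14, 9] [1, 17, 11]),
  .ne 1 17 (.corner 8 12 13 [14, 9] [1, 11]),
  .ne 2 4 (.corner 10 15 16 [17, 11] [2, 14, 9]),
  .ne 2 5 (.corner 9 10 11 [8] [17, 2, 14]),
  .ne 2 16 (.corner 9 10 11 [8] [17, 2, 14]),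
  .ne 2 17 (.corner 9 10 11 [8] [2, 14]),
  .ne 3 12 (.corner 8 9 10 [11] [15, 3]),
  .ne 3 13 (.corner 8 9 10 [11] [15, 3, 12]),
  .ne 4 12 (.corner 16 17 11 [10, 15] [8, 4]),
  .ne 4 13 (.corner 10 15 16 [17, 11] [4, 14, 9]),
  .ne 4 14 (.corner 10 15 16 [17, 11] [4, 9]),
  .ne 5 13 (.corner 9 10 11 [8] [17, 5, 14]),
  .ne 5 14 (.corner 9 10 11 [8] [17, 5])]

set_option synthInstance.maxSize 200000 in
theorem C545_ext14 : C545.Ext [(1, 4)] :=
  Red.ext_of_check check_C545 (by decide)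

set_option synthInstance.maxSize 200000 in
theorem C545_data14 : Data C545 [(6, 17), (7, 16)]
    [(0, [12, 13, 14], 2), (17, [11, 10, 15], 3), (17, [], 5), (17, [], 16), (16, [], 4)] []
    [(1, 4)] [(0, 2)] [(3, 5)] := by
  constructor <;> decide

/-- The table. -/
def t545 : List (ℕ × ℕ × ℕ × ℕ) :=
  [(8, 9, 11, 12), (9, 8, 10, 14), (10, 9, 11, 15), (11, 8, 10, 17), (12, 8, 13, 0),
    (13, 12, 14, 1), (14, 9, 13, 2), (15, 10, 16, 3), (16, 15, 17, 4), (17, 11, 16, 5)]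

/-- **No 4-cycle lies between two 5-cycles only.** -/
theorem no_F545 {V : Type} [Fintype V] [DecidableEq V] {G : SimpleGraph V} (hmin : MinCex G)
    (hr : Rules G tA4 tB4) {a b c d p1 p2 p3 q1 q2 q3 t0 t1 t2 t3 t4 t5 : V}
    (ha : Nb3 G a b d p1) (hb : Nb3 G b a c p3) (hc : Nb3 G c b d q1) (hd : Nb3 G d a c q3)
    (hp1 : Nb3 G p1 a p2 t0) (hp2 : Nb3 G p2 p1 p3 t1) (hp3 : Nb3 G p3 b p2 t2)
    (hq1 : Nb3 G q1 c q2 t3) (hq2 : Nb3 G q2 q1 q3 t4) (hq3 : Nb3 G q3 d q2 t5)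
    (h23 : t2 ≠ t3) (h05 : t0 ≠ t5) : False := by
  set f : ℕ → V := fun n =>
    [t0, t1, t2, t3, t4, t5, a, a, a, b, c, d, p1, p2, p3, q1, q2, q3].getD n a with hf
  have hN : TabOk G f t545 := by
    intro e he
    simp only [t545, List.mem_cons, List.not_mem_nil, or_false] at he
    rcases he with rfl | rfl | rfl | rfl | rfl | rfl | rfl | rfl | rfl | rfl
    · exact ha
    · exact hb
    · exact hc
    · exact hd
    · exact hp1
    · exact hp2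
    · exact hp3
    · exact hq1
    · exact hq2
    · exact hq3
  refine no_conf_of_tab hmin hr C545_ext14 C545_data14 hN (I := [8, 9, 10, 11, 12, 13, 14, 15, 16, 17])
    (L := [0, 1, 2, 3, 4, 5, 8, 9, 10, 11, 12, 13, 14, 15, 16, 17]) (by decide) (by decide)
    (xs := [(2, 3), (0, 5)]) ?_ (ts := steps545) (by decide) (by decide) (by decide +kernel)
  intro e he
  simp only [List.mem_cons, List.not_mem_nil, or_false] at he
  rcases he with rfl | rfl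
  · exact h23
  · exact h05

/-! ## A 4-cycle surrounded by four 5-cycles -/

/-- Certificate. -/
def steps4F : List Step := [
  .ne 0 10 (.tri 0 14 15),
  .ne 0 11 (.tri 0 16 15),
  .ne 0 12 (.corner 15 16 11 [10, 14] [0]),
  .ne 0 13 (.corner 10 14 15 [16, 11] [0]),
  .ne 0 17 (.tri 0 16 15),
  .ne 0 21 (.tri 0 14 15),
  .ne 1 10 (.corner 11 16 17 [18, 12] [1]),
  .ne 1 11 (.tri 1 17 16),
  .ne 1 12 (.tri 17 18 1),
  .ne 1 13 (.corner 17 18 12 [11, 16] [1]),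
  .ne 1 15 (.tri 1 17 16),
  .ne 1 19 (.tri 17 18 1),
  .ne 2 10 (.corner 19 20 13 [12, 18] [2]),
  .ne 2 11 (.corner 12 18 19 [20, 13] [2]),
  .ne 2 12 (.tri 18 19 2),
  .ne 2 13 (.tri 2 20 19),
  .ne 2 17 (.tri 18 19 2),
  .ne 2 21 (.tri 2 20 19),
  .ne 3 10 (.tri 14 21 3),
  .ne 3 11 (.corner 21 14 10 [13, 20] [3]),
  .ne 3 12 (.corner 13 20 21 [14, 10] [3]),
  .ne 3 13 (.tri 3 21 20),
  .ne 3 15 (.tri 14 21 3),
  .ne 3 19 (.tri 3 21 20),
  .ne 10 17 (.tri 10 11 16),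
  .ne 10 18 (.tri 12 13 10),
  .ne 10 19 (.tri 13 20 10),
  .ne 11 19 (.tri 12 18 11),
  .ne 11 20 (.tri 12 13 11),
  .ne 11 21 (.tri 11 14 10),
  .ne 12 14 (.tri 12 13 10),
  .ne 12 15 (.tri 12 16 11),
  .ne 12 21 (.tri 12 13 20),
  .ne 13 15 (.tri 13 14 10),
  .ne 13 16 (.tri 12 13 11),
  .ne 13 17 (.tri 12 13 18),
  .ne 14 17 (.tri 14 16 15),
  .ne 14 18 (.corner 10 11 12 [13] [14]),
  .ne 14 19 (.tri 14 21 20),
  .ne 15 18 (.tri 15 17 16),
  .ne 15 19 (.corner 16 17 18 [12, 11] [15]),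
  .ne 15 20 (.tri 15 21 14),
  .ne 16 19 (.tri 17 18 16),
  .ne 16 20 (.edge 10 11 [12, 13] [16, 13]),
  .ne 16 21 (.tri 14 16 15),
  .ne 17 20 (.tri 17 18 19),
  .ne 17 21 (.corner 14 15 16 [11, 10] [17]),
  .ne 18 21 (.tri 18 20 19),
  .ne 0 2 (.corner 16 17 18 [12, 11] [19, 0, 15]),
  .ne 0 18 (.corner 15 16 11 [10, 14] [12, 0]),
  .ne 0 19 (.corner 16 17 18 [12, 11] [0, 15]),
  .ne 0 20 (.corner 10 14 15 [16, 11] [0, 13]),
  .ne 1 3 (.corner 14 15 16 [11, 10] [17, 1, 21]),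
  .ne 1 14 (.corner 11 16 17 [18, 12] [1, 10]),
  .ne 1 20 (.corner 17 18 12 [11, 16] [13, 1]),
  .ne 1 21 (.corner 14 15 16 [11, 10] [17, 1]),
  .ne 2 14 (.corner 19 20 13 [12, 18] [10, 2]),
  .ne 2 15 (.corner 16 17 18 [12, 11] [19, 2]),
  .ne 2 16 (.corner 12 18 19 [20, 13] [2, 11]),
  .ne 3 16 (.corner 21 14 10 [13, 20] [11, 3]),
  .ne 3 17 (.corner 14 15 16 [11, 10] [3, 21]),
  .ne 3 18 (.corner 13 20 21 [14, 10] [3, 12])]

set_option synthInstance.maxSize 200000 in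
theorem C4F_ext4 : C4F.Ext [(0, 1), (1, 2), (2, 3), (0, 3)] :=
  Red.ext_of_check check_C4F (by decide)

set_option synthInstance.maxSize 200000 in
theorem C4F_data4 : Data C4F [(4, 15), (5, 18), (6, 19), (7, 14), (8, 21), (9, 17)]
    [(0, [], 15), (15, [], 14), (14, [10, 11, 16], 17), (17, [], 1), (17, [], 18), (18, [], 19),
      (19, [], 2), (18, [12, 13, 20], 21), (21, [], 3), (14, [], 21)] []
    [(0, 1), (1, 2), (2, 3), (0, 3)] [] [] := by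
  constructor <;> decide

/-- The table. -/
def t4F : List (ℕ × ℕ × ℕ × ℕ) :=
  [(10, 11, 13, 14), (11, 10, 12, 16), (12, 11, 13, 18), (13, 10, 12, 20), (14, 10, 15, 21),
    (15, 14, 16, 0), (16, 11, 15, 17), (17, 16, 18, 1), (18, 12, 17, 19), (19, 18, 20, 2),
    (20, 13, 19, 21), (21, 14, 20, 3)]

/-- **No 4-cycle is surrounded by four 5-cycles.** -/
theorem no_C45555 {V : Type} [Fintype V] [DecidableEq V] {G : SimpleGraph V} (hmin : MinCex G)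
    (hr : Rules G tA4 tB4) {a b c d p1 p2 p3 w q1 q2 q3 z t0 t1 t2 t3 : V}
    (ha : Nb3 G a b d p1) (hb : Nb3 G b a c p3) (hc : Nb3 G c b d q1) (hd : Nb3 G d a c q3)
    (hp1 : Nb3 G p1 a p2 z) (hp2 : Nb3 G p2 p1 p3 t0) (hp3 : Nb3 G p3 b p2 w)
    (hw : Nb3 G w p3 q1 t1) (hq1 : Nb3 G q1 c w q2) (hq2 : Nb3 G q2 q1 q3 t2)
    (hq3 : Nb3 G q3 d q2 z) (hz : Nb3 G z p1 q3 t3) : False := by
  set f : ℕ → V := fun n =>
    [t0, t1, t2, t3, a, a, a, a, a, a, a, b, c, d, p1, p2, p3, w, q1, q2, q3, z].getD n a with hf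
  have hN : TabOk G f t4F := by
    intro e he
    simp only [t4F, List.mem_cons, List.not_mem_nil, or_false] at he
    rcases he with rfl | rfl | rfl | rfl | rfl | rfl | rfl | rfl | rfl | rfl | rfl | rfl
    · exact ha
    · exact hb
    · exact hc
    · exact hd
    · exact hp1
    · exact hp2
    · exact hp3
    · exact hw
    · exact hq1
    · exact hq2
    · exact hq3
    · exact hz
  exact no_conf_of_tab hmin hr C4F_ext4 C4F_data4 hN
    (I := [10, 11, 12, 13, 14, 15, 16, 17, 18, 19, 20, 21])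
    (L := [0, 1, 2, 3, 10, 11, 12, 13, 14, 15, 16, 17, 18, 19, 20, 21]) (by decide) (by decide)
    (xs := []) (by simp) (ts := steps4F) (by decide) (by decide) (by decide +kernel)

end Pool.Agent.T1Red
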