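import Mathlib
import Pool.Agent.Work.MP_392c8e_co_t1.Corners
import Pool.Agent.Work.MP_392c8e_co_t1.Maps

/-!
# Recognizing faces of length five
-/

namespace Pool.Agent.T392

open Finset Pool.Agent.Sub392 Pool.T1Side Pool.Agent.T1FF

set_option linter.unusedSectionVars false

variable {V : Type} [Fintype V] [DecidableEq V] {G : SimpleGraph V} [DecidableRel G.Adj]
  {R : Rot G} {d : G.Dart} {L : ℕ}

/-- Faces of length five whose vertices have degree three. -/
theorem good_of_sz (g : Geo R) (h5 : ∀ d : G.Dart, sz R d = 5 → G.degree d.fst ≠ 2)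
    (hd : sz R d = 5) : Good R d 5 := by
  refine ⟨hd, fun n => ?_⟩
  have h1 : sz R ((R.next ^ n) d) = 5 := by
    unfold sz
    rw [face_pow]
    exact hd
  rcases g.deg_cases ((R.next ^ n) d).fst with h2 | h2
  · exact absurd h2 (h5 _ h1)
  · exact h2

/-- A closed walk of length five through the corner of a face. -/
theorem five_of_walk (g : Geo R) (hbad : ¬ Bad R 5) {v0 v1 v2 v3 v4 : V}
    (a0 : G.Adj v0 v1) (a1 : G.Adj v1 v2) (a2 : G.Adj v2 v3) (a3 : G.Adj v3 v4)
    (a4 : G.Adj v4 v0) (n0 : v0 ≠ v2) (n1 : v1 ≠ v3) (n2 : v2 ≠ v4) (n3 : v3 ≠ v0)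
    (n4 : v4 ≠ v1) (e : G.Dart) (h0 : e.fst = v0) (h1 : e.snd = v1)
    (h2 : (R.next e).snd = v2) (hdeg : G.degree v1 = 3) : sz R e = 5 := by
  refine (g.corner (l := 5) (by norm_num) hbad (![v0, v1, v2, v3, v4] : ZMod 5 → V) ?_ ?_ e
    h0 h1 h2 hdeg).1
  · intro i
    fin_cases i
    · exact a0
    · exact a1
    · exact a2
    · exact a3
    · exact a4
  · intro i
    fin_cases i
    · exact n0
    · exact n1
    · exact n2
    · exact n3
    · exact n4

/-- A common neighbour of the third neighbours of two consecutive vertices. -/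
theorem five_of_common (g : Geo R) (hbad : ¬ Bad R 5) (h : Good R d L) (hL : 1 < L) (n : ℕ)
    {w : V} (h1 : G.Adj (Y R d n) w) (h2 : G.Adj (Y R d (n + 1)) w) (hw : w ≠ X R d n)
    (hw' : w ≠ X R d (n + 1)) : sz R (ac R d n) = 5 := by
  have k0 := h.nb3 hL n
  have k1 := h.nb3 hL (n + 1)
  have hne : Y R d n ≠ Y R d (n + 1) := by
    intro he
    have := k1.hc
    rw [← he] at this
    exact no_tri g.tri k0.ha this k0.hc
  have e : n + 1 + (L - 1) = n + L := by omega
  have e2 : X R d (n + L) = X R d n := by unfold X; rw [h.pow_add]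
  refine five_of_walk g hbad (v0 := X R d (n + 1)) (v1 := X R d n) (v2 := Y R d n) (v3 := w)
    (v4 := Y R d (n + 1)) k0.ha.symm k0.hc h1 h2.symm k1.hc.symm k0.ac hw.symm hne hw' ?_
    (ac R d n) ?_ ?_ ?_ ?_
  · have := k1.bc
    rw [e, e2] at this
    exact this.symm
  · exact ac_X0 R d n
  · have := ac_X1 R d n
    rw [← this]
    show (ac R d n).snd = ((R.next ^ 1) (ac R d n)).fst
    rw [pow_one, R.fst_next]
  · have := ac_X2 R d n
    rw [← this]
    exact snd_pow R (ac R d n) 1 |>.symm ▸ rfl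
  · exact h.cub n

end Pool.Agent.T392
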