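import Mathlib
import Pool.Agent.Work.MP_392c8e_co_t1.Four5
import Pool.Agent.Work.MP_392c8e_co_t1.MapFour
import Pool.Agent.Work.MP_392c8e_co_t1.R2Geo
import Pool.Agent.Work.MP_392c8e_co_t1.Stages

/-!
# No face of length four is adjacent to a face of length five

The hypothesis `h45` is the fourth reducer: if a face of length four is adjacent to a face of
length five, then the face across the opposite edge has length five.
-/

namespace Pool.Agent.T392

open Finset Pool.Agent.Sub392 Pool.T1Side Pool.Agent.T1FF Pool.Agent.T1Red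
open Pool.Agent.Red (Pl MinCex StrictCol)

set_option linter.unusedSectionVars false

variable {V : Type} [Fintype V] [DecidableEq V] {G : SimpleGraph V} [DecidableRel G.Adj]
  {R : Rot G} {d : G.Dart} {L : ℕ}

/-- Faces of length four whose vertices have degree three. -/
theorem good4_of_sz (g : Geo R) (h4 : ∀ d : G.Dart, sz R d = 4 → G.degree d.fst ≠ 2)
    (hd : sz R d = 4) : Good R d 4 := by
  refine ⟨hd, fun n => ?_⟩
  have h1 : sz R ((R.next ^ n) d) = 4 := by
    unfold sz
    rw [face_pow]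
    exact hd
  rcases g.deg_cases ((R.next ^ n) d).fst with h2 | h2
  · exact absurd h2 (h4 _ h1)
  · exact h2

theorem rules_tA4 (hr : Rules G A6 B6) : Rules G tA4 tB4 := by
  refine Rules.mono hr ?_ ?_
  · intro k l h
    simp only [tA4, A6, Bool.and_eq_true, Bool.or_eq_true, Nat.ble_eq, Nat.beq_eq] at h ⊢
    omega
  · intro k l h
    simp only [tB4, B6, Bool.and_eq_true, Nat.ble_eq, Nat.beq_eq] at h ⊢
    omega

theorem ac_shift (R : Rot G) (d : G.Dart) (k n : ℕ) :
    ac R ((R.next ^ k) d) n = ac R d (n + k) := by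
  unfold ac
  rw [← Equiv.Perm.mul_apply, ← pow_add]

/-- **No 4-face has four adjacent 5-faces.** -/
theorem no_four5 (hmin : MinCex G) (hr : Rules G A6 B6) (h : Good R d 4)
    (g : ∀ n, n < 4 → Good R (ac R d n) 5) : False := by
  have ht := tab4F h g
  have k : ∀ e ∈ T1FF.t4F, Nb3 G (f4F R d e.1) (f4F R d e.2.1) (f4F R d e.2.2.1)
    (f4F R d e.2.2.2) := ht
  have a1 := k (10, 11, 13, 14) (by decide)
  have a2 := k (11, 12, 10, 16) (by decide)
  have a3 := k (12, 13, 11, 18) (by decide)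
  have a4 := k (13, 10, 12, 20) (by decide)
  have a5 := k (14, 15, 10, 21) (by decide)
  have a6 := k (16, 17, 11, 15) (by decide)
  have a7 := k (18, 19, 12, 17) (by decide)
  have a8 := k (20, 21, 13, 19) (by decide)
  have a9 := k (15, 16, 14, 0) (by decide)
  have a10 := k (17, 18, 16, 1) (by decide)
  have a11 := k (19, 20, 18, 2) (by decide)
  have a12 := k (21, 14, 20, 3) (by decide)
  exact no_C45555 hmin (rules_tA4 hr) (a := f4F R d 10) (b := f4F R d 11) (c := f4F R d 12)
    (d := f4F R d 13) (p1 := f4F R d 14) (p2 := f4F R d 15) (p3 := f4F R d 16) (w := f4F R d 17)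
    (q1 := f4F R d 18) (q2 := f4F R d 19) (q3 := f4F R d 20) (z := f4F R d 21)
    a1 a2.s12 a3.s12 a4 a5.s12 a9.s12 (a6.s12.s23) a10.s12 (a7.s12.s23.s12.s12.s23.s23) a11.s12
    (a8.s12.s23) a12

/-- A 4-face between two 5-faces has another adjacent 5-face. -/
theorem two5 (hmin : MinCex G) (g : Geo R) (hbad : ¬ Bad R 5) (hr : Rules G A6 B6)
    (h : Good R d 4) (h0 : Good R (ac R d 0) 5) (h2 : Good R (ac R d 2) 5) :
    sz R (ac R d 1) = 5 ∨ sz R (ac R d 3) = 5 := by
  by_contra hcon
  push Not at hcon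
  have ht := tab545 h h0 h2
  have k : ∀ e ∈ T1FF.t545, Nb3 G (f545 R d e.1) (f545 R d e.2.1) (f545 R d e.2.2.1)
    (f545 R d e.2.2.2) := ht
  have a1 := k (8, 9, 11, 12) (by decide)
  have a2 := k (9, 10, 8, 14) (by decide)
  have a3 := k (10, 11, 9, 15) (by decide)
  have a4 := k (11, 8, 10, 17) (by decide)
  have a5 := k (12, 13, 8, 0) (by decide)
  have a6 := k (13, 14, 12, 1) (by decide)
  have a7 := k (14, 9, 13, 2) (by decide)
  have a8 := k (15, 16, 10, 3) (by decide)
  have a9 := k (16, 17, 15, 4) (by decide)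
  have a10 := k (17, 11, 16, 5) (by decide)
  -- the labels of the third neighbours
  have e12 : f545 R d 12 = Y R d 0 := ac_X2 R d 0
  have e14 : f545 R d 14 = Y R d 1 := h.ac_last 0 h0 (by norm_num)
  have e15 : f545 R d 15 = Y R d 2 := ac_X2 R d 2
  have e17 : f545 R d 17 = Y R d 3 := h.ac_last 2 h2 (by norm_num)
  refine no_F545 hmin (rules_tA4 hr) (a := f545 R d 8) (b := f545 R d 9) (c := f545 R d 10)
    (d := f545 R d 11) (p1 := f545 R d 12) (p2 := f545 R d 13) (p3 := f545 R d 14)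
    (q1 := f545 R d 15) (q2 := f545 R d 16) (q3 := f545 R d 17) (t0 := f545 R d 0)
    (t1 := f545 R d 1) (t2 := f545 R d 2) (t3 := f545 R d 3) (t4 := f545 R d 4)
    (t5 := f545 R d 5) a1 a2.s12 a3.s12 a4 a5.s12 a6.s12 a7 a8.s12 a9.s12 a10 ?_ ?_
  · intro he
    refine hcon.1 (five_of_common g hbad h (by norm_num) 1 (w := f545 R d 2) ?_ ?_ ?_ ?_)
    · rw [← e14]
      exact a7.hc
    · rw [← e15, he]
      exact a8.hc
    · exact a7.ac.symm
    · rw [he]
      exact a8.bc.symm
  · intro he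
    refine hcon.2 (five_of_common g hbad h (by norm_num) 3 (w := f545 R d 0) ?_ ?_ ?_ ?_)
    · rw [← e17, he]
      exact a10.hc
    · have y4 : Y R d 4 = Y R d 0 := h.Y_mod 4
      rw [y4, ← e12]
      exact a5.hc
    · rw [he]
      exact a10.ac.symm
    · have x4 : X R d 4 = X R d 0 := h.X_mod 4
      rw [x4]
      exact a5.bc.symm

/-- **No 4-face is adjacent to a 5-face**, if 5-faces at 4-faces are opposite. -/
theorem no45_of_opp (hmin : MinCex G) (g : Geo R)
    (h4 : ∀ d : G.Dart, sz R d = 4 → G.degree d.fst ≠ 2)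
    (h44 : ∀ d : G.Dart, sz R d = 4 → sz R d.symm ≠ 4)
    (h5 : ∀ d : G.Dart, sz R d = 5 → G.degree d.fst ≠ 2)
    (hopp : ∀ d : G.Dart, sz R d = 4 → sz R (ac R d 0) = 5 → sz R (ac R d 2) = 5)
    (d : G.Dart) (hd : sz R d = 4) : sz R d.symm ≠ 5 := by
  intro hs
  have hr := g.rules6 h4 h44 h5
  have hbad := g.not_bad5 h4
  have hsz : ∀ k, sz R ((R.next ^ k) d) = 4 := fun k => by
    unfold sz
    rw [face_pow]
    exact hd
  have hG : Good R d 4 := good4_of_sz g h4 hd
  have s0 : sz R (ac R d 0) = 5 := hs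
  have key : ∀ k, sz R (ac R d k) = 5 → sz R (ac R d (k + 2)) = 5 := by
    intro k hk
    have h1 := hopp ((R.next ^ k) d) (hsz k) (by rw [ac_shift, zero_add]; exact hk)
    rw [ac_shift] at h1
    rw [Nat.add_comm k 2]
    exact h1
  have s2 := key 0 s0
  have gd : ∀ n, sz R (ac R d n) = 5 → Good R (ac R d n) 5 := fun n hn => good_of_sz g h5 hn
  have all : sz R (ac R d 1) = 5 ∧ sz R (ac R d 3) = 5 := by
    rcases two5 hmin g hbad hr hG (gd 0 s0) (gd 2 s2) with h1 | h1
    · exact ⟨h1, key 1 h1⟩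
    · refine ⟨?_, h1⟩
      have h2 := key 3 h1
      rw [show 3 + 2 = 1 + 4 from rfl, ac_per hG] at h2
      exact h2
  refine no_four5 hmin hr hG fun n hn => gd n ?_
  interval_cases n
  · exact s0
  · exact all.1
  · exact s2
  · exact all.2

end Pool.Agent.T392
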