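import Mathlib

/-!
Closure step for the reducibility of adjacent 5-faces (abstract form).

`D` : darts, `al` : reversal, `ph` : next dart along the face, `s d` : length of the
face of `d`.  The vertices of the 5-faces have degree 3 (`deg3`).  The face across the dart `d` is the
face of `al d`.  For adjacent 5-faces `X` (dart `d`) and `Y` (dart `al d`):
the faces around `X` are `al (ph^i d)`, i = 0..4, = Y, a, x_a, x_c, c, and those around
`Y` are `al (ph^i (al d))` = X, c, y_c, y_a, a.
-/

namespace Pool.T1Closure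

variable {D : Type*} (al ph : Equiv.Perm D) (s : D → ℕ)

/-- data of a plane graph that the closure needs; the vertices of 5-faces have degree 3 -/
structure Setup : Prop where
  al_al : ∀ d, al (al d) = d
  deg3 : ∀ d, s d = 5 → ph (al (ph (al (ph (al d))))) = d
  s_ph : ∀ d, s (ph d) = s d
  five : ∀ d, s d = 5 → ph (ph (ph (ph (ph d)))) = d

/-- Lemma A (two adjacent 5-faces, both matchings). -/
def LemA : Prop := ∀ d, s d = 5 → s (al d) = 5 →
  (s (al (ph (ph (ph d)))) = 5 ∨ s (al (ph (ph (ph (al d))))) = 5) ∧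
  (s (al (ph (ph d))) = 5 ∨ s (al (ph (ph (al d)))) = 5)

/-- Lemma B (three 5-faces X, Y, y_a along a face a which is not a 5-face): x_c is a 5-face. -/
def LemB : Prop := ∀ d, s d = 5 → s (al d) = 5 → s (al (ph (ph (ph (al d))))) = 5 →
  s (al (ph d)) ≠ 5 → s (al (ph (ph (ph d)))) = 5

/-- mirror image of Lemma B: three 5-faces Y, X, x_a along a: y_c is a 5-face. -/
def LemB' : Prop := ∀ d, s d = 5 → s (al d) = 5 → s (al (ph (ph d))) = 5 →
  s (al (ph d)) ≠ 5 → s (al (ph (ph (al d)))) = 5

/-- Lemma F: no 5-face has five neighbouring 5-faces. -/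
def LemF : Prop := ∀ d, s d = 5 → s (al d) = 5 → s (al (ph d)) = 5 → s (al (ph (ph d))) = 5 →
  s (al (ph (ph (ph d)))) = 5 → s (al (ph (ph (ph (ph d))))) = 5 → False

variable {al ph s}

/-- third face at the head of a dart, first form -/
theorem Setup.third (h : Setup al ph s) {d : D} (hd : s d = 5) :
    ph (al (ph (al d))) = al (ph.symm d) := by
  have h1 := h.deg3 d hd
  have h2 : al (ph (al (ph (al d)))) = ph.symm d := by
    rw [Equiv.eq_symm_apply]; exact h1
  rw [← h2, h.al_al]

theorem Setup.s_symm (h : Setup al ph s) (d : D) : s (ph.symm d) = s d := by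
  have := h.s_ph (ph.symm d)
  rw [Equiv.apply_symm_apply] at this
  exact this.symm

/-- the third face at the head of `d` seen from both sides -/
theorem Setup.third_s (h : Setup al ph s) {d : D} (hd : s (al d) = 5) :
    s (al (ph.symm (al d))) = s (al (ph d)) := by
  have h1 := h.third hd
  rw [h.al_al] at h1
  rw [← h1, h.s_ph]

theorem Setup.symm_five (h : Setup al ph s) {d : D} (hd : s d = 5) :
    ph.symm d = ph (ph (ph (ph d))) := by
  rw [Equiv.symm_apply_eq]; exact (h.five d hd).symm

/-- N_4 of `al d` is N_1 of `d` -/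
theorem Setup.n4 (h : Setup al ph s) {d : D} (hd : s (al d) = 5) :
    s (al (ph (ph (ph (ph (al d)))))) = s (al (ph d)) := by
  rw [← h.symm_five hd]; exact h.third_s hd

/-- N_1 of `al d` is N_4 of `d` -/
theorem Setup.n1 (h : Setup al ph s) {d : D} (hd : s d = 5) :
    s (al (ph (al d))) = s (al (ph (ph (ph (ph d))))) := by
  have := h.n4 (d := al d) (by rwa [h.al_al])
  rw [h.al_al] at this
  exact this.symm

theorem star (h : Setup al ph s) (hA : LemA al ph s) (hB : LemB al ph s) (hB' : LemB' al ph s)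
    (d : D) (h0 : s d = 5) (h1 : s (al d) = 5) (ha : s (al (ph d)) ≠ 5) :
    s (al (ph (ph (ph d)))) = 5 ∧ s (al (ph (ph (al d)))) = 5 := by
  obtain ⟨A1, A2⟩ := hA d h0 h1
  constructor
  · rcases A1 with A1 | A1
    · exact A1
    · exact hB d h0 h1 A1 ha
  · rcases A2 with A2 | A2
    · exact hB' d h0 h1 A2 ha
    · exact A2

/-- if `a` is not a 5-face then `c` is -/
theorem star2 (h : Setup al ph s) (hA : LemA al ph s) (hB : LemB al ph s) (hB' : LemB' al ph s)
    (d : D) (h0 : s d = 5) (h1 : s (al d) = 5) (ha : s (al (ph d)) ≠ 5) :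
    s (al (ph (ph (ph (ph d))))) = 5 := by
  by_contra hc
  -- star for al d
  have hc' : s (al (ph (al d))) ≠ 5 := by rw [h.n1 h0]; exact hc
  obtain ⟨_, hx⟩ := star h hA hB hB' (al d) h1 (by rwa [h.al_al]) hc'
  rw [h.al_al] at hx
  -- hx : x_a is a 5-face; pair (X, x_a), dart e = ph (ph d)
  have he : s (ph (ph d)) = 5 := by rw [h.s_ph, h.s_ph]; exact h0
  have hne : s (al (ph (al (ph (ph d))))) ≠ 5 := by
    rw [h.n1 he]
    have : ph (ph (ph (ph (ph (ph d))))) = ph d := by rw [h.five d h0]
    rw [this]; exact ha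
  obtain ⟨_, hz⟩ := star h hA hB hB' (al (ph (ph d))) hx (by rwa [h.al_al]) hne
  rw [h.al_al] at hz
  exact hc hz

/-- MAIN: no two 5-faces are adjacent. -/
theorem no_adjacent_five (h : Setup al ph s) (hA : LemA al ph s) (hB : LemB al ph s)
    (hB' : LemB' al ph s) (hF : LemF al ph s) (d : D) (h0 : s d = 5) : s (al d) ≠ 5 := by
  -- core: a dart with N_0 = 5, N_1 ≠ 5 is impossible
  have core : ∀ d, s d = 5 → s (al d) = 5 → s (al (ph d)) ≠ 5 → False := by
    intro d h0 h1 ha
    have h3 := (star h hA hB hB' d h0 h1 ha).1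
    have h4 := star2 h hA hB hB' d h0 h1 ha
    -- e = ph^4 d = ph.symm d, dart of X towards c
    have he : s (ph (ph (ph (ph d)))) = 5 := by
      rw [h.s_ph, h.s_ph, h.s_ph, h.s_ph]; exact h0
    have p5 := h.five d h0
    obtain ⟨A1, A2⟩ := hA (ph (ph (ph (ph d)))) he h4
    -- A2 : N_2(e) = N_1(d) = a or N_2 (al e) = 5
    rw [p5] at A1 A2
    have hz : s (al (ph (ph (al (ph (ph (ph (ph d)))))))) = 5 := by
      rcases A2 with A2 | A2
      · exact absurd A2 ha
      · exact A2
    -- neighbours of c : X, b, z, c', Y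
    have hb : s (al (ph (al (ph (ph (ph (ph d))))))) = 5 := by
      rw [h.n1 he, p5]; exact h3
    have hY : s (al (ph (ph (ph (ph (al (ph (ph (ph (ph d)))))))))) = 5 := by
      rw [h.n4 h4, p5]; exact h1
    by_cases h2 : s (al (ph (ph d))) = 5
    · -- run of four
      have hc' : s (al (ph (ph (ph (al (ph (ph (ph (ph d))))))))) ≠ 5 := by
        intro hcc
        exact hF (al (ph (ph (ph (ph d))))) h4 (by rw [h.al_al]; exact he) hb hz hcc hY
      -- link of Y from al d : X, c, y_c, ..., a with a ≠ 5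
      have hY4 : s (al (ph (ph (ph (ph (al d)))))) ≠ 5 := by rw [h.n4 h1]; exact ha
      -- P2 for al d : N_2 (al d) = 5
      have hy : s (al (ph (ph (al d)))) = 5 := (star h hA hB hB' d h0 h1 ha).2
      apply hc'
      -- identify the two darts
      have e1 : ph (ph (ph (ph d))) = ph.symm d := (h.symm_five h0).symm
      -- al e = ph (al (ph (al d)))
      have e2 : al (ph (ph (ph (ph d)))) = ph (al (ph (al d))) := by
        rw [e1]; exact (h.third h0).symm
      have e3 : ph (ph (ph (al (ph (ph (ph (ph d))))))) = ph.symm (ph.symm (al (ph (ph (ph (ph d)))))) := by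
        rw [Equiv.eq_symm_apply, Equiv.eq_symm_apply]
        exact h.five _ h4
      rw [e3, e2, Equiv.symm_apply_apply, h.third_s (by rw [h.n1 h0]; exact h4)]
      exact hy
    · -- run of three
      have hc1 : s (al (ph (ph (ph (al (ph (ph (ph (ph d))))))))) = 5 := by
        rcases A1 with A1 | A1
        · exact absurd A1 h2
        · exact A1
      exact hF (al (ph (ph (ph (ph d))))) h4 (by rw [h.al_al]; exact he) hb hz hc1 hY
  intro h1
  have q1 : s (al (ph d)) = 5 := by
    by_contra hn; exact core d h0 h1 hn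
  have q2 : s (al (ph (ph d))) = 5 := by
    by_contra hn; exact core (ph d) (by rw [h.s_ph]; exact h0) q1 hn
  have q3 : s (al (ph (ph (ph d)))) = 5 := by
    by_contra hn; exact core (ph (ph d)) (by rw [h.s_ph, h.s_ph]; exact h0) q2 hn
  have q4 : s (al (ph (ph (ph (ph d))))) = 5 := by
    by_contra hn; exact core (ph (ph (ph d))) (by rw [h.s_ph, h.s_ph, h.s_ph]; exact h0) q3 hn
  exact hF d h0 h1 q1 q2 q3 q4

end Pool.T1Closure
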