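import Mathlib
import Pool.Agent.Work.MP_392c8e_co_t1.SideR
import Pool.Agent.Work.MP_392c8e_co_t1.Inst.C3

/-!
# Certificates for the side conditions: C3
-/

namespace Pool.T1Side

open Pool.Agent.T1Red

/-- Certificate. -/
def C3_steps : List Step := [
  .ne 0 1 (.tri 0 11 7),
  .ne 0 2 (.corner 15 11 7 [8, 12] [0]),
  .ne 0 9 (.tri 0 8 7),
  .ne 0 10 (.edge 7 8 [12, 15, 11] [9, 0]),
  .ne 0 12 (.tri 0 8 7),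
  .ne 0 13 (.edge 7 8 [12, 15, 11] [9, 0]),
  .ne 0 15 (.tri 0 11 7),
  .ne 0 16 (.corner 7 8 12 [15, 11] [0]),
  .ne 1 2 (.tri 1 15 11),
  .ne 1 8 (.tri 1 11 7),
  .ne 1 9 (.edge 7 8 [12, 15, 11] [1, 11]),
  .ne 1 12 (.tri 1 15 11),
  .ne 1 16 (.corner 12 15 11 [7, 8] [1]),
  .ne 2 3 (.edge 12 15 [11, 7, 8] [2, 16]),
  .ne 2 7 (.tri 2 11 15),
  .ne 2 8 (.tri 12 15 2),
  .ne 2 9 (.corner 8 12 15 [11, 7] [2]),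
  .ne 2 13 (.edge 12 15 [11, 7, 8] [2, 16]),
  .ne 2 16 (.tri 12 15 2),
  .ne 3 4 (.edge 13 16 [12, 8, 9] [3, 17]),
  .ne 3 7 (.corner 16 12 8 [9, 13] [3]),
  .ne 3 8 (.tri 12 16 3),
  .ne 3 9 (.tri 3 16 13),
  .ne 3 10 (.corner 9 13 16 [12, 8] [3]),
  .ne 3 11 (.edge 16 12 [8, 9, 13] [15, 3]),
  .ne 3 14 (.edge 13 16 [12, 8, 9] [3, 17]),
  .ne 3 15 (.tri 12 16 3),
  .ne 3 17 (.tri 3 16 13),
  .ne 4 5 (.tri 4 14 17),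
  .ne 4 6 (.corner 10 14 17 [13, 9] [4]),
  .ne 4 8 (.corner 17 13 9 [10, 14] [4]),
  .ne 4 9 (.tri 13 17 4),
  .ne 4 10 (.tri 4 14 17),
  .ne 4 12 (.edge 17 13 [9, 10, 14] [16, 4]),
  .ne 4 16 (.tri 13 17 4),
  .ne 5 6 (.tri 5 10 14),
  .ne 5 8 (.corner 9 10 14 [17, 13] [5]),
  .ne 5 9 (.tri 5 10 14),
  .ne 5 13 (.tri 14 17 5),
  .ne 5 16 (.corner 14 17 13 [9, 10] [5]),
  .ne 6 7 (.edge 8 9 [13, 16, 12] [10, 6]),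
  .ne 6 8 (.tri 9 10 6),
  .ne 6 12 (.edge 9 10 [14, 17, 13] [6, 8]),
  .ne 6 13 (.tri 9 10 6),
  .ne 6 16 (.edge 9 10 [14, 17, 13] [6, 13]),
  .ne 6 17 (.tri 6 14 10),
  .ne 7 10 (.tri 8 9 7),
  .ne 7 13 (.tri 8 9 7),
  .ne 7 14 (.edge 7 8 [12, 15, 11] [9, 10]),
  .ne 7 16 (.tri 8 12 7),
  .ne 7 17 (.edge 7 8 [12, 15, 11] [9, 13]),
  .ne 8 14 (.tri 8 9 10),
  .ne 8 17 (.tri 8 9 13),
  .ne 9 11 (.tri 8 9 7),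
  .ne 9 15 (.tri 8 9 12),
  .ne 10 11 (.edge 8 9 [13, 16, 12] [10, 7]),
  .ne 10 12 (.tri 8 9 10),
  .ne 10 15 (.edge 8 9 [13, 16, 12] [10, 12]),
  .ne 10 16 (.tri 9 10 13),
  .ne 11 13 (.edge 7 8 [12, 15, 11] [9, 11]),
  .ne 11 14 (.corner 11 7 8 [12, 15] [9, 10]),
  .ne 11 16 (.tri 12 15 11),
  .ne 11 17 (.corner 11 7 8 [12, 15] [9, 13]),
  .ne 12 14 (.edge 8 12 [15, 11, 7] [10, 9]),
  .ne 12 17 (.tri 12 16 13),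
  .ne 13 15 (.tri 12 16 13),
  .ne 14 15 (.corner 13 16 12 [8, 9] [14, 17]),
  .ne 14 16 (.tri 13 14 17),
  .ne 15 17 (.edge 12 15 [11, 7, 8] [13, 16]),
  .cn 4 6 18 (.corner 10 14 17 [13, 9] [4, 18, 6]),
  .ne 0 3 (.corner 7 8 12 [15, 11] [16, 0]),
  .ne 0 4 (.corner 8 9 13 [16, 12] [17, 0, 7]),
  .ne 0 5 (.corner 9 10 14 [17, 13] [0, 7, 8]),
  .ne 0 14 (.corner 8 9 13 [16, 12] [17, 0, 7]),
  .ne 0 17 (.corner 8 9 13 [16, 12] [0, 7]),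
  .ne 1 3 (.corner 12 15 11 [7, 8] [1, 16]),
  .ne 1 4 (.corner 12 15 11 [7, 8] [1, 17, 13, 16]),
  .ne 1 5 (.corner 11 7 8 [12, 15] [9, 10, 14, 1]),
  .ne 1 6 (.corner 11 7 8 [12, 15] [9, 10, 1]),
  .ne 1 10 (.corner 11 7 8 [12, 15] [9, 1]),
  .ne 1 13 (.corner 12 15 11 [7, 8] [1, 16]),
  .ne 1 14 (.corner 11 7 8 [12, 15] [9, 10, 1]),
  .ne 1 17 (.corner 12 15 11 [7, 8] [1, 13, 16]),
  .ne 2 4 (.corner 13 16 12 [8, 9] [15, 2, 17]),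
  .ne 2 5 (.corner 8 12 15 [11, 7] [2, 14, 10, 9]),
  .ne 2 6 (.corner 8 12 15 [11, 7] [2, 10, 9]),
  .ne 2 10 (.corner 8 12 15 [11, 7] [2, 9]),
  .ne 2 14 (.corner 8 12 15 [11, 7] [2, 10, 9]),
  .ne 2 17 (.corner 13 16 12 [8, 9] [15, 2]),
  .ne 3 5 (.corner 14 17 13 [9, 10] [16, 3]),
  .ne 3 6 (.corner 9 13 16 [12, 8] [3, 10]),
  .ne 4 7 (.corner 8 9 13 [16, 12] [17, 4]),
  .ne 4 11 (.corner 8 9 13 [16, 12] [17, 4, 7]),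
  .ne 4 15 (.corner 13 16 12 [8, 9] [4, 17]),
  .ne 5 7 (.corner 9 10 14 [17, 13] [5, 8]),
  .ne 5 11 (.corner 9 10 14 [17, 13] [5, 7, 8]),
  .ne 5 12 (.corner 9 10 14 [17, 13] [5, 8]),
  .ne 5 15 (.corner 13 16 12 [8, 9] [5, 14, 17]),
  .ne 6 11 (.corner 12 8 9 [13, 16] [10, 6, 15]),
  .ne 6 15 (.corner 12 8 9 [13, 16] [10, 6]),
  .cn 0 3 18 (.corner 7 8 12 [15, 11] [16, 3, 18, 0])]

theorem C3_fin : (St.startX C3.ed (inner C3) [(0, 6)]).fin tA tB (inner C3)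
    C3_steps 18 [(0, 3), (4, 6)] [] = true := by
  decide +kernel

end Pool.T1Side
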