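import Mathlib
import Pool.Agent.Work.MP_392c8e_co_t1.SideR
import Pool.Agent.Work.MP_392c8e_co_t1.Inst.F55

/-!
# Certificates for the side conditions: F55
-/

namespace Pool.T1Side

open Pool.Agent.T1Red

/-- Certificate. -/
def F55_steps : List Step := [
  .ne 0 1 (.tri 0 9 8),
  .ne 0 2 (.corner 10 9 8 [6, 7] [0]),
  .ne 0 5 (.edge 8 6 [7, 10, 9] [13, 0]),
  .ne 0 7 (.tri 6 8 0),
  .ne 0 10 (.tri 0 9 8),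
  .ne 0 11 (.edge 6 7 [10, 9, 8] [0, 8]),
  .ne 0 12 (.edge 8 6 [7, 10, 9] [13, 0]),
  .ne 0 13 (.tri 6 8 0),
  .ne 1 2 (.tri 9 10 1),
  .ne 1 6 (.tri 1 8 9),
  .ne 1 7 (.tri 9 10 1),
  .ne 1 11 (.corner 7 10 9 [8, 6] [1]),
  .ne 1 13 (.corner 9 8 6 [7, 10] [1]),
  .ne 2 3 (.edge 7 10 [9, 8, 6] [2, 11]),
  .ne 2 6 (.tri 2 7 10),
  .ne 2 8 (.tri 9 10 2),
  .ne 2 11 (.tri 2 7 10),
  .ne 2 12 (.edge 7 10 [9, 8, 6] [2, 11]),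
  .ne 2 13 (.corner 6 7 10 [9, 8] [2]),
  .ne 3 4 (.tri 11 12 3),
  .ne 3 5 (.corner 11 12 13 [6, 7] [3]),
  .ne 3 6 (.tri 3 7 11),
  .ne 3 8 (.corner 6 7 11 [12, 13] [3]),
  .ne 3 9 (.edge 7 11 [12, 13, 6] [3, 10]),
  .ne 3 10 (.tri 3 7 11),
  .ne 3 13 (.tri 11 12 3),
  .ne 4 5 (.tri 4 13 12),
  .ne 4 6 (.tri 4 13 12),
  .ne 4 7 (.tri 4 12 11),
  .ne 4 8 (.corner 12 13 6 [7, 11] [4]),
  .ne 4 10 (.corner 7 11 12 [13, 6] [4]),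
  .ne 5 7 (.tri 5 13 6),
  .ne 5 8 (.tri 5 13 6),
  .ne 5 9 (.edge 13 6 [7, 11, 12] [8, 5]),
  .ne 5 10 (.edge 6 7 [11, 12, 13] [5, 13]),
  .ne 5 11 (.tri 12 13 5),
  .ne 8 11 (.tri 6 8 7),
  .ne 8 12 (.tri 6 8 13),
  .ne 9 11 (.tri 9 10 7),
  .ne 9 12 (.corner 7 10 9 [8, 6] [11]),
  .ne 9 13 (.tri 6 8 9),
  .ne 10 12 (.tri 10 11 7),
  .ne 10 13 (.tri 7 10 6),
  .ne 0 3 (.corner 8 6 7 [10, 9] [11, 0]),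
  .ne 0 4 (.corner 12 13 6 [7, 11] [8, 0]),
  .ne 1 3 (.corner 7 10 9 [8, 6] [1, 11]),
  .ne 1 4 (.corner 7 10 9 [8, 6] [1, 12, 11]),
  .ne 1 5 (.corner 9 8 6 [7, 10] [13, 1]),
  .ne 1 12 (.corner 7 10 9 [8, 6] [1, 11]),
  .ne 2 4 (.corner 7 11 12 [13, 6] [2, 10]),
  .ne 2 5 (.corner 6 7 10 [9, 8] [2, 13]),
  .ne 4 9 (.corner 7 11 12 [13, 6] [4, 10]),
  .cn 0 3 14 (.corner 8 6 7 [10, 9] [11, 3, 14, 0])]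

theorem F55_fin : (St.startX F55.ed (inner F55) []).fin tA tB (inner F55)
    F55_steps 14 [(0, 3)] [] = true := by
  decide +kernel

end Pool.T1Side
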