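import Mathlib
import Pool.Agent.Work.MP_392c8e_co_t1.SideR
import Pool.Agent.Work.MP_392c8e_co_t1.Inst.F55

/-!
# Certificates for the side conditions: Flower
-/

namespace Pool.T1Side

open Pool.Agent.T1Red

/-- Certificate. -/
def Flower_steps : List Step := [
  .ne 0 1 (.edge 11 15 [10, 5, 6] [0, 16]),
  .ne 0 4 (.edge 15 10 [5, 6, 11] [19, 0]),
  .ne 0 5 (.tri 10 15 0),
  .ne 0 6 (.tri 0 11 15),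
  .ne 0 7 (.corner 6 11 15 [10, 5] [0]),
  .ne 0 9 (.corner 15 10 5 [6, 11] [0]),
  .ne 0 12 (.edge 11 15 [10, 5, 6] [0, 16]),
  .ne 0 14 (.edge 15 10 [5, 6, 11] [19, 0]),
  .ne 0 16 (.tri 0 11 15),
  .ne 0 19 (.tri 10 15 0),
  .ne 1 2 (.edge 12 16 [11, 6, 7] [1, 17]),
  .ne 1 5 (.corner 16 11 6 [7, 12] [1]),
  .ne 1 6 (.tri 1 16 11),
  .ne 1 7 (.tri 12 16 1),
  .ne 1 8 (.corner 7 12 16 [11, 6] [1]),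
  .ne 1 10 (.edge 16 11 [6, 7, 12] [15, 1]),
  .ne 1 13 (.edge 12 16 [11, 6, 7] [1, 17]),
  .ne 1 15 (.tri 1 16 11),
  .ne 1 17 (.tri 12 16 1),
  .ne 2 3 (.edge 13 17 [12, 7, 8] [2, 18]),
  .ne 2 6 (.corner 17 12 7 [8, 13] [2]),
  .ne 2 7 (.tri 2 17 12),
  .ne 2 8 (.tri 2 17 13),
  .ne 2 9 (.corner 8 13 17 [12, 7] [2]),
  .ne 2 11 (.edge 17 12 [7, 8, 13] [16, 2]),
  .ne 2 14 (.edge 13 17 [12, 7, 8] [2, 18]),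
  .ne 2 16 (.tri 2 17 12),
  .ne 2 18 (.tri 2 17 13),
  .ne 3 4 (.edge 14 19 [10, 5, 9] [3, 18]),
  .ne 3 5 (.corner 9 14 18 [13, 8] [3]),
  .ne 3 7 (.corner 18 13 8 [9, 14] [3]),
  .ne 3 8 (.tri 3 13 18),
  .ne 3 9 (.tri 14 18 3),
  .ne 3 10 (.edge 14 18 [13, 8, 9] [3, 19]),
  .ne 3 12 (.edge 18 13 [8, 9, 14] [17, 3]),
  .ne 3 17 (.tri 3 13 18),
  .ne 3 19 (.tri 14 18 3),
  .ne 4 5 (.tri 4 10 19),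
  .ne 4 6 (.corner 19 10 5 [9, 14] [4]),
  .ne 4 8 (.corner 9 14 19 [10, 5] [4]),
  .ne 4 9 (.tri 14 19 4),
  .ne 4 11 (.edge 19 10 [5, 9, 14] [15, 4]),
  .ne 4 13 (.edge 14 19 [10, 5, 9] [4, 18]),
  .ne 4 15 (.tri 4 10 19),
  .ne 4 18 (.tri 14 19 4),
  .ne 5 12 (.tri 5 7 6),
  .ne 5 13 (.tri 8 9 5),
  .ne 5 16 (.tri 6 11 5),
  .ne 5 17 (.corner 5 6 7 [8, 9] [12]),
  .ne 5 18 (.tri 9 14 5),
  .ne 6 13 (.tri 6 8 7),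
  .ne 6 14 (.tri 5 6 9),
  .ne 6 17 (.tri 6 12 7),
  .ne 6 18 (.edge 5 6 [7, 8, 9] [14, 9]),
  .ne 6 19 (.tri 5 10 6),
  .ne 7 10 (.tri 5 7 6),
  .ne 7 14 (.tri 8 9 7),
  .ne 7 15 (.tri 6 11 7),
  .ne 7 18 (.tri 7 13 8),
  .ne 7 19 (.corner 5 6 7 [8, 9] [10]),
  .ne 8 10 (.tri 8 9 5),
  .ne 8 11 (.tri 6 8 7),
  .ne 8 15 (.corner 6 7 8 [9, 5] [11]),
  .ne 8 16 (.tri 8 12 7),
  .ne 8 19 (.tri 8 9 14),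
  .ne 9 11 (.tri 5 6 9),
  .ne 9 12 (.tri 8 9 7),
  .ne 9 15 (.tri 5 10 9),
  .ne 9 16 (.edge 5 6 [7, 8, 9] [11, 9]),
  .ne 9 17 (.tri 8 9 13),
  .ne 10 12 (.corner 5 6 7 [8, 9] [10]),
  .ne 10 13 (.corner 8 9 5 [6, 7] [10]),
  .ne 10 16 (.tri 10 15 11),
  .ne 10 17 (.corner 5 6 7 [8, 9] [12, 10]),
  .ne 10 18 (.tri 14 19 10),
  .ne 11 13 (.corner 6 7 8 [9, 5] [11]),
  .ne 11 14 (.edge 5 6 [7, 8, 9] [11, 9]),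
  .ne 11 17 (.tri 12 16 11),
  .ne 11 18 (.corner 6 7 8 [9, 5] [13, 11]),
  .ne 11 19 (.tri 10 15 11),
  .ne 12 14 (.corner 7 8 9 [5, 6] [12]),
  .ne 12 15 (.tri 12 16 11),
  .ne 12 18 (.tri 12 13 17),
  .ne 12 19 (.corner 5 6 7 [8, 9] [12, 10]),
  .ne 13 15 (.corner 6 7 8 [9, 5] [13, 11]),
  .ne 13 16 (.tri 12 13 17),
  .ne 13 19 (.tri 13 14 18),
  .ne 14 15 (.tri 14 19 10),
  .ne 14 16 (.corner 7 8 9 [5, 6] [14, 12]),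
  .ne 14 17 (.tri 13 14 18),
  .ne 15 17 (.edge 11 15 [10, 5, 6] [12, 16]),
  .ne 15 18 (.edge 15 10 [5, 6, 11] [19, 14]),
  .ne 16 18 (.edge 12 16 [11, 6, 7] [13, 17]),
  .ne 16 19 (.corner 11 15 10 [5, 6] [16]),
  .ne 17 19 (.edge 13 17 [12, 7, 8] [14, 18]),
  .ne 0 2 (.corner 12 16 11 [6, 7] [15, 0, 17]),
  .ne 0 3 (.corner 14 19 10 [5, 9] [15, 0, 18]),
  .ne 0 8 (.corner 6 11 15 [10, 5] [0, 7]),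
  .ne 0 13 (.corner 6 7 8 [9, 5] [0, 15, 11]),
  .ne 0 17 (.corner 12 16 11 [6, 7] [15, 0]),
  .ne 0 18 (.corner 14 19 10 [5, 9] [15, 0]),
  .ne 1 3 (.corner 13 17 12 [7, 8] [16, 1, 18]),
  .ne 1 4 (.corner 11 15 10 [5, 6] [19, 1, 16]),
  .ne 1 9 (.corner 5 6 11 [15, 10] [16, 1]),
  .ne 1 14 (.corner 7 8 9 [5, 6] [1, 16, 12]),
  .ne 1 18 (.corner 13 17 12 [7, 8] [16, 1]),
  .ne 1 19 (.corner 11 15 10 [5, 6] [1, 16]),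
  .ne 2 4 (.corner 14 18 13 [8, 9] [17, 2, 19]),
  .ne 2 5 (.corner 6 7 12 [16, 11] [17, 2]),
  .ne 2 10 (.corner 5 6 7 [8, 9] [12, 17, 2]),
  .ne 2 15 (.corner 12 16 11 [6, 7] [2, 17]),
  .ne 2 19 (.corner 14 18 13 [8, 9] [17, 2]),
  .ne 3 6 (.corner 5 9 14 [19, 10] [18, 3]),
  .ne 3 11 (.corner 6 7 8 [9, 5] [13, 18, 3]),
  .ne 3 15 (.corner 14 19 10 [5, 9] [3, 18]),
  .ne 3 16 (.corner 13 17 12 [7, 8] [3, 18]),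
  .ne 4 7 (.corner 10 5 6 [11, 15] [4, 19]),
  .ne 4 12 (.corner 5 6 7 [8, 9] [4, 19, 10]),
  .ne 4 16 (.corner 11 15 10 [5, 6] [19, 4]),
  .ne 4 17 (.corner 14 18 13 [8, 9] [4, 19])]

theorem Flower_fin : (St.startX Flower.ed (inner Flower) []).fin tA tB (inner Flower)
    Flower_steps 20 [] [] = true := by
  decide +kernel

end Pool.T1Side
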