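import Mathlib
import Pool.Agent.Work.MP_392c8e_co_t1.SideR
import Pool.Agent.Work.MP_392c8e_co_t1.Maps2
import Pool.Agent.Work.MP_392c8e_co_t1.CertF55
import Pool.Agent.Work.MP_392c8e_co_t1.CertFlower
import Pool.Agent.Work.MP_392c8e_co_t1.CertC3

/-!
# Reducible clusters of 5-cycles
-/

namespace Pool.T1Side

open Pool.Agent.T1Red Pool.Agent.T1FF
open Pool.Agent.Red (Pl MinCex StrictCol)

set_option synthInstance.maxSize 200000

theorem ext_F55 : F55.Ext [] := Red.ext_of_check check_F55 (by decide)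

theorem data_F55 : Data F55 []
    [(0, [8, 6, 7, 11], 3), (1, [9, 10], 2), (4, [12, 13], 5)] [] [] [(0, 3), (1, 2), (4, 5)]
    [] := by
  constructor <;> decide

theorem ext_Flower : Flower.Ext [] := Red.ext_of_check check_Flower (by decide)

theorem data_Flower : Data Flower [] [] [] [] [] [] := by
  constructor <;> decide

theorem ext_C3 : C3.Ext [] := Red.ext_of_check check_C3 (by decide)

theorem data_C3 : Data C3 []
    [(0, [7, 8, 12, 16], 3), (1, [11, 15], 2), (4, [17, 14, 10], 6)] [] []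
    [(0, 3), (1, 2), (4, 6)] [] := by
  constructor <;> decide

variable {V : Type} [Fintype V] [DecidableEq V] {G : SimpleGraph V}

/-- **A cluster with a checked reducer does not occur in a minimal counterexample.** -/
theorem kill_side {R : Red} {A B : ℕ → ℕ → Bool} (hmin : MinCex G) (hG : Rules G A B)
    (hE : R.Ext []) {ps : List (ℕ × List ℕ × ℕ)} {com : List (ℕ × ℕ)}
    (hd : Data R [] ps [] [] com []) {f : ℕ → V} (hf : Full G R f)
    {xs : List (ℕ × ℕ)} (hx : ∀ e ∈ xs, f e.1 ≠ f e.2) {ts : List Step}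
    {cns : List (ℕ × ℕ)}
    (hfin : (St.startX R.ed (inner R) xs).fin A B (inner R) ts (R.t + R.m) cns [] = true)
    (hcom : ∀ p ∈ com, p ∈ cns ∨ ∀ w, (∀ k ∈ II R, w ≠ f k) → G.Adj (f p.1) w →
      G.Adj (f p.2) w → False) : False := by
  have hc : Copy G R.ed (inner R) f := hf.1
  obtain ⟨h1, h2, -⟩ := hc.side hG hx hfin
  refine no_conf_copy hmin hE hd hf h1 (fun p hp w hw hw1 hw2 => ?_)
    (fun p hp => absurd hp (by simp))
  rcases hcom p hp with h3 | h3
  · exact h2 p h3 w hw hw1 hw2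
  · exact h3 w hw hw1 hw2

/-- Two adjacent 5-cycles. -/
theorem f55_core (hmin : MinCex G) (hG : Rules G tA tB) {f : ℕ → V} (hf : Full G F55 f) :
    (∃ w, (∀ k ∈ II F55, w ≠ f k) ∧ G.Adj (f 1) w ∧ G.Adj (f 2) w) ∨
      (∃ w, (∀ k ∈ II F55, w ≠ f k) ∧ G.Adj (f 4) w ∧ G.Adj (f 5) w) := by
  by_contra hcon
  push Not at hcon
  refine kill_side hmin hG ext_F55 data_F55 hf (xs := []) (by simp) F55_fin ?_
  intro p hp
  simp only [List.mem_cons, List.not_mem_nil, or_false] at hp
  rcases hp with rfl | rfl | rfl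
  · exact Or.inl (by simp)
  · exact Or.inr fun w hw h1 h2 => hcon.1 w hw h1 h2
  · exact Or.inr fun w hw h1 h2 => hcon.2 w hw h1 h2

/-- A chain of three 5-cycles. -/
theorem c3_core (hmin : MinCex G) (hG : Rules G tA tB) {f : ℕ → V} (hf : Full G C3 f)
    (h06 : f 0 ≠ f 6) :
    ∃ w, (∀ k ∈ II C3, w ≠ f k) ∧ G.Adj (f 1) w ∧ G.Adj (f 2) w := by
  by_contra hcon
  push Not at hcon
  refine kill_side hmin hG ext_C3 data_C3 hf (xs := [(0, 6)]) ?_ C3_fin ?_
  · intro e he
    simp only [List.mem_cons, List.not_mem_nil, or_false] at he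
    subst he
    exact h06
  · intro p hp
    simp only [List.mem_cons, List.not_mem_nil, or_false] at hp
    rcases hp with rfl | rfl | rfl
    · exact Or.inl (by simp)
    · exact Or.inr fun w hw h1 h2 => hcon w hw h1 h2
    · exact Or.inl (by simp)

/-- A 5-cycle surrounded by 5-cycles. -/
theorem flower_core (hmin : MinCex G) (hG : Rules G tA tB) {f : ℕ → V}
    (hf : Full G Flower f) : False :=
  kill_side hmin hG ext_Flower data_Flower hf (xs := []) (by simp) Flower_fin
    (fun p hp => absurd hp (by simp))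

end Pool.T1Side
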