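import Mathlib
import Pool.Agent.Work.MP_392c8e_co_t1.R2Core
import Pool.Agent.Work.MP_392c8e_co_t1.R2Geo
import Pool.Agent.Work.MP_392c8e_co_t1.Closure

/-!
# No two faces of length five are adjacent
-/

namespace Pool.Agent.T392

open Finset Pool.Agent.Sub392 Pool.T1Side Pool.Agent.T1FF Pool.Agent.T1Red
open Pool.Agent.Red (Pl MinCex StrictCol)
open Pool.T1Closure (Setup LemA LemB LemB' LemF no_adjacent_five)

set_option linter.unusedSectionVars false

variable {V : Type} [Fintype V] [DecidableEq V] {G : SimpleGraph V} [DecidableRel G.Adj]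
  {R : Rot G}

theorem ac0 (R : Rot G) (d : G.Dart) : ac R d 0 = flip G d := rfl

theorem ac1 (R : Rot G) (d : G.Dart) : ac R d 1 = flip G (R.next d) := by
  show ((R.next ^ 1) d).symm = _
  rw [pow_one]
  rfl

theorem ac2 (R : Rot G) (d : G.Dart) : ac R d 2 = flip G (R.next (R.next d)) := by
  show ((R.next ^ 2) d).symm = _
  rw [pow_succ', pow_one, Equiv.Perm.mul_apply]
  rfl

theorem ac3 (R : Rot G) (d : G.Dart) : ac R d 3 = flip G (R.next (R.next (R.next d))) := by
  show ((R.next ^ 3) d).symm = _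
  rw [pow_succ', pow_succ', pow_one, Equiv.Perm.mul_apply, Equiv.Perm.mul_apply]
  rfl

theorem ac4 (R : Rot G) (d : G.Dart) :
    ac R d 4 = flip G (R.next (R.next (R.next (R.next d)))) := by
  show ((R.next ^ 4) d).symm = _
  rw [pow_succ', pow_succ', pow_succ', pow_one, Equiv.Perm.mul_apply, Equiv.Perm.mul_apply,
    Equiv.Perm.mul_apply]
  rfl

theorem setup_of (g : Geo R) (h5 : ∀ d : G.Dart, sz R d = 5 → G.degree d.fst ≠ 2) :
    Setup (flip G) R.next (sz R) where
  al_al := fun d => SimpleGraph.Dart.symm_symm d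
  deg3 := by
    intro d hd
    have h1 : G.degree d.fst = 3 := by
      rcases g.deg_cases d.fst with h | h
      · exact absurd h (h5 d hd)
      · exact h
    have h2 := rot_three R h1
    have h3 : ∀ x : G.Dart, R.next (flip G x) = R.rot x := by
      intro x
      rw [next_eq]
      show R.rot x.symm.symm = _
      rw [SimpleGraph.Dart.symm_symm]
    rw [h3, h3, h3]
    exact h2
  s_ph := fun d => sz_next R d
  five := by
    intro d hd
    have h1 := next_sz R d
    rw [hd] at h1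
    exact h1

section

variable (hmin : MinCex G) (g : Geo R) (hG : Rules G tA tB) (hbad : ¬ Bad R 5)
  (h5 : ∀ d : G.Dart, sz R d = 5 → G.degree d.fst ≠ 2)

include hmin g hG hbad h5

theorem lemA : LemA (flip G) R.next (sz R) := by
  intro d h0 h1
  have G0 := good_of_sz g h5 h0
  have G1 : Good R (ac R d 0) 5 := good_of_sz g h5 h1
  constructor
  · rcases f55_core hmin hG (full_A G0 G1) with ⟨w, hw, a, b⟩ | ⟨w, hw, a, b⟩
    · left
      rw [← ac3]
      exact five_of_common g hbad G0 (by norm_num) 3 a b (hw 9 (by decide)) (hw 10 (by decide))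
    · right
      rw [← ac3, ← ac0]
      exact five_of_common g hbad G1 (by norm_num) 3 a b (hw 12 (by decide)) (hw 13 (by decide))
  · rcases f55_core hmin hG (full_A' G0 G1) with ⟨w, hw, a, b⟩ | ⟨w, hw, a, b⟩
    · left
      rw [← ac2]
      exact five_of_common g hbad G0 (by norm_num) 2 b a (hw 10 (by decide)) (hw 9 (by decide))
    · right
      rw [← ac2, ← ac0]
      exact five_of_common g hbad G1 (by norm_num) 2 b a (hw 13 (by decide)) (hw 12 (by decide))

theorem lemB : LemB (flip G) R.next (sz R) := by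
  intro d h0 h1 h2 h3
  have G0 := good_of_sz g h5 h0
  have G1 : Good R (ac R d 0) 5 := good_of_sz g h5 h1
  rw [← ac3, ← ac0] at h2
  have G2 : Good R (ac R (ac R d 0) 3) 5 := good_of_sz g h5 h2
  have e0 : X R (ac R d 0) 0 = X R d 1 := ac_X0 R d 0
  have e1 : X R (ac R d 0) 1 = X R d 0 := ac_X1 R d 0
  have e4 : X R (ac R d 0) 4 = Y R d 1 := G0.ac_last 0 G1 (by norm_num)
  have g0 : X R (ac R (ac R d 0) 3) 0 = X R (ac R d 0) 4 := ac_X0 R (ac R d 0) 3
  have g4 : X R (ac R (ac R d 0) 3) 4 = Y R (ac R d 0) 4 := G1.ac_last 3 G2 (by norm_num)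
  obtain ⟨a0, a1, a2, a3, a4⟩ := G0.stars5
  obtain ⟨b0, b1, b2, b3, b4⟩ := G1.stars5
  obtain ⟨c0, c1, c2, c3, c4⟩ := G2.stars5
  have h06 : fB R d 0 ≠ fB R d 6 := by
    intro he
    have he' : Y R d 2 = Y R (ac R (ac R d 0) 3) 4 := he
    apply h3
    rw [← ac1]
    refine five_of_walk g hbad (v0 := X R d 2) (v1 := X R d 1) (v2 := X R (ac R d 0) 4)
      (v3 := X R (ac R (ac R d 0) 3) 4) (v4 := Y R d 2) a1.ha.symm ?_ ?_ ?_ ?_ ?_ ?_ ?_ ?_ ?_
      (ac R d 1) (ac_X0 R d 1) ?_ ?_ (G0.cub 1)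
    · rw [e4]; exact a1.hc
    · rw [g4]; exact b4.hc
    · rw [he']; exact c4.hc
    · exact a2.hc.symm
    · rw [e4]; exact a1.ac
    · rw [g4, ← e0]; exact b4.ac
    · rw [he', ← g0]; exact c4.ac
    · intro hh
      have k1 : G.Adj (X R (ac R d 0) 4) (X R d 2) := by
        rw [← hh, g4]; exact b4.hc
      have k2 : G.Adj (X R d 1) (X R (ac R d 0) 4) := by rw [e4]; exact a1.hc
      exact no_tri g.tri a1.ha k1.symm k2
    · exact a2.bc.symm
    · have := ac_X1 R d 1
      rw [← this]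
      exact snd_pow R (ac R d 1) 0
    · have h7 := ac_X2 R d 1
      rw [e4, ← h7, ← snd_pow R (ac R d 1) 1, pow_one]
  obtain ⟨w, hw, a, b⟩ := c3_core hmin hG (full_B G0 G1 G2) h06
  rw [← ac3]
  exact five_of_common g hbad G0 (by norm_num) 3 a b (hw 11 (by decide)) (hw 15 (by decide))

theorem lemB' : LemB' (flip G) R.next (sz R) := by
  intro d h0 h1 h2 h3
  have G0 := good_of_sz g h5 h0
  have G1 : Good R (ac R d 0) 5 := good_of_sz g h5 h1
  rw [← ac2] at h2
  have G2 : Good R (ac R d 2) 5 := good_of_sz g h5 h2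
  have e0 : X R (ac R d 0) 0 = X R d 1 := ac_X0 R d 0
  have e4 : X R (ac R d 0) 4 = Y R d 1 := G0.ac_last 0 G1 (by norm_num)
  have g1 : X R (ac R d 2) 1 = X R d 2 := ac_X1 R d 2
  have g2 : X R (ac R d 2) 2 = Y R d 2 := ac_X2 R d 2
  obtain ⟨a0, a1, a2, a3, a4⟩ := G0.stars5
  obtain ⟨b0, b1, b2, b3, b4⟩ := G1.stars5
  obtain ⟨c0, c1, c2, c3, c4⟩ := G2.stars5
  have h06 : fB' R d 0 ≠ fB' R d 6 := by
    intro he
    have he' : Y R (ac R d 0) 4 = Y R (ac R d 2) 2 := he
    apply h3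
    rw [← ac1]
    refine five_of_walk g hbad (v0 := X R d 2) (v1 := X R d 1) (v2 := X R (ac R d 0) 4)
      (v3 := Y R (ac R d 0) 4) (v4 := X R (ac R d 2) 2) a1.ha.symm ?_ ?_ ?_ ?_ ?_ ?_ ?_ ?_ ?_
      (ac R d 1) (ac_X0 R d 1) ?_ ?_ (G0.cub 1)
    · rw [e4]; exact a1.hc
    · exact b4.hc
    · rw [he']; exact c2.hc.symm
    · rw [g2]; exact a2.hc.symm
    · rw [e4]; exact a1.ac
    · rw [← e0]; exact b4.ac
    · intro hh
      have k1 : G.Adj (X R (ac R d 0) 4) (X R d 2) := by
        rw [hh, g2]; exact a2.hc.symm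
      have k2 : G.Adj (X R d 1) (X R (ac R d 0) 4) := by rw [e4]; exact a1.hc
      exact no_tri g.tri a1.ha k1.symm k2
    · rw [he', ← g1]; exact c2.bc.symm
    · rw [g2]; exact a2.bc.symm
    · have := ac_X1 R d 1
      rw [← this]
      exact snd_pow R (ac R d 1) 0
    · have h7 := ac_X2 R d 1
      rw [e4, ← h7, ← snd_pow R (ac R d 1) 1, pow_one]
  obtain ⟨w, hw, a, b⟩ := c3_core hmin hG (full_B' G0 G1 G2) h06
  rw [← ac2, ← ac0]
  exact five_of_common g hbad G1 (by norm_num) 2 b a (hw 15 (by decide)) (hw 11 (by decide))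

theorem lemF : LemF (flip G) R.next (sz R) := by
  intro d h0 h1 h2 h3 h4 h6
  have G0 := good_of_sz g h5 h0
  rw [← ac0] at h1
  rw [← ac1] at h2
  rw [← ac2] at h3
  rw [← ac3] at h4
  rw [← ac4] at h6
  refine flower_core hmin hG (full_Flower G0 fun n hn => ?_)
  interval_cases n
  · exact good_of_sz g h5 h1
  · exact good_of_sz g h5 h2
  · exact good_of_sz g h5 h3
  · exact good_of_sz g h5 h4
  · exact good_of_sz g h5 h6

/-- **No two faces of length five are adjacent.** -/
theorem no_adj_five (d : G.Dart) (hd : R.size (R.face d) = 5) :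
    R.size (R.face d.symm) ≠ 5 :=
  no_adjacent_five (setup_of g h5) (lemA hmin g hG hbad h5) (lemB hmin g hG hbad h5)
    (lemB' hmin g hG hbad h5) (lemF hmin g hG hbad h5) d hd

end

/-- The tables of the certificates are parts of the tables of the rules. -/
theorem rules_tAB (h : Rules G A7 B7) : Rules G tA tB := by
  refine Pool.Agent.T392.Rules.mono h ?_ ?_
  · intro k l hkl
    simp only [tA, Bool.and_eq_true] at hkl
    have h1 : k = 2 := Nat.eq_of_beq_eq_true hkl.1
    have h2 : l ≤ 4 := Nat.le_of_ble_eq_true hkl.2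
    simp only [A7, Bool.and_eq_true, Bool.or_eq_true, Nat.ble_eq]
    omega
  · intro k l hkl
    simp only [tB, Bool.and_eq_true] at hkl
    have h1 : k = 3 := Nat.eq_of_beq_eq_true hkl.1
    have h2 : l = 2 := Nat.eq_of_beq_eq_true hkl.2
    simp only [B7, Bool.and_eq_true, Bool.or_eq_true, Nat.ble_eq]
    omega

/-- **No two faces of length five are adjacent**, with the rules of stage seven. -/
theorem adj_of_rules (hmin : MinCex G) (g : Geo R)
    (h4 : ∀ d : G.Dart, sz R d = 4 → G.degree d.fst ≠ 2 ∧ 6 ≤ sz R d.symm)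
    (h5 : ∀ d : G.Dart, sz R d = 5 → G.degree d.fst ≠ 2) (d : G.Dart)
    (hd : R.size (R.face d) = 5) : R.size (R.face d.symm) ≠ 5 :=
  no_adj_five hmin g (rules_tAB (g.rules7 h4 h5))
    (fun hb => g.not_bad7 h4 h5 (hb.mono (by norm_num))) h5 d hd

end Pool.Agent.T392
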