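import Mathlib
import Pool.Agent.Work.MP_392c8e_co_t1.Apply
import Pool.Agent.Work.MP_392c8e_co_red.CutsAll

/-!
# Clusters with four outer edges all of whose states extend

If every state of the four outer neighbours extends to the cluster, the cluster does not occur in a
smallest graph without strict colourings.
-/

namespace Pool.Agent.T1Red

open Finset
open Pool.Agent.Red (Pl MinCex StrictCol leave)

set_option linter.unusedSectionVars false

/-- The interior labels joined to the label `i`. -/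
def inn (R : Red) (i : ℕ) : List ℕ :=
  ((R.ed.filter fun e => e.1 == i || e.2 == i).map (oth i)).filter fun j => Nat.ble 4 j

theorem mem_inn {R : Red} {i j : ℕ} : j ∈ inn R i ↔ 4 ≤ j ∧ ((i, j) ∈ R.ed ∨ (j, i) ∈ R.ed) := by
  unfold inn
  rw [List.mem_filter, List.mem_map, Nat.ble_eq]
  constructor
  · rintro ⟨⟨e, he, h1⟩, h2⟩
    refine ⟨h2, ?_⟩
    rw [List.mem_filter] at he
    obtain ⟨he, h3⟩ := he
    obtain ⟨a, b⟩ := e
    simp only [Bool.or_eq_true, beq_iff_eq] at h3
    unfold oth at h1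
    simp only at h1
    by_cases h4 : a = i
    · rw [if_pos h4] at h1
      subst h4 h1
      exact Or.inl he
    · rw [if_neg h4] at h1
      rcases h3 with h3 | h3
      · exact absurd h3 h4
      · subst h3 h1
        exact Or.inr he
  · rintro ⟨h1, h2 | h2⟩
    · exact ⟨⟨_, List.mem_filter.2 ⟨h2, by simp⟩, by simp [oth]⟩, h1⟩
    · refine ⟨⟨_, List.mem_filter.2 ⟨h2, by simp⟩, ?_⟩, h1⟩
      unfold oth
      simp only
      split_ifs with h3
      · exact h3.symm
      · rfl

/-- The combinatorial conditions for a cluster with the terminals `0, 1, 2, 3`, joined to the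
interior labels of the list `st`. -/
structure FreeOK (R : Red) (st : List ℕ) : Prop where
  t4 : R.t = 4
  m3 : 3 ≤ R.m
  ed : ∀ e ∈ R.ed, (4 ≤ e.1 ∧ 4 ≤ e.2) ∨ (e.1 < 4 ∧ 4 ≤ e.2 ∧ st.getD e.1 0 = e.2) ∨
    (e.2 < 4 ∧ 4 ≤ e.1 ∧ st.getD e.2 0 = e.1)
  lt : ∀ e ∈ R.ed, e.1 < 4 + R.m ∧ e.2 < 4 + R.m
  stub : ∀ j ∈ List.range 4, 4 ≤ st.getD j 0 ∧ st.getD j 0 < 4 + R.m ∧
    ((j, st.getD j 0) ∈ R.ed ∨ (st.getD j 0, j) ∈ R.ed)
  stub_inj : ∀ i ∈ List.range 4, ∀ j ∈ List.range 4, st.getD i 0 = st.getD j 0 → i = j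
  nd : ∀ i ∈ List.range (4 + R.m), 4 ≤ i → (inn R i).Nodup
  deg : ∀ i ∈ List.range (4 + R.m), 4 ≤ i →
    ((inn R i).length = 3 ∧ ∀ j ∈ List.range 4, st.getD j 0 ≠ i) ∨ (inn R i).length = 2

variable {V : Type} [Fintype V] [DecidableEq V] {G : SimpleGraph V}

/-- A large set with large complement has at least four leaving edges. -/
theorem four_le (h : MinCex G) (A : Set V) (h1 : 3 ≤ A.ncard)
    (h2 : A.ncard + 3 ≤ Fintype.card V) : 4 ≤ (leave G A).ncard := by
  by_contra hcon
  have h3 := Set.ncard_add_ncard_compl A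
  rw [Nat.card_eq_fintype_card] at h3
  rcases h.cut_three A (by omega) with h4 | h4 <;> omega

/-- **Free clusters do not occur.** -/
theorem no_free (h : MinCex G) {R : Red} {st : List ℕ} (hR : R.Ext [])
    (hd : Data R [] [] [] [] [] []) (hck : FreeOK R st) (hV : R.m + 4 ≤ Fintype.card V)
    (f : ℕ → V)
    (hinj : ∀ i j, 4 ≤ i → i < 4 + R.m → 4 ≤ j → j < 4 + R.m → f i = f j → i = j)
    (hadj : ∀ e ∈ R.ed, 4 ≤ e.1 → 4 ≤ e.2 → G.Adj (f e.1) (f e.2))
    (h2 : ∀ i, 4 ≤ i → i < 4 + R.m → (∀ j ∈ List.range 4, st.getD j 0 ≠ i) →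
      (inn R i).length = 2 → (G.neighborSet (f i)).ncard ≤ 2) : False := by
  classical
  have ht := hck.t4
  set s : ℕ → ℕ := fun j => st.getD j 0 with hs
  have hs1 : ∀ j, j < 4 → 4 ≤ s j ∧ s j < 4 + R.m ∧ ((j, s j) ∈ R.ed ∨ (s j, j) ∈ R.ed) :=
    fun j hj => hck.stub j (List.mem_range.2 hj)
  set A : Set V := {v | ∃ i, 4 ≤ i ∧ i < 4 + R.m ∧ f i = v} with hA
  have hAcard : A.ncard = R.m := by
    have h3 : A = f '' (↑(Finset.Ico 4 (4 + R.m)) : Set ℕ) := by
      ext v
      constructor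
      · rintro ⟨i, a1, a2, a3⟩
        exact ⟨i, by simp [a1, a2], a3⟩
      · rintro ⟨i, a1, a3⟩
        rw [Finset.mem_coe, Finset.mem_Ico] at a1
        exact ⟨i, a1.1, a1.2, a3⟩
    rw [h3, Set.InjOn.ncard_image, Set.ncard_coe_finset, Nat.card_Ico]
    · omega
    · intro i hi j hj hij
      rw [Finset.mem_coe, Finset.mem_Ico] at hi hj
      exact hinj i j hi.1 hi.2 hj.1 hj.2 hij
  -- the inner neighbours
  have hN : ∀ i, 4 ≤ i → i < 4 + R.m → ∀ j ∈ inn R i, j < 4 + R.m ∧ G.Adj (f i) (f j) := by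
    intro i hi hi' j hj
    obtain ⟨h3, h4⟩ := mem_inn.1 hj
    rcases h4 with h4 | h4
    · exact ⟨(hck.lt _ h4).2, hadj _ h4 hi h3⟩
    · exact ⟨(hck.lt _ h4).1, (hadj _ h4 h3 hi).symm⟩
  have hNc : ∀ i, 4 ≤ i → i < 4 + R.m →
      ((inn R i).toFinset.image f).card = (inn R i).length := by
    intro i hi hi'
    rw [card_image_of_injOn, List.toFinset_card_of_nodup (hck.nd i (List.mem_range.2 hi') hi)]
    intro a ha b hb hab
    rw [mem_coe, List.mem_toFinset] at ha hb
    exact hinj a b (mem_inn.1 ha).1 (hN i hi hi' a ha).1 (mem_inn.1 hb).1 (hN i hi hi' b hb).1 hab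
  -- degree at most `k` and `k` inner neighbours
  have hall : ∀ i, 4 ≤ i → i < 4 + R.m → (G.neighborSet (f i)).ncard ≤ (inn R i).length →
      ∀ w, G.Adj (f i) w → ∃ j ∈ inn R i, w = f j := by
    intro i hi hi' hdeg w hw
    have h3 : (↑((inn R i).toFinset.image f) : Set V) ⊆ G.neighborSet (f i) := by
      intro x hx
      rw [mem_coe, mem_image] at hx
      obtain ⟨j, hj, rfl⟩ := hx
      rw [List.mem_toFinset] at hj
      exact (hN i hi hi' j hj).2
    have h4 := Set.eq_of_subset_of_ncard_le h3 (by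
      rw [Set.ncard_coe_finset, hNc i hi hi']; exact hdeg) (Set.toFinite _)
    have h5 : w ∈ (↑((inn R i).toFinset.image f) : Set V) := by rw [h4]; exact hw
    rw [mem_coe, mem_image] at h5
    obtain ⟨j, hj, hjw⟩ := h5
    exact ⟨j, List.mem_toFinset.1 hj, hjw.symm⟩
  -- at most one other neighbour
  have hone : ∀ i, 4 ≤ i → i < 4 + R.m → (inn R i).length = 2 → ∀ w w', G.Adj (f i) w →
      G.Adj (f i) w' → (∀ j ∈ inn R i, w ≠ f j) → (∀ j ∈ inn R i, w' ≠ f j) → w = w' := by
    intro i hi hi' hl w w' hw hw' hn hn'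
    by_contra hne
    have h3 : (↑(insert w (insert w' ((inn R i).toFinset.image f))) : Set V) ⊆
        G.neighborSet (f i) := by
      intro x hx
      rw [mem_coe, mem_insert, mem_insert, mem_image] at hx
      rcases hx with rfl | rfl | ⟨j, hj, rfl⟩
      · exact hw
      · exact hw'
      · rw [List.mem_toFinset] at hj
        exact (hN i hi hi' j hj).2
    have h4 := Set.ncard_le_ncard h3 (Set.toFinite _)
    rw [Set.ncard_coe_finset, card_insert_of_notMem, card_insert_of_notMem, hNc i hi hi', hl] at h4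
    · have := h.deg (f i)
      omega
    · rw [mem_image]
      rintro ⟨j, hj, hjw⟩
      exact hn' j (List.mem_toFinset.1 hj) hjw.symm
    · rw [mem_insert, mem_image]
      rintro (h5 | ⟨j, hj, hjw⟩)
      · exact hne h5
      · exact hn j (List.mem_toFinset.1 hj) hjw.symm
  -- neighbours of interior vertices
  have hkey : ∀ i, 4 ≤ i → i < 4 + R.m → ∀ w, G.Adj (f i) w → (∃ j ∈ inn R i, w = f j) ∨
      ((inn R i).length = 2 ∧ ∃ j, j < 4 ∧ s j = i) := by
    intro i hi hi' w hw
    by_cases hst : ∀ j ∈ List.range 4, st.getD j 0 ≠ i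
    · refine Or.inl (hall i hi hi' ?_ w hw)
      rcases hck.deg i (List.mem_range.2 hi') hi with h3 | h3
      · rw [h3.1]; exact h.deg _
      · rw [h3]; exact h2 i hi hi' hst h3
    · push Not at hst
      obtain ⟨j, hj, hji⟩ := hst
      refine Or.inr ⟨?_, j, List.mem_range.1 hj, hji⟩
      rcases hck.deg i (List.mem_range.2 hi') hi with h3 | h3
      · exact absurd hji (h3.2 j hj)
      · exact h3
  have hlen : ∀ j, j < 4 → (inn R (s j)).length = 2 := by
    intro j hj
    rcases hck.deg (s j) (List.mem_range.2 (hs1 j hj).2.1) (hs1 j hj).1 with h3 | h3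
    · exact absurd rfl (h3.2 j (List.mem_range.2 hj))
    · exact h3
  have hmemA : ∀ i, 4 ≤ i → i < 4 + R.m → f i ∈ A := fun i hi hi' => ⟨i, hi, hi', rfl⟩
  have hout : ∀ i, 4 ≤ i → i < 4 + R.m → ∀ w, w ∉ A → ∀ j ∈ inn R i, w ≠ f j := by
    intro i hi hi' w hw j hj hwj
    exact hw ⟨j, (mem_inn.1 hj).1, (hN i hi hi' j hj).1, hwj.symm⟩
  -- the outer neighbours
  set P : ℕ → V → Prop := fun j w => G.Adj (f (s j)) w ∧ w ∉ A with hP
  have hPu : ∀ j, j < 4 → ∀ w w', P j w → P j w' → w = w' := by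
    intro j hj w w' hw hw'
    obtain ⟨a1, a2, -⟩ := hs1 j hj
    exact hone (s j) a1 a2 (hlen j hj) w w' hw.1 hw'.1 (hout _ a1 a2 w hw.2) (hout _ a1 a2 w' hw'.2)
  set g : ℕ → V := fun j => if hj : ∃ w, P j w then hj.choose else f 4 with hg
  have hgP : ∀ j, (∃ w, P j w) → P j (g j) := by
    intro j hj
    simp only [hg]
    rw [dif_pos hj]
    exact hj.choose_spec
  have hleave : leave G A ⊆
      ↑(((range 4).filter fun j => ∃ w, P j w).image fun j => (f (s j), g j)) := by
    rintro ⟨v, w⟩ ⟨⟨i, hi, hi', rfl⟩, hw, hvw⟩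
    simp only at hw hvw
    rw [mem_coe, mem_image]
    rcases hkey i hi hi' w hvw with ⟨j, hj, hwj⟩ | ⟨-, j, hj, hji⟩
    · exact absurd hwj (hout i hi hi' w hw j hj)
    · have h3 : P j w := ⟨by rw [hji]; exact hvw, hw⟩
      refine ⟨j, mem_filter.2 ⟨mem_range.2 hj, w, h3⟩, ?_⟩
      rw [hji, hPu j hj _ _ (hgP j ⟨w, h3⟩) h3]
  have hl1 := Set.ncard_le_ncard hleave (Set.toFinite _)
  rw [Set.ncard_coe_finset] at hl1
  have hl2 := hl1.trans card_image_le
  have h4le := four_le h A (by rw [hAcard]; exact hck.m3) (by rw [hAcard]; omega)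
  have hex : ∀ j, j < 4 → ∃ w, P j w := by
    intro j hj
    by_contra hcon
    have h3 : ((range 4).filter fun j => ∃ w, P j w) ⊆ (range 4).erase j := by
      intro k hk
      rw [mem_filter] at hk
      rw [mem_erase]
      refine ⟨?_, hk.1⟩
      rintro rfl
      exact hcon hk.2
    have h5 := card_le_card h3
    rw [card_erase_of_mem (mem_range.2 hj), card_range] at h5
    omega
  have hg1 : ∀ j, j < 4 → G.Adj (f (s j)) (g j) ∧ g j ∉ A := fun j hj => hgP j (hex j hj)
  have hl4 : (leave G A).ncard ≤ 4 := by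
    have h5 := card_filter_le (range 4) fun j => ∃ w, P j w
    rw [card_range] at h5
    omega
  -- the outer neighbours are different
  have hg2 : ∀ i j, i < 4 → j < 4 → g i = g j → i = j := by
    intro i j hi hj hij
    by_contra hne
    obtain ⟨a1, a2, -⟩ := hs1 i hi
    obtain ⟨b1, b2, -⟩ := hs1 j hj
    have hss : f (s i) ≠ f (s j) := by
      intro h3
      exact hne (hck.stub_inj i (List.mem_range.2 hi) j (List.mem_range.2 hj)
        (hinj _ _ a1 a2 b1 b2 h3))
    have h3 := Pool.Agent.Red.leave_erase (G := G) Aᶜ (a := g i) (b := f (s i)) (b' := f (s j))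
      (hg1 i hi).2 (fun h4 => h4 (hmemA _ a1 a2)) (fun h4 => h4 (hmemA _ b1 b2))
      (hg1 i hi).1.symm (by rw [hij]; exact (hg1 j hj).1.symm) hss (h.deg _)
    rw [Pool.Agent.Red.leave_compl_ncard] at h3
    have h5 : (Aᶜ \ {g i}).ncard + 1 = Aᶜ.ncard :=
      Set.ncard_sdiff_singleton_add_one (hg1 i hi).2 (Set.toFinite _)
    have h6 := Set.ncard_add_ncard_compl A
    rw [Nat.card_eq_fintype_card, hAcard] at h6
    have hm3 := hck.m3
    have h7 := four_le h (Aᶜ \ {g i}) (by omega) (by omega)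
    omega
  -- the configuration
  have hst2 : ∀ j, j < 4 → ∀ w, G.Adj (f (s j)) w → (∀ k ∈ inn R (s j), w ≠ f k) → w = g j := by
    intro j hj w hw hn
    obtain ⟨a1, a2, -⟩ := hs1 j hj
    exact hone (s j) a1 a2 (hlen j hj) w (g j) hw (hg1 j hj).1 hn (hout _ a1 a2 _ (hg1 j hj).2)
  refine Red.no_conf h hR hd (fun j => if j < 4 then g j else f j) ?_ ?_ ?_ ?_ ?_
  · intro i j hi hj hij
    refine Or.inl ?_
    have hi' := hi.1
    have hj' := hj.1
    rw [ht] at hi' hj'
    by_cases h3 : i < 4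
    · by_cases h4 : j < 4
      · rw [if_pos h3, if_pos h4] at hij
        exact hg2 i j h3 h4 hij
      · rw [if_pos h3, if_neg h4] at hij
        exact absurd (hmemA j (by omega) hj') (by rw [← hij]; exact (hg1 i h3).2)
    · by_cases h4 : j < 4
      · rw [if_neg h3, if_pos h4] at hij
        exact absurd (hmemA i (by omega) hi') (by rw [hij]; exact (hg1 j h4).2)
      · rw [if_neg h3, if_neg h4] at hij
        exact hinj i j (by omega) hi' (by omega) hj' hij
  · intro e he _ _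
    rcases hck.ed e he with ⟨h3, h4⟩ | ⟨h3, h4, h5⟩ | ⟨h3, h4, h5⟩
    · rw [if_neg (by omega), if_neg (by omega)]
      exact hadj e he h3 h4
    · rw [if_pos h3, if_neg (by omega), ← h5]
      exact (hg1 _ h3).1.symm
    · rw [if_neg (by omega), if_pos h3, ← h5]
      exact (hg1 _ h3).1
  · intro i hi hi' w hw
    rw [ht] at hi hi'
    rw [if_neg (by omega)] at hw
    rcases hkey i hi hi' w hw with ⟨j, hj, hwj⟩ | ⟨-, j, hj, hji⟩
    · obtain ⟨h3, h4⟩ := mem_inn.1 hj
      refine ⟨j, h4, List.not_mem_nil, ?_⟩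
      rw [if_neg (by omega)]
      exact hwj
    · by_cases h3 : ∃ k ∈ inn R i, w = f k
      · obtain ⟨k, hk, hwk⟩ := h3
        obtain ⟨h3, h4⟩ := mem_inn.1 hk
        refine ⟨k, h4, List.not_mem_nil, ?_⟩
        rw [if_neg (by omega)]
        exact hwk
      · push Not at h3
        refine ⟨j, ?_, List.not_mem_nil, ?_⟩
        · rw [← hji]
          exact (hs1 j hj).2.2.symm
        · rw [if_pos hj]
          exact hst2 j hj w (by rw [hji]; exact hw) (by rw [hji]; exact h3)
  · intro p hp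
    exact absurd hp List.not_mem_nil
  · intro p hp
    exact absurd hp List.not_mem_nil

end Pool.Agent.T1Red
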