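import Mathlib
import Pool.Agent.Work.MP_392c8e_co_t1.FreeConf
import Pool.Agent.Work.MP_392c8e_co_t1.TVS1
import Pool.Agent.Work.MP_392c8e_co_t1.Inst.MidExt

/-!
# A pentagon with a vertex of degree two: `t1` and `t2` are not adjacent
-/

namespace Pool.Agent.TwoV

open Finset
open Pool.Agent.Red (Pl MinCex StrictCol leave)
open Pool.Agent.T1Red

variable {V : Type} [Fintype V] [DecidableEq V] {G : SimpleGraph V}

theorem free_Mid9 : FreeOK FreeMid9 [8, 9, 12, 11] := by
  constructor <;> decide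

/-- Entries of a list without repetitions. -/
theorem inj_of_nodup {V : Type*} {L : List V} (hL : L.Nodup) (x : V) {i j : ℕ}
    (hi : i < L.length) (hj : j < L.length) (h : L.getD i x = L.getD j x) : i = j := by
  rw [List.getD_eq_getElem _ _ hi, List.getD_eq_getElem _ _ hj] at h
  exact (List.Nodup.getElem_inj_iff hL).1 h

theorem Two.ncard_le {x a b : V} (hx : Two G x a b) : (G.neighborSet x).ncard ≤ 2 := by
  have h1 : G.neighborSet x ⊆ {a, b} := fun w hw => hx.2.2.2 w hw
  refine (Set.ncard_le_ncard h1 (Set.toFinite _)).trans ?_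
  rw [Set.ncard_pair hx.2.2.1]

/-- The first two third neighbours are not adjacent if `t2` and `t3` have a common neighbour. -/
theorem no_tt (h : MinCex G) (hn : 14 ≤ Fintype.card V) {x p1 p2 p3 p4 t1 t2 t3 t4 : V}
    (hx : Two G x p1 p4) (h1 : Three G p1 x p2 t1) (h2 : Three G p2 p1 p3 t2)
    (h3 : Three G p3 p2 p4 t3) (h4 : Three G p4 p3 x t4) {z : V} (hz2 : G.Adj t2 z)
    (hz3 : G.Adj z t3) (hz : z ∉ [x, p1, p2, p3, p4]) : ¬ G.Adj t1 t2 := by
  intro h12
  have hP := nodup5 hx h1 h2 h3 h4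
  have hT := nodupT h hn hx h1 h2 h3 h4
  obtain ⟨n1, n2, n3, n4⟩ := t_notMem h hx h1 h2 h3 h4
  have T := h.tri
  obtain ⟨e12, e13, e23⟩ : t1 ≠ t2 ∧ t1 ≠ t3 ∧ t2 ≠ t3 := by
    simp only [List.nodup_cons, List.mem_cons, List.not_mem_nil, or_false, not_or,
      List.nodup_nil, and_true, not_false_eq_true] at hT
    exact ⟨hT.1.1, hT.1.2.1, hT.2.1.1⟩
  have hnodup : [t1, t2, t3, x, p1, p2, p3, p4].Nodup := by
    refine List.nodup_cons.2 ⟨?_, List.nodup_cons.2 ⟨?_, List.nodup_cons.2 ⟨n3, hP⟩⟩⟩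
    · rw [List.mem_cons, List.mem_cons, not_or, not_or]
      exact ⟨e12, e13, n1⟩
    · rw [List.mem_cons, not_or]
      exact ⟨e23, n2⟩
  have hz1 : z ≠ t1 := by
    intro hzt
    rw [hzt] at hz2 hz3
    -- the vertices `x, p1, …, p4, t1, t2, t3` are left by at most three edges
    have k1 : p1 ≠ t2 := fun h5 => n2 (by rw [← h5]; simp)
    have k2 : p2 ≠ t1 := fun h5 => n1 (by rw [← h5]; simp)
    have k3 : p3 ≠ t1 := fun h5 => n1 (by rw [← h5]; simp)
    obtain ⟨s1, hs1⟩ := third h h1.2.2.1.symm h12 k1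
    obtain ⟨s2, hs2⟩ := third h h2.2.2.1.symm hz2 k2
    obtain ⟨s3, hs3⟩ := third h h3.2.2.1.symm hz3.symm k3
    have hst : t3 = s1 := by
      rcases hs1 t3 hz3 with h5 | h5 | h5
      · exact absurd (show t3 ∈ [x, p1, p2, p3, p4] by rw [h5]; simp) n3
      · exact absurd h5.symm e23
      · exact h5
    refine no_small h hn [t1, t2, t3, x, p1, p2, p3, p4] hnodup (by simp) (by simp)
      [(p4, t4), (t2, s2), (t3, s3)] (by simp) ?_
    intro u hu w hw
    simp only [List.mem_cons, List.not_mem_nil, or_false] at hu ⊢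
    rcases hu with rfl | rfl | rfl | rfl | rfl | rfl | rfl | rfl
    · rcases hs1 w hw with rfl | rfl | rfl <;> simp [hst]
    · rcases hs2 w hw with rfl | rfl | rfl <;> simp
    · rcases hs3 w hw with rfl | rfl | rfl <;> simp
    · rcases hx.2.2.2 w hw with rfl | rfl <;> simp
    · rcases h1.2.2.2.2.2.2 w hw with rfl | rfl | rfl <;> simp
    · rcases h2.2.2.2.2.2.2 w hw with rfl | rfl | rfl <;> simp
    · rcases h3.2.2.2.2.2.2 w hw with rfl | rfl | rfl <;> simp
    · rcases h4.2.2.2.2.2.2 w hw with rfl | rfl | rfl <;> simp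
  have hL : [x, p1, p2, p3, p4, t1, t2, t3, z].Nodup := by
    have h9 : [x, p1, p2, p3, p4, t1, t2, t3, z] = [x, p1, p2, p3, p4] ++ [t1, t2, t3, z] := rfl
    rw [h9, List.nodup_append]
    refine ⟨hP, ?_, ?_⟩
    · simp only [List.nodup_cons, List.mem_cons, List.not_mem_nil, or_false, not_or,
        List.nodup_nil, and_true, not_false_eq_true]
      exact ⟨⟨e12, e13, hz1.symm⟩, ⟨e23, hz2.ne⟩, hz3.symm.ne⟩
    · intro a ha b hb hab
      subst hab
      simp only [List.mem_cons, List.not_mem_nil, or_false] at hb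
      rcases hb with rfl | rfl | rfl | rfl
      · exact n1 ha
      · exact n2 ha
      · exact n3 ha
      · exact hz ha
  refine no_free h FreeMid9_ext FreeMid9_data free_Mid9 (show 9 + 4 ≤ _ by omega)
    (fun n => [x, p1, p2, p3, p4, t1, t2, t3, z].getD (n - 4) x) ?_ ?_ ?_
  · intro i j hi hi' hj hj' hij
    have h5 : i < 4 + 9 := hi'
    have h6 : j < 4 + 9 := hj'
    have h7 := inj_of_nodup hL x (i := i - 4) (j := j - 4)
      (show i - 4 < 9 by omega) (show j - 4 < 9 by omega) hij
    omega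
  · intro e he h5 h6
    simp only [FreeMid9, List.mem_cons, List.not_mem_nil, or_false] at he
    rcases he with rfl | rfl | rfl | rfl | rfl | rfl | rfl | rfl | rfl | rfl | rfl | rfl | rfl |
      rfl | rfl
    · exact hx.1
    · exact hx.2.1
    · exact h1.2.1
    · exact h2.2.1
    · exact h3.2.1
    · exact h1.2.2.1
    · exact h2.2.2.1
    · exact h3.2.2.1
    · exact hz2
    · exact hz3
    · exact h12
    · exact absurd h6 (by decide)
    · exact absurd h6 (by decide)
    · exact absurd h6 (by decide)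
    · exact absurd h6 (by decide)
  · intro i hi hi' hst hl
    have h5 : i < 4 + 9 := hi'
    interval_cases i
    · exact hx.ncard_le
    all_goals first
      | exact absurd hl (by decide)
      | exact absurd hst (by decide)

end Pool.Agent.TwoV
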