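import Mathlib
import Pool.Agent.Work.MP_392c8e_co_t1.TVDefs
import Pool.Agent.Work.MP_392c8e_co_t1.Inst.MidExt

/-!
# The vertex opposite to a vertex of degree two on the next 5-cycle has degree three
-/

namespace Pool.Agent.TwoV

open Finset
open Pool.Agent.Red (Pl MinCex StrictCol leave)
open Pool.Agent.T1Red

set_option linter.unusedSectionVars false

theorem getD_inj {α : Type*} {L : List α} (hL : L.Nodup) (d : α) {i j : ℕ} (hi : i < L.length)
    (hj : j < L.length) (h : L.getD i d = L.getD j d) : i = j := by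
  rw [List.getD_eq_getElem _ _ hi, List.getD_eq_getElem _ _ hj] at h
  exact (hL.getElem_inj_iff).1 h

variable {V : Type} [Fintype V] [DecidableEq V] {G : SimpleGraph V}

/-- The ends of four edges which leave a small set are outside and distinct. -/
theorem stubs4 (h : MinCex G) (hn : 14 ≤ Fintype.card V) {L : List V} (hL : L.Nodup)
    (h3 : 3 ≤ L.length) (h10 : L.length ≤ 10) {a b : Fin 4 → V} (ha : ∀ i, a i ∈ L)
    (hinj : Function.Injective a) (hab : ∀ i, G.Adj (a i) (b i))
    (hcov : ∀ u ∈ L, ∀ w, G.Adj u w → w ∈ L ∨ ∃ i, u = a i ∧ w = b i) :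
    (∀ i, b i ∉ L) ∧ Function.Injective b := by
  have hout : ∀ i, b i ∉ L := by
    intro i hi
    refine no_small h hn L hL h3 (by omega)
      ((Finset.univ.erase i).toList.map fun j => (a j, b j)) ?_ ?_
    · rw [List.length_map, Finset.length_toList, Finset.card_erase_of_mem (Finset.mem_univ _),
        Finset.card_univ, Fintype.card_fin]
    · intro u hu w hw
      rcases hcov u hu w hw with h1 | ⟨j, rfl, rfl⟩
      · exact Or.inl h1
      · by_cases hij : j = i
        · subst hij
          exact Or.inl hi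
        · refine Or.inr (List.mem_map.2 ⟨j, ?_, rfl⟩)
          rw [Finset.mem_toList]
          exact Finset.mem_erase.2 ⟨hij, Finset.mem_univ _⟩
  refine ⟨hout, fun i j hij => ?_⟩
  by_contra hne
  have h1 : a i ≠ a j := fun h => hne (hinj h)
  -- the third neighbour of the common end
  obtain ⟨M, hM, hM'⟩ : ∃ M : List (V × V), M.length ≤ 1 ∧
      ∀ w, G.Adj (b i) w → w ∈ L ∨ (b i, w) ∈ M := by
    rcases two_or_three h (hab i).symm (by rw [hij]; exact (hab j).symm) h1 with h2 | ⟨c, h2⟩
    · refine ⟨[], by simp, fun w hw => ?_⟩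
      rcases h2.2.2.2 w hw with rfl | rfl
      · exact Or.inl (ha i)
      · exact Or.inl (ha j)
    · refine ⟨[(b i, c)], by simp, fun w hw => ?_⟩
      rcases h2.2.2.2.2.2.2 w hw with rfl | rfl | rfl
      · exact Or.inl (ha i)
      · exact Or.inl (ha j)
      · exact Or.inr (by simp)
  refine no_small h hn (b i :: L) (List.nodup_cons.2 ⟨hout i, hL⟩) (by simp; omega)
    (by simp; omega)
    (((Finset.univ.erase i).erase j).toList.map (fun j => (a j, b j)) ++ M) ?_ ?_
  · rw [List.length_append, List.length_map, Finset.length_toList,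
      Finset.card_erase_of_mem (Finset.mem_erase.2 ⟨fun h => hne h.symm, Finset.mem_univ _⟩),
      Finset.card_erase_of_mem (Finset.mem_univ _), Finset.card_univ, Fintype.card_fin]
    omega
  · intro u hu w hw
    rcases List.mem_cons.1 hu with rfl | hu
    · rcases hM' w hw with h2 | h2
      · exact Or.inl (List.mem_cons_of_mem _ h2)
      · exact Or.inr (List.mem_append_right _ h2)
    · rcases hcov u hu w hw with h2 | ⟨k, rfl, rfl⟩
      · exact Or.inl (List.mem_cons_of_mem _ h2)
      · by_cases hki : k = i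
        · subst hki
          exact Or.inl (List.mem_cons_self)
        · by_cases hkj : k = j
          · subst hkj
            rw [hij]
            exact Or.inl (List.mem_cons_self)
          · refine Or.inr (List.mem_append_left _ (List.mem_map.2 ⟨k, ?_, rfl⟩))
            rw [Finset.mem_toList]
            exact Finset.mem_erase.2 ⟨hkj, Finset.mem_erase.2 ⟨hki, Finset.mem_univ _⟩⟩

/-- **The middle vertex is not of degree two.** -/
theorem no_ztwo (h : MinCex G) (hn : 14 ≤ Fintype.card V) {x p1 p2 p3 p4 t1 t2 t3 t4 : V}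
    (hx : Two G x p1 p4) (h1 : Three G p1 x p2 t1) (h2 : Three G p2 p1 p3 t2)
    (h3 : Three G p3 p2 p4 t3) (h4 : Three G p4 p3 x t4) {z : V} (kz : Two G z t2 t3)
    (hz : z ∉ [x, p1, p2, p3, p4]) : False := by
  simp only [List.mem_cons, List.not_mem_nil, or_false, not_or] at hz
  obtain ⟨z0, z1, z2, z3, z4⟩ := hz
  obtain ⟨s2, k2⟩ := three_of_adj h hn kz h2.2.2.1.symm (Ne.symm z2)
  obtain ⟨s3, k3⟩ := three_of_adj h hn kz.swap h3.2.2.1.symm (Ne.symm z3)
  -- edges
  have exp1 : G.Adj x p1 := hx.1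
  have exp4 : G.Adj x p4 := hx.2.1
  have e12 : G.Adj p1 p2 := h1.2.1
  have e23 : G.Adj p2 p3 := h2.2.1
  have e34 : G.Adj p3 p4 := h3.2.1
  have e2t : G.Adj p2 t2 := h2.2.2.1
  have e3t : G.Adj p3 t3 := h3.2.2.1
  have ez2 : G.Adj z t2 := kz.1
  have ez3 : G.Adj z t3 := kz.2.1
  -- the eight vertices are distinct
  have n14 : p1 ≠ p4 := hx.2.2.1
  have n13 : p1 ≠ p3 := h2.2.2.2.1
  have n24 : p2 ≠ p4 := h3.2.2.2.1
  have nx2 : x ≠ p2 := h1.2.2.2.1
  have nx3 : x ≠ p3 := Ne.symm h4.2.2.2.1
  have n1t : p1 ≠ t2 := h2.2.2.2.2.1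
  have n3t : p3 ≠ t2 := h2.2.2.2.2.2.1
  have n2u : p2 ≠ t3 := h3.2.2.2.2.1
  have n4u : p4 ≠ t3 := h3.2.2.2.2.2.1
  have nxt : x ≠ t2 := by
    rintro rfl
    rcases hx.2.2.2 p2 e2t.symm with h5 | h5
    · exact e12.ne h5.symm
    · exact n24 h5
  have nxu : x ≠ t3 := by
    rintro rfl
    rcases hx.2.2.2 p3 e3t.symm with h5 | h5
    · exact n13 h5.symm
    · exact e34.ne h5
  have n1u : p1 ≠ t3 := by
    rintro rfl
    exact no_tri h.tri e12 e23 e3t.symm
  have n4t : p4 ≠ t2 := by
    rintro rfl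
    exact no_tri h.tri e23 e34 e2t
  have ntu : t2 ≠ t3 := kz.2.2.1
  have hL : [x, p1, p2, p3, p4, t2, t3, z].Nodup := by
    simp only [List.nodup_cons, List.mem_cons, List.not_mem_nil, or_false, not_or,
      List.nodup_nil, and_true, not_false_eq_true]
    exact ⟨⟨exp1.ne, nx2, nx3, exp4.ne, nxt, nxu, Ne.symm z0⟩,
      ⟨e12.ne, n13, n14, n1t, n1u, Ne.symm z1⟩,
      ⟨e23.ne, n24, e2t.ne, n2u, Ne.symm z2⟩, ⟨e34.ne, n3t, e3t.ne, Ne.symm z3⟩,
      ⟨n4t, n4u, Ne.symm z4⟩, ⟨ntu, ez2.ne.symm⟩, ez3.ne.symm⟩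
  obtain ⟨hout, hinj⟩ := stubs4 h hn hL (by simp) (by simp) (a := ![p1, t2, t3, p4])
    (b := ![t1, s2, s3, t4]) (by intro i; fin_cases i <;> simp) (by
      intro i j hij
      fin_cases i <;> fin_cases j
      · rfl
      · exact absurd hij n1t
      · exact absurd hij n1u
      · exact absurd hij n14
      · exact absurd hij.symm n1t
      · rfl
      · exact absurd hij ntu
      · exact absurd hij.symm n4t
      · exact absurd hij.symm n1u
      · exact absurd hij.symm ntu
      · rfl
      · exact absurd hij.symm n4u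
      · exact absurd hij.symm n14
      · exact absurd hij n4t
      · exact absurd hij n4u
      · rfl) (by
      intro i
      fin_cases i
      · exact h1.2.2.1
      · exact k2.2.2.1
      · exact k3.2.2.1
      · exact h4.2.2.1) (by
      intro u hu w hw
      simp only [List.mem_cons, List.not_mem_nil, or_false] at hu
      rcases hu with rfl | rfl | rfl | rfl | rfl | rfl | rfl | rfl
      · rcases hx.2.2.2 w hw with rfl | rfl <;> simp
      · rcases h1.2.2.2.2.2.2 w hw with rfl | rfl | rfl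
        · simp
        · simp
        · exact Or.inr ⟨0, rfl, rfl⟩
      · rcases h2.2.2.2.2.2.2 w hw with rfl | rfl | rfl <;> simp
      · rcases h3.2.2.2.2.2.2 w hw with rfl | rfl | rfl <;> simp
      · rcases h4.2.2.2.2.2.2 w hw with rfl | rfl | rfl
        · simp
        · simp
        · exact Or.inr ⟨3, rfl, rfl⟩
      · rcases k2.2.2.2.2.2.2 w hw with rfl | rfl | rfl
        · simp
        · simp
        · exact Or.inr ⟨1, rfl, rfl⟩
      · rcases k3.2.2.2.2.2.2 w hw with rfl | rfl | rfl
        · simp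
        · simp
        · exact Or.inr ⟨2, rfl, rfl⟩
      · rcases kz.2.2.2 w hw with rfl | rfl <;> simp)
  have hF : [t1, s2, s3, t4, x, p1, p2, p3, p4, t2, t3, z].Nodup := by
    have o0 : t1 ∉ [x, p1, p2, p3, p4, t2, t3, z] := hout 0
    have o1 : s2 ∉ [x, p1, p2, p3, p4, t2, t3, z] := hout 1
    have o2 : s3 ∉ [x, p1, p2, p3, p4, t2, t3, z] := hout 2
    have o3 : t4 ∉ [x, p1, p2, p3, p4, t2, t3, z] := hout 3
    have i01 : t1 ≠ s2 := fun h5 => absurd (hinj (a₁ := 0) (a₂ := 1) h5) (by decide)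
    have i02 : t1 ≠ s3 := fun h5 => absurd (hinj (a₁ := 0) (a₂ := 2) h5) (by decide)
    have i03 : t1 ≠ t4 := fun h5 => absurd (hinj (a₁ := 0) (a₂ := 3) h5) (by decide)
    have i12 : s2 ≠ s3 := fun h5 => absurd (hinj (a₁ := 1) (a₂ := 2) h5) (by decide)
    have i13 : s2 ≠ t4 := fun h5 => absurd (hinj (a₁ := 1) (a₂ := 3) h5) (by decide)
    have i23 : s3 ≠ t4 := fun h5 => absurd (hinj (a₁ := 2) (a₂ := 3) h5) (by decide)
    refine List.nodup_cons.2 ⟨?_, List.nodup_cons.2 ⟨?_, List.nodup_cons.2 ⟨?_,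
      List.nodup_cons.2 ⟨o3, hL⟩⟩⟩⟩
    · intro h5
      rcases List.mem_cons.1 h5 with h6 | h6
      · exact i01 h6
      rcases List.mem_cons.1 h6 with h6 | h6
      · exact i02 h6
      rcases List.mem_cons.1 h6 with h6 | h6
      · exact i03 h6
      exact o0 h6
    · intro h5
      rcases List.mem_cons.1 h5 with h6 | h6
      · exact i12 h6
      rcases List.mem_cons.1 h6 with h6 | h6
      · exact i13 h6
      exact o1 h6
    · intro h5
      rcases List.mem_cons.1 h5 with h6 | h6
      · exact i23 h6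
      exact o2 h6
  set f : ℕ → V := fun i => [t1, s2, s3, t4, x, p1, p2, p3, p4, t2, t3, z].getD i x with hf
  refine Red.no_conf h FreeMidZ_ext FreeMidZ_data f ?_ ?_ ?_ ?_ ?_
  · intro i j hi hj hij
    exact Or.inl (getD_inj hF x hi.1 hj.1 hij)
  · have hA : ∀ e ∈ FreeMidZ.ed, G.Adj (f e.1) (f e.2) := by
      intro e he
      simp only [FreeMidZ, List.mem_cons, List.not_mem_nil, or_false] at he
      rcases he with rfl | rfl | rfl | rfl | rfl | rfl | rfl | rfl | rfl | rfl | rfl | rfl | rfl
      · exact exp1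
      · exact exp4
      · exact e12
      · exact e23
      · exact e34
      · exact e2t
      · exact e3t
      · exact ez2.symm
      · exact ez3
      · exact h1.2.2.1
      · exact k2.2.2.1
      · exact k3.2.2.1
      · exact h4.2.2.1
    exact fun e he _ _ => hA e he
  · intro i hi hi' w hw
    change 4 ≤ i at hi
    change i < 12 at hi'
    interval_cases i
    · rcases hx.2.2.2 w hw with rfl | rfl
      · exact ⟨5, by decide, by simp, rfl⟩
      · exact ⟨8, by decide, by simp, rfl⟩
    · rcases h1.2.2.2.2.2.2 w hw with rfl | rfl | rfl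
      · exact ⟨4, by decide, by simp, rfl⟩
      · exact ⟨6, by decide, by simp, rfl⟩
      · exact ⟨0, by decide, by simp, rfl⟩
    · rcases h2.2.2.2.2.2.2 w hw with rfl | rfl | rfl
      · exact ⟨5, by decide, by simp, rfl⟩
      · exact ⟨7, by decide, by simp, rfl⟩
      · exact ⟨9, by decide, by simp, rfl⟩
    · rcases h3.2.2.2.2.2.2 w hw with rfl | rfl | rfl
      · exact ⟨6, by decide, by simp, rfl⟩
      · exact ⟨8, by decide, by simp, rfl⟩
      · exact ⟨10, by decide, by simp, rfl⟩
    · rcases h4.2.2.2.2.2.2 w hw with rfl | rfl | rfl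
      · exact ⟨7, by decide, by simp, rfl⟩
      · exact ⟨4, by decide, by simp, rfl⟩
      · exact ⟨3, by decide, by simp, rfl⟩
    · rcases k2.2.2.2.2.2.2 w hw with rfl | rfl | rfl
      · exact ⟨11, by decide, by simp, rfl⟩
      · exact ⟨6, by decide, by simp, rfl⟩
      · exact ⟨1, by decide, by simp, rfl⟩
    · rcases k3.2.2.2.2.2.2 w hw with rfl | rfl | rfl
      · exact ⟨11, by decide, by simp, rfl⟩
      · exact ⟨7, by decide, by simp, rfl⟩
      · exact ⟨2, by decide, by simp, rfl⟩
    · rcases kz.2.2.2 w hw with rfl | rfl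
      · exact ⟨9, by decide, by simp, rfl⟩
      · exact ⟨10, by decide, by simp, rfl⟩
  · intro p hp
    simp at hp
  · intro p hp
    simp at hp

end Pool.Agent.TwoV
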