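import Mathlib
import Pool.Agent.Work.MP_392c8e_co_t1.TVFreeZ

/-!
# The second vertex of the next 5-cycle has degree three
-/

namespace Pool.Agent.TwoV

open Finset
open Pool.Agent.Red (Pl MinCex StrictCol leave)
open Pool.Agent.T1Red

set_option linter.unusedSectionVars false

variable {V : Type} [Fintype V] [DecidableEq V] {G : SimpleGraph V}

/-- **The vertex `t2` is not of degree two.** -/
theorem no_t2two (h : MinCex G) (hn : 14 ≤ Fintype.card V) {x p1 p2 p3 p4 t1 t2 t3 t4 : V}
    (hx : Two G x p1 p4) (h1 : Three G p1 x p2 t1) (h2 : Three G p2 p1 p3 t2)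
    (h3 : Three G p3 p2 p4 t3) (h4 : Three G p4 p3 x t4) {z : V} (k2 : Two G t2 p2 z)
    (hz3 : G.Adj z t3) (hz : z ∉ [x, p1, p2, p3, p4]) : False := by
  simp only [List.mem_cons, List.not_mem_nil, or_false, not_or] at hz
  obtain ⟨z0, z1, z2, z3, z4⟩ := hz
  -- edges
  have exp1 : G.Adj x p1 := hx.1
  have exp4 : G.Adj x p4 := hx.2.1
  have e12 : G.Adj p1 p2 := h1.2.1
  have e23 : G.Adj p2 p3 := h2.2.1
  have e34 : G.Adj p3 p4 := h3.2.1
  have e2t : G.Adj p2 t2 := h2.2.2.1
  have e3t : G.Adj p3 t3 := h3.2.2.1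
  have etz : G.Adj t2 z := k2.2.1
  -- the eight vertices are distinct
  have n14 : p1 ≠ p4 := hx.2.2.1
  have n13 : p1 ≠ p3 := h2.2.2.2.1
  have n24 : p2 ≠ p4 := h3.2.2.2.1
  have nx2 : x ≠ p2 := h1.2.2.2.1
  have nx3 : x ≠ p3 := Ne.symm h4.2.2.2.1
  have n1t : p1 ≠ t2 := h2.2.2.2.2.1
  have n3t : p3 ≠ t2 := h2.2.2.2.2.2.1
  have n2u : p2 ≠ t3 := h3.2.2.2.2.1
  have n4u : p4 ≠ t3 := h3.2.2.2.2.2.1
  have nxt : x ≠ t2 := by
    rintro rfl
    rcases hx.2.2.2 p2 e2t.symm with h5 | h5
    · exact e12.ne h5.symm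
    · exact n24 h5
  have nxu : x ≠ t3 := by
    rintro rfl
    rcases hx.2.2.2 p3 e3t.symm with h5 | h5
    · exact n13 h5.symm
    · exact e34.ne h5
  have n1u : p1 ≠ t3 := by
    rintro rfl
    exact no_tri h.tri e12 e23 e3t.symm
  have n4t : p4 ≠ t2 := by
    rintro rfl
    exact no_tri h.tri e23 e34 e2t
  have ntu : t2 ≠ t3 := by
    rintro rfl
    exact no_tri h.tri e23 e3t e2t
  obtain ⟨s, kz⟩ := three_of_adj h hn k2.swap hz3 ntu.symm
  obtain ⟨s3, k3⟩ := three_of_adj2 h hn k2.swap hz3 ntu.symm e3t.symm (Ne.symm z3)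
  have hL : [x, p1, p2, p3, p4, t2, t3, z].Nodup := by
    simp only [List.nodup_cons, List.mem_cons, List.not_mem_nil, or_false, not_or,
      List.nodup_nil, and_true, not_false_eq_true]
    exact ⟨⟨exp1.ne, nx2, nx3, exp4.ne, nxt, nxu, Ne.symm z0⟩,
      ⟨e12.ne, n13, n14, n1t, n1u, Ne.symm z1⟩,
      ⟨e23.ne, n24, e2t.ne, n2u, Ne.symm z2⟩, ⟨e34.ne, n3t, e3t.ne, Ne.symm z3⟩,
      ⟨n4t, n4u, Ne.symm z4⟩, ⟨ntu, etz.ne⟩, hz3.ne.symm⟩
  obtain ⟨hout, hinj⟩ := stubs4 h hn hL (by simp) (by simp) (a := ![p1, z, t3, p4])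
    (b := ![t1, s, s3, t4]) (by intro i; fin_cases i <;> simp) (by
      intro i j hij
      fin_cases i <;> fin_cases j
      · rfl
      · exact absurd hij.symm z1
      · exact absurd hij n1u
      · exact absurd hij n14
      · exact absurd hij z1
      · rfl
      · exact absurd hij hz3.ne
      · exact absurd hij z4
      · exact absurd hij.symm n1u
      · exact absurd hij.symm hz3.ne
      · rfl
      · exact absurd hij.symm n4u
      · exact absurd hij.symm n14
      · exact absurd hij.symm z4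
      · exact absurd hij n4u
      · rfl) (by
      intro i
      fin_cases i
      · exact h1.2.2.1
      · exact kz.2.2.1
      · exact k3.2.2.1
      · exact h4.2.2.1) (by
      intro u hu w hw
      simp only [List.mem_cons, List.not_mem_nil, or_false] at hu
      rcases hu with rfl | rfl | rfl | rfl | rfl | rfl | rfl | rfl
      · rcases hx.2.2.2 w hw with rfl | rfl <;> simp
      · rcases h1.2.2.2.2.2.2 w hw with rfl | rfl | rfl
        · simp
        · simp
        · exact Or.inr ⟨0, rfl, rfl⟩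
      · rcases h2.2.2.2.2.2.2 w hw with rfl | rfl | rfl <;> simp
      · rcases h3.2.2.2.2.2.2 w hw with rfl | rfl | rfl <;> simp
      · rcases h4.2.2.2.2.2.2 w hw with rfl | rfl | rfl
        · simp
        · simp
        · exact Or.inr ⟨3, rfl, rfl⟩
      · rcases k2.2.2.2 w hw with rfl | rfl <;> simp
      · rcases k3.2.2.2.2.2.2 w hw with rfl | rfl | rfl
        · simp
        · simp
        · exact Or.inr ⟨2, rfl, rfl⟩
      · rcases kz.2.2.2.2.2.2 w hw with rfl | rfl | rfl
        · simp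
        · simp
        · exact Or.inr ⟨1, rfl, rfl⟩)
  have hF : [t1, s, s3, t4, x, p1, p2, p3, p4, t2, t3, z].Nodup := by
    have o0 : t1 ∉ [x, p1, p2, p3, p4, t2, t3, z] := hout 0
    have o1 : s ∉ [x, p1, p2, p3, p4, t2, t3, z] := hout 1
    have o2 : s3 ∉ [x, p1, p2, p3, p4, t2, t3, z] := hout 2
    have o3 : t4 ∉ [x, p1, p2, p3, p4, t2, t3, z] := hout 3
    have i01 : t1 ≠ s := fun h5 => absurd (hinj (a₁ := 0) (a₂ := 1) h5) (by decide)
    have i02 : t1 ≠ s3 := fun h5 => absurd (hinj (a₁ := 0) (a₂ := 2) h5) (by decide)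
    have i03 : t1 ≠ t4 := fun h5 => absurd (hinj (a₁ := 0) (a₂ := 3) h5) (by decide)
    have i12 : s ≠ s3 := fun h5 => absurd (hinj (a₁ := 1) (a₂ := 2) h5) (by decide)
    have i13 : s ≠ t4 := fun h5 => absurd (hinj (a₁ := 1) (a₂ := 3) h5) (by decide)
    have i23 : s3 ≠ t4 := fun h5 => absurd (hinj (a₁ := 2) (a₂ := 3) h5) (by decide)
    refine List.nodup_cons.2 ⟨?_, List.nodup_cons.2 ⟨?_, List.nodup_cons.2 ⟨?_,
      List.nodup_cons.2 ⟨o3, hL⟩⟩⟩⟩
    · intro h5
      rcases List.mem_cons.1 h5 with h6 | h6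
      · exact i01 h6
      rcases List.mem_cons.1 h6 with h6 | h6
      · exact i02 h6
      rcases List.mem_cons.1 h6 with h6 | h6
      · exact i03 h6
      exact o0 h6
    · intro h5
      rcases List.mem_cons.1 h5 with h6 | h6
      · exact i12 h6
      rcases List.mem_cons.1 h6 with h6 | h6
      · exact i13 h6
      exact o1 h6
    · intro h5
      rcases List.mem_cons.1 h5 with h6 | h6
      · exact i23 h6
      exact o2 h6
  set f : ℕ → V := fun i => [t1, s, s3, t4, x, p1, p2, p3, p4, t2, t3, z].getD i x with hf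
  refine Red.no_conf h FreeMidA_ext FreeMidA_data f ?_ ?_ ?_ ?_ ?_
  · intro i j hi hj hij
    exact Or.inl (getD_inj hF x hi.1 hj.1 hij)
  · have hA : ∀ e ∈ FreeMidA.ed, G.Adj (f e.1) (f e.2) := by
      intro e he
      simp only [FreeMidA, List.mem_cons, List.not_mem_nil, or_false] at he
      rcases he with rfl | rfl | rfl | rfl | rfl | rfl | rfl | rfl | rfl | rfl | rfl | rfl | rfl
      · exact exp1
      · exact exp4
      · exact e12
      · exact e23
      · exact e34
      · exact e2t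
      · exact e3t
      · exact etz
      · exact hz3
      · exact h1.2.2.1
      · exact kz.2.2.1
      · exact k3.2.2.1
      · exact h4.2.2.1
    exact fun e he _ _ => hA e he
  · intro i hi hi' w hw
    change 4 ≤ i at hi
    change i < 12 at hi'
    interval_cases i
    · rcases hx.2.2.2 w hw with rfl | rfl
      · exact ⟨5, by decide, by simp, rfl⟩
      · exact ⟨8, by decide, by simp, rfl⟩
    · rcases h1.2.2.2.2.2.2 w hw with rfl | rfl | rfl
      · exact ⟨4, by decide, by simp, rfl⟩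
      · exact ⟨6, by decide, by simp, rfl⟩
      · exact ⟨0, by decide, by simp, rfl⟩
    · rcases h2.2.2.2.2.2.2 w hw with rfl | rfl | rfl
      · exact ⟨5, by decide, by simp, rfl⟩
      · exact ⟨7, by decide, by simp, rfl⟩
      · exact ⟨9, by decide, by simp, rfl⟩
    · rcases h3.2.2.2.2.2.2 w hw with rfl | rfl | rfl
      · exact ⟨6, by decide, by simp, rfl⟩
      · exact ⟨8, by decide, by simp, rfl⟩
      · exact ⟨10, by decide, by simp, rfl⟩
    · rcases h4.2.2.2.2.2.2 w hw with rfl | rfl | rfl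
      · exact ⟨7, by decide, by simp, rfl⟩
      · exact ⟨4, by decide, by simp, rfl⟩
      · exact ⟨3, by decide, by simp, rfl⟩
    · rcases k2.2.2.2 w hw with rfl | rfl
      · exact ⟨6, by decide, by simp, rfl⟩
      · exact ⟨11, by decide, by simp, rfl⟩
    · rcases k3.2.2.2.2.2.2 w hw with rfl | rfl | rfl
      · exact ⟨11, by decide, by simp, rfl⟩
      · exact ⟨7, by decide, by simp, rfl⟩
      · exact ⟨2, by decide, by simp, rfl⟩
    · rcases kz.2.2.2.2.2.2 w hw with rfl | rfl | rfl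
      · exact ⟨9, by decide, by simp, rfl⟩
      · exact ⟨10, by decide, by simp, rfl⟩
      · exact ⟨1, by decide, by simp, rfl⟩
  · intro p hp
    simp at hp
  · intro p hp
    simp at hp

end Pool.Agent.TwoV
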