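import Mathlib
import Pool.Agent.Work.MP_392c8e_co_t1.TVMid
import Pool.Agent.Work.MP_392c8e_co_t1.TVFreeZ
import Pool.Agent.Work.MP_392c8e_co_t1.TVFreeA
import Pool.Agent.Work.MP_392c8e_co_t1.TVFree9
import Pool.Agent.Work.MP_392c8e_co_t1.Corners
import Pool.Agent.Work.MP_392c8e_co_t1.CardGe

/-!
# No vertex of degree two lies on a cycle of length four or five
-/

namespace Pool.Agent.TwoV

open Pool.Agent.Red (Pl MinCex StrictCol leave)
open Pool.Agent.T1Red
open Pool.T1Side (Tr NB)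
open Pool.Agent.Sub392 Pool.Agent.T392

set_option linter.unusedSectionVars false

variable {V : Type} [Fintype V] [DecidableEq V] {G : SimpleGraph V} [DecidableRel G.Adj]

theorem Three.degree {v a b c : V} (h : Three G v a b c) : G.degree v = 3 := by
  obtain ⟨h1, h2, h3, h4, h5, h6, h7⟩ := h
  have e1 : G.neighborFinset v = {a, b, c} := by
    ext w
    rw [SimpleGraph.mem_neighborFinset, Finset.mem_insert, Finset.mem_insert,
      Finset.mem_singleton]
    exact ⟨h7 w, by rintro (rfl | rfl | rfl) <;> assumption⟩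
  rw [← SimpleGraph.card_neighborFinset_eq_degree, e1]
  exact Finset.card_eq_three.2 ⟨a, b, c, h4, h5, h6, rfl⟩

theorem Two.degree {v a b : V} (h : Two G v a b) : G.degree v = 2 := by
  obtain ⟨h1, h2, h4, h7⟩ := h
  have e1 : G.neighborFinset v = {a, b} := by
    ext w
    rw [SimpleGraph.mem_neighborFinset, Finset.mem_insert, Finset.mem_singleton]
    exact ⟨h7 w, by rintro (rfl | rfl) <;> assumption⟩
  rw [← SimpleGraph.card_neighborFinset_eq_degree, e1]
  exact Finset.card_pair h4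

theorem two_of_degree (h : MinCex G) {v a b : V} (hd : G.degree v = 2) (ha : G.Adj v a)
    (hb : G.Adj v b) (hab : a ≠ b) : Two G v a b := by
  rcases two_or_three h ha hb hab with h1 | ⟨c, h1⟩
  · exact h1
  · rw [h1.degree] at hd
    omega

/-- **No vertex of degree two lies on a 4-cycle.** -/
theorem no_two_four (h : MinCex G) {a b c d : V} (hN : NB G [a, b, c, d]) : G.degree a ≠ 2 := by
  intro hd
  obtain ⟨h1, h2, h3, h4, h5, h6, h7, h8, -⟩ := hN
  exact h2 (no_dom h (two_of_degree h hd h1 h7.symm h4) h3.symm h5).symm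

/-- The neighbours of a vertex of degree two on a 5-cycle have degree three. -/
theorem three_two (h : MinCex G) {a b c d e : V} (hN : NB G [a, b, c, d, e])
    (hd : G.degree b = 2) : G.degree a = 3 ∧ G.degree c = 3 := by
  obtain ⟨h1, h2, h3, h4, h5, h6, h7, h8, h9, h10, -⟩ := hN
  have hx := two_of_degree h hd h1.symm h3 h2
  obtain ⟨t, ht⟩ := three_of_adj h h.card_ge hx h9.symm h10
  obtain ⟨t', ht'⟩ := three_of_adj h h.card_ge hx.swap h5 h4.symm
  exact ⟨ht.degree, ht'.degree⟩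

/-- **Two 5-cycles through the same corner at a vertex of degree two are equal.** -/
theorem two_five_eq (h : MinCex G) {a b c d e f k : V} (hd : G.degree b = 2)
    (h1 : NB G [a, b, c, d, e]) (h2 : NB G [a, b, c, f, k]) : d = f ∧ e = k := by
  obtain ⟨a1, a2, a3, a4, a5, a6, a7, a8, a9, a10, -⟩ := h1
  obtain ⟨b1, b2, b3, b4, b5, b6, b7, b8, b9, b10, -⟩ := h2
  have hx := two_of_degree h hd a3 a1.symm a2.symm
  obtain ⟨e1, e2⟩ := corner_two h h.card_ge hx a5 a4 a7 a6 a8 a9 a10 b5 b4 b7 b9 b10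
  exact ⟨e1.symm, e2.symm⟩

/-- The corners of closed walks of length at most six. -/
theorem cornerC_of {R : Rot G} (g : Geo R) (hbad : ¬ Bad R 6) : CornerC G := by
  rintro a v b l l' ⟨c, d, e, h3⟩ h1 h2 hl hl'
  exact g.cornerEq (by norm_num) hbad h1 h2 (by omega) (by omega) h3.degree

/-- **No vertex of degree two lies on a 5-cycle.** -/
theorem no_two_five (h : MinCex G) (hc : CornerC G) {x p1 p2 p3 p4 : V}
    (hN : NB G [x, p1, p2, p3, p4]) : G.degree x ≠ 2 := by
  intro hd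
  obtain ⟨h1, h2, h3, h4, h5, h6, h7, h8, h9, h10, -⟩ := hN
  have hn := h.card_ge
  have hx := two_of_degree h hd h1 h9.symm h10.symm
  obtain ⟨t1, t2, t3, t4, k1, k2, k3, k4⟩ := setup h hn hx h3 h5 h7 h2.symm h8 h4 h6
  have h14 := no_x55 h hn hx k1 k2 k3 k4
  obtain ⟨z, hz2, hz3, hz⟩ := exists_z h hn hx k1 k2 k3 k4 h14
  have h12 : ¬ G.Adj t1 t2 := no_tt h hn hx k1 k2 k3 k4 hz2 hz3 hz
  have hz' : z ∉ [x, p4, p3, p2, p1] := by
    intro hm
    apply hz
    simp only [List.mem_cons, List.not_mem_nil, or_false] at hm ⊢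
    tauto
  have h34 : ¬ G.Adj t3 t4 := fun hh =>
    no_tt h hn hx.swap k4.swap k3.swap k2.swap k1.swap hz3.symm hz2.symm hz' hh.symm
  have hzp2 : p2 ≠ z := by
    rintro rfl
    exact hz (by simp)
  have hzp3 : p3 ≠ z := by
    rintro rfl
    exact hz (by simp)
  rcases two_or_three h k2.2.2.1.symm hz2 hzp2 with e2 | ⟨s2, e2⟩
  · exact no_t2two h hn hx k1 k2 k3 k4 e2 hz3 hz
  rcases two_or_three h k3.2.2.1.symm hz3.symm hzp3 with e3 | ⟨s3, e3⟩
  · exact no_t2two h hn hx.swap k4.swap k3.swap k2.swap k1.swap e3 hz2.symm hz'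
  have hT := nodupT h hn hx k1 k2 k3 k4
  have ht23 : t2 ≠ t3 := by
    simp only [List.nodup_cons, List.mem_cons, List.not_mem_nil, or_false, not_or,
      List.nodup_nil, and_true, not_false_eq_true] at hT
    exact hT.2.1.1
  rcases two_or_three h hz2.symm hz3 ht23 with e4 | ⟨s, e4⟩
  · exact no_ztwo h hn hx k1 k2 k3 k4 e4 hz
  exact no_mid h hn hc hx k1 k2 k3 k4 h14 h12 h34 e2 e4 e3

end Pool.Agent.TwoV
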