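import Mathlib
import Pool.Agent.Work.MP_392c8e_co_t1.FactsOf
import Pool.Agent.Work.MP_392c8e_co_t1.TwoVertex
import Pool.Agent.Work.MP_392c8e_co_t1.Four
import Pool.Agent.Work.MP_392c8e_co_t1.No545
import Pool.Agent.Work.MP_392c8e_co_t1.R2
import Pool.Agent.Work.MP_392c8e_co_t1.Join

/-!
# All facts about a smallest counterexample
-/

namespace Pool.Agent.T392

open Finset Pool.Agent.Sub392 Pool.Agent.OddFlow Pool.Agent.Red Pool.T1Side Pool.Agent.T1Red

set_option linter.unusedSectionVars false

section

variable {V : Type} [Fintype V] [DecidableEq V] {G : SimpleGraph V} [DecidableRel G.Adj]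
  {R : Rot G}

/-- Two 4-cycles with a common edge are equal. -/
theorem MinCex.four_four (h : MinCex G) (g : Geo R) (a b c d e f : V) (h1 : NB G [a, b, c, d])
    (h2 : NB G [a, b, e, f]) : c = e :=
  h44_of_min h g (MinCex.h42 h g) a b c d e f h1 h2

/-- No vertex of degree two on a 5-cycle. -/
theorem MinCex.deg_five (h : MinCex G) (g : Geo R) (a b c d e : V)
    (hN : NB G [a, b, c, d, e]) : G.degree a ≠ 2 :=
  Pool.Agent.TwoV.no_two_five h (MinCex.cornerC h g (MinCex.four_four h g)) hN

theorem MinCex.h52 (h : MinCex G) (g : Geo R) (d : G.Dart) (hd : sz R d = 5) :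
    G.degree d.fst ≠ 2 :=
  g.h5_of (MinCex.deg_five h g) d hd

/-- A face of length four is not adjacent to a face of length five. -/
theorem MinCex.four_five (h : MinCex G) (g : Geo R) (d : G.Dart) (hd : sz R d = 4) :
    sz R d.symm ≠ 5 :=
  no45_of_opp h g (MinCex.h42 h g) (no_44 h g (MinCex.h42 h g)) (MinCex.h52 h g)
    (no_45 h g (MinCex.rules6 h g (MinCex.four_four h g) (MinCex.deg_five h g))
      (MinCex.h42 h g) (MinCex.h52 h g)) d hd

/-- A face of length four: all its vertices have degree three, and all its neighbours have length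
at least six. -/
theorem MinCex.h4 (h : MinCex G) (g : Geo R) (d : G.Dart) (hd : sz R d = 4) :
    G.degree d.fst ≠ 2 ∧ 6 ≤ sz R d.symm := by
  have e1 := no_44 h g (MinCex.h42 h g) d hd
  have e2 := MinCex.four_five h g d hd
  have e3 := g.four_le_sz d.symm
  exact ⟨MinCex.h42 h g d hd, by omega⟩

/-- No two adjacent faces of length five. -/
theorem MinCex.five_five (h : MinCex G) (g : Geo R) (d : G.Dart)
    (hd : R.size (R.face d) = 5) : R.size (R.face d.symm) ≠ 5 :=
  adj_of_rules h g (MinCex.h4 h g) (MinCex.h52 h g) d hd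

end

/-- **The facts about a smallest counterexample.** -/
theorem facts : Facts :=
  facts_of (fun _ _ _ _ _ h _ hP d hd => MinCex.five_five h (geo_of h hP) d hd)
    (fun _ _ _ _ _ h _ hP => join_of h hP (MinCex.h4 h (geo_of h hP))
      (MinCex.h52 h (geo_of h hP)) (fun d hd => MinCex.five_five h (geo_of h hP) d hd)
      (fun _ c hc hl => MinCex.face_five h hP c hc hl))

end Pool.Agent.T392
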