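import Mathlib
import Pool.Agent.Work.MP_392c8e_co_draw.Draw
import Pool.Agent.Work.MP_392c8e_co_t1.Master

/-!
# The theorem for graphs drawn in the plane
-/

namespace Pool.Agent.T1Red

open Pool.Agent.Red

/-- The graph can be drawn in the plane without crossings: injective curves join the (distinct)
positions of the ends of every edge, they meet the vertices only in their ends, and the curves of
two different edges meet only in common ends. -/
def Drawable {V : Type} (G : SimpleGraph V) : Prop :=
  ∃ (p : V → ℝ × ℝ) (γ : V → V → unitInterval → ℝ × ℝ),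
    Function.Injective p ∧
    (∀ u v, G.Adj u v →
      Continuous (γ u v) ∧ Function.Injective (γ u v) ∧
      γ u v 0 = p u ∧ γ u v 1 = p v ∧
      ∀ (t : unitInterval) (w : V), γ u v t = p w → w = u ∨ w = v) ∧
    (∀ u v x y, G.Adj u v → G.Adj x y → s(u, v) ≠ s(x, y) →
      ∀ (a b : unitInterval), γ u v a = γ x y b →
        (γ u v a = p u ∨ γ u v a = p v) ∧ (γ u v a = p x ∨ γ u v a = p y))

/-- Triangle-free subcubic graphs drawn in the plane have a strict colouring. -/
theorem Facts.strict_drawn (F : Facts) {V : Type} [Fintype V] {G : SimpleGraph V}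
    (h1 : Drawable G) (h2 : G.CliqueFree 3) (h3 : ∀ v, (G.neighborSet v).ncard ≤ 3) :
    HasStrict G := by
  classical
  exact F.strict (Pool.Agent.Draw.pl_of_drawing h1) h2 h3

/-- The circular chromatic number is at most `3 n / (n + 1)` for `n` vertices. -/
theorem Facts.drawn (F : Facts) {V : Type} [Fintype V] {G : SimpleGraph V}
    (h1 : Drawable G) (h2 : G.CliqueFree 3) (h3 : ∀ v, (G.neighborSet v).ncard ≤ 3) :
    ∃ c : V → ℕ, (∀ v, c v < 3 * Fintype.card V) ∧ ∀ u v, G.Adj u v →
      (Fintype.card V + 1 : ℤ) ≤ |(c u : ℤ) - c v| ∧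
        |(c u : ℤ) - c v| ≤ 3 * Fintype.card V - (Fintype.card V + 1) := by
  obtain ⟨c, hc, h⟩ := (F.strict_drawn h1 h2 h3).hasPQ
  refine ⟨c, hc, fun u v huv => ?_⟩
  obtain ⟨h4, h5⟩ := h u v huv
  push_cast at h4 h5
  exact ⟨h4, h5⟩

/-- The theorem for plane graphs given by rotations. -/
theorem Facts.of_plane (F : Facts) {V : Type} [Fintype V] [DecidableEq V] {G : SimpleGraph V}
    [DecidableRel G.Adj] (hfree : G.CliqueFree 3) (hdeg : ∀ v, G.degree v ≤ 3)
    (R : Pool.Agent.Sub392.Rot G) (hP : R.Plane) : HasStrict G := by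
  refine F.strict (pl_of_rot R hP) hfree fun v => le_trans (le_of_eq ?_) (hdeg v)
  rw [Set.ncard_eq_toFinset_card', ← SimpleGraph.card_neighborFinset_eq_degree]
  congr 1

end Pool.Agent.T1Red
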