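import Pool.Agent.Work.MP_392c8e_co_t1.Final
import Pool.Agent.Work.MP_392c8e_co_t1.AllFacts

/-!
# Triangle-free subcubic planar graphs have circular chromatic number less than three
-/

namespace Pool.Agent.Work.MP_392c8e_co_t1.BelowThreeOld

/-- Let `G` be a finite triangle-free graph with `n` vertices and all degrees at most `3` which
can be drawn in the plane without crossings (`p v` is the point of the vertex `v`, and `γ u v` is
the curve of the edge `u v`).  Then `G` has a `(3 n, n + 1)`-colouring.  So its circular chromatic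
number is at most `3 n / (n + 1)`, which is less than `3`. -/
theorem result (V : Type) [Fintype V] (G : SimpleGraph V) (hfree : G.CliqueFree 3)
    (hdeg : ∀ v, (G.neighborSet v).ncard ≤ 3)
    (hplanar : ∃ (p : V → ℝ × ℝ) (γ : V → V → unitInterval → ℝ × ℝ),
      Function.Injective p ∧
      (∀ u v, G.Adj u v →
        Continuous (γ u v) ∧ Function.Injective (γ u v) ∧
        γ u v 0 = p u ∧ γ u v 1 = p v ∧
        ∀ (t : unitInterval) (w : V), γ u v t = p w → w = u ∨ w = v) ∧
      (∀ u v x y, G.Adj u v → G.Adj x y → s(u, v) ≠ s(x, y) →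
        ∀ (a b : unitInterval), γ u v a = γ x y b →
          (γ u v a = p u ∨ γ u v a = p v) ∧ (γ u v a = p x ∨ γ u v a = p y))) :
    ∃ c : V → ℕ, (∀ v, c v < 3 * Fintype.card V) ∧ ∀ u v, G.Adj u v →
      (Fintype.card V + 1 : ℤ) ≤ |(c u : ℤ) - c v| ∧
        |(c u : ℤ) - c v| ≤ 3 * Fintype.card V - (Fintype.card V + 1) :=
  Pool.Agent.T392.facts.drawn hplanar hfree hdeg

end Pool.Agent.Work.MP_392c8e_co_t1.BelowThreeOld
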