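import Mathlib
import Pool.Agent.Work.MP_392c8e_co_t1.Four
import Pool.Agent.Work.MP_392c8e_co_t1.No545
import Pool.Agent.Work.MP_392c8e_co_t1.StageFin
import Pool.Agent.Work.MP_392c8e_co_t1.TwoVertex

/-!
# Faces of length four in a smallest counterexample

A face of length four is only adjacent to faces of length at least six.
-/

namespace Pool.Agent.T392

open Finset Pool.Agent.Sub392 Pool.T1Side Pool.Agent.T1FF Pool.Agent.T1Red
open Pool.Agent.Red (MinCex)

set_option linter.unusedSectionVars false

variable {V : Type} [Fintype V] [DecidableEq V] {G : SimpleGraph V} [DecidableRel G.Adj]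
  {R : Rot G}

/-- Two 4-cycles with a common edge are equal. -/
theorem MinCex.h44 (h : MinCex G) (g : Geo R) :
    ∀ a b c d e f, NB G [a, b, c, d] → NB G [a, b, e, f] → c = e :=
  h44_of_min h g (MinCex.h42 h g)

/-- No vertex of degree two on a 5-cycle. -/
theorem MinCex.h5 (h : MinCex G) (g : Geo R) :
    ∀ a b c d e, NB G [a, b, c, d, e] → G.degree a ≠ 2 :=
  fun _ _ _ _ _ hl => TwoV.no_two_five h (MinCex.cornerC h g (MinCex.h44 h g)) hl

/-- **A face of length four is not adjacent to a face of length five.** -/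
theorem MinCex.h45 (h : MinCex G) (g : Geo R) (d : G.Dart) (hd : sz R d = 4) :
    sz R d.symm ≠ 5 := by
  have h52 := g.h5_of (MinCex.h5 h g)
  exact no45_of_opp h g (MinCex.h42 h g) (no_44 h g (MinCex.h42 h g)) h52
    (no_45 h g (MinCex.rules6 h g (MinCex.h44 h g) (MinCex.h5 h g)) (MinCex.h42 h g) h52) d hd

end Pool.Agent.T392
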