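import Mathlib
import Pool.Agent.Work.MP_392c8e_co_odd.PlaneC
import Pool.Agent.Work.MP_392c8e_co_t1.Strict

/-!
# Windings of a strict colouring around the faces

A strict colouring of a plane graph has integral windings `w` around the faces with
`3 |w(S)| < d(S)` for all sets `S` of faces with boundary.  By parity `3 |w(S)| + 2 ≤ d(S)`; if all
`|w(S)|` are at most `M`, there is a `(3 M + 2, M + 1)`-colouring.
-/

namespace Pool.Agent.T1Red

open Finset Pool.Agent.Sub392 Pool.Agent.OddFlow Pool.Agent.Circ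

set_option linter.unusedSectionVars false

variable {V : Type} [Fintype V] [DecidableEq V] {G : SimpleGraph V} [DecidableRel G.Adj]

/-- The direction of a dart: up or down. -/
noncomputable def sgn (τ : V → ℝ) (d : G.Dart) : ℤ := by
  classical
  exact if τ d.fst < τ d.snd then 1 else -1

/-- The largest winding around a face of length `s`. -/
def mw (s : ℕ) : ℕ := s - 2 - 2 * (s / 3)

theorem le_mw {a s d : ℕ} (h : 3 * a + 2 ≤ d) (hd : d ≤ s) (h2 : (2 : ℤ) ∣ (a : ℤ) - d)
    (h3 : (2 : ℤ) ∣ (s : ℤ) - d) : a ≤ mw s := by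
  unfold mw
  omega

theorem sgn_symm {c : V → ZMod 3} {τ : V → ℝ} (h : Strict G c τ) (d : G.Dart) :
    sgn τ d.symm = -sgn τ d := by
  classical
  have h1 : τ d.fst ≠ τ d.snd := by
    rcases h _ _ d.adj with h2 | h2
    · exact h2.2.ne
    · exact h2.2.ne'
  unfold sgn
  show (if τ d.snd < τ d.fst then (1 : ℤ) else -1) = -(if τ d.fst < τ d.snd then (1 : ℤ) else -1)
  rcases lt_or_gt_of_ne h1 with h2 | h2
  · rw [if_neg h2.not_gt, if_pos h2]
  · rw [if_pos h2, if_neg h2.not_gt, neg_neg]

theorem sgn_cast {c : V → ZMod 3} {τ : V → ℝ} (h : Strict G c τ) (d : G.Dart) :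
    ((sgn τ d : ℤ) : ZMod 3) = c d.snd - c d.fst := by
  classical
  unfold sgn
  rcases h _ _ d.adj with h2 | h2
  · rw [if_pos h2.2, h2.1]
    push_cast
    ring
  · rw [if_neg h2.2.not_gt, h2.1]
    push_cast
    ring

theorem sgn_abs (τ : V → ℝ) (d : G.Dart) : sgn τ d = 1 ∨ sgn τ d = -1 := by
  classical
  unfold sgn
  split_ifs
  · exact Or.inl rfl
  · exact Or.inr rfl

/-- Cancellation of the edges with both sides in `S`. -/
theorem sum_faces_cancel {A : Type*} [AddCommGroup A] (R : Rot G) (x : G.Dart → A)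
    (hx : ∀ d, x d.symm = -x d) (S : Finset R.Face) :
    ∑ f ∈ S, ∑ d : G.Dart with R.face d = f, x d =
      ∑ d : G.Dart with R.face d ∈ S ∧ R.face d.symm ∉ S, x d := by
  classical
  have e1 : ∑ f ∈ S, ∑ d : G.Dart with R.face d = f, x d =
      ∑ d : G.Dart with R.face d ∈ S, x d := by
    rw [← Finset.sum_fiberwise_of_maps_to (s := univ.filter fun d : G.Dart => R.face d ∈ S)
      (t := S) (g := R.face) (fun d hd => (mem_filter.1 hd).2)]
    refine sum_congr rfl fun f hf => sum_congr ?_ fun _ _ => rfl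
    ext d
    simp only [mem_filter, mem_univ, true_and]
    constructor
    · intro h
      exact ⟨h ▸ hf, h⟩
    · intro h
      exact h.2
  rw [e1, ← Finset.sum_filter_add_sum_filter_not (univ.filter fun d : G.Dart => R.face d ∈ S)
    (fun d : G.Dart => R.face d.symm ∈ S)]
  have e2 : ∑ d ∈ (univ.filter fun d : G.Dart => R.face d ∈ S).filter
      (fun d : G.Dart => R.face d.symm ∈ S), x d = 0 := by
    refine Finset.sum_involution (fun d _ => d.symm) ?_ ?_ ?_ ?_
    · intro d _
      rw [hx]
      exact add_neg_cancel _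
    · intro d _ _ h
      exact d.symm_ne h
    · intro d hd
      simp only [mem_filter, mem_univ, true_and, SimpleGraph.Dart.symm_symm] at hd ⊢
      exact ⟨hd.2, hd.1⟩
    · intro d _
      exact SimpleGraph.Dart.symm_symm d
  rw [e2, zero_add, filter_filter]

/-- **Windings.** -/
theorem exists_windings (R : Rot G) (h : HasStrict G) :
    ∃ w : R.Face → ℤ, (∀ f, (2 : ℤ) ∣ w f - (R.cut {f} : ℤ)) ∧ ∑ f, w f = 0 ∧
      (∀ S : Finset R.Face, R.cut S = 0 → ∑ f ∈ S, w f = 0) ∧
      (∀ S : Finset R.Face, 0 < R.cut S → 3 * |∑ f ∈ S, w f| < (R.cut S : ℤ)) := by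
  classical
  have : Fact (Nat.Prime 3) := ⟨Nat.prime_three⟩
  obtain ⟨c, τ, hs⟩ := h
  have hdvd : ∀ f : R.Face, (3 : ℤ) ∣ ∑ d : G.Dart with R.face d = f, sgn τ d := by
    intro f
    have h1 := R.sum_face_coboundary (k := ZMod 3) c f
    have h2 : ((∑ d : G.Dart with R.face d = f, sgn τ d : ℤ) : ZMod 3) = 0 := by
      rw [Int.cast_sum, ← h1]
      exact sum_congr rfl fun d _ => sgn_cast hs d
    exact (ZMod.intCast_zmod_eq_zero_iff_dvd _ 3).1 h2
  choose w hw using hdvd
  have hsum : ∀ S : Finset R.Face, 3 * ∑ f ∈ S, w f =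
      ∑ d : G.Dart with R.face d ∈ S ∧ R.face d.symm ∉ S, sgn τ d := by
    intro S
    rw [← sum_faces_cancel R (sgn τ) (sgn_symm hs) S, mul_sum]
    exact sum_congr rfl fun f _ => (hw f).symm
  have htau : ∀ S : Finset R.Face,
      ∑ d : G.Dart with R.face d ∈ S ∧ R.face d.symm ∉ S, (τ d.snd - τ d.fst) = 0 := by
    intro S
    rw [← sum_faces_cancel R (fun d : G.Dart => τ d.snd - τ d.fst) (fun d => by
      show τ d.fst - τ d.snd = -(τ d.snd - τ d.fst)
      ring) S]
    exact sum_eq_zero fun f _ => R.sum_face_coboundary τ f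
  have hcard : ∀ S : Finset R.Face,
      (univ.filter fun d : G.Dart => R.face d ∈ S ∧ R.face d.symm ∉ S).card = R.cut S := by
    intro S
    unfold Rot.cut
    congr
  refine ⟨w, fun f => ?_, ?_, fun S hS => ?_, fun S hS => ?_⟩
  · have h1 := hsum {f}
    rw [sum_singleton] at h1
    have h2 : ∀ A : Finset G.Dart, (2 : ℤ) ∣ ∑ d ∈ A, sgn τ d - (A.card : ℤ) := by
      intro A
      have : ∑ d ∈ A, sgn τ d - (A.card : ℤ) = ∑ d ∈ A, (sgn τ d - 1) := by
        rw [sum_sub_distrib]
        simp
      rw [this]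
      refine Finset.dvd_sum fun d _ => ?_
      rcases sgn_abs τ d with h3 | h3 <;> rw [h3] <;> norm_num
    have h3 := h2 (univ.filter fun d : G.Dart => R.face d ∈ ({f} : Finset R.Face) ∧
      R.face d.symm ∉ ({f} : Finset R.Face))
    rw [← h1, hcard] at h3
    omega
  · have h1 := hsum univ
    have h2 : (univ.filter fun d : G.Dart => R.face d ∈ (univ : Finset R.Face) ∧
        R.face d.symm ∉ (univ : Finset R.Face)) = ∅ := by
      ext d
      simp
    rw [h2, sum_empty] at h1
    omega
  · have h1 := hsum S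
    rw [← hcard, card_eq_zero] at hS
    rw [hS, sum_empty] at h1
    omega
  · have h1 := hsum S
    have h2 : ∀ A : Finset G.Dart, A.Nonempty → ∑ d ∈ A, (τ d.snd - τ d.fst) = 0 →
        |∑ d ∈ A, sgn τ d| < (A.card : ℤ) := by
      intro A hA hA0
      have hle : |∑ d ∈ A, sgn τ d| ≤ (A.card : ℤ) := by
        refine (abs_sum_le_sum_abs _ _).trans ?_
        refine (sum_le_sum (g := fun _ => (1 : ℤ)) fun d _ => ?_).trans (by simp)
        rcases sgn_abs τ d with h3 | h3 <;> rw [h3] <;> norm_num
      refine lt_of_le_of_ne hle fun heq => ?_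
      rcases abs_eq (Nat.cast_nonneg _) |>.1 heq with h3 | h3
      · have h4 : ∑ d ∈ A, (1 - sgn τ d) = 0 := by
          rw [sum_sub_distrib, h3]
          simp
        have h5 := (sum_eq_zero_iff_of_nonneg (fun d _ => by
          rcases sgn_abs τ d with h6 | h6 <;> rw [h6] <;> norm_num)).1 h4
        have h7 : 0 < ∑ d ∈ A, (τ d.snd - τ d.fst) := by
          refine sum_pos (fun d hd => ?_) hA
          have h8 := h5 d hd
          unfold sgn at h8
          split_ifs at h8 with h9
          · linarith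
          · norm_num at h8
        exact h7.ne' hA0
      · have h4 : ∑ d ∈ A, (1 + sgn τ d) = 0 := by
          rw [sum_add_distrib, h3]
          simp
        have h5 := (sum_eq_zero_iff_of_nonneg (fun d _ => by
          rcases sgn_abs τ d with h6 | h6 <;> rw [h6] <;> norm_num)).1 h4
        have h7 : ∑ d ∈ A, (τ d.snd - τ d.fst) < 0 := by
          refine sum_neg (fun d hd => ?_) hA
          have h8 := h5 d hd
          unfold sgn at h8
          split_ifs at h8 with h9
          · norm_num at h8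
          · have h10 : τ d.fst ≠ τ d.snd := by
              rcases hs _ _ d.adj with h11 | h11
              · exact h11.2.ne
              · exact h11.2.ne'
            rcases lt_or_gt_of_ne h10 with h12 | h12
            · exact absurd h12 h9
            · linarith
        exact h7.ne hA0
    have h3 := h2 _ (card_pos.1 (by rw [hcard]; exact hS)) (htau S)
    rw [← h1, hcard, abs_mul] at h3
    exact h3

theorem cut_le_size (R : Rot G) (f : R.Face) :
    R.cut {f} ≤ R.size f ∧ (2 : ℤ) ∣ (R.size f : ℤ) - (R.cut {f} : ℤ) := by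
  classical
  constructor
  · unfold Rot.cut Rot.size
    refine card_le_card fun d hd => ?_
    simp only [mem_filter, mem_univ, true_and, mem_singleton] at hd ⊢
    exact hd.1
  · have h1 := R.cut_parity {f}
    by_cases h2 : f ∈ R.odd
    · have h3 : Odd (R.size f) := by
        unfold Rot.odd at h2
        exact (mem_filter.1 h2).2
      rw [singleton_inter_of_mem h2, card_singleton] at h1
      rw [Nat.even_iff] at h1
      rw [Nat.odd_iff] at h3
      omega
    · have h3 : ¬ Odd (R.size f) := by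
        intro h4
        unfold Rot.odd at h2
        exact h2 (mem_filter.2 ⟨mem_univ _, h4⟩)
      rw [singleton_inter_of_notMem h2, card_empty] at h1
      rw [Nat.even_iff] at h1
      rw [Nat.odd_iff] at h3
      omega

/-- **The bound for the windings.** -/
theorem two_windings_le (R : Rot G) (w : R.Face → ℤ)
    (h1 : ∀ f, (2 : ℤ) ∣ w f - (R.cut {f} : ℤ)) (h2 : ∑ f, w f = 0)
    (h3 : ∀ S : Finset R.Face, R.cut S = 0 → ∑ f ∈ S, w f = 0)
    (h4 : ∀ S : Finset R.Face, 0 < R.cut S → 3 * |∑ f ∈ S, w f| < (R.cut S : ℤ))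
    (S : Finset R.Face) : 2 * |∑ f ∈ S, w f| ≤ ((∑ f, mw (R.size f) : ℕ) : ℤ) := by
  classical
  have key : ∀ f, |w f| ≤ (mw (R.size f) : ℤ) := by
    intro f
    obtain ⟨h5, h6⟩ := cut_le_size R f
    rcases Nat.eq_zero_or_pos (R.cut {f}) with h7 | h7
    · have h8 := h3 {f} h7
      rw [sum_singleton] at h8
      rw [h8, abs_zero]
      exact Nat.cast_nonneg _
    · have h8 := h4 {f} h7
      rw [sum_singleton] at h8
      have h9 := h1 f
      have h10 : ((w f).natAbs : ℤ) = |w f| := Int.natCast_natAbs _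
      rw [← h10]
      have : (w f).natAbs ≤ mw (R.size f) := by
        refine le_mw (d := R.cut {f}) ?_ h5 ?_ h6 <;> omega
      exact_mod_cast this
  have h5 : ∀ T : Finset R.Face, |∑ f ∈ T, w f| ≤ ∑ f ∈ T, (mw (R.size f) : ℤ) := fun T =>
    (abs_sum_le_sum_abs _ _).trans (sum_le_sum fun f _ => key f)
  have h6 := h5 S
  have h7 := h5 Sᶜ
  have h8 : ∑ v ∈ Sᶜ, w v = -∑ v ∈ S, w v := by
    have := Finset.sum_add_sum_compl S w
    omega
  rw [h8, abs_neg] at h7
  have h9 := Finset.sum_add_sum_compl S fun f => (mw (R.size f) : ℤ)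
  push_cast
  linarith

/-- **From a strict colouring to a `(3 M + 2, M + 1)`-colouring.** -/
theorem colour_of_hasStrict (R : Rot G) (hP : R.Plane) (h : HasStrict G) (M : ℕ)
    (hM : ∑ f, mw (R.size f) ≤ 2 * M + 1) : HasPQ G (3 * M + 2) (M + 1) := by
  classical
  obtain ⟨w, h1, h2, h3, h4⟩ := exists_windings R h
  have h5 := two_windings_le R w h1 h2 h3 h4
  have hpar' : ∀ f, (2 : ℤ) ∣ w f - ((cut (fun e : Up G => R.face e.1)
      (fun e : Up G => R.face e.1.symm) {f}).card : ℤ) := by
    intro f
    rw [card_cut_eq]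
    exact h1 f
  obtain ⟨c, hc1, hc2⟩ := colour_of_good_pq R hP (p := 3 * M + 2) (q := M + 1) (by omega)
    (by omega) (good_of_conn_bound _ _ (connS_univ R hP) w hpar' h2 (by omega) (by
      intro Z _ _ _ _
      rw [card_cut_eq]
      have e1 : ((3 * M + 2 - 2 * (M + 1) : ℕ) : ℤ) = M := by omega
      rw [e1]
      rcases Nat.eq_zero_or_pos (R.cut Z) with h6 | h6
      · rw [h3 Z h6, h6]
        simp
      · have h7 := h4 Z h6
        have h8 := h5 Z
        have h9 := chg_parity (fun e : Up G => R.face e.1) (fun e : Up G => R.face e.1.symm)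
          hpar' Z
        rw [card_cut_eq] at h9
        have h10 : 3 * |∑ f ∈ Z, w f| + 2 ≤ (R.cut Z : ℤ) := by
          rcases abs_cases (∑ f ∈ Z, w f) with ⟨e1, _⟩ | ⟨e1, _⟩ <;> rw [e1] at h7 ⊢ <;> omega
        have h11 : |∑ f ∈ Z, w f| ≤ M := by
          have : ((∑ f, mw (R.size f) : ℕ) : ℤ) ≤ ((2 * M + 1 : ℕ) : ℤ) := by exact_mod_cast hM
          omega
        push_cast
        have h12 : (0 : ℤ) ≤ M := Nat.cast_nonneg _
        nlinarith [mul_le_mul_of_nonneg_left h10 h12]))
  refine ⟨c, hc1, fun u v huv => ?_⟩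
  have h6 := hc2 u v huv
  push_cast at h6 ⊢
  exact h6

theorem sum_size (R : Rot G) : ∑ f, R.size f = 2 * #G.edgeFinset := by
  classical
  rw [← SimpleGraph.dart_card_eq_twice_card_edges, ← card_univ,
    Finset.card_eq_sum_card_fiberwise (f := R.face) (t := univ) (fun _ _ => mem_univ _)]
  refine sum_congr rfl fun f _ => ?_
  unfold Rot.size
  congr

/-- Euler's formula for graphs of maximum degree three: six faces less the degrees. -/
theorem euler_six (R : Rot G) (hP : R.Plane) (hdeg : ∀ v, G.degree v ≤ 3) :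
    ∑ f, (6 - (R.size f : ℤ)) ≤ 12 := by
  classical
  have h1 := sum_size R
  have h2 := hP.2
  have h3 : 2 * #G.edgeFinset ≤ 3 * Fintype.card V := by
    rw [← SimpleGraph.sum_degrees_eq_twice_card_edges]
    refine (sum_le_sum fun v _ => hdeg v).trans ?_
    simp [mul_comm]
  rw [sum_sub_distrib, ← Nat.cast_sum, h1]
  simp only [sum_const, card_univ, nsmul_eq_mul]
  push_cast
  omega

/-- **Faces of length at most six.**  If all faces have length at most six, a strict colouring
gives a `(20, 7)`-colouring. -/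
theorem colour_of_faces_six (R : Rot G) (hP : R.Plane) (hdeg : ∀ v, G.degree v ≤ 3)
    (h : HasStrict G) (hf : ∀ f, R.size f ≤ 6) : HasPQ G 20 7 := by
  classical
  refine colour_of_hasStrict R hP h 6 ?_
  have h1 := euler_six R hP hdeg
  have h2 : ((∑ f, mw (R.size f) : ℕ) : ℤ) ≤ ∑ f, (6 - (R.size f : ℤ)) := by
    rw [Nat.cast_sum]
    refine sum_le_sum fun f _ => ?_
    have h3 := hf f
    unfold mw
    omega
  omega

/-- **Few odd faces, all short.**  At most thirteen odd faces, all of length at most nine, and all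
other faces of length at most six. -/
theorem colour_of_few_odd (R : Rot G) (hP : R.Plane) (h : HasStrict G)
    (hN : #R.odd ≤ 13) (hodd : ∀ f ∈ R.odd, R.size f ≤ 9) (hev : ∀ f, f ∉ R.odd → R.size f ≤ 6) :
    HasPQ G 20 7 := by
  classical
  refine colour_of_hasStrict R hP h 6 ?_
  have h1 : ∑ f, mw (R.size f) ≤ ∑ f, if f ∈ R.odd then 1 else 0 := by
    refine sum_le_sum fun f _ => ?_
    by_cases h2 : f ∈ R.odd
    · have h3 := hodd f h2
      have h4 : Odd (R.size f) := by
        unfold Rot.odd at h2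
        exact (mem_filter.1 h2).2
      rw [if_pos h2]
      rw [Nat.odd_iff] at h4
      unfold mw
      omega
    · have h3 := hev f h2
      have h4 : ¬ Odd (R.size f) := by
        intro h4
        unfold Rot.odd at h2
        exact h2 (mem_filter.2 ⟨mem_univ _, h4⟩)
      rw [if_neg h2]
      rw [Nat.odd_iff] at h4
      unfold mw
      omega
  refine h1.trans ?_
  rw [sum_ite_mem, univ_inter, sum_const, smul_eq_mul, mul_one]
  omega

end Pool.Agent.T1Red
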