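import Mathlib
import Pool.Agent.Work.MP_392c8e_co_t1.Windings

/-!
# Circular colourings of plane graphs from a strict colouring and a condition on long cycles
-/

namespace Pool.Agent.T1Red

open Finset Pool.Agent.Sub392 Pool.Agent.OddFlow Pool.Agent.Circ

set_option linter.unusedSectionVars false

variable {V : Type} [Fintype V] [DecidableEq V] {G : SimpleGraph V} [DecidableRel G.Adj]

/-- The condition on the cycles: if a cycle `c` of length `l` has the sides `S` and `Sᶜ`, if `j` has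
the parity of `l` and `3 j + 2 ≤ l`, and if `j` is at most the sum of `mw` of the boundaries of the
parts for every partition of each of the two sides, then `p j ≤ (p - 2 q) l`. -/
def CycleCond (R : Rot G) (p q : ℕ) : Prop :=
  ∀ (v : V) (c : G.Walk v v) (S : Finset R.Face) (j : ℕ), c.IsCycle →
    (∀ d : G.Dart, d.edge ∈ c.edges ↔ ¬ (R.face d ∈ S ↔ R.face d.symm ∈ S)) →
    Even (j + c.length) → 3 * j + 2 ≤ c.length →
    (∀ P : Finpartition S, j ≤ ∑ X ∈ P.parts, mw (R.cut X)) →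
    (∀ P : Finpartition Sᶜ, j ≤ ∑ X ∈ P.parts, mw (R.cut X)) →
    p * j ≤ (p - 2 * q) * c.length

theorem wind_parity (R : Rot G) {w : R.Face → ℤ} (h1 : ∀ f, (2 : ℤ) ∣ w f - (R.cut {f} : ℤ))
    (S : Finset R.Face) : (2 : ℤ) ∣ ∑ f ∈ S, w f - (R.cut S : ℤ) := by
  classical
  have h9 := chg_parity (fun e : Up G => R.face e.1) (fun e : Up G => R.face e.1.symm)
    (w := w) (fun f => by rw [card_cut_eq]; exact h1 f) S
  rw [card_cut_eq] at h9
  exact h9

/-- The winding of a set of faces is at most `mw` of its boundary. -/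
theorem wind_le_mw (R : Rot G) {w : R.Face → ℤ}
    (h1 : ∀ f, (2 : ℤ) ∣ w f - (R.cut {f} : ℤ))
    (h3 : ∀ S : Finset R.Face, R.cut S = 0 → ∑ f ∈ S, w f = 0)
    (h4 : ∀ S : Finset R.Face, 0 < R.cut S → 3 * |∑ f ∈ S, w f| < (R.cut S : ℤ))
    (S : Finset R.Face) : |∑ f ∈ S, w f| ≤ (mw (R.cut S) : ℤ) := by
  rcases Nat.eq_zero_or_pos (R.cut S) with h6 | h6
  · rw [h3 S h6, abs_zero]
    exact Nat.cast_nonneg _
  · have h7 := h4 S h6
    have h8 := wind_parity R h1 S
    have h10 : ((∑ f ∈ S, w f).natAbs : ℤ) = |∑ f ∈ S, w f| := Int.natCast_natAbs _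
    rw [← h10]
    have : (∑ f ∈ S, w f).natAbs ≤ mw (R.cut S) := by
      refine le_mw (d := R.cut S) ?_ le_rfl ?_ ⟨0, by ring⟩ <;> omega
    exact_mod_cast this

theorem wind_le_parts (R : Rot G) {w : R.Face → ℤ}
    (h1 : ∀ f, (2 : ℤ) ∣ w f - (R.cut {f} : ℤ))
    (h3 : ∀ S : Finset R.Face, R.cut S = 0 → ∑ f ∈ S, w f = 0)
    (h4 : ∀ S : Finset R.Face, 0 < R.cut S → 3 * |∑ f ∈ S, w f| < (R.cut S : ℤ))
    (S : Finset R.Face) (P : Finpartition S) :
    (∑ f ∈ S, w f).natAbs ≤ ∑ X ∈ P.parts, mw (R.cut X) := by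
  classical
  have h5 : ∑ f ∈ S, w f = ∑ X ∈ P.parts, ∑ f ∈ X, w f := by
    conv_lhs => rw [← P.biUnion_parts]
    exact Finset.sum_biUnion fun X hX Y hY hXY => P.disjoint hX hY hXY
  have h6 : |∑ f ∈ S, w f| ≤ ((∑ X ∈ P.parts, mw (R.cut X) : ℕ) : ℤ) := by
    rw [h5, Nat.cast_sum]
    exact (abs_sum_le_sum_abs _ _).trans (sum_le_sum fun X _ => wind_le_mw R h1 h3 h4 X)
  have h10 : ((∑ f ∈ S, w f).natAbs : ℤ) = |∑ f ∈ S, w f| := Int.natCast_natAbs _
  rw [← h10] at h6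
  exact_mod_cast h6

/-- **The general criterion.** -/
theorem colour_of_cycles (R : Rot G) (hP : R.Plane) (h : HasStrict G) {p q : ℕ} (hq : 1 ≤ q)
    (h2q : 2 * q ≤ p) (hc : CycleCond R p q) : HasPQ G p q := by
  classical
  obtain ⟨w, h1, h2, h3, h4⟩ := exists_windings R h
  refine plane_of_charges R hP hq h2q w h1 h2 fun v c S hcyc hside => ?_
  have hlen : c.length = R.cut S := length_of_side R hcyc hside
  have h5 := wind_parity R h1 S
  have h6 := wind_le_parts R h1 h3 h4 S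
  have h7 := wind_le_parts R h1 h3 h4 Sᶜ
  have h8 : ∑ v ∈ Sᶜ, w v = -∑ v ∈ S, w v := by
    have := Finset.sum_add_sum_compl S w
    omega
  rw [h8, Int.natAbs_neg] at h7
  have hpos : 0 < R.cut S := by
    rw [← hlen]
    have := hcyc.three_le_length
    omega
  have h9 := h4 S hpos
  have h10 : ((∑ f ∈ S, w f).natAbs : ℤ) = |∑ f ∈ S, w f| := Int.natCast_natAbs _
  have h11 := hc v c S (∑ f ∈ S, w f).natAbs hcyc hside (by
    rw [Nat.even_iff]
    omega) (by omega) h6 h7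
  rw [← h10]
  exact_mod_cast h11

/-- The ladder. -/
theorem cycleCond_of_sum (R : Rot G) (M : ℕ) (hM : ∑ f, mw (R.size f) ≤ 2 * M + 1) :
    CycleCond R (3 * M + 2) (M + 1) := by
  classical
  intro v c S j _ _ _ h1 h2 h3
  have hb : ∀ T : Finset R.Face, (∀ P : Finpartition T, j ≤ ∑ X ∈ P.parts, mw (R.cut X)) →
      j ≤ ∑ f ∈ T, mw (R.size f) := by
    intro T hT
    refine (hT ⊥).trans ?_
    rw [Finpartition.parts_bot, sum_map]
    refine sum_le_sum fun f _ => ?_
    show mw (R.cut {f}) ≤ mw (R.size f)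
    obtain ⟨h5, h6⟩ := cut_le_size R f
    unfold mw
    omega
  have h4 := hb S h2
  have h5 := hb Sᶜ h3
  have h6 := Finset.sum_add_sum_compl S fun f => mw (R.size f)
  have h7 : j ≤ M := by omega
  have e1 : 3 * M + 2 - 2 * (M + 1) = M := by omega
  rw [e1]
  nlinarith [Nat.mul_le_mul_left M h1]

end Pool.Agent.T1Red
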