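import Mathlib
import Pool.Agent.Work.MP_392c8e_co_t1.Maps2
import Pool.Agent.Work.MP_392c8e_co_t1.Inst.D5

/-!
# The copy of D5 in terms of darts
-/

namespace Pool.Agent.T1FF

open Pool.Agent.Sub392 Pool.T1Side Pool.Agent.T1Red Pool.Agent.Red

variable {V : Type} [Fintype V] [DecidableEq V] {G : SimpleGraph V} [DecidableRel G.Adj]
variable {R : Rot G} {d : G.Dart}

/-- Two faces of length five joined by the edge from `d.fst` to its third neighbour. -/
theorem full_D5 (h : Good R d 5) (h' : Good R (opp R d) 5) : Full G D5 (fd5 R d) :=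
  copy_of_tab (tabd5 h h') (by decide)

end Pool.Agent.T1FF
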