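import Mathlib
import Pool.Agent.Work.MP_392c8e_co_t1.Master
import Pool.Agent.Work.MP_392c8e_co_t1.Ladder
import Pool.Agent.Work.MP_392c8e_co_red.PlG

/-!
# The theorem for graphs on the sphere given by rotations
-/

namespace Pool.Agent.T1Red

open Finset Pool.Agent.Sub392 Pool.Agent.OddFlow Pool.Agent.Red

variable {V : Type} [Fintype V] [DecidableEq V] {G : SimpleGraph V} [DecidableRel G.Adj]

/-- Triangle-free subcubic plane graphs have a strict colouring. -/
theorem Facts.hasStrict_of_plane (F : Facts) (hfree : G.CliqueFree 3)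
    (hdeg : ∀ v, G.degree v ≤ 3) (R : Rot G) (hP : R.Plane) : HasStrict G := by
  refine F.strict (pl_of_rot R hP) hfree fun v => ?_
  refine le_trans (le_of_eq ?_) (hdeg v)
  rw [Set.ncard_eq_toFinset_card', ← SimpleGraph.card_neighborFinset_eq_degree]
  congr 1

end Pool.Agent.T1Red
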